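import Pool.Agent.Lib.MP_d439b2_co.H3.Spec

/-!
# MP_d439b2_co, H3/Fin (helper18): the theorem for the pair `(C_4, K3:0,01,12)`
-/

set_option autoImplicit false

namespace Pool.Agent.MPd439b2.H3

open Pool.Agent.MPd439b2 Pool.Agent.MPd439b2.LK

theorem pfFin : LK.S_A12 → S_Top → S_LayCW → S_Fin := by
  intro h1 h2 h3
  obtain ⟨k, hk⟩ := h1 6 (((4 * 13 + 8) * 13 + 1) * 13)
  have key : ∀ (V : Type) [Finite V] (G : SimpleGraph V), Cls3 G → Lay G k Set.univ := by
    intro V _ G hG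
    refine hk V G hG.1 fun S hS hSn => ?_
    by_contra hc
    push Not at hc
    have h4 : Uns G S 6 13 := by
      intro X hX
      have h5 := hc X hX
      by_cases h6 : (S ∩ X).ncard < 13
      · exact Or.inl h6
      · exact Or.inr (by have := h5 (by omega); omega)
    have h5 := h2 V G S 13 (by norm_num) hG hS h4
    omega
  refine ⟨⟨k, key⟩, 3 * (k + 1), fun V _ _ G hG₁ hG₂ => ?_⟩
  exact h3 V G k (key V G ⟨fun h => hG₁ (ims_univ_iff.mp h), fun h => hG₂ (ims_univ_iff.mp h)⟩)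

end Pool.Agent.MPd439b2.H3
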