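import Pool.Agent.Lib.MP_d439b2_co.H3.Spec

/-!
# MP_d439b2_co, H3/Gam: graphs without homogeneous sets
-/

set_option autoImplicit false

namespace Pool.Agent.MPd439b2.H3

open Pool.Agent.MPd439b2 Pool.Agent.MPd439b2.LK

theorem pfGam : S_Pr → S_Pc → S_In → S_Tp → S_NU → S_Uni → S_Q9 → S_Gam := by
  intro hPr hPc hIn hTp hNU hUni hQ9 V _ G T h hh hcls hprm hT huns
  by_contra hcon
  push Not at hcon
  have hV : 3 ≤ Nat.card V := by
    have h1 : T.ncard ≤ Nat.card V := by
      rw [← Set.ncard_univ]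
      exact Set.ncard_le_ncard (Set.subset_univ T)
    have h2 : 3 ≤ (4 * h + 8) * h := by nlinarith
    omega
  have hconn : Conn G Set.univ := (hPr V G).2.2 hprm hV
  have huns1 : Uns G T 1 h := fun X hX => huns X (hX.trans (by norm_num))
  obtain ⟨C, Φ, φ, hRet, hfib, hspo⟩ := hPc V G T h (by omega) huns1
  obtain ⟨T', hT', huns', hcard⟩ := hTp V G T C Φ φ 5 h hT huns hRet hfib
  have h3 : 4 * h + 8 ≤ T'.ncard := by
    have h4 : (4 * h + 8) * h ≤ T'.ncard * h := hcon.trans hcard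
    exact Nat.le_of_mul_le_mul_right h4 (by omega)
  have hCcard : 3 ≤ C.ncard := by
    have h1 : T'.ncard ≤ Nat.card C := by
      rw [← Set.ncard_univ]
      exact Set.ncard_le_ncard (Set.subset_univ T')
    rw [Nat.card_coe_set_eq] at h1
    omega
  obtain ⟨hIn1, -, hIn3, -⟩ := hIn V G C
  by_cases hnou : NoU (G.induce C)
  · have h5 := hNU C (G.induce C) T' h (hIn1 hcls) (hIn3 hspo) hnou hT' huns' (by omega)
    omega
  · unfold NoU at hnou
    push Not at hnou
    obtain ⟨u, hu⟩ := hnou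
    obtain ⟨c, hcu, hR⟩ := hUni V G C Φ φ u.1 hcls hprm hconn hRet hspo u.2
      (fun c hc hne => hu ⟨c, hc⟩ (fun h6 => hne (congrArg Subtype.val h6))) hCcard
    have h6 := hQ9 C (G.induce C) T' h hT' huns' (by omega) h3 _ _ hR
    have h7 : (T' \ {v | v ≠ c ∧ v.1 ≠ u.1}) ⊆ {c, u} := by
      rintro v ⟨-, hv⟩
      by_cases hvc : v = c
      · exact Or.inl hvc
      · right
        by_contra hvu
        exact hv ⟨hvc, fun h8 => hvu (Subtype.ext h8)⟩
    have h8 := Set.ncard_le_ncard h7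
    have h9 : ({c, u} : Set C).ncard ≤ 2 := by
      have h10 := Set.ncard_insert_le c ({u} : Set C)
      rw [Set.ncard_singleton] at h10
      exact h10
    omega

end Pool.Agent.MPd439b2.H3
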