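import Pool.Agent.Lib.MP_d439b2_co.H3.Spec

/-!
# MP_d439b2_co, H3, I1: Case I, first facts
-/

set_option autoImplicit false

namespace Pool.Agent.MPd439b2.H3

open Pool.Agent.MPd439b2 Pool.Agent.MPd439b2.LK

theorem pfI1 : S_I1 := by
  intro V _ G x hx
  have h3 : ∀ v ∈ Ox G x, ∃ a, MxI G x a ∧ Ms G (Nx G x) v ⊆ Ms G (Nx G x) a := by
    intro v hv
    obtain ⟨a, ha, hmax⟩ := Set.Finite.exists_maximalFor (fun w => Ms G (Nx G x) w)
      {w | w ∈ Ox G x ∧ Ms G (Nx G x) v ⊆ Ms G (Nx G x) w} (Set.toFinite _) ⟨v, hv, Set.Subset.rfl⟩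
    exact ⟨a, ⟨ha.1, fun w hw h => hmax ⟨hw, ha.2.trans h⟩ h⟩, ha.2⟩
  refine ⟨?_, ?_, h3, ?_⟩
  · intro v hv
    by_contra hc
    push Not at hc
    have hsub : Nx G v ⊆ Nx G x := by
      intro w hw
      by_contra hw'
      have hwx : w ≠ x := by
        rintro rfl
        exact hv.2 (G.adj_symm hw)
      exact hc w ⟨hwx, hw'⟩ hw
    have hsm : Smp G v := fun a ha b hb hab => hx.smp a (hsub ha) b (hsub hb) hab
    have heq : Nx G v = Nx G x := Set.eq_of_subset_of_ncard_le hsub (hx.mini v hsm) (Set.toFinite _)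
    obtain ⟨s, hs, hvs⟩ := hx.o0 v hv
    have hne : ({x, v} : Set V) ≠ Set.univ := by
      intro h
      have : s ∈ ({x, v} : Set V) := by rw [h]; exact Set.mem_univ s
      rcases this with h1 | h1
      · rw [h1] at hs
        exact G.irrefl hs
      · rw [Set.mem_singleton_iff] at h1
        rw [h1] at hvs
        exact G.irrefl hvs
    have hhom : Hmg G Set.univ {x, v} := by
      intro u _ hu
      by_cases hux : G.Adj x u
      · left
        have huv : G.Adj v u := by
          have : u ∈ Nx G v := by rw [heq]; exact hux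
          exact this
        rintro m (rfl | hm)
        · exact G.adj_symm hux
        · rw [Set.mem_singleton_iff] at hm
          rw [hm]
          exact G.adj_symm huv
      · right
        have huv : ¬ G.Adj v u := by
          intro h
          exact hux (show u ∈ Nx G x by rw [← heq]; exact h)
        rintro m (rfl | hm)
        · exact fun h => hux (G.adj_symm h)
        · rw [Set.mem_singleton_iff] at hm
          rw [hm]
          exact fun h => huv (G.adj_symm h)
    have := hx.prm _ hne hhom (Set.mem_insert x {v}) (Set.mem_insert_of_mem x rfl)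
    exact hv.1 this.symm
  · obtain ⟨w, hw, hxw⟩ := hx.nou x
    exact ⟨w, hw, hxw⟩
  · intro a ha
    by_contra hc
    push Not at hc
    obtain ⟨s, hs, has⟩ := hx.o0 a ha.1
    obtain ⟨w, hws, hsw⟩ := hx.nou s
    have hwx : w ≠ x := by
      rintro rfl
      exact hsw (G.adj_symm hs)
    have hwN : ¬ G.Adj x w := fun h => hsw (hx.smp s hs w h (Ne.symm hws))
    obtain ⟨c, hc1, hc2⟩ := h3 w ⟨hwx, hwN⟩
    rw [hc c hc1] at hc2
    have h1 : s ∈ Ms G (Nx G x) w := ⟨hs, fun h => hsw (G.adj_symm h)⟩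
    exact (hc2 h1).2 has

end Pool.Agent.MPd439b2.H3
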