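import Pool.Agent.Lib.MP_d439b2_co.H3.Spec

/-!
# MP_d439b2_co, H3, I2: Case I, drops
-/

set_option autoImplicit false

namespace Pool.Agent.MPd439b2.H3

open Pool.Agent.MPd439b2 Pool.Agent.MPd439b2.LK

theorem pfI2 : S_R0 → H1M.S_B1 → S_RE → S_RP → S_M1 → S_I2 := by
  intro hR0 hB1 hRE hRP hM1 V _ G x a b c hcl hsm ha hb hc hab hba hnab hnac hnca
  have hxS : x ∉ Nx G x := fun h => G.irrefl h
  have hxs : ∀ s ∈ Nx G x, G.Adj x s := fun s hs => hs
  have haS : a ∉ Nx G x := ha.2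
  have hbS : b ∉ Nx G x := hb.2
  have hcS : c ∉ Nx G x := hc.2
  obtain ⟨r, hr1, hr2⟩ := Set.not_subset.1 hnac
  obtain ⟨p, hp1, hp2⟩ := Set.not_subset.1 hnca
  have hcr : G.Adj c r := by
    by_contra h
    exact hr2 ⟨hr1.1, h⟩
  have hap : G.Adj a p := by
    by_contra h
    exact hp2 ⟨hp1.1, h⟩
  have hac : ¬ G.Adj a c := hB1 V G (Nx G x) p r a c hcl.1 hsm hp1.1 hr1.1 haS hcS hap hr1.2 hcr hp1.2
  have hcb : G.Adj c b := by
    by_contra h
    rcases hRE V G (Nx G x) x a b c hcl hsm hxS hxs haS hbS hcS ha.2 hb.2 hc.2 hab hba hnab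
      (fun h' => hac (G.adj_symm h')) h with h' | h'
    · exact hnca h'
    · exact hnac h'
  have hbc : Ms G (Nx G x) b ⊆ Ms G (Nx G x) c := by
    rcases hR0 V G (Nx G x) b c hcl.1 hsm hbS hcS (G.adj_symm hcb) with h | h
    · exact h
    · exact absurd (h.trans hba) hnca
  have hac' : a ≠ c := by
    rintro rfl
    exact hnac Set.Subset.rfl
  have heq : Ms G (Nx G x) b = Ms G (Nx G x) a ∩ Ms G (Nx G x) c := by
    apply Set.Subset.antisymm (Set.subset_inter hba hbc)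
    rcases hRP V G (Nx G x) x a b c hcl hsm hxS hxs haS hbS hcS ha.2 hb.2 hc.2 hab
      (G.adj_symm hcb) hac hac' with h | h
    · exact h
    · exact absurd h.subset hnac
  refine ⟨⟨hac, hcb, heq⟩, ?_⟩
  intro a' ha' haa' hMa'
  by_contra hab'
  have ha'S : a' ∉ Nx G x := ha'.2
  have ha'p : G.Adj a' p := by
    by_contra h
    have : p ∈ Ms G (Nx G x) a' := ⟨hp1.1, h⟩
    rw [hMa'] at this
    exact this.2 hap
  have ha'r : ¬ G.Adj a' r := by
    have : r ∈ Ms G (Nx G x) a' := by rw [hMa']; exact hr1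
    exact this.2
  have hpb : G.Adj p b := by
    by_contra h
    have : p ∈ Ms G (Nx G x) b := ⟨hp1.1, fun h' => h (G.adj_symm h')⟩
    exact (hba this).2 hap
  have hbr : G.Adj b r := by
    by_contra h
    exact (hbc ⟨hr1.1, h⟩).2 hcr
  have ha'c : ¬ G.Adj a' c :=
    hB1 V G (Nx G x) p r a' c hcl.1 hsm hp1.1 hr1.1 ha'S hcS ha'p ha'r hcr hp1.2
  have ha'b : a' ≠ b := by
    rintro rfl
    rw [hMa'] at hnab
    exact hnab Set.Subset.rfl
  have hS : ∀ v ∈ Ox G x, v ≠ r := by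
    rintro v hv rfl
    exact hv.2 hr1.1
  exact hcl.2 (hM1 V G b r p a c x a' (Or.inr hbr) (Or.inl hpb) (Or.inl hab) (G.adj_symm hap)
    hcb.ne (hS c hc) hb.1.symm (fun h => hxS (h ▸ hr1.1)) ha'b (hS a' ha') (Or.inl hcb) hp1.2
    (fun h => hac (G.adj_symm h)) (Or.inr hr1.1) hp1.1 ha.2 ha'p (G.adj_symm haa') hab' ha'r
    (fun h => hc.2 (G.adj_symm h)) (fun h => ha'c (G.adj_symm h)) ha'.2)

end Pool.Agent.MPd439b2.H3
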