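import Pool.Agent.Lib.MP_d439b2_co.H3.Spec

/-!
# MP_d439b2_co, H3, I3: Case I, the maximal vertices
-/

set_option autoImplicit false

namespace Pool.Agent.MPd439b2.H3

open Pool.Agent.MPd439b2 Pool.Agent.MPd439b2.LK

theorem pfI3 : S_R0 → S_I1 → S_I2 → S_I3 := by
  intro hR0 hI1 hI2 V _ G x hx
  obtain ⟨i1, i2, i3, i4⟩ := hI1 V G x hx
  have hinc : ∀ a c, MxI G x a → MxI G x c → Ms G (Nx G x) c ≠ Ms G (Nx G x) a →
      ¬ Ms G (Nx G x) a ⊆ Ms G (Nx G x) c := by
    intro a c ha hc hne h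
    exact hne (Set.Subset.antisymm (ha.2 c hc.1 h) h)
  -- neighbours of maximal vertices
  have hsub : ∀ a, MxI G x a → ∀ v ∈ Ox G x, Ms G (Nx G x) v = Ms G (Nx G x) a → ∀ w ∈ Ox G x,
      G.Adj v w → Ms G (Nx G x) w ⊆ Ms G (Nx G x) a := by
    intro a ha v hv hva w hw hvw
    rcases hR0 V G (Nx G x) v w hx.cls.1 hx.smp hv.2 hw.2 hvw with h | h
    · rw [hva] at h
      exact ha.2 w hw h
    · rw [hva] at h
      exact h
  have hdrop : ∀ a, MxI G x a → ∀ w ∈ Ox G x, G.Adj a w →
      Ms G (Nx G x) w ⊆ Ms G (Nx G x) a ∧ ¬ Ms G (Nx G x) a ⊆ Ms G (Nx G x) w := by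
    intro a ha w hw haw
    refine ⟨hsub a ha a ha.1 rfl w hw haw, fun hle => ?_⟩
    have hwa : Ms G (Nx G x) w = Ms G (Nx G x) a := Set.Subset.antisymm (ha.2 w hw hle) hle
    obtain ⟨c, hc, hca⟩ := i4 a ha
    obtain ⟨K, hK, haK, hKc, hKn⟩ := exists_comp G
      (A := {v | v ∈ Ox G x ∧ Ms G (Nx G x) v = Ms G (Nx G x) a}) (v := a) ⟨ha.1, rfl⟩
    have hhom : Hmg G Set.univ K := by
      intro u _ hu
      by_cases hux : u = x
      · right
        intro m hm h
        rw [hux] at h
        exact (hK hm).1.2 h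
      by_cases huN : G.Adj x u
      · by_cases hua : G.Adj a u
        · left
          intro m hm
          by_contra h
          have h1 : u ∈ Ms G (Nx G x) m := ⟨huN, fun h' => h (G.adj_symm h')⟩
          rw [(hK hm).2] at h1
          exact h1.2 hua
        · right
          intro m hm h
          have h1 : u ∈ Ms G (Nx G x) a := ⟨huN, hua⟩
          rw [← (hK hm).2] at h1
          exact h1.2 (G.adj_symm h)
      · have huO : u ∈ Ox G x := ⟨hux, huN⟩
        by_cases hex : ∃ v ∈ K, G.Adj u v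
        · left
          obtain ⟨v, hv, huv⟩ := hex
          have hcl : {m | m ∈ K ∧ G.Adj m u} = K := by
            apply hKc.eq_of_nb (C := {m | m ∈ K ∧ G.Adj m u}) (fun m hm => hm.1)
              (show Set.Nonempty {m | m ∈ K ∧ G.Adj m u} from ⟨v, hv, G.adj_symm huv⟩)
            intro v' hv' hn
            obtain ⟨hn1, m, ⟨hm, hmu⟩, hmv'⟩ := hn
            apply hn1
            refine ⟨hv', ?_⟩
            have hMm := (hK hm).2
            have e1 : Ms G (Nx G x) u ⊆ Ms G (Nx G x) m := by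
              rw [hMm]
              exact hsub a ha m (hK hm).1 hMm u huO hmu
            have e2 : ¬ Ms G (Nx G x) m ⊆ Ms G (Nx G x) u := by
              intro h
              have h2 : Ms G (Nx G x) u = Ms G (Nx G x) a := by
                rw [← hMm]
                exact Set.Subset.antisymm e1 h
              exact hKn u ⟨huO, h2⟩ ⟨hu, m, hm, hmu⟩
            have e3 : ¬ Ms G (Nx G x) m ⊆ Ms G (Nx G x) c := by
              rw [hMm]
              exact hinc a c ha hc hca
            have e4 : ¬ Ms G (Nx G x) c ⊆ Ms G (Nx G x) m := by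
              rw [hMm]
              exact hinc c a hc ha hca.symm
            exact (hI2 V G x m u c hx.cls hx.smp (hK hm).1 huO hc.1 hmu e1 e2 e3 e4).2 v' (hK hv').1
              hmv' (by rw [(hK hv').2, hMm])
          intro m hm
          rw [← hcl] at hm
          exact G.adj_symm hm.2
        · right
          intro m hm h
          exact hex ⟨m, hm, h⟩
    have hKne : K ≠ Set.univ := by
      intro h
      have : x ∈ K := by rw [h]; exact Set.mem_univ x
      exact (hK this).1.1 rfl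
    have hKs := hx.prm K hKne hhom
    refine hKn w ⟨hw, hwa⟩ ⟨fun hwK => ?_, a, haK, haw⟩
    have := hKs hwK haK
    rw [this] at haw
    exact G.irrefl haw
  -- the same neighbours
  have hnb1 : ∀ a c, MxI G x a → MxI G x c → Ms G (Nx G x) c ≠ Ms G (Nx G x) a → ∀ w ∈ Ox G x,
      G.Adj a w → G.Adj c w := by
    intro a c ha hc hca w hw haw
    obtain ⟨d1, d2⟩ := hdrop a ha w hw haw
    exact (hI2 V G x a w c hx.cls hx.smp ha.1 hw hc.1 haw d1 d2 (hinc a c ha hc hca)
      (hinc c a hc ha hca.symm)).1.2.1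
  have hnb : ∀ a c, MxI G x a → MxI G x c → ∀ w ∈ Ox G x, G.Adj a w → G.Adj c w := by
    intro a c ha hc w hw haw
    by_cases hca : Ms G (Nx G x) c = Ms G (Nx G x) a
    · obtain ⟨d, hd, hda⟩ := i4 a ha
      have h1 := hnb1 a d ha hd hda w hw haw
      exact hnb1 d c hd hc (by rw [hca]; exact hda.symm) w hw h1
    · exact hnb1 a c ha hc hca w hw haw
  obtain ⟨v₀, hv₀⟩ := i2
  obtain ⟨a₀, ha₀, _⟩ := i3 v₀ hv₀
  have hB3 : ∀ a, MxI G x a → ∀ w ∈ Ox G x, (G.Adj a w ↔ w ∈ {w | w ∈ Ox G x ∧ G.Adj a₀ w}) :=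
    fun a ha w hw => ⟨fun h => ⟨hw, hnb a a₀ ha ha₀ w hw h⟩, fun h => hnb a₀ a ha₀ ha w hw h.2⟩
  refine ⟨{w | w ∈ Ox G x ∧ G.Adj a₀ w}, fun w hw => hw.1, ?_, hB3, ?_⟩
  · obtain ⟨w, hw, haw⟩ := i1 a₀ ha₀.1
    exact ⟨w, hw, haw⟩
  · intro a ha v hv hva
    have hZ : ∀ z, z ∈ Ox G x → Ms G (Nx G x) z = Ms G (Nx G x) a → MxI G x z := by
      intro z hz hza
      refine ⟨hz, fun w hw h => ?_⟩
      rw [hza] at h ⊢
      exact ha.2 w hw h
    have hhom : Hmg G Set.univ {z | z ∈ Ox G x ∧ Ms G (Nx G x) z = Ms G (Nx G x) a} := by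
      intro u _ hu
      by_cases hux : u = x
      · right
        intro m hm h
        rw [hux] at h
        exact hm.1.2 h
      by_cases huN : G.Adj x u
      · by_cases hua : G.Adj a u
        · left
          intro m hm
          by_contra h
          have h1 : u ∈ Ms G (Nx G x) m := ⟨huN, fun h' => h (G.adj_symm h')⟩
          rw [hm.2] at h1
          exact h1.2 hua
        · right
          intro m hm h
          have h1 : u ∈ Ms G (Nx G x) a := ⟨huN, hua⟩
          rw [← hm.2] at h1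
          exact h1.2 (G.adj_symm h)
      · have huO : u ∈ Ox G x := ⟨hux, huN⟩
        by_cases huB : G.Adj a u
        · left
          intro m hm
          exact G.adj_symm (hnb a m ha (hZ m hm.1 hm.2) u huO huB)
        · right
          intro m hm h
          exact huB (hnb m a (hZ m hm.1 hm.2) ha u huO (G.adj_symm h))
    have hne : {z | z ∈ Ox G x ∧ Ms G (Nx G x) z = Ms G (Nx G x) a} ≠ Set.univ := by
      intro h
      have : x ∈ {z | z ∈ Ox G x ∧ Ms G (Nx G x) z = Ms G (Nx G x) a} := by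
        rw [h]; exact Set.mem_univ x
      exact this.1.1 rfl
    exact hx.prm _ hne hhom ⟨hv, hva⟩ ⟨ha.1, rfl⟩

end Pool.Agent.MPd439b2.H3
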