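import Pool.Agent.Lib.MP_d439b2_co.H3.Spec

/-!
# MP_d439b2_co, H3, I4: Case I, the structure
-/

set_option autoImplicit false

namespace Pool.Agent.MPd439b2.H3

open Pool.Agent.MPd439b2 Pool.Agent.MPd439b2.LK

theorem pfI4 : S_R0 → S_RP → H1.S_M2 → S_I1 → S_I2 → S_I3 → S_I4 := by
  intro hR0 hRP hM2 hI1 hI2 hI3 V _ G x hx
  obtain ⟨i1, ⟨v₀, hv₀⟩, i3, i4⟩ := hI1 V G x hx
  obtain ⟨B, hB1, ⟨b₀, hb₀⟩, hB3, hB4⟩ := hI3 V G x hx
  obtain ⟨a₀, ha₀, _⟩ := i3 v₀ hv₀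
  obtain ⟨c₀, hc₀, hac₀⟩ := i4 a₀ ha₀
  have hne₀ : a₀ ≠ c₀ := by
    rintro rfl
    exact hac₀ rfl
  have hinc : ∀ a c, MxI G x a → MxI G x c → a ≠ c → ¬ Ms G (Nx G x) a ⊆ Ms G (Nx G x) c := by
    intro a c ha hc hne h
    exact hne (hB4 c hc a ha.1 (Set.Subset.antisymm h (ha.2 c hc.1 h)))
  -- elements of `B`
  have hbdrop : ∀ b ∈ B, ∀ a, MxI G x a →
      Ms G (Nx G x) b ⊆ Ms G (Nx G x) a ∧ ¬ Ms G (Nx G x) a ⊆ Ms G (Nx G x) b := by
    intro b hb a ha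
    have hab : G.Adj a b := (hB3 a ha b (hB1 hb)).2 hb
    have h1 : Ms G (Nx G x) b ⊆ Ms G (Nx G x) a := by
      rcases hR0 V G (Nx G x) a b hx.cls.1 hx.smp ha.1.2 (hB1 hb).2 hab with h | h
      · exact ha.2 b (hB1 hb) h
      · exact h
    refine ⟨h1, fun h => ?_⟩
    have := hB4 a ha b (hB1 hb) (Set.Subset.antisymm h1 h)
    rw [this] at hab
    exact G.irrefl hab
  have hbint : ∀ b ∈ B, ∀ a c, MxI G x a → MxI G x c → a ≠ c →
      Ms G (Nx G x) b = Ms G (Nx G x) a ∩ Ms G (Nx G x) c := by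
    intro b hb a c ha hc hne
    have hab : G.Adj a b := (hB3 a ha b (hB1 hb)).2 hb
    obtain ⟨d1, d2⟩ := hbdrop b hb a ha
    exact (hI2 V G x a b c hx.cls hx.smp ha.1 (hB1 hb) hc.1 hab d1 d2 (hinc a c ha hc hne)
      (hinc c a hc ha hne.symm)).1.2.2
  have hm1 : ∀ b ∈ B, Ms G (Nx G x) b = Ms G (Nx G x) b₀ := by
    intro b hb
    rw [hbint b hb a₀ c₀ ha₀ hc₀ hne₀, hbint b₀ hb₀ a₀ c₀ ha₀ hc₀ hne₀]
  have hM0 : ∀ a c, MxI G x a → MxI G x c → a ≠ c →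
      Ms G (Nx G x) a ∩ Ms G (Nx G x) c = Ms G (Nx G x) b₀ := fun a c ha hc hne =>
    (hbint b₀ hb₀ a c ha hc hne).symm
  have hM0a : ∀ a, MxI G x a → Ms G (Nx G x) b₀ ⊆ Ms G (Nx G x) a := fun a ha =>
    (hbdrop b₀ hb₀ a ha).1
  have hother : ∀ a, MxI G x a → ∃ c, MxI G x c ∧ a ≠ c := by
    intro a ha
    by_cases h : a = a₀
    · exact ⟨c₀, hc₀, by rw [h]; exact hne₀⟩
    · exact ⟨a₀, ha₀, h⟩
  -- every element of `Nx` is missed by some maximal vertex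
  have h2 : ∀ s ∈ Nx G x, ∃ a, MxI G x a ∧ s ∈ Ms G (Nx G x) a := by
    intro s hs
    obtain ⟨w, hws, hsw⟩ := hx.nou s
    have hwx : w ≠ x := by
      rintro rfl
      exact hsw (G.adj_symm hs)
    have hwN : ¬ G.Adj x w := fun h => hsw (hx.smp s hs w h (Ne.symm hws))
    obtain ⟨c, hc1, hc2⟩ := i3 w ⟨hwx, hwN⟩
    exact ⟨c, hc1, hc2 ⟨hs, fun h => hsw (G.adj_symm h)⟩⟩
  -- vertices which are not maximal
  have h4 : ∀ v ∈ Ox G x, ¬ MxI G x v → Ms G (Nx G x) v ⊆ Ms G (Nx G x) b₀ := by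
    intro v hv hvm
    by_contra hcon
    obtain ⟨a, ha, hva⟩ := i3 v hv
    obtain ⟨c, hc, hac⟩ := hother a ha
    have e1 : ¬ Ms G (Nx G x) v ⊆ Ms G (Nx G x) c := by
      intro h
      apply hcon
      rw [← hM0 a c ha hc hac]
      exact Set.subset_inter hva h
    have e2 : ¬ Ms G (Nx G x) c ⊆ Ms G (Nx G x) v := fun h => hinc c a hc ha hac.symm (h.trans hva)
    have hcb : G.Adj c b₀ := (hB3 c hc b₀ (hB1 hb₀)).2 hb₀
    obtain ⟨d1, d2⟩ := hbdrop b₀ hb₀ c hc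
    have h5 := (hI2 V G x c b₀ v hx.cls hx.smp hc.1 (hB1 hb₀) hv hcb d1 d2 e2 e1).1
    have hva' : ¬ G.Adj v a := by
      intro h
      have hvB : v ∈ B := (hB3 a ha v hv).1 (G.adj_symm h)
      rw [hm1 v hvB] at hcon
      exact hcon Set.Subset.rfl
    have hvne : v ≠ a := by
      rintro rfl
      exact hvm ha
    have hba : G.Adj b₀ a := G.adj_symm ((hB3 a ha b₀ (hB1 hb₀)).2 hb₀)
    rcases hRP V G (Nx G x) x v b₀ a hx.cls hx.smp (fun h => G.irrefl h) (fun s hs => hs) hv.2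
      (hB1 hb₀).2 ha.1.2 hv.2 (hB1 hb₀).2 ha.1.2 h5.2.1 hba hva' hvne with h | h
    · apply hcon
      exact (Set.subset_inter Set.Subset.rfl hva).trans h
    · exact hvne (hB4 a ha v hv h)
  -- the element `k a`
  have hk : ∀ a, ∃ s, MxI G x a → s ∈ Nx G x ∧ s ∉ Ms G (Nx G x) b₀ ∧
      Ms G (Nx G x) a = insert s (Ms G (Nx G x) b₀) := by
    intro a
    by_cases ha : MxI G x a
    swap
    · exact ⟨x, fun h => absurd h ha⟩
    obtain ⟨c, hc, hac⟩ := hother a ha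
    obtain ⟨s, hs1, hs2⟩ := Set.not_subset.1 (hinc a c ha hc hac)
    have hs3 : s ∉ Ms G (Nx G x) b₀ := fun h => hs2 (hM0a c hc h)
    refine ⟨s, fun _ => ⟨hs1.1, hs3, ?_⟩⟩
    have hhom : Hmg G Set.univ {t | t ∈ Ms G (Nx G x) a ∧ t ∉ Ms G (Nx G x) b₀} := by
      intro u _ hu
      by_cases hux : u = x
      · left
        intro m hm
        rw [hux]
        exact hm.1.1
      by_cases huN : G.Adj x u
      · left
        intro m hm
        refine hx.smp u huN m hm.1.1 ?_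
        rintro rfl
        exact hu hm
      · have huO : u ∈ Ox G x := ⟨hux, huN⟩
        by_cases hua : u = a
        · right
          intro m hm
          rw [hua]
          exact hm.1.2
        · left
          intro m hm
          by_contra hcon
          have hmu : m ∈ Ms G (Nx G x) u := ⟨hm.1.1, hcon⟩
          by_cases hum : MxI G x u
          · apply hm.2
            rw [← hM0 u a hum ha hua]
            exact ⟨hmu, hm.1⟩
          · exact hm.2 (h4 u huO hum hmu)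
    have hne : {t | t ∈ Ms G (Nx G x) a ∧ t ∉ Ms G (Nx G x) b₀} ≠ Set.univ := by
      intro h
      have : x ∈ {t | t ∈ Ms G (Nx G x) a ∧ t ∉ Ms G (Nx G x) b₀} := by
        rw [h]; exact Set.mem_univ x
      exact G.irrefl this.1.1
    have hss := hx.prm _ hne hhom
    apply Set.Subset.antisymm
    · intro t ht
      by_cases ht' : t ∈ Ms G (Nx G x) b₀
      · exact Or.inr ht'
      · exact Or.inl (hss ⟨ht, ht'⟩ ⟨hs1, hs3⟩)
    · intro t ht
      rcases ht with ht | ht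
      · rw [ht]
        exact hs1
      · exact hM0a a ha ht
  choose k hk using hk
  refine ⟨B, Ms G (Nx G x) b₀, k, ⟨hx, hB1, ⟨b₀, hb₀⟩, hB3, ?_, hm1, hk, ?_, h4, ?_, fun s hs => hs.1,
    ⟨a₀, c₀, ha₀, hc₀, hne₀⟩⟩⟩
  · intro b hb b' hb' hbb
    have e1 := G.adj_symm ((hB3 a₀ ha₀ b (hB1 hb)).2 hb)
    have e2 := (hB3 a₀ ha₀ b' (hB1 hb')).2 hb'
    have e3 := G.adj_symm ((hB3 c₀ hc₀ b' (hB1 hb')).2 hb')
    have e4 := (hB3 c₀ hc₀ b (hB1 hb)).2 hb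
    rcases hM2 V G b a₀ b' c₀ hx.cls.1 e1 e2 e3 e4 hbb hne₀ with h | h
    · exact h
    · exfalso
      have hcB : c₀ ∈ B := (hB3 a₀ ha₀ c₀ hc₀.1).1 h
      have := hm1 c₀ hcB
      apply hinc c₀ a₀ hc₀ ha₀ hne₀.symm
      rw [this]
      exact hM0a a₀ ha₀
  · intro a c ha hc hkk
    by_contra hne
    obtain ⟨_, p2, p3⟩ := hk a ha
    obtain ⟨_, _, q3⟩ := hk c hc
    apply p2
    rw [← hM0 a c ha hc hne]
    constructor
    · rw [p3]
      exact Set.mem_insert _ _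
    · rw [q3, hkk]
      exact Set.mem_insert _ _
  · intro s hs
    obtain ⟨a, ha, hsa⟩ := h2 s hs
    rw [(hk a ha).2.2] at hsa
    rcases hsa with h | h
    · exact Or.inr ⟨a, ha, h⟩
    · exact Or.inl h

end Pool.Agent.MPd439b2.H3
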