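import Pool.Agent.Lib.MP_d439b2_co.H3.Spec

/-!
# MP_d439b2_co, H3, I5: Case I, the rest is independent
-/

set_option autoImplicit false

namespace Pool.Agent.MPd439b2.H3

open Pool.Agent.MPd439b2 Pool.Agent.MPd439b2.LK

theorem pfI5 : S_R0 → S_RE → S_I5 := by
  intro hR0 hRE V _ G x B M₀ k hI
  obtain ⟨a₁, a₂, ha₁, ha₂, hne⟩ := hI.two
  have hx := hI.ci
  -- maximal vertices and `B`
  have hnB : ∀ a, MxI G x a → a ∉ B := by
    intro a ha hB
    have h1 := hI.m1 a hB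
    obtain ⟨_, p2, p3⟩ := hI.m2 a ha
    rw [h1] at p3
    exact p2 (by rw [p3]; exact Set.mem_insert _ _)
  have hM0a : ∀ a, MxI G x a → M₀ ⊆ Ms G (Nx G x) a := by
    intro a ha
    rw [(hI.m2 a ha).2.2]
    exact Set.subset_insert _ _
  -- the clique `S'`
  have hS1 : ∀ s, G.Adj a₁ s → s ∈ B ∨ (G.Adj x s ∧ s ∉ M₀) := by
    intro s hs
    by_cases hxs : G.Adj x s
    · exact Or.inr ⟨hxs, fun h => (hM0a a₁ ha₁ h).2 hs⟩
    · left
      have hsx : s ≠ x := by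
        rintro rfl
        exact ha₁.1.2 (G.adj_symm hs)
      exact (hI.b3 a₁ ha₁ s ⟨hsx, hxs⟩).1 hs
  have hBN : ∀ b ∈ B, ∀ s, G.Adj x s → s ∉ M₀ → G.Adj b s := by
    intro b hb s hs hsM
    by_contra h
    apply hsM
    rw [← hI.m1 b hb]
    exact ⟨hs, h⟩
  have hScl : CompleteOn G (Nx G a₁) := by
    intro s hs t ht hst
    rcases hS1 s hs with h1 | h1 <;> rcases hS1 t ht with h2 | h2
    · exact hI.b4 s h1 t h2 hst
    · exact hBN s h1 t h2.1 h2.2
    · exact G.adj_symm (hBN t h2 s h1.1 h1.2)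
    · exact hx.smp s h1.1 t h2.1 hst
  -- the set `Y`
  let Y : Set V := {y | y = x ∨ y ∈ M₀ ∨ (y ∈ Ox G x ∧ ¬ MxI G x y ∧ y ∉ B)}
  have hY1 : ∀ y ∈ Y, ∀ a, MxI G x a → ¬ G.Adj a y := by
    rintro y (rfl | hy | ⟨hy1, hy2, hy3⟩) a ha h
    · exact ha.1.2 (G.adj_symm h)
    · exact (hM0a a ha hy).2 h
    · exact hy3 ((hI.b3 a ha y hy1).1 h)
  have hY2 : ∀ y ∈ Y, ∀ s, G.Adj x s → s ∉ M₀ → G.Adj y s := by
    rintro y (rfl | hy | ⟨hy1, hy2, hy3⟩) s hs hsM
    · exact hs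
    · refine hx.smp y (hI.m6 hy) s hs ?_
      rintro rfl
      exact hsM hy
    · by_contra h
      exact hsM (hI.m4 y hy1 hy2 ⟨hs, h⟩)
  have ha12 : ¬ G.Adj a₁ a₂ := fun h => hnB a₂ ha₂ ((hI.b3 a₁ ha₁ a₂ ha₂.1).1 h)
  have hka : G.Adj a₁ (k a₂) := by
    by_contra h
    have h1 : k a₂ ∈ Ms G (Nx G x) a₁ := ⟨(hI.m2 a₂ ha₂).1, h⟩
    rw [(hI.m2 a₁ ha₁).2.2] at h1
    rcases h1 with h1 | h1
    · exact hne (hI.m3 a₂ a₁ ha₂ ha₁ h1).symm
    · exact (hI.m2 a₂ ha₂).2.1 h1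
  have hka2 : ¬ G.Adj a₂ (k a₂) := by
    have : k a₂ ∈ Ms G (Nx G x) a₂ := by
      rw [(hI.m2 a₂ ha₂).2.2]
      exact Set.mem_insert _ _
    exact this.2
  -- one direction of the claim
  have key : ∀ y ∈ Y, ∀ y' ∈ Y, G.Adj y y' → Ms G (Nx G a₁) y' ⊆ Ms G (Nx G a₁) y →
      Ms G (Nx G a₁) y ⊆ Ms G (Nx G a₁) y' := by
    intro y hy y' hy' hyy hsub
    by_contra hcon
    rcases hRE V G (Nx G a₁) a₁ y y' a₂ hx.cls hScl (fun h => G.irrefl h) (fun s hs => hs)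
      (hY1 y hy a₁ ha₁) (hY1 y' hy' a₁ ha₁) ha12 (hY1 y hy a₁ ha₁) (hY1 y' hy' a₁ ha₁) ha12 hyy hsub
      hcon (hY1 y hy a₂ ha₂) (hY1 y' hy' a₂ ha₂) with h | h
    · exact (h ⟨hka, hka2⟩).2 (hY2 y hy (k a₂) (hI.m2 a₂ ha₂).1 (hI.m2 a₂ ha₂).2.1)
    · obtain ⟨b, hb, _⟩ := Set.not_subset.1 hcon
      rcases hS1 b hb.1 with h1 | h1
      · exact (h hb).2 ((hI.b3 a₂ ha₂ b (hI.b1 h1)).2 h1)
      · exact hb.2 (hY2 y hy b h1.1 h1.2)
  have hclaim : ∀ y ∈ Y, ∀ y' ∈ Y, G.Adj y y' → Ms G (Nx G a₁) y = Ms G (Nx G a₁) y' := by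
    intro y hy y' hy' hyy
    rcases hR0 V G (Nx G a₁) y y' hx.cls.1 hScl (hY1 y hy a₁ ha₁) (hY1 y' hy' a₁ ha₁) hyy with h | h
    · exact Set.Subset.antisymm h (key y' hy' y hy (G.adj_symm hyy) h)
    · exact Set.Subset.antisymm (key y hy y' hy' hyy h) h
  -- there are no edges in `Y`
  have hind : ∀ y ∈ Y, ∀ y' ∈ Y, ¬ G.Adj y y' := by
    intro y hy y' hy' hyy
    obtain ⟨K, hK, hyK, hKc, hKn⟩ := exists_comp G hy
    have hhom : Hmg G Set.univ K := by
      intro u _ hu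
      by_cases huY : u ∈ Y
      · right
        intro m hm h
        exact hKn u huY ⟨hu, m, hm, G.adj_symm h⟩
      by_cases hux : G.Adj x u
      · left
        intro m hm
        exact G.adj_symm (hY2 m (hK hm) u hux (fun h => huY (Or.inr (Or.inl h))))
      · have huO : u ∈ Ox G x := ⟨fun h => huY (Or.inl h), hux⟩
        by_cases hum : MxI G x u
        · right
          intro m hm
          exact hY1 m (hK hm) u hum
        · have huB : u ∈ B := by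
            by_contra h
            exact huY (Or.inr (Or.inr ⟨huO, hum, h⟩))
          have hau : G.Adj a₁ u := (hI.b3 a₁ ha₁ u huO).2 huB
          by_cases hex : ∃ m ∈ K, G.Adj u m
          · left
            obtain ⟨m₀, hm₀, hum₀⟩ := hex
            have hcl : {m | m ∈ K ∧ G.Adj m u} = K := by
              apply hKc.eq_of_nb (C := {m | m ∈ K ∧ G.Adj m u}) (fun m hm => hm.1)
                (show Set.Nonempty {m | m ∈ K ∧ G.Adj m u} from ⟨m₀, hm₀, G.adj_symm hum₀⟩)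
              intro v' hv' hn
              obtain ⟨hn1, m, ⟨hm, hmu⟩, hmv'⟩ := hn
              apply hn1
              refine ⟨hv', ?_⟩
              by_contra h
              have h1 : u ∈ Ms G (Nx G a₁) v' := ⟨hau, h⟩
              rw [← hclaim m (hK hm) v' (hK hv') hmv'] at h1
              exact h1.2 hmu
            intro m hm
            rw [← hcl] at hm
            exact G.adj_symm hm.2
          · right
            intro m hm h
            exact hex ⟨m, hm, h⟩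
    have hKne : K ≠ Set.univ := by
      intro h
      have h1 : a₁ ∈ Y := by
        apply hK
        rw [h]
        exact Set.mem_univ _
      rcases h1 with h1 | h1 | h1
      · exact ha₁.1.1 h1
      · exact ha₁.1.2 (hI.m6 h1)
      · exact h1.2.1 ha₁
    have hKs := hx.prm K hKne hhom
    by_cases hy'K : y' ∈ K
    · have := hKs hyK hy'K
      rw [this] at hyy
      exact G.irrefl hyy
    · exact hKn y' hy' ⟨hy'K, y, hyK, hyy⟩
  refine ⟨?_, ?_⟩
  · rw [Set.eq_empty_iff_forall_notMem]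
    intro s hs
    exact hind x (Or.inl rfl) s (Or.inr (Or.inl hs)) (hI.m6 hs)
  · intro u hu hum huB v hv hvm hvB
    exact hind u (Or.inr (Or.inr ⟨hu, hum, huB⟩)) v (Or.inr (Or.inr ⟨hv, hvm, hvB⟩))

end Pool.Agent.MPd439b2.H3
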