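import Pool.Agent.Lib.MP_d439b2_co.H3.Spec

/-!
# MP_d439b2_co, H3, I6: Case I, the rest is small
-/

set_option autoImplicit false

namespace Pool.Agent.MPd439b2.H3

open Pool.Agent.MPd439b2 Pool.Agent.MPd439b2.LK

theorem pfI6 : S_M1 → S_I5 → S_I6 := by
  intro hM1 hI5 V _ G x B M₀ k hI
  obtain ⟨hM, hind⟩ := hI5 V G x B M₀ k hI
  obtain ⟨a₁, a₂, ha₁, ha₂, hne⟩ := hI.two
  have hx := hI.ci
  have hnB : ∀ a, MxI G x a → a ∉ B := by
    intro a ha hB
    have h1 := hI.m1 a hB
    obtain ⟨_, p2, p3⟩ := hI.m2 a ha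
    rw [h1] at p3
    exact p2 (by rw [p3]; exact Set.mem_insert _ _)
  have hBN : ∀ b ∈ B, ∀ s, G.Adj x s → G.Adj b s := by
    intro b hb s hs
    by_contra h
    have : s ∈ Ms G (Nx G x) b := ⟨hs, h⟩
    rw [hI.m1 b hb, hM] at this
    exact this
  have hYN : ∀ v ∈ Ox G x, ¬ MxI G x v → ∀ s, G.Adj x s → G.Adj v s := by
    intro v hv hvm s hs
    by_contra h
    have := hI.m4 v hv hvm ⟨hs, h⟩
    rw [hM] at this
    exact this
  have hk1 : ¬ G.Adj a₁ (k a₁) := by
    have : k a₁ ∈ Ms G (Nx G x) a₁ := by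
      rw [(hI.m2 a₁ ha₁).2.2]
      exact Set.mem_insert _ _
    exact this.2
  have hkN : G.Adj x (k a₁) := (hI.m2 a₁ ha₁).1
  -- complete or anticomplete
  have h1 : ∀ v ∈ Ox G x, ¬ MxI G x v → v ∉ B → ∀ b ∈ B, G.Adj b v → ∀ b' ∈ B, G.Adj b' v := by
    intro v hv hvm hvB b hb hbv b' hb'
    by_contra hcon
    have hbb : b ≠ b' := by
      rintro rfl
      exact hcon hbv
    have hva : ¬ G.Adj v a₁ := fun h => hvB ((hI.b3 a₁ ha₁ v hv).1 (G.adj_symm h))
    have hvk : G.Adj v (k a₁) := hYN v hv hvm _ hkN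
    have hak : a₁ ≠ k a₁ := by
      intro h
      apply ha₁.1.2
      rw [h]
      exact hkN
    exact hx.cls.2 (hM1 V G (k a₁) (k a₁) b b' x v a₁ (Or.inl rfl) (Or.inl (hBN b hb _ hkN))
      (Or.inl (hBN b' hb' _ hkN)) (hI.b4 b hb b' hb' hbb) hkN.ne hkN.ne hvk.ne hvk.ne hak hak
      (Or.inl hkN) (hI.b1 hb).2 (hI.b1 hb').2 (Or.inl hvk) (G.adj_symm hbv)
      (fun h => hcon (G.adj_symm h)) ((hI.b3 a₁ ha₁ b (hI.b1 hb)).2 hb)
      ((hI.b3 a₁ ha₁ b' (hI.b1 hb')).2 hb') hk1 hk1 hv.2 ha₁.1.2 hva)
  -- not anticomplete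
  have h2 : ∀ v ∈ Ox G x, ¬ MxI G x v → v ∉ B → ∀ b ∈ B, G.Adj b v := by
    intro v hv hvm hvB
    by_contra hcon
    have hno : ∀ b ∈ B, ¬ G.Adj b v := fun b hb h => hcon (h1 v hv hvm hvB b hb h)
    have hhom : Hmg G Set.univ {x, v} := by
      intro u _ hu
      by_cases hux : G.Adj x u
      · left
        rintro m (rfl | hm)
        · exact G.adj_symm hux
        · rw [Set.mem_singleton_iff] at hm
          rw [hm]
          exact G.adj_symm (hYN v hv hvm u hux)
      · right
        have hu1 : u ≠ x := fun h => hu (Or.inl h)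
        have huO : u ∈ Ox G x := ⟨hu1, hux⟩
        have huv : ¬ G.Adj u v := by
          by_cases hum : MxI G x u
          · exact fun h => hvB ((hI.b3 u hum v hv).1 h)
          · by_cases huB : u ∈ B
            · exact hno u huB
            · exact hind u huO hum huB v hv hvm hvB
        rintro m (rfl | hm)
        · exact fun h => hux (G.adj_symm h)
        · rw [Set.mem_singleton_iff] at hm
          rw [hm]
          exact huv
    have hne1 : ({x, v} : Set V) ≠ Set.univ := by
      intro h
      have : a₁ ∈ ({x, v} : Set V) := by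
        rw [h]; exact Set.mem_univ _
      rcases this with h' | h'
      · exact ha₁.1.1 h'
      · rw [Set.mem_singleton_iff] at h'
        rw [h'] at ha₁
        exact hvm ha₁
    have := hx.prm _ hne1 hhom (Set.mem_insert x {v}) (Set.mem_insert_of_mem x rfl)
    exact hv.1 this.symm
  -- at most one
  have h3 : ∀ v ∈ Ox G x, ¬ MxI G x v → v ∉ B → ∀ v' ∈ Ox G x, ¬ MxI G x v' → v' ∉ B → v = v' := by
    intro v hv hvm hvB v' hv' hvm' hvB'
    have hhom : Hmg G Set.univ {v, v'} := by
      intro u _ hu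
      by_cases hux : G.Adj x u
      · left
        rintro m (rfl | hm)
        · exact G.adj_symm (hYN _ hv hvm u hux)
        · rw [Set.mem_singleton_iff] at hm
          rw [hm]
          exact G.adj_symm (hYN v' hv' hvm' u hux)
      · by_cases hu1 : u = x
        · right
          rintro m (rfl | hm)
          · rw [hu1]
            exact hv.2
          · rw [Set.mem_singleton_iff] at hm
            rw [hm, hu1]
            exact hv'.2
        have huO : u ∈ Ox G x := ⟨hu1, hux⟩
        by_cases huB : u ∈ B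
        · left
          rintro m (rfl | hm)
          · exact h2 _ hv hvm hvB u huB
          · rw [Set.mem_singleton_iff] at hm
            rw [hm]
            exact h2 v' hv' hvm' hvB' u huB
        · right
          have huv : ∀ z ∈ Ox G x, ¬ MxI G x z → z ∉ B → ¬ G.Adj u z := by
            intro z hz hzm hzB
            by_cases hum : MxI G x u
            · exact fun h => hzB ((hI.b3 u hum z hz).1 h)
            · exact hind u huO hum huB z hz hzm hzB
          rintro m (rfl | hm)
          · exact huv _ hv hvm hvB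
          · rw [Set.mem_singleton_iff] at hm
            rw [hm]
            exact huv v' hv' hvm' hvB'
    have hne1 : ({v, v'} : Set V) ≠ Set.univ := by
      intro h
      have : x ∈ ({v, v'} : Set V) := by
        rw [h]; exact Set.mem_univ _
      rcases this with h' | h'
      · exact hv.1 h'.symm
      · rw [Set.mem_singleton_iff] at h'
        exact hv'.1 h'.symm
    exact hx.prm _ hne1 hhom (Set.mem_insert v {v'}) (Set.mem_insert_of_mem v rfl)
  -- `B` is homogeneous
  have h4 : B.Subsingleton := by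
    apply hx.prm B
    · intro h
      exact hnB a₁ ha₁ (by rw [h]; exact Set.mem_univ _)
    · intro u _ hu
      by_cases hu1 : u = x
      · right
        intro m hm
        rw [hu1]
        exact (hI.b1 hm).2
      · left
        intro m hm
        by_cases hux : G.Adj x u
        · exact G.adj_symm (hBN m hm u hux)
        · have huO : u ∈ Ox G x := ⟨hu1, hux⟩
          by_cases hum : MxI G x u
          · exact (hI.b3 u hum m (hI.b1 hm)).2 hm
          · exact G.adj_symm (h2 u huO hum hu m hm)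
  obtain ⟨b, hb⟩ := hI.b2
  refine ⟨⟨b, ?_⟩, ?_⟩
  · ext z
    exact ⟨fun hz => h4 hz hb, fun hz => by rw [Set.mem_singleton_iff] at hz; rw [hz]; exact hb⟩
  · by_cases hex : ∃ v ∈ Ox G x, ¬ MxI G x v ∧ v ∉ B
    · obtain ⟨w₀, hw, hwm, hwB⟩ := hex
      refine ⟨w₀, fun v hv => ?_⟩
      by_cases hvm : MxI G x v
      · exact Or.inl hvm
      by_cases hvB : v ∈ B
      · exact Or.inr (Or.inl hvB)
      exact Or.inr (Or.inr (h3 v hv hvm hvB w₀ hw hwm hwB))
    · refine ⟨x, fun v hv => ?_⟩
      by_cases hvm : MxI G x v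
      · exact Or.inl hvm
      by_cases hvB : v ∈ B
      · exact Or.inr (Or.inl hvB)
      exact absurd ⟨v, hv, hvm, hvB⟩ hex

end Pool.Agent.MPd439b2.H3
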