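import Pool.Agent.Lib.MP_d439b2_co.H3.Spec

/-!
# MP_d439b2_co, H3, I7: Case I, conclusion
-/

set_option autoImplicit false

namespace Pool.Agent.MPd439b2.H3

open Pool.Agent.MPd439b2 Pool.Agent.MPd439b2.LK

theorem pfI7 : LK.S_A1 → S_I4 → S_I5 → S_I6 → S_I7 := by
  intro hA1 hI4 hI5 hI6 V _ G x T h hx hT hU
  obtain ⟨B, M₀, k, hI⟩ := hI4 V G x hx
  obtain ⟨hM, _⟩ := hI5 V G x B M₀ k hI
  obtain ⟨⟨b, hb⟩, w₀, hw₀⟩ := hI6 V G x B M₀ k hI
  subst hM
  subst hb
  obtain ⟨_, r2, r3, r4, r5, _⟩ := hA1 V G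
  by_contra hcon
  push Not at hcon
  have hnB : ∀ a, MxI G x a → a ≠ b := by
    rintro a ha rfl
    have h1 := hI.m1 a rfl
    obtain ⟨_, p2, p3⟩ := hI.m2 a ha
    rw [h1] at p3
    exact p2 (by rw [p3]; exact Set.mem_insert _ _)
  -- the maximal vertices of `T`
  have hTm : {a | a ∈ T ∧ MxI G x a}.Subsingleton := by
    rintro a ⟨haT, ha⟩ c ⟨hcT, hc⟩
    by_contra hac
    have h1 := (hI.b3 a ha c hc.1).1 (hT a haT c hcT hac)
    exact hnB c hc h1
  have hcov : T ⊆ ((T ∩ Nx G x) ∪ {a | a ∈ T ∧ MxI G x a}) ∪ {x, b, w₀} := by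
    intro v hv
    by_cases h1 : G.Adj x v
    · exact Or.inl (Or.inl ⟨hv, h1⟩)
    by_cases h2 : v = x
    · exact Or.inr (Or.inl h2)
    rcases hw₀ v ⟨h2, h1⟩ with h3 | h3 | h3
    · exact Or.inl (Or.inr ⟨hv, h3⟩)
    · exact Or.inr (Or.inr (Or.inl h3))
    · exact Or.inr (Or.inr (Or.inr h3))
  have hc1 : T.ncard ≤ ((T ∩ Nx G x).ncard + 1) + 3 := by
    refine (Set.ncard_le_ncard hcov (Set.toFinite _)).trans ((Set.ncard_union_le _ _).trans ?_)
    apply Nat.add_le_add
    · refine (Set.ncard_union_le _ _).trans (Nat.add_le_add_left ?_ _)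
      exact Set.ncard_le_one_iff_subsingleton.2 hTm
    · refine (Set.ncard_insert_le _ _).trans ?_
      have h1 : ({b, w₀} : Set V).ncard ≤ 2 := by
        refine (Set.ncard_insert_le _ _).trans ?_
        rw [Set.ncard_singleton]
      omega
  obtain ⟨T', hT'1, hT'2⟩ := Set.exists_subset_card_eq (s := T ∩ Nx G x) (n := h) (by omega)
  let J : Set V := {a | MxI G x a ∧ k a ∈ T'}
  have hkk : ∀ s, G.Adj x s → ∃ a, MxI G x a ∧ s = k a := by
    intro s hs
    rcases hI.m5 s hs with h1 | h1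
    · exact h1.elim
    · exact h1
  have hkM : ∀ a, MxI G x a → ∀ s, G.Adj x s → (G.Adj a s ↔ s ≠ k a) := by
    intro a ha s hs
    have h1 := (hI.m2 a ha).2.2
    constructor
    · rintro h2 rfl
      have : k a ∈ Ms G (Nx G x) a := by rw [h1]; exact Set.mem_insert _ _
      exact this.2 h2
    · intro h2
      by_contra h3
      have : s ∈ Ms G (Nx G x) a := ⟨hs, h3⟩
      rw [h1] at this
      rcases this with h4 | h4
      · exact h2 h4
      · exact h4
  have hrk1 : rk G T' (J ∪ T')ᶜ ≤ 1 := by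
    apply r5 _ _ Set.univ
    intro s hs
    left
    intro u hu
    refine ⟨fun _ => Set.mem_univ _, fun _ => ?_⟩
    have hsN : G.Adj x s := (hT'1 hs).2
    obtain ⟨a, ha, hsa⟩ := hkk s hsN
    have huT : u ∉ T' := fun h' => hu (Or.inr h')
    have huJ : u ∉ J := fun h' => hu (Or.inl h')
    by_cases h1 : u = x
    · rw [h1]
      exact G.adj_symm hsN
    by_cases h2 : G.Adj x u
    · refine hx.smp s hsN u h2 ?_
      rintro rfl
      exact huT hs
    · have huO : u ∈ Ox G x := ⟨h1, h2⟩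
      by_cases hum : MxI G x u
      · apply G.adj_symm
        rw [hkM u hum s hsN]
        intro h3
        apply huJ
        refine ⟨hum, ?_⟩
        rw [← h3]
        exact hs
      · by_contra h3
        have := hI.m4 u huO hum ⟨hsN, fun h' => h3 (G.adj_symm h')⟩
        exact this
  have hrk2 : rk G J (J ∪ T')ᶜ ≤ 1 := by
    apply r5 _ _ ({b} ∪ Nx G x)
    intro a ha
    left
    intro u hu
    have huT : u ∉ T' := fun h' => hu (Or.inr h')
    by_cases h1 : u = x
    · constructor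
      · intro h2
        rw [h1] at h2
        exact absurd (G.adj_symm h2) ha.1.1.2
      · rintro (h2 | h2)
        · rw [Set.mem_singleton_iff] at h2
          exact absurd (h2.symm.trans h1) (hI.b1 rfl).1
        · rw [h1] at h2
          exact (G.irrefl h2).elim
    by_cases h2 : G.Adj x u
    · refine ⟨fun _ => Or.inr h2, fun _ => ?_⟩
      rw [hkM a ha.1 u h2]
      rintro rfl
      exact huT ha.2
    · have huO : u ∈ Ox G x := ⟨h1, h2⟩
      rw [hI.b3 a ha.1 u huO]
      exact ⟨fun h3 => Or.inl h3, fun h3 => h3.resolve_right h2⟩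
  have hcr : cr G (J ∪ T') ≤ 5 := by
    have := r3 J T' (J ∪ T')ᶜ
    unfold cr
    omega
  rcases hU (J ∪ T') hcr with h1 | h1
  · have h2 : T' ⊆ T ∩ (J ∪ T') := fun s hs => ⟨(hT'1 hs).1, Or.inr hs⟩
    have := Set.ncard_le_ncard h2 (Set.toFinite _)
    omega
  · have h2 : (T ∩ Nx G x) \ T' ⊆ T \ (J ∪ T') := by
      rintro s ⟨⟨hs1, hs2⟩, hs3⟩
      refine ⟨hs1, ?_⟩
      rintro (h3 | h3)
      · exact h3.1.1.2 hs2
      · exact hs3 h3
    have h3 := Set.ncard_le_ncard h2 (Set.toFinite _)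
    have h4 := Set.ncard_sdiff_add_ncard_of_subset hT'1 (Set.toFinite _)
    omega

end Pool.Agent.MPd439b2.H3
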