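import Pool.Agent.Lib.MP_d439b2_co.H3.Spec

/-!
# MP_d439b2_co, H3: induced subgraphs
-/

set_option autoImplicit false

namespace Pool.Agent.MPd439b2.H3

open Pool.Agent.MPd439b2 Pool.Agent.MPd439b2.LK

private theorem in_conn {V : Type} (G : SimpleGraph V) (C : Set V) (A : Set C)
    (h : Conn (G.induce C) A) : Conn G (Subtype.val '' A) := by
  refine ⟨h.1.image _, ?_⟩
  intro B hB hne hneq
  have hBC : ∀ b ∈ B, ∃ c : C, c ∈ A ∧ c.1 = b := fun b hb => hB hb
  obtain ⟨b, hb, a, ha, hab⟩ := h.2 (Subtype.val ⁻¹' B) (by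
      intro c hc
      obtain ⟨c', hc', e⟩ := hBC c.1 hc
      have : c' = c := Subtype.ext e
      exact this ▸ hc') (by
      obtain ⟨b, hb⟩ := hne
      obtain ⟨c, _, e⟩ := hBC b hb
      exact ⟨c, by rw [Set.mem_preimage, e]; exact hb⟩) (by
      intro h1
      apply hneq
      apply Set.Subset.antisymm hB
      rintro _ ⟨c, hc, rfl⟩
      rw [← h1] at hc
      exact hc)
  exact ⟨b.1, hb, a.1, ⟨⟨a, ha.1, rfl⟩, fun h1 => ha.2 h1⟩, hab⟩

private theorem in_ims {V W : Type} (H : SimpleGraph W) (G : SimpleGraph V) (C : Set V)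
    (h : IMS H (G.induce C) Set.univ) : IMS H G Set.univ := by
  obtain ⟨B, _, h2, h3, h4⟩ := h
  refine ⟨fun w => Subtype.val '' (B w), fun w => Set.subset_univ _, fun w => in_conn G C _ (h2 w),
    ?_, ?_⟩
  · intro w w' hw
    exact (Set.disjoint_image_iff Subtype.val_injective).2 (h3 w w' hw)
  · intro w w' hw
    rw [h4 w w' hw]
    constructor
    · rintro ⟨a, ha, b, hb, hab⟩
      exact ⟨a.1, ⟨a, ha, rfl⟩, b.1, ⟨b, hb, rfl⟩, hab⟩
    · rintro ⟨_, ⟨a, ha, rfl⟩, _, ⟨b, hb, rfl⟩, hab⟩
      exact ⟨a, ha, b, hb, hab⟩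

private theorem row_congr {V V' : Type} (G : SimpleGraph V) (G' : SimpleGraph V') (B : Set V)
    (B' : Set V') (x y : V) (x' y' : V') (h : (y ∈ B ∧ G.Adj x y) ↔ (y' ∈ B' ∧ G'.Adj x' y')) :
    row G B x y = row G' B' x' y' := by
  unfold row
  by_cases h1 : y ∈ B ∧ G.Adj x y
  · rw [if_pos h1, if_pos (h.1 h1)]
  · rw [if_neg h1, if_neg (fun h2 => h1 (h.2 h2))]

open Classical in
/-- extension by zero -/
private noncomputable def inE {V : Type} (C : Set V) : (C → ZMod 2) →ₗ[ZMod 2] (V → ZMod 2) where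
  toFun f := fun v => if h : v ∈ C then f ⟨v, h⟩ else 0
  map_add' f g := by
    funext v
    by_cases h : v ∈ C
    · simp [h]
    · simp [h]
  map_smul' a f := by
    funext v
    by_cases h : v ∈ C
    · simp [h]
    · simp [h]

private theorem inE_inj {V : Type} (C : Set V) : Function.Injective (inE C) := by
  intro f g hfg
  funext c
  have h := congrFun hfg c.1
  simpa [inE] using h

private theorem inE_row {V : Type} (G : SimpleGraph V) (C : Set V) (X : Set C) (c : C) :
    inE C (row (G.induce C) Xᶜ c) = row G (C \ (Subtype.val '' X)) c.1 := by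
  classical
  funext v
  by_cases h : v ∈ C
  · have e : inE C (row (G.induce C) Xᶜ c) v = row (G.induce C) Xᶜ c ⟨v, h⟩ := by
      simp [inE, h]
    rw [e]
    refine row_congr _ _ _ _ _ _ _ _ (and_congr ?_ Iff.rfl)
    constructor
    · intro h1
      refine ⟨h, ?_⟩
      rintro ⟨c', hc', e'⟩
      apply h1
      have : c' = ⟨v, h⟩ := Subtype.ext e'
      exact this ▸ hc'
    · rintro ⟨_, h1⟩ h2
      exact h1 ⟨⟨v, h⟩, h2, rfl⟩
  · have e : inE C (row (G.induce C) Xᶜ c) v = 0 := by
      simp [inE, h]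
    rw [e]
    unfold row
    rw [if_neg (fun h1 => h h1.1.1)]

theorem pfIn : S_In := by
  intro V _ G C
  refine ⟨?_, ?_, ?_, ?_⟩
  · rintro ⟨h1, h2⟩
    exact ⟨fun h => h1 (in_ims _ G C h), fun h => h2 (in_ims _ G C h)⟩
  · intro X
    unfold cr rk
    have e : row G (C \ (Subtype.val '' X)) '' (Subtype.val '' X) =
        inE C '' (row (G.induce C) Xᶜ '' X) := by
      rw [Set.image_image, Set.image_image]
      refine Set.image_congr fun c _ => ?_
      exact (inE_row G C X c).symm
    rw [e, ← Submodule.map_span]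
    exact LinearEquiv.finrank_eq
      (Submodule.equivMapOfInjective (inE C) (inE_inj C) (Submodule.span (ZMod 2) _))
  · intro h A _ h2 h3
    rintro ⟨A₁, hA, B₁, hB, hAB⟩
    have hc : C \ (Subtype.val '' A) = Subtype.val '' (Set.univ \ A) := by
      ext v
      constructor
      · rintro ⟨hv, hv'⟩
        exact ⟨⟨v, hv⟩, ⟨trivial, fun h4 => hv' ⟨⟨v, hv⟩, h4, rfl⟩⟩, rfl⟩
      · rintro ⟨c, ⟨_, hc⟩, rfl⟩
        refine ⟨c.2, ?_⟩
        rintro ⟨c', hc', e⟩
        exact hc (Subtype.ext e ▸ hc')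
    refine h (Subtype.val '' A) ?_ ?_ ?_ ⟨Subtype.val '' A₁, Set.image_mono hA,
      Subtype.val '' B₁, ?_, ?_⟩
    · rintro _ ⟨c, _, rfl⟩
      exact c.2
    · rw [Set.ncard_image_of_injective _ Subtype.val_injective]
      exact h2
    · rw [hc, Set.ncard_image_of_injective _ Subtype.val_injective]
      exact h3
    · rw [hc]
      exact Set.image_mono hB
    · rw [hc]
      rintro _ ⟨a, ha, rfl⟩ _ ⟨b, hb, rfl⟩
      have e := hAB a ha b hb
      rw [Subtype.val_injective.mem_set_image, Subtype.val_injective.mem_set_image]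
      exact e
  · intro X u
    classical
    have : Fintype V := Fintype.ofFinite V
    unfold cr rk
    have hle : Submodule.span (ZMod 2) (row G Xᶜ '' X) ≤
        Submodule.span (ZMod 2) (row G (Xᶜ \ {u}) '' X) ⊔
          Submodule.span (ZMod 2) {(Pi.single u 1 : V → ZMod 2)} := by
      rw [Submodule.span_le]
      rintro _ ⟨x, hx, rfl⟩
      have e : row G Xᶜ x = row G (Xᶜ \ {u}) x + (row G Xᶜ x u) • (Pi.single u 1 : V → ZMod 2) := by
        funext v
        by_cases hv : v = u
        · subst hv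
          have e1 : row G (Xᶜ \ {v}) x v = 0 := by
            unfold row
            rw [if_neg (fun h1 => h1.1.2 rfl)]
          rw [Pi.add_apply, Pi.smul_apply, Pi.single_eq_same, e1]
          simp
        · have e1 : row G (Xᶜ \ {u}) x v = row G Xᶜ x v :=
            row_congr _ _ _ _ _ _ _ _
              ⟨fun h1 => ⟨h1.1.1, h1.2⟩, fun h1 => ⟨⟨h1.1, hv⟩, h1.2⟩⟩
          rw [Pi.add_apply, Pi.smul_apply, Pi.single_eq_of_ne hv, e1]
          simp
      rw [e]
      exact Submodule.add_mem_sup (Submodule.subset_span ⟨x, hx, rfl⟩)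
        (Submodule.smul_mem _ _ (Submodule.subset_span rfl))
    refine (Submodule.finrank_mono hle).trans ?_
    refine (Submodule.finrank_add_le_finrank_add_finrank _ _).trans ?_
    refine Nat.add_le_add_left ?_ _
    refine (finrank_span_le_card ({(Pi.single u 1 : V → ZMod 2)} : Set (V → ZMod 2))).trans ?_
    simp

end Pool.Agent.MPd439b2.H3
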