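import Pool.Agent.Lib.MP_d439b2_co.H3.Spec

/-!
# MP_d439b2_co, H3, statement `S_J0`: components of `O0`
-/

set_option autoImplicit false

namespace Pool.Agent.MPd439b2.H3

open Pool.Agent.MPd439b2 Pool.Agent.MPd439b2.LK

theorem pfJ0 : S_A0 → S_J0 := by
  intro hA0 V _ G x D hchd hsmp hconn hD
  obtain ⟨hDO, hDc, hDn⟩ := hD
  have hfirst : ∀ t ∈ nb G D, t ∈ Ox G x ∧ t ∉ O0 G x ∧ ∃ s ∈ Nx G x, G.Adj t s := by
    rintro t ⟨htD, d, hd, hdt⟩
    obtain ⟨⟨hdx, hxd⟩, hds⟩ := hDO hd
    have htx : t ≠ x := by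
      rintro rfl
      exact hxd hdt.symm
    have hxt : ¬ G.Adj x t := fun h => hds t h hdt
    have htO : t ∉ O0 G x := fun h => hDn t h ⟨htD, d, hd, hdt⟩
    refine ⟨⟨htx, hxt⟩, htO, ?_⟩
    by_contra hcon
    push Not at hcon
    exact htO ⟨⟨htx, hxt⟩, hcon⟩
  refine ⟨hfirst, ?_, ?_⟩
  · intro t ht t' ht' hne
    by_contra hadj
    obtain ⟨⟨htx, hxt⟩, htO, s, hs, hts⟩ := hfirst t ht
    obtain ⟨⟨htx', hxt'⟩, htO', s', hs', hts'⟩ := hfirst t' ht'
    obtain ⟨htD, d, hd, hdt⟩ := ht
    obtain ⟨htD', d', hd', hdt'⟩ := ht'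
    have hsD : ∀ v ∈ ({s, s'} : Set V), v ∉ D := by
      intro v hv hvD
      have h1 : ¬ G.Adj x v := (hDO hvD).1.2
      rcases hv with rfl | hv
      · exact h1 hs
      · rw [Set.mem_singleton_iff] at hv
        subst hv
        exact h1 hs'
    have hsN : ∀ v ∈ ({s, s'} : Set V), G.Adj x v := by
      intro v hv
      rcases hv with rfl | hv
      · exact hs
      · rw [Set.mem_singleton_iff] at hv
        subst hv
        exact hs'
    have hcs : Conn G {s, s'} := by
      by_cases hss : s = s'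
      · subst hss
        rw [Set.pair_eq_singleton]
        exact Conn.singleton G s
      · exact Conn.pair (hsmp s hs s' hs' hss)
    apply hchd
    apply hA0 V G {t} D {t'} {s, s'} (Conn.singleton G t) hDc (Conn.singleton G t') hcs
    · rw [Set.disjoint_singleton_left]
      exact htD
    · rw [Set.disjoint_singleton_left]
      exact fun h => hne h
    · rw [Set.disjoint_singleton_left]
      exact fun h => hxt (hsN t h)
    · rw [Set.disjoint_singleton_right]
      exact htD'
    · rw [Set.disjoint_right]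
      exact hsD
    · rw [Set.disjoint_singleton_left]
      exact fun h => hxt' (hsN t' h)
    · exact ⟨t, rfl, d, hd, hdt.symm⟩
    · exact ⟨d', hd', t', rfl, hdt'⟩
    · exact ⟨t', rfl, s', Or.inr rfl, hts'⟩
    · exact ⟨t, rfl, s, Or.inl rfl, hts⟩
    · rintro ⟨a, rfl, b, rfl, hab⟩
      exact hadj hab
    · rintro ⟨a, ha, b, hb, hab⟩
      exact (hDO ha).2 b (hsN b hb) hab
  · by_contra hcon
    rw [Set.not_nonempty_iff_eq_empty] at hcon
    have h1 : D = Set.univ := hconn.eq_of_nb (Set.subset_univ D) hDc.1 (by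
      intro v _ hv
      rw [hcon] at hv
      exact hv)
    have h2 : x ∈ D := by rw [h1]; exact Set.mem_univ x
    exact (hDO h2).1.1 rfl

end Pool.Agent.MPd439b2.H3
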