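import Pool.Agent.Lib.MP_d439b2_co.H3.Spec

/-!
# MP_d439b2_co, H3, statement `S_J1`: the rule (F0)
-/

set_option autoImplicit false

namespace Pool.Agent.MPd439b2.H3

open Pool.Agent.MPd439b2 Pool.Agent.MPd439b2.LK

theorem pfJ1 : S_M0 → S_J0 → S_J1 := by
  intro hM0 hJ0 V _ G x D Y t t' hcls hsmp hconn hD hY hYO hYn hYD hYs ht ht' hyt
  obtain ⟨hfirst, hcl, hne⟩ := hJ0 V G x D hcls.1 hsmp hconn hD
  obtain ⟨hDO, hDc, hDn⟩ := hD
  by_contra hcon
  push Not at hcon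
  have htt : t ≠ t' := by
    rintro rfl
    obtain ⟨y, hy, hyt⟩ := hyt
    exact hcon y hy hyt
  obtain ⟨⟨htx, hxt⟩, htO, s, hs, hts⟩ := hfirst t ht
  obtain ⟨⟨htx', hxt'⟩, htO', s', hs', hts'⟩ := hfirst t' ht'
  have hadj : G.Adj t t' := hcl t ht t' ht' htt
  have hNc : Conn G (Nx G x) := by
    refine ⟨⟨s, hs⟩, fun B hB hBne hBne' => ?_⟩
    obtain ⟨b, hb⟩ := hBne
    obtain ⟨c, hc, hcB⟩ : ∃ c ∈ Nx G x, c ∉ B := by
      by_contra h
      push Not at h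
      exact hBne' (Set.Subset.antisymm hB h)
    exact ⟨b, hb, c, ⟨hc, hcB⟩, hsmp b (hB hb) c hc (fun h => hcB (h ▸ hb))⟩
  apply hcls.2
  apply hM0 V G (Nx G x) {t} {t'} {x} Y D hNc (Conn.singleton G t) (Conn.singleton G t')
    (Conn.singleton G x) hY hDc
  · -- P0 P1
    rw [Set.disjoint_singleton_right]
    exact hxt
  · rw [Set.disjoint_singleton_right]
    exact hxt'
  · rw [Set.disjoint_singleton_right]
    exact fun h => htt h.symm
  · -- X P0
    rw [Set.disjoint_singleton_left]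
    exact fun h => G.loopless.irrefl x h
  · rw [Set.disjoint_singleton_left]
    exact fun h => htx h.symm
  · rw [Set.disjoint_singleton_left]
    exact fun h => htx' h.symm
  · -- Y P0
    rw [Set.disjoint_left]
    exact fun y hy h => (hYO hy).2 h
  · rw [Set.disjoint_singleton_right]
    exact fun h => Set.disjoint_left.mp hYn h ht
  · rw [Set.disjoint_singleton_right]
    exact fun h => Set.disjoint_left.mp hYn h ht'
  · -- Z P0
    rw [Set.disjoint_left]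
    exact fun d hd h => (hDO hd).1.2 h
  · rw [Set.disjoint_singleton_right]
    exact ht.1
  · rw [Set.disjoint_singleton_right]
    exact ht'.1
  · -- X Y
    rw [Set.disjoint_singleton_left]
    exact fun h => (hYO h).1 rfl
  · rw [Set.disjoint_singleton_left]
    exact fun h => (hDO h).1.1 rfl
  · exact hYD
  · exact ⟨s, hs, t, rfl, hts.symm⟩
  · exact ⟨s', hs', t', rfl, hts'.symm⟩
  · exact ⟨t, rfl, t', rfl, hadj⟩
  · -- X P0
    exact ⟨x, rfl, s, hs, hs⟩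
  · rintro ⟨a, rfl, b, rfl, hab⟩
    exact hxt hab
  · rintro ⟨a, rfl, b, rfl, hab⟩
    exact hxt' hab
  · -- Y P0
    obtain ⟨y, hy, s₀, hs₀, h⟩ := hYs
    exact ⟨y, hy, s₀, hs₀, h⟩
  · obtain ⟨y, hy, h⟩ := hyt
    exact ⟨y, hy, t, rfl, h⟩
  · rintro ⟨y, hy, b, rfl, hab⟩
    exact hcon y hy hab
  · -- Z P1
    obtain ⟨_, d, hd, hdt⟩ := ht
    exact ⟨d, hd, t, rfl, hdt⟩
  · obtain ⟨_, d, hd, hdt⟩ := ht'
    exact ⟨d, hd, t', rfl, hdt⟩
  · rintro ⟨d, hd, s₀, hs₀, hab⟩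
    exact (hDO hd).2 s₀ hs₀ hab
  · -- X Y
    rintro ⟨a, rfl, y, hy, hab⟩
    exact (hYO hy).2 hab
  · rintro ⟨a, rfl, d, hd, hab⟩
    exact (hDO hd).1.2 hab
  · rintro ⟨y, hy, d, hd, hab⟩
    have h1 : y ∉ D := Set.disjoint_left.mp hYD hy
    exact Set.disjoint_left.mp hYn hy ⟨h1, d, hd, hab.symm⟩

end Pool.Agent.MPd439b2.H3
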