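import Pool.Agent.Lib.MP_d439b2_co.H3.Spec

/-!
# MP_d439b2_co, H3 : J10, an unsplittable clique is not in `MD ∪ S1`
-/

set_option autoImplicit false

namespace Pool.Agent.MPd439b2.H3

open Pool.Agent.MPd439b2 Pool.Agent.MPd439b2.LK

private theorem j10_min {V : Type} [Finite V] (S : Set V) (f : V → Set V) (hne : S.Nonempty)
    (hn : ∀ s ∈ S, ∀ s' ∈ S, f s ⊆ f s' ∨ f s' ⊆ f s) : ∃ m ∈ S, ∀ s ∈ S, f m ⊆ f s := by
  obtain ⟨m, hm, hmin⟩ := Set.exists_min_image S (fun s => (f s).ncard) (Set.toFinite _) hne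
  refine ⟨m, hm, fun s hs => ?_⟩
  rcases hn m hm s hs with h | h
  · exact h
  · exact (Set.eq_of_subset_of_ncard_le h (hmin s hs) (Set.toFinite _)).symm.subset

private theorem j10_max {V : Type} [Finite V] (S : Set V) (f : V → Set V) (hne : S.Nonempty)
    (hn : ∀ s ∈ S, ∀ s' ∈ S, f s ⊆ f s' ∨ f s' ⊆ f s) : ∃ m ∈ S, ∀ s ∈ S, f s ⊆ f m := by
  obtain ⟨m, hm, hmax⟩ := Set.exists_max_image S (fun s => (f s).ncard) (Set.toFinite _) hne
  refine ⟨m, hm, fun s hs => ?_⟩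
  rcases hn m hm s hs with h | h
  · exact (Set.eq_of_subset_of_ncard_le h (hmax s hs) (Set.toFinite _)).symm.subset
  · exact h

private theorem j10_sub {V : Type} [Finite V] {S : Set V} (h : S.Subsingleton) : S.ncard ≤ 1 := by
  rw [Set.ncard_le_one (Set.toFinite _)]
  intro a ha b hb
  exact h ha hb

private theorem j10_cnt {V : Type} [Finite V] (T A B C D : Set V) (h : T ⊆ A ∪ B ∪ C ∪ D) :
    T.ncard ≤ A.ncard + B.ncard + C.ncard + D.ncard := by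
  have h1 := Set.ncard_le_ncard h (Set.toFinite _)
  have h2 := Set.ncard_union_le (A ∪ B ∪ C) D
  have h3 := Set.ncard_union_le (A ∪ B) C
  have h4 := Set.ncard_union_le A B
  omega

theorem pfJ10 : S_Q0 → S_Q9 → S_J0 → S_J4 → S_J6 → S_J7 → S_J8 → S_J9 → S_J10 := by
  intro hQ0 hQ9 hJ0 hJ4 hJ6 hJ7 hJ8 hJ9 V _ G x D T h hcls hsp hprm hsmp hconn hmx hT hU h1 hcard
  by_contra hcon
  push Not at hcon
  obtain ⟨-, -, j0c⟩ := hJ0 V G x D hcls.1 hsmp hconn hmx.1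
  obtain ⟨j4a, -, -⟩ := hJ4 V G x hcls hsmp hconn
  obtain ⟨j6a, -⟩ := hJ6 V G x D hcls hsp hsmp hconn hmx
  have hnest := j4a D hmx.1
  set f : V → Set V := fun t => At G (Nx G x) t with hf
  -- the smallest trace
  obtain ⟨tq, htq, hmin⟩ := j10_min (nb G D) f j0c hnest
  have hcov1 : MD G x D ∪ S1 G x D ⊆ Xt G x D tq ∪ Qt G x D tq ∪ f tq := by
    rintro v (hv | hv)
    · rcases hv with hv | ⟨D', hc, hn, hvD'⟩
      · by_cases hlt : f v ⊆ f tq
        · exact Or.inl (Or.inr (Or.inl ⟨hv, Set.Subset.antisymm hlt (hmin v hv)⟩))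
        · exact Or.inl (Or.inl (Or.inl ⟨hv, hmin v hv, hlt⟩))
      · by_cases hex : ∃ t' ∈ nb G D', f tq ⊂ f t'
        · exact Or.inl (Or.inl (Or.inr (Or.inl ⟨D', hc, hn, hvD', hex⟩)))
        · obtain ⟨-, -, t', ht'⟩ := hJ0 V G x D' hcls.1 hsmp hconn hc
          refine Or.inl (Or.inr (Or.inr ⟨D', hc, hn, hvD', ⟨t', ht', ?_⟩, ?_⟩))
          · refine Set.Subset.antisymm ?_ (hmin t' (hn ht'))
            by_contra hcc
            exact hex ⟨t', ht', hmin t' (hn ht'), hcc⟩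
          · intro t'' ht'' hlt
            exact hex ⟨t'', ht'', hlt⟩
    · by_cases hvt : G.Adj tq v
      · exact Or.inr ⟨hv.1, hvt⟩
      · exact Or.inl (Or.inl (Or.inr (Or.inr ⟨hv, hvt⟩)))
  have hQq : (Qt G x D tq).Subsingleton := hJ9 V G x D hcls hsp hsmp hconn hmx tq htq hmin
  have hAq : (f tq).Subsingleton := by
    intro s hs s' hs'
    refine j6a hprm s ⟨hs.1, tq, htq, hs.2⟩ s' ⟨hs'.1, tq, htq, hs'.2⟩ ?_
    intro t'' ht''
    exact ⟨fun _ => (hmin t'' ht'' hs').2, fun _ => (hmin t'' ht'' hs).2⟩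
  have hbig : h ≤ (T ∩ Xt G x D tq).ncard := by
    have hc := j10_cnt T (T \ (MD G x D ∪ S1 G x D)) (T ∩ Xt G x D tq) (Qt G x D tq) (f tq) (by
      intro v hv
      by_cases hvM : v ∈ MD G x D ∪ S1 G x D
      · rcases hcov1 hvM with (h' | h') | h'
        · exact Or.inl (Or.inl (Or.inr ⟨hv, h'⟩))
        · exact Or.inl (Or.inr h')
        · exact Or.inr h'
      · exact Or.inl (Or.inl (Or.inl ⟨hv, hvM⟩)))
    have h2 := j10_sub hQq
    have h3 := j10_sub hAq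
    omega
  -- the largest trace with a large cut
  obtain ⟨t, ⟨ht, htbig⟩, htmax⟩ := j10_max {t | t ∈ nb G D ∧ h ≤ (T ∩ Xt G x D t).ncard} f
    ⟨tq, htq, hbig⟩ (fun s hs s' hs' => hnest s hs.1 s' hs'.1)
  have hne : (T ∩ Xt G x D t).Nonempty := by
    rw [Set.nonempty_iff_ne_empty]
    intro he
    rw [he, Set.ncard_empty] at htbig
    omega
  have hex : ({t' | t' ∈ nb G D ∧ f t ⊂ f t'} : Set V).Nonempty := by
    obtain ⟨v, -, hv⟩ := hne
    rcases hv with hv | ⟨D', hc, hn, hvD', t', ht', hlt⟩ | ⟨⟨hvN, t', ht', hadj⟩, hvt⟩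
    · exact ⟨v, hv⟩
    · exact ⟨t', hn ht', hlt⟩
    · refine ⟨t', ht', ?_⟩
      have hnot : ¬ f t' ⊆ f t := fun hs => hvt (hs ⟨hvN, hadj⟩).2
      rcases hnest t ht t' ht' with h' | h'
      · exact ⟨h', hnot⟩
      · exact absurd h' hnot
  obtain ⟨tp, ⟨htp, hlt⟩, hpmin⟩ := j10_min {t' | t' ∈ nb G D ∧ f t ⊂ f t'} f hex
    (fun s hs s' hs' => hnest s hs.1 s' hs'.1)
  have hsmall : (T ∩ Xt G x D tp).ncard < h := by
    by_contra hcc
    push Not at hcc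
    exact hlt.2 (htmax tp ⟨htp, hcc⟩)
  have hout : (T \ Xt G x D t).ncard < h := by
    have hcr := hJ7 V G x D hcls hsp hsmp hconn hmx t ht
    rcases hU (Xt G x D t) (by omega) with h' | h'
    · omega
    · exact h'
  have heq : ∀ v ∈ nb G D, f t ⊂ f v → ¬ f tp ⊂ f v → f v = f tp := by
    intro v hv hv1 hv2
    have h' := hpmin v ⟨hv, hv1⟩
    refine Set.Subset.antisymm ?_ h'
    by_contra hcc
    exact hv2 ⟨h', hcc⟩
  set P : Set V := {v | v ∈ S1 G x D ∧ ¬ G.Adj t v ∧ G.Adj tp v} with hP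
  have hcov2 : Xt G x D t ⊆ Xt G x D tp ∪ Qt G x D tp ∪ P := by
    intro v hv
    rcases hv with ⟨hvn, hv1⟩ | ⟨D', hc, hn, hvD', t', ht', hlt'⟩ | ⟨hvS, hvt⟩
    · by_cases hv2 : f tp ⊂ f v
      · exact Or.inl (Or.inl (Or.inl ⟨hvn, hv2⟩))
      · exact Or.inl (Or.inr (Or.inl ⟨hvn, heq v hvn hv1 hv2⟩))
    · by_cases hex' : ∃ t'' ∈ nb G D', f tp ⊂ f t''
      · exact Or.inl (Or.inl (Or.inr (Or.inl ⟨D', hc, hn, hvD', hex'⟩)))
      · refine Or.inl (Or.inr (Or.inr ⟨D', hc, hn, hvD', ⟨t', ht', ?_⟩, ?_⟩))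
        · exact heq t' (hn ht') hlt' (fun hcc => hex' ⟨t', ht', hcc⟩)
        · intro t'' ht'' hcc
          exact hex' ⟨t'', ht'', hcc⟩
    · by_cases hvp : G.Adj tp v
      · exact Or.inr ⟨hvS, hvt, hvp⟩
      · exact Or.inl (Or.inl (Or.inr (Or.inr ⟨hvS, hvp⟩)))
  have hPs : P.Subsingleton := by
    rintro v ⟨hvS, hvt, hvp⟩ v' ⟨hvS', hvt', hvp'⟩
    refine j6a hprm v hvS v' hvS' ?_
    intro t'' ht''
    by_cases hle : f t'' ⊆ f t
    · constructor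
      · intro hadj
        exact absurd (hle ⟨hvS.1, hadj⟩).2 hvt
      · intro hadj
        exact absurd (hle ⟨hvS'.1, hadj⟩).2 hvt'
    · have hlt'' : f t ⊂ f t'' := by
        rcases hnest t ht t'' ht'' with h' | h'
        · exact ⟨h', hle⟩
        · exact absurd h' hle
      have hp := hpmin t'' ⟨ht'', hlt''⟩
      exact ⟨fun _ => (hp ⟨hvS'.1, hvp'⟩).2, fun _ => (hp ⟨hvS.1, hvp⟩).2⟩
  have hQbig : h ≤ (T ∩ Qt G x D tp).ncard := by
    have hc := j10_cnt T (T \ Xt G x D t) (T ∩ Xt G x D tp) (T ∩ Qt G x D tp) P (by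
      intro v hv
      by_cases hvX : v ∈ Xt G x D t
      · rcases hcov2 hvX with (h' | h') | h'
        · exact Or.inl (Or.inl (Or.inr ⟨hv, h'⟩))
        · exact Or.inl (Or.inr ⟨hv, h'⟩)
        · exact Or.inr h'
      · exact Or.inl (Or.inl (Or.inl ⟨hv, hvX⟩)))
    have h2 := j10_sub hPs
    omega
  have hrp : RPc G (Nx G x) (Qt G x D tp) :=
    hJ8 V G x D hcls hprm hsmp hconn hmx tp htp t ht hlt
  have hcr := hQ0 V G (Nx G x) (Qt G x D tp) hrp
  have hfin := hQ9 V G T h hT hU h1 hcard (Nx G x) (Qt G x D tp) hrp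
  rcases hU (Qt G x D tp) (by omega) with h' | h'
  · omega
  · omega

end Pool.Agent.MPd439b2.H3
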