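import Pool.Agent.Lib.MP_d439b2_co.H3.Spec

/-!
# MP_d439b2_co, H3/J11: Case II, the component of `D` outside `MD`
-/

set_option autoImplicit false

namespace Pool.Agent.MPd439b2.H3

open Pool.Agent.MPd439b2 Pool.Agent.MPd439b2.LK

namespace J11

variable {V : Type} {G : SimpleGraph V}

/-- A connected set which meets a component is contained in it. -/
theorem sub_comp {X Γ D : Set V} (hΓ : IsComp G X Γ) (hD : Conn G D) (hDX : D ⊆ X)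
    (h : ∃ d ∈ D, d ∈ Γ) : D ⊆ Γ := by
  obtain ⟨d, hd, hdΓ⟩ := h
  have h1 := hD.eq_of_nb (C := D ∩ Γ) Set.inter_subset_left ⟨d, hd, hdΓ⟩ (by
    intro v hv hvn
    obtain ⟨hv1, c, hc, hcv⟩ := hvn
    exact hΓ.2.2 v (hDX hv) ⟨fun h2 => hv1 ⟨hv, h2⟩, c, hc.2, hcv⟩)
  rw [← h1]
  exact Set.inter_subset_right

end J11

open J11

theorem pfJ11 : S_M0 → S_A7 → S_J0 → S_J3 → S_J4 → S_J5 → S_J11 := by
  intro hM0 hA7 hJ0 hJ3 hJ4 hJ5 V _ G x D Γ hcls hspo hsmp hconn hmxl hΓ hDΓ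
  obtain ⟨h01, h02, h03⟩ := hJ0 V G x D hcls.1 hsmp hconn hmxl.1
  obtain ⟨h31, h32⟩ := hJ3 V G x D hcls hsmp hconn hmxl
  obtain ⟨-, h42, -⟩ := hJ4 V G x hcls hsmp hconn
  obtain ⟨h51, h52⟩ := hJ5 V G x D hcls hspo hsmp hconn hmxl
  have hnbΓ : ∀ t ∈ nb G D, t ∈ Γ := by
    intro t ht
    obtain ⟨d, hd, hdt⟩ := ht.2
    by_contra hcon
    exact hΓ.2.2 t (h01 t ht).1 ⟨hcon, d, hDΓ hd, hdt⟩
  have hMDΓ : MD G x D ⊆ Γ := by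
    rintro v (hv | ⟨D', hD', hn, hv⟩)
    · exact hnbΓ v hv
    · obtain ⟨-, -, t', ht'⟩ := hJ0 V G x D' hcls.1 hsmp hconn hD'
      have ht'Γ := hnbΓ t' (hn ht')
      obtain ⟨-, d, hd, hdt⟩ := ht'
      have hDO : D' ⊆ Ox G x := fun w hw => (hD'.1 hw).1
      refine sub_comp hΓ hD'.2.1 hDO ⟨d, hd, ?_⟩ hv
      by_contra hcon
      exact hΓ.2.2 d (hDO hd) ⟨hcon, t', ht'Γ, hdt.symm⟩
  refine ⟨hMDΓ, ?_⟩
  intro c hc hcM s₀ hs₀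
  by_contra hcs₀
  -- the sets
  obtain ⟨Γ', hΓ'⟩ : ∃ Γ' : Set V, ∀ v, v ∈ Γ' ↔ v ∈ Γ ∧ v ∉ MD G x D ∧
      ∀ s ∈ S1 G x D, G.Adj v s := ⟨{v | v ∈ Γ ∧ v ∉ MD G x D ∧ ∀ s ∈ S1 G x D, G.Adj v s},
    fun v => Iff.rfl⟩
  obtain ⟨Z, hZ⟩ : ∃ Z : Set V, ∀ v, v ∈ Z ↔ v ∈ MD G x D ∨ ∃ R, IsComp G Γ' R ∧ v ∈ R ∧
      ∃ c₁ ∈ R, ∀ t ∈ nb G D, G.Adj c₁ t := ⟨{v | v ∈ MD G x D ∨ ∃ R, IsComp G Γ' R ∧ v ∈ R ∧
      ∃ c₁ ∈ R, ∀ t ∈ nb G D, G.Adj c₁ t}, fun v => Iff.rfl⟩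
  have hDM : D ⊆ MD G x D := fun v hv => Or.inr ⟨D, hmxl.1, subset_rfl, hv⟩
  have hZΓ : Z ⊆ Γ := by
    intro v hv
    rcases (hZ v).mp hv with h | ⟨R, hR, hvR, -⟩
    · exact hMDΓ h
    · exact ((hΓ' v).mp (hR.1 hvR)).1
  have hZne : Z ≠ Γ := by
    intro h
    have h1 : c ∈ Z := by
      rw [h]
      exact hc
    rcases (hZ c).mp h1 with h2 | ⟨R, hR, hvR, -⟩
    · exact hcM h2
    · exact hcs₀ (((hΓ' c).mp (hR.1 hvR)).2.2 s₀ hs₀)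
  have hZn : Z.Nonempty := by
    obtain ⟨d, hd⟩ := hmxl.1.2.1.1
    exact ⟨d, (hZ d).mpr (Or.inl (hDM hd))⟩
  obtain ⟨p, hp, u, ⟨huΓ, huZ⟩, hpu⟩ := hΓ.2.1.2 Z hZΓ hZn hZne
  have huM : u ∉ MD G x D := fun h => huZ ((hZ u).mpr (Or.inl h))
  have huO : u ∈ Ox G x := hΓ.1 huΓ
  have hpM : p ∉ MD G x D := by
    intro h
    have hpn : p ∈ nb G D := by
      by_contra h1
      exact h31 u huM p h h1 hpu.symm
    have hcomp : ∀ t ∈ nb G D, G.Adj u t := by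
      rcases h32 u huO huM with h1 | h1
      · exact h1
      · exact absurd hpu.symm (h1 p hpn)
    have huΓ' : u ∈ Γ' := (hΓ' u).mpr ⟨huΓ, huM, h51 u huO huM hcomp⟩
    obtain ⟨R, hR1, hR2, hR3, hR4⟩ := exists_comp G huΓ'
    exact huZ ((hZ u).mpr (Or.inr ⟨R, ⟨hR1, hR3, hR4⟩, hR2, u, hR2, hcomp⟩))
  obtain ⟨R, hR, hpR, c₁, hc₁, hc₁n⟩ : ∃ R, IsComp G Γ' R ∧ p ∈ R ∧
      ∃ c₁ ∈ R, ∀ t ∈ nb G D, G.Adj c₁ t := by
    rcases (hZ p).mp hp with h | h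
    · exact absurd h hpM
    · exact h
  have huR : u ∉ R := fun h => huZ ((hZ u).mpr (Or.inr ⟨R, hR, h, c₁, hc₁, hc₁n⟩))
  have huΓ' : u ∉ Γ' := fun h => hR.2.2 u h ⟨huR, p, hpR, hpu⟩
  have huS : ∀ s ∈ S1 G x D, ¬ G.Adj u s := by
    rcases h52 u huO huM with h | h
    · exact absurd ((hΓ' u).mpr ⟨huΓ, huM, h⟩) huΓ'
    · exact h
  have hun : ∀ t ∈ nb G D, ¬ G.Adj u t := by
    rcases h32 u huO huM with h | h
    · exact absurd (h51 u huO huM h s₀ hs₀) (huS s₀ hs₀)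
    · exact h
  -- the other vertices
  obtain ⟨a, ha, b, hb, hab⟩ := h42 hspo D hmxl
  obtain ⟨s, hsa, hsb⟩ := Set.exists_of_ssubset hab
  have hsN : s ∈ Nx G x := hsa.1
  have hsa' : G.Adj a s := hsa.2
  have hsb' : ¬ G.Adj b s := fun h => hsb ⟨hsN, h⟩
  have hsS : s ∈ S1 G x D := ⟨hsN, a, ha, hsa'⟩
  obtain ⟨d, hd, hdn⟩ := hA7 V G (nb G D) D hcls.1 hmxl.1.2.1 h02
    (Set.disjoint_left.mpr fun t ht htD => ht.1 htD) (fun t ht => ht)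
  have hdM : d ∈ MD G x D := hDM hd
  have hdO0 : d ∈ O0 G x := hmxl.1.1 hd
  have hdn' : d ∉ nb G D := fun h => h.1 hd
  have hRΓ : ∀ w ∈ R, w ∈ Γ ∧ w ∉ MD G x D ∧ ∀ s ∈ S1 G x D, G.Adj w s := fun w hw =>
    (hΓ' w).mp (hR.1 hw)
  have haM : a ∈ MD G x D := Or.inl ha
  have hbM : b ∈ MD G x D := Or.inl hb
  have hne : a ≠ b := by
    intro h
    rw [h] at hab
    exact (ssubset_irrefl _) hab
  have hsO : ∀ w ∈ Ox G x, w ≠ s := by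
    rintro w hw rfl
    exact hw.2 hsN
  have tch1 : ∀ v w : V, Tch G {v} {w} ↔ G.Adj v w := by
    intro v w
    constructor
    · rintro ⟨v', hv', w', hw', h⟩
      rw [Set.mem_singleton_iff] at hv' hw'
      rwa [hv', hw'] at h
    · intro h
      exact ⟨v, rfl, w, rfl, h⟩
  have dis1 : ∀ v w : V, v ≠ w → Disjoint ({v} : Set V) {w} := fun v w h =>
    Set.disjoint_singleton.mpr h
  have disR : ∀ v : V, v ∉ R → Disjoint ({v} : Set V) R := fun v h =>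
    Set.disjoint_singleton_left.mpr h
  refine hcls.2 (hM0 V G R {a} {b} {u} {s} {d} hR.2.1 (Conn.singleton G a) (Conn.singleton G b)
    (Conn.singleton G u) (Conn.singleton G s) (Conn.singleton G d)
    (disR a fun h => (hRΓ a h).2.1 haM).symm (disR b fun h => (hRΓ b h).2.1 hbM).symm
    (dis1 a b hne) (disR u huR) (dis1 u a fun h => huM (h ▸ haM))
    (dis1 u b fun h => huM (h ▸ hbM)) (disR s fun h => hsO s (hΓ.1 (hRΓ s h).1) rfl)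
    (dis1 s a (hsO a (h01 a ha).1).symm) (dis1 s b (hsO b (h01 b hb).1).symm)
    (disR d fun h => (hRΓ d h).2.1 hdM) (dis1 d a fun h => hdn' (h ▸ ha))
    (dis1 d b fun h => hdn' (h ▸ hb)) (dis1 u s (hsO u huO)) (dis1 u d fun h => huM (h ▸ hdM))
    (dis1 s d (hsO d hdO0.1).symm) ⟨c₁, hc₁, a, rfl, hc₁n a ha⟩ ⟨c₁, hc₁, b, rfl, hc₁n b hb⟩
    ((tch1 a b).mpr (h02 a ha b hb hne)) ⟨u, rfl, p, hpR, hpu.symm⟩
    (fun h => hun a ha ((tch1 u a).mp h)) (fun h => hun b hb ((tch1 u b).mp h))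
    ⟨s, rfl, c₁, hc₁, ((hRΓ c₁ hc₁).2.2 s hsS).symm⟩ ((tch1 s a).mpr hsa'.symm)
    (fun h => hsb' ((tch1 s b).mp h).symm) ((tch1 d a).mpr (hdn a ha)) ((tch1 d b).mpr (hdn b hb))
    ?_ (fun h => huS s hsS ((tch1 u s).mp h))
    (fun h => h31 u huM d hdM hdn' ((tch1 u d).mp h))
    (fun h => hdO0.2 s hsN ((tch1 s d).mp h).symm))
  rintro ⟨d', hd', w, hw, h⟩
  rw [Set.mem_singleton_iff] at hd'
  rw [hd'] at h
  exact h31 w (hRΓ w hw).2.1 d hdM hdn' h.symm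

end Pool.Agent.MPd439b2.H3
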