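import Pool.Agent.Lib.MP_d439b2_co.H3.Spec

/-!
# MP_d439b2_co, H3: J13
-/

set_option autoImplicit false

namespace Pool.Agent.MPd439b2.H3

open Pool.Agent.MPd439b2 Pool.Agent.MPd439b2.LK

private theorem comp_of_sub {V : Type} {G : SimpleGraph V} {X D : Set V} (hD : Conn G D)
    (hDX : D ⊆ X) : ∃ Γ, IsComp G X Γ ∧ D ⊆ Γ := by
  obtain ⟨d, hd⟩ := hD.1
  obtain ⟨Γ, h1, h2, h3, h4⟩ := exists_comp G (hDX hd)
  refine ⟨Γ, ⟨h1, h3, h4⟩, ?_⟩
  have h5 : Γ ∩ D = D := by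
    refine hD.eq_of_nb Set.inter_subset_right ⟨d, h2, hd⟩ fun v hv hvn => ?_
    obtain ⟨hv1, a, ha, hav⟩ := hvn
    exact h4 v (hDX hv) ⟨fun h => hv1 ⟨h, hv⟩, a, ha.1, hav⟩
  intro v hv
  rw [← h5] at hv
  exact hv.1

/-- **J13.** Two pieces cover everything. -/
theorem pfJ13 : S_Sm → S_J0 → S_J3 → S_J11 → S_J12 → S_J13 := by
  intro hSm hJ0 hJ3 hJ11 hJ12 V _ G x D hcls hspo hprm hsmp hconn hmx
  obtain ⟨j0, j0c, j0n⟩ := hJ0 V G x D hcls.1 hsmp hconn hmx.1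
  obtain ⟨j3a, j3b⟩ := hJ3 V G x D hcls hsmp hconn hmx
  obtain ⟨z, hzD, hz⟩ := hSm V G D hcls.1 hmx.1.2.1 j0c
  obtain ⟨D', hmx', hsub, hcomp⟩ := hJ12 V G x z D hcls hsmp hconn hmx hzD hz
  obtain ⟨k0, k0c, k0n⟩ := hJ0 V G z D' hcls.1 hz hconn hmx'.1
  obtain ⟨k3a, k3b⟩ := hJ3 V G z D' hcls hz hconn hmx'
  refine ⟨z, D', hz, hmx', ?_⟩
  have hDMD : D ⊆ MD G x D := fun d hd => Or.inr ⟨D, hmx.1, subset_rfl, hd⟩
  have hnbMD : nb G D ⊆ MD G x D := fun d hd => Or.inl hd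
  have key : ∀ c, c ∉ MD G x D → c ∉ MD G z D' →
      (∀ t ∈ nb G D, G.Adj c t) ∧ ∀ t ∈ nb G D', G.Adj c t := by
    intro c hc hc'
    have hcx : c ∈ Ox G x :=
      ⟨fun h => hc' (hsub (Or.inl h)), fun h => hc' (hsub (Or.inr h))⟩
    obtain ⟨Γ, g1, g2, g3, g4⟩ := exists_comp G hcx
    have hΓ : IsComp G (Ox G x) Γ := ⟨g1, g3, g4⟩
    have hDΓ : D ⊆ Γ := by
      by_contra h
      exact hc' (hcomp Γ hΓ h g2)
    obtain ⟨l1, l2⟩ := hJ11 V G x D Γ hcls hspo hsmp hconn hmx hΓ hDΓ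
    obtain ⟨t, ht⟩ := j0n
    obtain ⟨s, hs, hts⟩ := (j0 t ht).2.2
    have hs1 : s ∈ S1 G x D := ⟨hs, t, ht, hts⟩
    have hcs : G.Adj c s := l2 c g2 hc s hs1
    have hcz : c ∈ Ox G z := by
      refine ⟨fun h => hc (h ▸ hDMD hzD), fun h => ?_⟩
      by_cases h1 : c ∈ D
      · exact hc (hDMD h1)
      · exact hc (hnbMD ⟨h1, z, hzD, h⟩)
    have hD'Ox : D' ⊆ Ox G z := fun d hd => (hmx'.1.1 hd).1
    obtain ⟨Γ', hΓ', hDΓ'⟩ := comp_of_sub hmx'.1.2.1 hD'Ox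
    obtain ⟨m1, m2⟩ := hJ11 V G z D' Γ' hcls hspo hz hconn hmx' hΓ' hDΓ'
    have hsMD : s ∈ MD G z D' := hsub (Or.inr hs)
    have hcΓ' : c ∈ Γ' := by
      by_contra h
      exact hΓ'.2.2 c hcz ⟨h, s, m1 hsMD, hcs.symm⟩
    obtain ⟨t', ht'⟩ := k0n
    obtain ⟨m, hm, htm⟩ := (k0 t' ht').2.2
    have hcm : G.Adj c m := m2 c hcΓ' hc' m ⟨hm, t', ht', htm⟩
    have hmnb : m ∈ nb G D := by
      by_cases h1 : m ∈ D
      · exact absurd hcm (j3a c hc m (hDMD h1) fun h => h.1 h1)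
      · exact ⟨h1, z, hzD, hm⟩
    have hsnb : s ∈ nb G D' := by
      by_contra h
      exact k3a c hc' s hsMD h hcs
    refine ⟨?_, ?_⟩
    · rcases j3b c hcx hc with h | h
      · exact h
      · exact absurd hcm (h m hmnb)
    · rcases k3b c hcz hc' with h | h
      · exact h
      · exact absurd hcs (h s hsnb)
  refine hprm _ ?_ ?_
  · intro h
    have hx : x ∈ {v | v ∉ MD G x D ∧ v ∉ MD G z D'} := by rw [h]; trivial
    exact hx.2 (hsub (Or.inl rfl))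
  · intro v _ hv
    have hv' : v ∈ MD G x D ∨ v ∈ MD G z D' := by
      by_contra h
      push Not at h
      exact hv h
    rcases hv' with h | h
    · by_cases h1 : v ∈ nb G D
      · left
        rintro c ⟨hc, hc'⟩
        exact ((key c hc hc').1 v h1).symm
      · right
        rintro c ⟨hc, hc'⟩ h2
        exact j3a c hc v h h1 h2.symm
    · by_cases h1 : v ∈ nb G D'
      · left
        rintro c ⟨hc, hc'⟩
        exact ((key c hc hc').2 v h1).symm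
      · right
        rintro c ⟨hc, hc'⟩ h2
        exact k3a c hc' v h h1 h2.symm

end Pool.Agent.MPd439b2.H3
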