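import Pool.Agent.Lib.MP_d439b2_co.H3.Spec

/-!
# MP_d439b2_co, H3, statement `S_J3`: the outside of `MD`
-/

set_option autoImplicit false

namespace Pool.Agent.MPd439b2.H3

open Pool.Agent.MPd439b2 Pool.Agent.MPd439b2.LK

theorem pfJ3 : S_J0 → S_J1 → S_J2 → S_J3 := by
  intro hJ0 hJ1 hJ2 V _ G x D hcls hsmp hconn hM
  obtain ⟨hD, hmax⟩ := hM
  obtain ⟨hfirst, hcl, hne⟩ := hJ0 V G x D hcls.1 hsmp hconn hD
  constructor
  · rintro w hw m hm hmn hadj
    rcases hm with hm | ⟨D', hD', hsub, hmD⟩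
    · exact hmn hm
    · by_cases hwD : w ∈ D'
      · exact hw (Or.inr ⟨D', hD', hsub, hwD⟩)
      · exact hw (Or.inl (hsub ⟨hwD, m, hmD, hadj.symm⟩))
  · intro w hwO hw
    by_cases hwO0 : w ∈ O0 G x
    · right
      intro t ht hadj
      obtain ⟨D'', hsub, hwD, hc, hn⟩ := exists_comp G hwO0
      have hcomp : Cp G x D'' := ⟨hsub, hc, hn⟩
      obtain ⟨_, htO0, _⟩ := hfirst t ht
      have htD'' : t ∈ nb G D'' := ⟨fun h => htO0 (hsub h), w, hwD, hadj⟩
      have h1 : nb G D'' ⊆ nb G D := by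
        rcases hJ2 V G x D D'' t hcls hsmp hconn hD hcomp ht htD'' with h | h
        · exact hmax D'' hcomp h
        · exact h
      exact hw (Or.inr ⟨D'', hcomp, h1, hwD⟩)
    · have hs : ∃ s ∈ Nx G x, G.Adj w s := by
        by_contra h
        push Not at h
        exact hwO0 ⟨hwO, h⟩
      obtain ⟨s, hs, hws⟩ := hs
      by_cases hex : ∃ t ∈ nb G D, G.Adj w t
      · left
        obtain ⟨t, ht, hwt⟩ := hex
        intro t' ht'
        obtain ⟨y, hy, hyt⟩ := hJ1 V G x D {w} t t' hcls hsmp hconn hD (Conn.singleton G w)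
          (by rw [Set.singleton_subset_iff]; exact hwO)
          (by rw [Set.disjoint_singleton_left]; exact fun h => hw (Or.inl h))
          (by rw [Set.disjoint_singleton_left]; exact fun h => hwO0 (hD.1 h))
          ⟨w, rfl, s, hs, hws⟩ ht ht' ⟨w, rfl, hwt⟩
        rw [Set.mem_singleton_iff] at hy
        subst hy
        exact hyt
      · right
        push Not at hex
        exact hex

end Pool.Agent.MPd439b2.H3
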