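import Pool.Agent.Lib.MP_d439b2_co.H3.Spec

/-!
# MP_d439b2_co, H3, J4: traces on `Nx G x` (helper46)
-/

set_option autoImplicit false

namespace Pool.Agent.MPd439b2.H3

open Pool.Agent.MPd439b2 Pool.Agent.MPd439b2.LK

private theorem j4_ts {V : Type} {G : SimpleGraph V} {a b : V} : Tch G {a} {b} ↔ G.Adj a b := by
  constructor
  · rintro ⟨p, hp, q, hq, h⟩
    rw [Set.mem_singleton_iff] at hp hq
    rw [← hp, ← hq]
    exact h
  · exact fun h => ⟨a, rfl, b, rfl, h⟩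

private theorem j4_nts {V : Type} {G : SimpleGraph V} {a b : V} (h : ¬ G.Adj a b) :
    ¬ Tch G {a} {b} := fun h' => h (j4_ts.mp h')

private theorem j4_ds {V : Type} {a b : V} (h : a ≠ b) : Disjoint ({a} : Set V) {b} :=
  Set.disjoint_singleton.mpr h

private theorem j4_dl {V : Type} {a : V} {R : Set V} (h : a ∉ R) : Disjoint ({a} : Set V) R :=
  Set.disjoint_singleton_left.mpr h

private theorem j4_1 (hR0 : S_R0) (hJ0 : S_J0) (V : Type) [Finite V] (G : SimpleGraph V) (x : V)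
    (hc : Cls3 G) (hs : Smp G x) (hG : Conn G Set.univ) (D : Set V) (hD : Cp G x D) :
    ∀ t ∈ nb G D, ∀ t' ∈ nb G D,
      At G (Nx G x) t ⊆ At G (Nx G x) t' ∨ At G (Nx G x) t' ⊆ At G (Nx G x) t := by
  intro t ht t' ht'
  obtain ⟨h1, h2, _⟩ := hJ0 V G x D hc.1 hs hG hD
  by_cases htt : t = t'
  · subst htt
    exact Or.inl fun _ h => h
  have hadj : G.Adj t t' := h2 t ht t' ht' htt
  have key : ∀ u w : V, Ms G (Nx G x) u ⊆ Ms G (Nx G x) w → At G (Nx G x) w ⊆ At G (Nx G x) u := by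
    intro u w h s hs
    refine ⟨hs.1, ?_⟩
    by_contra hn
    exact (h (show s ∈ Ms G (Nx G x) u from ⟨hs.1, hn⟩)).2 hs.2
  rcases hR0 V G (Nx G x) t t' hc.1 hs (fun h => (h1 t ht).1.2 h) (fun h => (h1 t' ht').1.2 h)
    hadj with h | h
  · exact Or.inr (key _ _ h)
  · exact Or.inl (key _ _ h)

private theorem j4_md (hJ0 : S_J0) (V : Type) [Finite V] (G : SimpleGraph V) (x : V)
    (hc : Cls3 G) (hs : Smp G x) (hG : Conn G Set.univ) (D : Set V) (hD : Cp G x D) :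
    ∀ m ∈ MD G x D, m ∈ Ox G x := by
  rintro m (hm | ⟨D', hD', _, hm⟩)
  · exact ((hJ0 V G x D hc.1 hs hG hD).1 m hm).1
  · exact (hD'.1 hm).1

private theorem j4_2 (hR0 : S_R0) (hJ0 : S_J0) (hJ3 : S_J3) (V : Type) [Finite V]
    (G : SimpleGraph V) (x : V) (hc : Cls3 G) (hs : Smp G x) (hG : Conn G Set.univ)
    (hsp : SPo G Set.univ) (D : Set V) (hD : Mxl G x D) :
    ∃ t ∈ nb G D, ∃ t' ∈ nb G D, At G (Nx G x) t' ⊂ At G (Nx G x) t := by
  classical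
  by_contra hcon
  have hnest := j4_1 hR0 hJ0 V G x hc hs hG D hD.1
  have heq : ∀ t ∈ nb G D, ∀ t' ∈ nb G D, At G (Nx G x) t = At G (Nx G x) t' := by
    intro t ht t' ht'
    by_contra hne
    rcases hnest t ht t' ht' with h | h
    · exact hcon ⟨t', ht', t, ht, h.ssubset_of_ne hne⟩
    · exact hcon ⟨t, ht, t', ht', h.ssubset_of_ne (Ne.symm hne)⟩
  obtain ⟨h1, h2, t₀, ht₀⟩ := hJ0 V G x D hc.1 hs hG hD.1
  obtain ⟨h3, h4⟩ := hJ3 V G x D hc hs hG hD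
  have hmd := j4_md hJ0 V G x hc hs hG D hD.1
  have hxmd : x ∉ MD G x D := fun h => (hmd x h).1 rfl
  have hsmd : ∀ s ∈ Nx G x, s ∉ MD G x D := fun s hs h => (hmd s h).2 hs
  obtain ⟨s₀, hs₀, hts₀⟩ := (h1 t₀ ht₀).2.2
  have hDmd : ∀ d ∈ D, d ∈ MD G x D := fun d hd => Or.inr ⟨D, hD.1, fun _ h => h, hd⟩
  have hnbmd : ∀ t ∈ nb G D, t ∈ MD G x D := fun t ht => Or.inl ht
  obtain ⟨d₀, hd₀⟩ := hD.1.2.1.1
  have hA : 2 ≤ (MD G x D).ncard := by
    show 1 < (MD G x D).ncard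
    rw [Set.one_lt_ncard (Set.toFinite _)]
    exact ⟨d₀, hDmd d₀ hd₀, t₀, hnbmd t₀ ht₀, fun h => ht₀.1 (h ▸ hd₀)⟩
  have hB : 2 ≤ (Set.univ \ MD G x D).ncard := by
    show 1 < (Set.univ \ MD G x D).ncard
    rw [Set.one_lt_ncard (Set.toFinite _)]
    exact ⟨x, ⟨Set.mem_univ _, hxmd⟩, s₀, ⟨Set.mem_univ _, hsmd s₀ hs₀⟩, fun h =>
      G.loopless.irrefl x (by
        have h5 : G.Adj x s₀ := hs₀
        rw [← h] at h5
        exact h5)⟩
  refine hsp (MD G x D) (Set.subset_univ _) hA hB ⟨nb G D, fun t ht => hnbmd t ht,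
    {w | w ∉ MD G x D ∧ G.Adj w t₀}, fun w hw => ⟨Set.mem_univ _, hw.1⟩, ?_⟩
  intro m hm w hw
  by_cases hmn : m ∈ nb G D
  · have hkey : G.Adj m w ↔ G.Adj w t₀ := by
      by_cases hwx : w = x
      · subst hwx
        constructor
        · intro h
          exact absurd h.symm (h1 m hmn).1.2
        · intro h
          exact absurd h (h1 t₀ ht₀).1.2
      · by_cases hwN : w ∈ Nx G x
        · have h5 := heq m hmn t₀ ht₀
          constructor
          · intro h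
            have h6 : w ∈ At G (Nx G x) m := ⟨hwN, h⟩
            rw [h5] at h6
            exact h6.2.symm
          · intro h
            have h6 : w ∈ At G (Nx G x) t₀ := ⟨hwN, h.symm⟩
            rw [← h5] at h6
            exact h6.2
        · rcases h4 w ⟨hwx, hwN⟩ hw.2 with h | h
          · exact ⟨fun _ => h t₀ ht₀, fun _ => (h m hmn).symm⟩
          · exact ⟨fun h' => absurd h'.symm (h m hmn), fun h' => absurd h' (h t₀ ht₀)⟩
    rw [hkey]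
    exact ⟨fun h => ⟨hmn, hw.2, h⟩, fun h => h.2.2⟩
  · constructor
    · intro h
      exact absurd h.symm (h3 w hw.2 m hm hmn)
    · intro h
      exact absurd h.1 hmn

private theorem j4_3 (hM0 : S_M0) (V : Type) [Finite V]
    (G : SimpleGraph V) (x : V) (hc : Cls3 G) (hs : Smp G x) (D' : Set V) (hD' : Cp G x D')
    (t : V) (ht : t ∈ nb G D') (htO : t ∈ Ox G x) (t' : V) (ht'O : t' ∈ Ox G x) (ht'D : t' ∉ D')
    (hadj : G.Adj t' t) (hlt : At G (Nx G x) t' ⊂ At G (Nx G x) t)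
    (hne : (At G (Nx G x) t').Nonempty) : ∀ d ∈ D', G.Adj t' d := by
  classical
  intro d hd
  by_contra hnd
  have hconn : Conn G (insert t D') := hD'.2.1.insert ht.2
  have htd : t ≠ d := fun h => ht.1 (h ▸ hd)
  obtain ⟨R, hR, htR, hRc, hRn⟩ := exists_comp G (A := (insert t D') \ {d}) (v := t)
    ⟨Set.mem_insert _ _, htd⟩
  have hdR : d ∉ R := fun h => (hR h).2 rfl
  have hRsub : R ⊆ insert t D' := fun r hr => (hR hr).1
  have hdt : ∃ b ∈ R, G.Adj b d := by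
    obtain ⟨b, hb, a, ha, hba⟩ := hconn.2 R hRsub ⟨t, htR⟩ (fun h => hdR (h ▸ Or.inr hd))
    have h1 : a ∈ nb G R := ⟨ha.2, b, hb, hba⟩
    have h2 : a = d := by
      by_contra h3
      exact hRn a ⟨ha.1, h3⟩ h1
    exact ⟨b, hb, h2 ▸ hba⟩
  have hRO : ∀ r ∈ R, r ∈ Ox G x := by
    intro r hr
    rcases hRsub hr with h | h
    · rw [h]; exact htO
    · exact (hD'.1 h).1
  obtain ⟨s, hsA, hsn⟩ := Set.exists_of_ssubset hlt
  obtain ⟨s', hs'⟩ := hne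
  have hsA' : ¬ G.Adj t' s := fun h => hsn ⟨hsA.1, h⟩
  have hss : s' ≠ s := fun h => hsA' (h ▸ hs'.2)
  have hs't : G.Adj t s' := (hlt.1 hs').2
  have hxs : G.Adj x s := hsA.1
  have hxs' : G.Adj x s' := hs'.1
  have hNO : ∀ w, G.Adj x w → ∀ v ∈ Ox G x, v ≠ w := by
    intro w hw v hv h
    rw [h] at hv
    exact hv.2 hw
  have hNR : ∀ w, G.Adj x w → w ∉ R := fun w hw h => hNO w hw w (hRO w h) rfl
  have hdO : d ∈ Ox G x := (hD'.1 hd).1
  have hxR : x ∉ R := fun h => (hRO x h).1 rfl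
  have ht'R : t' ∉ R := by
    intro h
    rcases hRsub h with h1 | h1
    · rw [h1] at hadj
      exact G.loopless.irrefl _ hadj
    · exact ht'D h1
  have hdt' : d ≠ t' := fun h => ht'D (h ▸ hd)
  apply hc.2
  refine hM0 V G R {s'} {s} {d} {t'} {x} hRc (Conn.singleton G _) (Conn.singleton G _)
    (Conn.singleton G _) (Conn.singleton G _) (Conn.singleton G _)
    (j4_dl (hNR s' hxs')).symm (j4_dl (hNR s hxs)).symm (j4_ds hss) (j4_dl hdR)
    (j4_ds (hNO s' hxs' d hdO)) (j4_ds (hNO s hxs d hdO)) (j4_dl ht'R)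
    (j4_ds (hNO s' hxs' t' ht'O)) (j4_ds (hNO s hxs t' ht'O)) (j4_dl hxR)
    (j4_ds hxs'.ne) (j4_ds hxs.ne) (j4_ds hdt') (j4_ds hdO.1) (j4_ds ht'O.1)
    ⟨t, htR, s', rfl, hs't⟩ ⟨t, htR, s, rfl, hsA.2⟩
    (j4_ts.mpr (hs s' hxs' s hxs hss)) ?_ (j4_nts ((hD'.1 hd).2 s' hxs'))
    (j4_nts ((hD'.1 hd).2 s hxs)) ⟨t', rfl, t, htR, hadj⟩ (j4_ts.mpr hs'.2) (j4_nts hsA')
    (j4_ts.mpr hxs') (j4_ts.mpr hxs) ?_ (j4_nts fun h => hnd h.symm)
    (j4_nts fun h => hdO.2 h.symm) (j4_nts fun h => ht'O.2 h.symm)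
  · obtain ⟨b, hb, hbd⟩ := hdt
    exact ⟨d, rfl, b, hb, hbd.symm⟩
  · rintro ⟨y, hy, r, hr, hyr⟩
    rw [Set.mem_singleton_iff] at hy
    rw [hy] at hyr
    exact (hRO r hr).2 hyr

theorem pfJ4 : S_M0 → S_R0 → S_J0 → S_J3 → S_J4 := by
  intro hM0 hR0 hJ0 hJ3 V _ G x hc hs hG
  refine ⟨fun D hD => j4_1 hR0 hJ0 V G x hc hs hG D hD,
    fun hsp D hD => j4_2 hR0 hJ0 hJ3 V G x hc hs hG hsp D hD, ?_⟩
  intro D' hD' t ht t' ht'O ht'D hadj hlt hne
  exact j4_3 hM0 V G x hc hs D' hD' t ht ((hJ0 V G x D' hc.1 hs hG hD').1 t ht).1 t' ht'O ht'D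
    hadj hlt hne

end Pool.Agent.MPd439b2.H3
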