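import Pool.Agent.Lib.MP_d439b2_co.H3.Spec

/-!
# MP_d439b2_co, H3, J5: the outside and `S1` (helper46)
-/

set_option autoImplicit false

namespace Pool.Agent.MPd439b2.H3

open Pool.Agent.MPd439b2 Pool.Agent.MPd439b2.LK

/-- a nested finite nonempty family of sets has a largest and a smallest member -/
private theorem j5_ext {V : Type} [Finite V] (N : Set V) (f : V → Set V) (hN : N.Nonempty)
    (h : ∀ t ∈ N, ∀ t' ∈ N, f t ⊆ f t' ∨ f t' ⊆ f t) :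
    (∃ t ∈ N, ∀ t' ∈ N, f t' ⊆ f t) ∧ ∃ t ∈ N, ∀ t' ∈ N, f t ⊆ f t' := by
  classical
  constructor
  · obtain ⟨t, ht, hmax⟩ := (Set.toFinite N).exists_maximalFor (fun t => (f t).ncard) N hN
    refine ⟨t, ht, fun t' ht' => ?_⟩
    rcases h t ht t' ht' with h1 | h1
    · have h2 : (f t).ncard ≤ (f t').ncard := Set.ncard_le_ncard h1 (Set.toFinite _)
      have h3 : (f t').ncard ≤ (f t).ncard := hmax ht' h2
      rw [Set.eq_of_subset_of_ncard_le h1 h3 (Set.toFinite _)]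
    · exact h1
  · obtain ⟨t, ht, hmin⟩ := (Set.toFinite N).exists_minimalFor (fun t => (f t).ncard) N hN
    refine ⟨t, ht, fun t' ht' => ?_⟩
    rcases h t ht t' ht' with h1 | h1
    · exact h1
    · have h2 : (f t').ncard ≤ (f t).ncard := Set.ncard_le_ncard h1 (Set.toFinite _)
      have h3 : (f t).ncard ≤ (f t').ncard := hmin ht' h2
      rw [Set.eq_of_subset_of_ncard_le h1 h3 (Set.toFinite _)]

theorem pfJ5 : S_M1 → S_A7 → S_RP → S_J0 → S_J2 → S_J3 → S_J4 → S_J5 := by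
  classical
  intro hM1 hA7 hRP hJ0 hJ2 hJ3 hJ4 V _ G x D hc hsp hs hG hD
  obtain ⟨h1, h2, hne⟩ := hJ0 V G x D hc.1 hs hG hD.1
  obtain ⟨h3, h4⟩ := hJ3 V G x D hc hs hG hD
  obtain ⟨h5, h6, _⟩ := hJ4 V G x hc hs hG
  have hDmd : ∀ d ∈ D, d ∈ MD G x D := fun d hd => Or.inr ⟨D, hD.1, fun _ h => h, hd⟩
  have hDn : ∀ d ∈ D, d ∉ nb G D := fun d hd h => h.1 hd
  have hxN : x ∉ Nx G x := fun h => G.loopless.irrefl x h
  have part1 : ∀ w ∈ Ox G x, w ∉ MD G x D → (∀ t ∈ nb G D, G.Adj w t) →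
      ∀ s ∈ S1 G x D, G.Adj w s := by
    intro w hwO hwM hwt s hs1
    obtain ⟨t₀, ht₀⟩ := hne
    have hw0 : w ∉ O0 G x := by
      intro hw
      obtain ⟨D'', hD''O, hwD'', hD''c, hD''n⟩ := exists_comp G hw
      have hcp : Cp G x D'' := ⟨hD''O, hD''c, hD''n⟩
      have htn : t₀ ∈ nb G D'' := by
        refine ⟨fun h => (h1 t₀ ht₀).2.1 (hD''O h), w, hwD'', hwt t₀ ht₀⟩
      have hsub : nb G D'' ⊆ nb G D := by
        rcases hJ2 V G x D D'' t₀ hc hs hG hD.1 hcp ht₀ htn with h | h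
        · exact hD.2 D'' hcp h
        · exact h
      exact hwM (Or.inr ⟨D'', hcp, hsub, hwD''⟩)
    obtain ⟨hsN, t, ht, hts⟩ := hs1
    obtain ⟨d, hd, hdt⟩ := ht.2
    have hwd : ¬ G.Adj w d := h3 w hwM d (hDmd d hd) (hDn d hd)
    have hwned : w ≠ d := fun h => hwM (h ▸ hDmd d hd)
    have hdO0 := hD.1.1 hd
    have hMd : Ms G (Nx G x) d = Nx G x := by
      apply Set.Subset.antisymm
      · exact fun z hz => hz.1
      · exact fun z hz => ⟨hz, hdO0.2 z hz⟩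
    rcases hRP V G (Nx G x) x w t d hc hs hxN (fun s hs => hs) (fun h => hwO.2 h)
      (fun h => (h1 t ht).1.2 h) (fun h => hdO0.1.2 h) hwO.2 (h1 t ht).1.2 hdO0.1.2
      (hwt t ht) hdt.symm hwd hwned with h | h
    · by_contra hn
      exact (h (show s ∈ Ms G (Nx G x) w ∩ Ms G (Nx G x) d from
        ⟨⟨hsN, hn⟩, by rw [hMd]; exact hsN⟩)).2 hts
    · exfalso
      apply hw0
      refine ⟨hwO, fun z hz => ?_⟩
      have h7 : z ∈ Ms G (Nx G x) w := by rw [h, hMd]; exact hz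
      exact h7.2
  refine ⟨part1, ?_⟩
  intro w hwO hwM
  rcases h4 w hwO hwM with hall | hnone
  · exact Or.inl (part1 w hwO hwM hall)
  obtain ⟨⟨t₁, ht₁, hmax⟩, tq, htq, hmin⟩ :=
    j5_ext (nb G D) (fun t => At G (Nx G x) t) hne (h5 D hD.1)
  have hlt : ∃ s, s ∈ At G (Nx G x) t₁ ∧ s ∉ At G (Nx G x) tq := by
    obtain ⟨t, ht, t', ht', hss⟩ := h6 hsp D hD
    obtain ⟨s, hs1, hs2⟩ := Set.exists_of_ssubset hss
    exact ⟨s, hmax t ht hs1, fun h => hs2 (hmin t' ht' h)⟩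
  have hS1 : ∀ s ∈ S1 G x D, s ∈ At G (Nx G x) t₁ := by
    rintro s ⟨hsN, t, ht, hts⟩
    exact hmax t ht ⟨hsN, hts⟩
  obtain ⟨s₀, hs₀N, hs₀q⟩ := (h1 tq htq).2.2
  have hq1 : At G (Nx G x) tq ⊆ At G (Nx G x) t₁ := hmax tq htq
  have hne1 : t₁ ≠ tq := by
    rintro rfl
    obtain ⟨s, hsa, hsb⟩ := hlt
    exact hsb hsa
  have h1q : G.Adj t₁ tq := h2 t₁ ht₁ tq htq hne1
  obtain ⟨d, hd, hdall⟩ := hA7 V G (nb G D) D hc.1 hD.1.2.1 h2
    (Set.disjoint_left.mpr fun a ha => ha.1) (fun a ha => ha)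
  have hdO0 := hD.1.1 hd
  have hwd : ¬ G.Adj w d := h3 w hwM d (hDmd d hd) (hDn d hd)
  have hNO : ∀ s, G.Adj x s → ∀ v, v ∈ Ox G x → v ≠ s := by
    intro s hs v hv h
    rw [h] at hv
    exact hv.2 hs
  have ht₁O := (h1 t₁ ht₁).1
  have htqO := (h1 tq htq).1
  have hk1 : ∀ s, s ∈ At G (Nx G x) t₁ → s ∉ At G (Nx G x) tq → ∀ s' ∈ At G (Nx G x) tq,
      G.Adj w s → G.Adj w s' := by
    intro s hs1 hs2 s' hs' hws
    by_contra hws'
    have hss : s ≠ s' := fun h => hs2 (h ▸ hs')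
    have hqs : ¬ G.Adj tq s := fun h => hs2 ⟨hs1.1, h⟩
    have hxs : G.Adj x s := hs1.1
    have hxs' : G.Adj x s' := hs'.1
    exact hc.2 (hM1 V G s s s' t₁ w x tq (Or.inl rfl) (Or.inl (hs s' hs'.1 s hs1.1 (Ne.symm hss)))
      (Or.inl hs1.2) (hq1 hs').2.symm (hNO s hxs w hwO) (hNO s hxs w hwO) hxs.ne hxs.ne
      (hNO s hxs tq htqO) (hNO s hxs tq htqO) (Or.inl hws) hws' (hnone t₁ ht₁) (Or.inl hxs) hxs'
      ht₁O.2 hs'.2 h1q.symm hqs hqs (fun h => hwO.2 h.symm) (hnone tq htq) htqO.2)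
  have hk2 : ∀ s, s ∈ At G (Nx G x) t₁ → s ∉ At G (Nx G x) tq → ∀ s' ∈ At G (Nx G x) tq,
      G.Adj w s' → G.Adj w s := by
    intro s hs1 hs2 s' hs' hws'
    by_contra hws
    have hss : s ≠ s' := fun h => hs2 (h ▸ hs')
    have hqs : ¬ G.Adj tq s := fun h => hs2 ⟨hs1.1, h⟩
    have hxs : G.Adj x s := hs1.1
    have hxs' : G.Adj x s' := hs'.1
    exact hc.2 (hM1 V G s' s' t₁ tq w s d (Or.inl rfl) (Or.inl (hq1 hs').2)
      (Or.inl hs'.2) h1q (hNO s' hxs' w hwO) (hNO s' hxs' w hwO) hss hss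
      (hNO s' hxs' d hdO0.1) (hNO s' hxs' d hdO0.1) (Or.inl hws') (hnone t₁ ht₁) (hnone tq htq)
      (Or.inl (hs s hs1.1 s' hs'.1 hss)) hs1.2.symm (fun h => hqs h.symm) (hdall t₁ ht₁)
      (hdall tq htq) (hdO0.2 s' hs'.1) (hdO0.2 s' hs'.1) hws hwd (fun h => hdO0.2 s hs1.1 h.symm))
  obtain ⟨s₁, hs₁1, hs₁q⟩ := hlt
  have hs₀A : s₀ ∈ At G (Nx G x) tq := ⟨hs₀N, hs₀q⟩
  by_cases hex : ∃ s ∈ S1 G x D, G.Adj w s
  · left
    obtain ⟨s, hs1, hws⟩ := hex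
    have hw0 : G.Adj w s₁ := by
      by_cases hq : s ∈ At G (Nx G x) tq
      · exact hk2 s₁ hs₁1 hs₁q s hq hws
      · exact hk2 s₁ hs₁1 hs₁q s₀ hs₀A (hk1 s (hS1 s hs1) hq s₀ hs₀A hws)
    intro s' hs'
    by_cases hq : s' ∈ At G (Nx G x) tq
    · exact hk1 s₁ hs₁1 hs₁q s' hq hw0
    · exact hk2 s' (hS1 s' hs') hq s₀ hs₀A (hk1 s₁ hs₁1 hs₁q s₀ hs₀A hw0)
  · right
    intro s hs1 h
    exact hex ⟨s, hs1, h⟩

end Pool.Agent.MPd439b2.H3
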