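import Pool.Agent.Lib.MP_d439b2_co.H3.Spec

/-!
# MP_d439b2_co, H3: J6
-/

set_option autoImplicit false

namespace Pool.Agent.MPd439b2.H3

open Pool.Agent.MPd439b2 Pool.Agent.MPd439b2.LK

/-- **J6.** Twins in `S1`, and the cut around `MD ∪ S1`. -/
theorem pfJ6 : LK.S_A1 → S_J0 → S_J3 → S_J5 → S_J6 := by
  intro hA1 hJ0 hJ3 hJ5 V _ G x D hcls hspo hsmp hconn hmx
  obtain ⟨j0, j0c, j0n⟩ := hJ0 V G x D hcls.1 hsmp hconn hmx.1
  obtain ⟨j3a, j3b⟩ := hJ3 V G x D hcls hsmp hconn hmx
  obtain ⟨j5a, j5b⟩ := hJ5 V G x D hcls hspo hsmp hconn hmx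
  have hS1 : ∀ s ∈ S1 G x D, G.Adj x s := fun s hs => hs.1
  have hcase : ∀ v, v = x ∨ v ∈ Nx G x ∨ v ∈ Ox G x := by
    intro v
    by_cases h1 : v = x
    · exact Or.inl h1
    · by_cases h2 : G.Adj x v
      · exact Or.inr (Or.inl h2)
      · exact Or.inr (Or.inr ⟨h1, h2⟩)
  have hMD : ∀ m ∈ MD G x D, m ∈ Ox G x ∧ (m ∉ nb G D → ∀ s ∈ Nx G x, ¬ G.Adj m s) := by
    rintro m (hm | ⟨D', hD', -, hm⟩)
    · exact ⟨(j0 m hm).1, fun h => absurd hm h⟩
    · have h1 : m ∈ O0 G x := hD'.1 hm
      exact ⟨h1.1, fun _ => h1.2⟩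
  refine ⟨?_, ?_⟩
  · intro hprm s hs s' hs' heq
    have hne : ({s, s'} : Set V) ≠ Set.univ := by
      intro h
      have hx : x ∈ ({s, s'} : Set V) := by rw [h]; trivial
      rcases hx with hx | hx
      · exact G.loopless.irrefl x (by have := hs.1; rwa [← hx] at this)
      · have h1 : x = s' := hx
        exact G.loopless.irrefl x (by have := hs'.1; rwa [← h1] at this)
    have hhom : Hmg G Set.univ ({s, s'} : Set V) := by
      intro v _ hv
      have hvs : v ≠ s := fun h => hv (Or.inl h)
      have hvs' : v ≠ s' := fun h => hv (Or.inr h)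
      have key : (G.Adj v s ↔ G.Adj v s') → (∀ m ∈ ({s, s'} : Set V), G.Adj v m) ∨
          ∀ m ∈ ({s, s'} : Set V), ¬ G.Adj v m := by
        intro h
        by_cases h1 : G.Adj v s
        · left
          rintro m (rfl | hm)
          · exact h1
          · have h2 : m = s' := hm
            rw [h2]
            exact h.1 h1
        · right
          rintro m (rfl | hm)
          · exact h1
          · have h2 : m = s' := hm
            rw [h2]
            exact fun h3 => h1 (h.2 h3)
      apply key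
      rcases hcase v with rfl | h1 | h1
      · exact ⟨fun _ => hs'.1, fun _ => hs.1⟩
      · exact ⟨fun _ => hsmp v h1 s' hs'.1 hvs', fun _ => hsmp v h1 s hs.1 hvs⟩
      · by_cases h2 : v ∈ MD G x D
        · by_cases h3 : v ∈ nb G D
          · exact heq v h3
          · have h4 := (hMD v h2).2 h3
            exact ⟨fun h => absurd h (h4 s hs.1), fun h => absurd h (h4 s' hs'.1)⟩
        · rcases j5b v h1 h2 with h3 | h3
          · exact ⟨fun _ => h3 s' hs', fun _ => h3 s hs⟩
          · exact ⟨fun h => absurd h (h3 s hs), fun h => absurd h (h3 s' hs')⟩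
    exact hprm _ hne hhom (Or.inl rfl) (Or.inr rfl)
  · obtain ⟨a1, a2, a3, a4, a5, a6⟩ := hA1 V G
    have e1 : rk G (MD G x D) (MD G x D ∪ S1 G x D)ᶜ ≤ 1 := by
      rw [a1]
      refine a5 _ _ (nb G D) fun w hw => ?_
      have hw1 : w ∉ MD G x D := fun h => hw (Or.inl h)
      have hw2 : w ∉ S1 G x D := fun h => hw (Or.inr h)
      rcases hcase w with rfl | h1 | h1
      · right
        intro b hb h
        exact (hMD b hb).1.2 h
      · right
        intro b hb h
        by_cases h3 : b ∈ nb G D
        · exact hw2 ⟨h1, b, h3, h.symm⟩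
        · exact (hMD b hb).2 h3 w h1 h.symm
      · rcases j3b w h1 hw1 with h2 | h2
        · left
          intro b hb
          constructor
          · intro h
            by_contra h3
            exact j3a w hw1 b hb h3 h
          · exact h2 b
        · right
          intro b hb h
          by_cases h3 : b ∈ nb G D
          · exact h2 b h3 h
          · exact j3a w hw1 b hb h3 h
    have e2 : rk G (S1 G x D) (MD G x D ∪ S1 G x D)ᶜ ≤ 1 := by
      rw [a1]
      refine a5 _ _ Set.univ fun w hw => ?_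
      have hw1 : w ∉ MD G x D := fun h => hw (Or.inl h)
      have hw2 : w ∉ S1 G x D := fun h => hw (Or.inr h)
      rcases hcase w with rfl | h1 | h1
      · left
        intro b hb
        exact ⟨fun _ => trivial, fun _ => hb.1⟩
      · left
        intro b hb
        exact ⟨fun _ => trivial, fun _ => hsmp w h1 b hb.1 fun h => hw2 (h ▸ hb)⟩
      · rcases j5b w h1 hw1 with h2 | h2
        · left
          intro b hb
          exact ⟨fun _ => trivial, fun _ => h2 b hb⟩
        · right
          exact h2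
    have e3 := a3 (MD G x D) (S1 G x D) (MD G x D ∪ S1 G x D)ᶜ
    have e4 : cr G (MD G x D ∪ S1 G x D) =
      rk G (MD G x D ∪ S1 G x D) (MD G x D ∪ S1 G x D)ᶜ := rfl
    omega

end Pool.Agent.MPd439b2.H3
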