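import Pool.Agent.Lib.MP_d439b2_co.H3.Spec

/-!
# MP_d439b2_co, H3 : J7, the cuts between the levels
-/

set_option autoImplicit false

namespace Pool.Agent.MPd439b2.H3

open Pool.Agent.MPd439b2 Pool.Agent.MPd439b2.LK

private theorem j7_cases {V : Type} (G : SimpleGraph V) (x b : V) :
    b = x ∨ b ∈ Nx G x ∨ b ∈ Ox G x := by
  by_cases h1 : b = x
  · exact Or.inl h1
  · by_cases h2 : G.Adj x b
    · exact Or.inr (Or.inl h2)
    · exact Or.inr (Or.inr ⟨h1, h2⟩)

private theorem j7_nxox {V : Type} {G : SimpleGraph V} {x b : V} (h : b ∈ Nx G x) :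
    b ∉ Ox G x := fun h' => h'.2 h

theorem pfJ7 : LK.S_A1 → S_J0 → S_J3 → S_J4 → S_J5 → S_J7 := by
  intro hA1 hJ0 hJ3 hJ4 hJ5 V _ G x D hcls hsp hsmp hconn hmx t ht
  obtain ⟨-, -, a3, -, a5, -⟩ := hA1 V G
  obtain ⟨j0a, j0b, -⟩ := hJ0 V G x D hcls.1 hsmp hconn hmx.1
  obtain ⟨j3a, j3b⟩ := hJ3 V G x D hcls hsmp hconn hmx
  obtain ⟨j4a, -, j4c⟩ := hJ4 V G x hcls hsmp hconn
  obtain ⟨-, j5b⟩ := hJ5 V G x D hcls hsp hsmp hconn hmx
  have hnest := j4a D hmx.1
  -- a neighbour of a component which is outside `O0`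
  have hle : ∀ b ∈ nb G D, b ∉ Xt G x D t → At G (Nx G x) b ⊆ At G (Nx G x) t := by
    intro b hb hbX
    rcases hnest b hb t ht with h | h
    · exact h
    · by_contra hcon
      exact hbX (Or.inl ⟨hb, h, hcon⟩)
  have hmd : ∀ b ∈ nb G D, b ∈ MD G x D := fun b hb => Or.inl hb
  have hO0 : ∀ D', Cp G x D' → ∀ b ∈ D', b ∈ O0 G x := fun D' h b hb => h.1 hb
  set X1 : Set V := {v | v ∈ nb G D ∧ At G (Nx G x) t ⊂ At G (Nx G x) v} with hX1
  set X2 : Set V := {v | ∃ D', Cp G x D' ∧ nb G D' ⊆ nb G D ∧ v ∈ D' ∧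
      ∃ t' ∈ nb G D', At G (Nx G x) t ⊂ At G (Nx G x) t'} with hX2
  set X3 : Set V := {v | v ∈ S1 G x D ∧ ¬ G.Adj t v} with hX3
  have hX : Xt G x D t = X1 ∪ X2 ∪ X3 := by
    ext v
    constructor
    · rintro (h | h | h)
      · exact Or.inl (Or.inl h)
      · exact Or.inl (Or.inr h)
      · exact Or.inr h
    · rintro ((h | h) | h)
      · exact Or.inl h
      · exact Or.inr (Or.inl h)
      · exact Or.inr (Or.inr h)
  have r1 : rk G X1 (Xt G x D t)ᶜ ≤ 1 := by
    apply a5 _ _ {b | b ∈ nb G D ∨ (b ∈ Nx G x ∧ G.Adj t b) ∨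
      (b ∈ Ox G x ∧ b ∉ MD G x D ∧ ∀ t' ∈ nb G D, G.Adj b t')}
    intro v hv
    left
    intro b hb
    have hvX : v ∈ Xt G x D t := Or.inl hv
    have hvb : v ≠ b := fun h => hb (h ▸ hvX)
    obtain ⟨hvO, hvO0, -⟩ := j0a v hv.1
    rcases j7_cases G x b with rfl | hbN | hbO
    · constructor
      · intro h
        exact absurd h.symm hvO.2
      · rintro (h | h | h)
        · exact absurd rfl (j0a b h).1.1
        · exact absurd h.1 (G.loopless.irrefl b)
        · exact absurd rfl h.1.1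
    · constructor
      · intro h
        refine Or.inr (Or.inl ⟨hbN, ?_⟩)
        by_contra hcon
        exact hb (Or.inr (Or.inr ⟨⟨hbN, v, hv.1, h⟩, hcon⟩))
      · rintro (h | h | h)
        · exact absurd (j0a b h).1 (j7_nxox hbN)
        · exact (hv.2.1 h).2
        · exact absurd h.1 (j7_nxox hbN)
    · by_cases hbD : b ∈ nb G D
      · exact ⟨fun _ => Or.inl hbD, fun _ => j0b v hv.1 b hbD hvb⟩
      · by_cases hbM : b ∈ MD G x D
        · constructor
          · intro h
            rcases hbM with hbM | ⟨D'', hc, hn, hbD''⟩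
            · exact absurd hbM hbD
            · exfalso
              apply hb
              refine Or.inr (Or.inl ⟨D'', hc, hn, hbD'', v, ⟨?_, b, hbD'', h.symm⟩, hv.2⟩)
              intro hvD
              exact hvO0 (hO0 D'' hc v hvD)
          · rintro (h | h | h)
            · exact absurd h hbD
            · exact absurd hbO (j7_nxox h.1)
            · exact absurd hbM h.2.1
        · constructor
          · intro h
            refine Or.inr (Or.inr ⟨hbO, hbM, ?_⟩)
            rcases j3b b hbO hbM with h' | h'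
            · exact h'
            · exact absurd h.symm (h' v hv.1)
          · rintro (h | h | h)
            · exact absurd h hbD
            · exact absurd hbO (j7_nxox h.1)
            · exact (h.2.2 v hv.1).symm
  have r2 : rk G X2 (Xt G x D t)ᶜ ≤ 1 := by
    apply a5 _ _ (nb G D)
    rintro v ⟨D', hc, hn, hvD', t', ht', hlt⟩
    left
    intro b hb
    constructor
    · intro h
      have hbD' : b ∉ D' := fun h' => hb (Or.inr (Or.inl ⟨D', hc, hn, h', t', ht', hlt⟩))
      exact hn ⟨hbD', v, hvD', h⟩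
    · intro h
      have h1 := hle b h hb
      have h2 : At G (Nx G x) b ⊂ At G (Nx G x) t' :=
        ⟨fun s hs => hlt.1 (h1 hs), fun h3 => hlt.2 (fun s hs => h1 (h3 hs))⟩
      have hbt : b ≠ t' := by
        rintro rfl
        exact h2.2 (fun s hs => hs)
      obtain ⟨hbO, hbO0, s, hs, hbs⟩ := j0a b h
      exact (j4c D' hc t' ht' b hbO (fun h' => hbO0 (hO0 D' hc b h'))
        (j0b b h t' (hn ht') hbt) h2 ⟨s, hs, hbs⟩ v hvD').symm
  have r3 : rk G X3 (Xt G x D t)ᶜ ≤ 1 := by
    apply a5 _ _ {b | b = x ∨ b ∈ Nx G x ∨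
      (b ∈ Ox G x ∧ b ∉ MD G x D ∧ ∀ s ∈ S1 G x D, G.Adj b s)}
    rintro v ⟨hvS, hvt⟩
    left
    intro b hb
    have hvX : v ∈ Xt G x D t := Or.inr (Or.inr ⟨hvS, hvt⟩)
    have hvb : v ≠ b := fun h => hb (h ▸ hvX)
    have hvN : v ∈ Nx G x := hvS.1
    rcases j7_cases G x b with rfl | hbN | hbO
    · exact ⟨fun _ => Or.inl rfl, fun _ => SimpleGraph.Adj.symm hvN⟩
    · exact ⟨fun _ => Or.inr (Or.inl hbN), fun _ => hsmp v hvN b hbN hvb⟩
    · by_cases hbM : b ∈ MD G x D
      · have hno : ¬ G.Adj v b := by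
          intro h
          rcases hbM with hbM | ⟨D'', hc, hn, hbD''⟩
          · exact hvt (hle b hbM hb ⟨hvN, h.symm⟩).2
          · exact (hO0 D'' hc b hbD'').2 v hvN h.symm
        constructor
        · intro h
          exact absurd h hno
        · rintro (h | h | h)
          · exact absurd h hbO.1
          · exact absurd hbO (j7_nxox h)
          · exact absurd hbM h.2.1
      · constructor
        · intro h
          refine Or.inr (Or.inr ⟨hbO, hbM, ?_⟩)
          rcases j5b b hbO hbM with h' | h'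
          · exact h'
          · exact absurd h.symm (h' v hvS)
        · rintro (h | h | h)
          · exact absurd h hbO.1
          · exact absurd hbO (j7_nxox h)
          · exact (h.2.2 v hvS).symm
  have s1 := a3 (X1 ∪ X2) X3 (Xt G x D t)ᶜ
  have s2 := a3 X1 X2 (Xt G x D t)ᶜ
  have hgoal : cr G (Xt G x D t) = rk G (X1 ∪ X2 ∪ X3) (Xt G x D t)ᶜ := by
    unfold cr
    rw [← hX]
  rw [hgoal]
  omega

end Pool.Agent.MPd439b2.H3
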