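import Pool.Agent.Lib.MP_d439b2_co.H3.Spec

/-!
# MP_d439b2_co, H3/J8: the levels are rooted pieces
-/

set_option autoImplicit false

namespace Pool.Agent.MPd439b2.H3

open Pool.Agent.MPd439b2 Pool.Agent.MPd439b2.LK

private theorem j8_clique {V : Type} {G : SimpleGraph V} {S : Set V} (hS : CompleteOn G S)
    (hne : S.Nonempty) : Conn G S := by
  refine ⟨hne, fun B hB hBne hBS => ?_⟩
  obtain ⟨b, hb⟩ := hBne
  obtain ⟨a, ha, haB⟩ : ∃ a ∈ S, a ∉ B := by
    by_contra h
    push Not at h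
    exact hBS (Set.Subset.antisymm hB h)
  refine ⟨b, hb, a, ⟨ha, haB⟩, hS b (hB hb) a ha ?_⟩
  rintro rfl
  exact haB hb

private theorem j8_tch {V : Type} {G : SimpleGraph V} {u v : V} : Tch G {u} {v} ↔ G.Adj u v := by
  constructor
  · rintro ⟨a, rfl, b, rfl, h⟩
    exact h
  · intro h
    exact ⟨u, rfl, v, rfl, h⟩

private theorem j8_tchR {V : Type} {G : SimpleGraph V} {P : Set V} {v : V} :
    Tch G P {v} ↔ ∃ a ∈ P, G.Adj a v := by
  constructor
  · rintro ⟨a, ha, b, rfl, h⟩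
    exact ⟨a, ha, h⟩
  · rintro ⟨a, ha, h⟩
    exact ⟨a, ha, v, rfl, h⟩

private theorem j8_tchL {V : Type} {G : SimpleGraph V} {P : Set V} {v : V} :
    Tch G {v} P ↔ ∃ a ∈ P, G.Adj a v := by
  rw [tch_comm]
  exact j8_tchR

theorem pfJ8 : LK.S_A0 → S_M0 → S_J0 → S_J3 → S_J4 → S_J8 := by
  intro hA0 hM0 hJ0 hJ3 hJ4 V _ G x D hG hP hx hc hD t ht tq htq hlt
  have hchd : Chd G := hG.1
  obtain ⟨n1, n2, -⟩ := hJ0 V G x D hchd hx hc hD.1
  obtain ⟨o1, o2⟩ := hJ3 V G x D hG hx hc hD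
  obtain ⟨k1, -, k3⟩ := hJ4 V G x hG hx hc
  have hS : Conn G (Nx G x) := by
    obtain ⟨-, -, s, hs, -⟩ := n1 t ht
    exact j8_clique hx ⟨s, hs⟩
  -- `Q` is outside `N[x]`
  have hQO : ∀ q ∈ Qt G x D t, q ∈ Ox G x := by
    rintro q (hq | ⟨D', hD', -, hq, -⟩)
    · exact (n1 q hq.1).1
    · exact (hD'.1 hq).1
  have hxQ : x ∉ Qt G x D t := fun h => (hQO x h).1 rfl
  have hSO : ∀ s ∈ Nx G x, s ∉ Ox G x := fun s hs h => h.2 hs
  -- the first level
  have hL1 : ∀ q ∈ nb G D, At G (Nx G x) q = At G (Nx G x) t → q ∈ Lv G (Nx G x) (Qt G x D t) := by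
    intro q hq hqt
    obtain ⟨-, -, s, hs, hqs⟩ := n1 q hq
    exact ⟨Or.inl ⟨hq, hqt⟩, s, hs, hqs.symm⟩
  have hL2 : ∀ q ∈ O0 G x, q ∉ Lv G (Nx G x) (Qt G x D t) := by
    rintro q hq ⟨-, s, hs, hsq⟩
    exact hq.2 s hs hsq.symm
  -- lower elements are complete to `Q`
  have hlow : ∀ v ∈ nb G D, At G (Nx G x) v ⊂ At G (Nx G x) t → ∀ q ∈ Qt G x D t, G.Adj v q := by
    intro v hv hvt q hq
    obtain ⟨v1, v2, s, hs, hvs⟩ := n1 v hv
    rcases hq with hq | ⟨D', hD', hDD, hq, ⟨t', ht', htt⟩, -⟩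
    · refine n2 v hv q hq.1 ?_
      rintro rfl
      rw [hq.2] at hvt
      exact (ssubset_irrefl _ hvt)
    · have hvt' : G.Adj v t' := by
        refine n2 v hv t' (hDD ht') ?_
        rintro rfl
        rw [htt] at hvt
        exact (ssubset_irrefl _ hvt)
      refine k3 D' hD' t' ht' v v1 (fun h => v2 (hD'.1 h)) hvt' ?_ ⟨s, hs, hvs⟩ q hq
      rw [htt]
      exact hvt
  have hout : ∀ v, v ∉ Qt G x D t → (∀ q ∈ Qt G x D t, G.Adj v q) ∨
      (∀ q ∈ Qt G x D t, ¬ G.Adj v q) ∨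
      ∀ q ∈ Qt G x D t, (G.Adj v q ↔ q ∈ Lv G (Nx G x) (Qt G x D t)) := by
    intro v hv
    by_cases hvx : v = x
    · right; left
      intro q hq
      rw [hvx]
      exact (hQO q hq).2
    by_cases hvS : v ∈ Nx G x
    · right
      by_cases hvt : G.Adj t v
      · right
        rintro q (hq | ⟨D', hD', -, hq, -⟩)
        · refine iff_of_true ?_ (hL1 q hq.1 hq.2)
          have h1 : v ∈ At G (Nx G x) q := by
            rw [hq.2]
            exact ⟨hvS, hvt⟩
          exact h1.2.symm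
        · exact iff_of_false (fun h => (hD'.1 hq).2 v hvS h.symm) (hL2 q (hD'.1 hq))
      · left
        rintro q (hq | ⟨D', hD', -, hq, -⟩) hvq
        · have h1 : v ∈ At G (Nx G x) q := ⟨hvS, hvq.symm⟩
          rw [hq.2] at h1
          exact hvt h1.2
        · exact (hD'.1 hq).2 v hvS hvq.symm
    have hvO : v ∈ Ox G x := ⟨hvx, hvS⟩
    by_cases hvn : v ∈ nb G D
    · obtain ⟨v1, v2, -⟩ := n1 v hvn
      have hne : At G (Nx G x) v ≠ At G (Nx G x) t := fun h => hv (Or.inl ⟨hvn, h⟩)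
      rcases k1 D hD.1 v hvn t ht with h1 | h1
      · exact Or.inl (hlow v hvn (h1.ssubset_of_ne hne))
      · have h2 : At G (Nx G x) t ⊂ At G (Nx G x) v := h1.ssubset_of_ne hne.symm
        right; right
        rintro q (hq | ⟨D', hD', -, hq, -, hq'⟩)
        · refine iff_of_true (n2 v hvn q hq.1 ?_) (hL1 q hq.1 hq.2)
          rintro rfl
          exact hne hq.2
        · refine iff_of_false (fun h => ?_) (hL2 q (hD'.1 hq))
          exact hq' v ⟨fun h' => v2 (hD'.1 h'), q, hq, h.symm⟩ h2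
    · by_cases hvM : v ∈ MD G x D
      · rcases hvM with hvM | ⟨D₂, hD₂, hDD, hvD₂⟩
        · exact (hvn hvM).elim
        · -- the other components are not touched
          have h1 : ∀ D', Cp G x D' → (∀ q ∈ D', q ∈ Qt G x D t) → ∀ q ∈ D', ¬ G.Adj v q := by
            intro D' hD' hsub q hq hvq
            exact hD'.2.2 v (hD₂.1 hvD₂) ⟨fun h => hv (hsub v h), q, hq, hvq.symm⟩
          by_cases h2 : ∃ t₂ ∈ nb G D₂, At G (Nx G x) t ⊂ At G (Nx G x) t₂
          · obtain ⟨t₂, ht₂, htt⟩ := h2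
            right; right
            rintro q (hq | hq)
            · refine iff_of_true ?_ (hL1 q hq.1 hq.2)
              obtain ⟨q1, q2, s, hs, hqs⟩ := n1 q hq.1
              have hqt₂ : G.Adj q t₂ := by
                refine n2 q hq.1 t₂ (hDD ht₂) ?_
                rintro rfl
                rw [hq.2] at htt
                exact ssubset_irrefl _ htt
              refine (k3 D₂ hD₂ t₂ ht₂ q q1 (fun h => q2 (hD₂.1 h)) hqt₂ ?_ ⟨s, hs, hqs⟩ v
                hvD₂).symm
              rw [hq.2]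
              exact htt
            · obtain ⟨D', hD', hDD', hq, he1, he2⟩ := hq
              refine iff_of_false ?_ (hL2 q (hD'.1 hq))
              exact h1 D' hD' (fun q' hq' => Or.inr ⟨D', hD', hDD', hq', he1, he2⟩) q hq
          · right; left
            rintro q (hq | hq) hvq
            · obtain ⟨-, q2, -⟩ := n1 q hq.1
              have h3 : q ∈ nb G D₂ := ⟨fun h => q2 (hD₂.1 h), v, hvD₂, hvq⟩
              exact hv (Or.inr ⟨D₂, hD₂, hDD, hvD₂, ⟨q, h3, hq.2⟩,
                fun t' ht' h4 => h2 ⟨t', ht', h4⟩⟩)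
            · obtain ⟨D', hD', hDD', hq, he1, he2⟩ := hq
              exact h1 D' hD' (fun q' hq' => Or.inr ⟨D', hD', hDD', hq', he1, he2⟩) q hq hvq
      · have h1 : ∀ D', Cp G x D' → nb G D' ⊆ nb G D → ∀ q ∈ D', ¬ G.Adj v q := by
          intro D' hD' hDD q hq
          refine o1 v hvM q (Or.inr ⟨D', hD', hDD, hq⟩) (fun h => ?_)
          exact (n1 q h).2.1 (hD'.1 hq)
        right
        rcases o2 v hvO hvM with h2 | h2
        · right
          rintro q (hq | ⟨D', hD', hDD, hq, -⟩)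
          · exact iff_of_true (h2 q hq.1) (hL1 q hq.1 hq.2)
          · exact iff_of_false (h1 D' hD' hDD q hq) (hL2 q (hD'.1 hq))
        · left
          rintro q (hq | ⟨D', hD', hDD, hq, -⟩)
          · exact h2 q hq.1
          · exact h1 D' hD' hDD q hq
  refine ⟨hS, ?_, hout, ?_, ?_⟩
  · rw [Set.disjoint_left]
    exact fun s hs hsQ => hSO s hs (hQO s hsQ)
  · intro R hR hconn w hw y hy z hz hwR hyR hzR hwy h1 h2 h3 h4
    by_contra hwy'
    have htqQ : tq ∉ Qt G x D t := by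
      rintro (h | ⟨D', hD', -, h, -⟩)
      · rw [h.2] at hlt
        exact ssubset_irrefl _ hlt
      · exact (n1 tq htq).2.1 (hD'.1 h)
    have htqc := hlow tq htq hlt
    obtain ⟨tq1, -, s, hs, htqs⟩ := n1 tq htq
    have hmem : ∀ v ∈ Qt G x D t, v ∉ R → v ∉ Nx G x ∪ R := by
      rintro v hv hvR (h | h)
      · exact hSO v h (hQO v hv)
      · exact hvR h
    have hwP := hmem w hw hwR
    have hyP := hmem y hy hyR
    have hzP := hmem z hz hzR
    have hwz : w ≠ z := G.ne_of_adj h4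
    have hyz : y ≠ z := by
      rintro rfl
      obtain ⟨b, hb, hby⟩ := h2
      exact h3 b hb hby
    have hyz' : ¬ G.Adj y z := by
      intro hyz'
      refine hchd (hA0 V G (Nx G x ∪ R) {y} {z} {w} hconn (Conn.singleton G y)
        (Conn.singleton G z) (Conn.singleton G w) (Set.disjoint_singleton_right.mpr hyP)
        (Set.disjoint_singleton_right.mpr hzP) (Set.disjoint_singleton_right.mpr hwP)
        (Set.disjoint_singleton.mpr hyz) (Set.disjoint_singleton.mpr hwy.symm)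
        (Set.disjoint_singleton.mpr hwz.symm) (j8_tchR.mpr h2) (j8_tch.mpr hyz')
        (j8_tch.mpr h4.symm) (j8_tchR.mpr h1) ?_ ?_)
      · intro h
        obtain ⟨b, hb, hbz⟩ := j8_tchR.mp h
        exact h3 b hb hbz
      · intro h
        exact hwy' (j8_tch.mp h).symm
    have hxP : x ∉ Nx G x ∪ R := by
      rintro (h | h)
      · exact G.loopless.irrefl x h
      · exact hxQ (hR h)
    have htqP : tq ∉ Nx G x ∪ R := by
      rintro (h | h)
      · exact hSO tq h tq1
      · exact htqQ (hR h)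
    have hneQ : ∀ v ∈ Qt G x D t, x ≠ v := by
      rintro v hv rfl
      exact hxQ hv
    have hneT : ∀ v ∈ Qt G x D t, tq ≠ v := by
      rintro v hv rfl
      exact htqQ hv
    refine hG.2 (hM0 V G (Nx G x ∪ R) {tq} {w} {x} {y} {z} hconn (Conn.singleton G tq)
      (Conn.singleton G w) (Conn.singleton G x) (Conn.singleton G y) (Conn.singleton G z)
      (Set.disjoint_singleton_right.mpr htqP) (Set.disjoint_singleton_right.mpr hwP)
      (Set.disjoint_singleton.mpr (hneT w hw)) (Set.disjoint_singleton_left.mpr hxP)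
      (Set.disjoint_singleton.mpr tq1.1.symm) (Set.disjoint_singleton.mpr (hneQ w hw))
      (Set.disjoint_singleton_left.mpr hyP) (Set.disjoint_singleton.mpr (hneT y hy).symm)
      (Set.disjoint_singleton.mpr hwy.symm) (Set.disjoint_singleton_left.mpr hzP)
      (Set.disjoint_singleton.mpr (hneT z hz).symm) (Set.disjoint_singleton.mpr hwz.symm)
      (Set.disjoint_singleton.mpr (hneQ y hy)) (Set.disjoint_singleton.mpr (hneQ z hz))
      (Set.disjoint_singleton.mpr hyz)
      (j8_tchR.mpr ⟨s, Or.inl hs, htqs.symm⟩) (j8_tchR.mpr h1) (j8_tch.mpr (htqc w hw))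
      (j8_tchL.mpr ⟨s, Or.inl hs, SimpleGraph.Adj.symm hs⟩) (fun h => tq1.2 (j8_tch.mp h))
      (fun h => (hQO w hw).2 (j8_tch.mp h)) (j8_tchL.mpr h2) (j8_tch.mpr (htqc y hy).symm)
      (fun h => hwy' (j8_tch.mp h).symm) (j8_tch.mpr (htqc z hz).symm)
      (j8_tch.mpr h4.symm) ?_ (fun h => (hQO y hy).2 (j8_tch.mp h))
      (fun h => (hQO z hz).2 (j8_tch.mp h)) (fun h => hyz' (j8_tch.mp h)))
    intro h
    obtain ⟨b, hb, hbz⟩ := j8_tchL.mp h
    exact h3 b hb hbz
  · intro M hM hML hH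
    refine hP M (fun h => hxQ (hM (h ▸ Set.mem_univ x))) ?_
    intro v _ hvM
    by_cases hvQ : v ∈ Qt G x D t
    · exact hH v hvQ hvM
    · rcases hout v hvQ with h1 | h1 | h1
      · exact Or.inl fun m hm => h1 m (hM hm)
      · exact Or.inr fun m hm => h1 m (hM hm)
      · rcases hML with h2 | h2
        · exact Or.inl fun m hm => (h1 m (hM hm)).mpr (h2 hm)
        · exact Or.inr fun m hm h3 => Set.disjoint_left.mp h2 hm ((h1 m (hM hm)).mp h3)

end Pool.Agent.MPd439b2.H3
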