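import Pool.Agent.Lib.MP_d439b2_co.H3.Spec

/-!
# MP_d439b2_co, H3/J9: Case II, the last level
-/

set_option autoImplicit false

namespace Pool.Agent.MPd439b2.H3

open Pool.Agent.MPd439b2 Pool.Agent.MPd439b2.LK

theorem pfJ9 : S_J0 → S_J3 → S_J4 → S_J9 := by
  intro hJ0 hJ3 hJ4 V _ G x D hcls hspo hsmp hconn hmxl t ht hmin
  obtain ⟨h01, h02, h03⟩ := hJ0 V G x D hcls.1 hsmp hconn hmxl.1
  obtain ⟨h31, h32⟩ := hJ3 V G x D hcls hsmp hconn hmxl
  obtain ⟨-, -, h43⟩ := hJ4 V G x hcls hsmp hconn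
  by_contra hns
  rw [Set.not_subsingleton_iff] at hns
  have hQO : ∀ v ∈ Qt G x D t, v ∈ Ox G x := by
    rintro v (⟨h1, -⟩ | ⟨D', hD', -, h2, -⟩)
    · exact (h01 v h1).1
    · exact (hD'.1 h2).1
  have hxQ : x ∉ Qt G x D t := fun h => (hQO x h).1 rfl
  obtain ⟨s, hs, -⟩ := (h01 t ht).2.2
  have hsQ : s ∉ Qt G x D t := fun h => (hQO s h).2 hs
  have hsx : x ≠ s := by
    rintro rfl
    exact G.irrefl hs
  obtain ⟨L, hL⟩ : ∃ L : Set V, L = {v | v ∈ nb G D ∧ At G (Nx G x) v = At G (Nx G x) t} :=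
    ⟨_, rfl⟩
  have hLm : ∀ a, a ∈ L ↔ a ∈ nb G D ∧ At G (Nx G x) a = At G (Nx G x) t := by
    intro a
    rw [hL]
    rfl
  have htL : t ∈ L := (hLm t).mpr ⟨ht, rfl⟩
  have hLQ : ∀ a ∈ L, a ∈ Qt G x D t := fun v hv => Or.inl ((hLm v).mp hv)
  have key : ∀ v, v ∉ Qt G x D t →
      (∀ a ∈ Qt G x D t, a ∉ L → ¬ G.Adj a v) ∧ ∀ a ∈ L, (G.Adj a v ↔ G.Adj t v) := by
    intro v hv
    by_cases hvx : v = x
    · have h : ∀ a ∈ Qt G x D t, ¬ G.Adj a v := by
        intro a ha had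
        rw [hvx] at had
        exact (hQO a ha).2 had.symm
      exact ⟨fun a ha _ => h a ha, fun a ha => iff_of_false (h a (hLQ a ha)) (h t (hLQ t htL))⟩
    by_cases hvN : G.Adj x v
    · refine ⟨fun a ha haL had => ?_, fun a ha => ?_⟩
      · rcases ha with ha | ⟨D', hD', -, h2, -⟩
        · exact haL ((hLm a).mpr ha)
        · exact (hD'.1 h2).2 v hvN had
      · have h1 : v ∈ At G (Nx G x) a ↔ v ∈ At G (Nx G x) t := by rw [((hLm a).mp ha).2]
        constructor
        · intro h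
          exact (h1.mp ⟨hvN, h⟩).2
        · intro h
          exact (h1.mpr ⟨hvN, h⟩).2
    have hvO : v ∈ Ox G x := ⟨hvx, hvN⟩
    by_cases hvM : v ∈ MD G x D
    · rcases hvM with hvn | ⟨D'', hD'', hn, hvD⟩
      · have hne : At G (Nx G x) t ≠ At G (Nx G x) v := fun h => hv (Or.inl ⟨hvn, h.symm⟩)
        have hss : At G (Nx G x) t ⊂ At G (Nx G x) v := (hmin v hvn).ssubset_of_ne hne
        refine ⟨fun a ha haL had => ?_, fun a ha => iff_of_true ?_ ?_⟩
        · rcases ha with ha | ⟨D', hD', -, h2, -, h4⟩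
          · exact haL ((hLm a).mpr ha)
          · exact h4 v ⟨fun h5 => (h01 v hvn).2.1 (hD'.1 h5), a, h2, had⟩ hss
        · exact h02 a ((hLm a).mp ha).1 v hvn (fun h => hv (h ▸ hLQ a ha))
        · exact h02 t ht v hvn (fun h => hv (h ▸ hLQ t htL))
      · obtain ⟨-, -, h03''⟩ := hJ0 V G x D'' hcls.1 hsmp hconn hD''
        have hex : ∃ t'' ∈ nb G D'', At G (Nx G x) t ⊂ At G (Nx G x) t'' := by
          by_contra hcon
          push Not at hcon
          apply hv
          right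
          refine ⟨D'', hD'', hn, hvD, ?_, hcon⟩
          obtain ⟨t', ht'⟩ := h03''
          refine ⟨t', ht', ?_⟩
          by_contra hne
          exact hcon t' ht' ((hmin t' (hn ht')).ssubset_of_ne (Ne.symm hne))
        obtain ⟨t'', ht'', hss⟩ := hex
        have hc : ∀ a ∈ L, G.Adj a v := by
          intro a ha
          obtain ⟨ha1, ha2⟩ := (hLm a).mp ha
          refine h43 D'' hD'' t'' ht'' a (h01 a ha1).1 (fun h => (h01 a ha1).2.1 (hD''.1 h))
            ?_ ?_ ?_ v hvD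
          · apply h02 a ha1 t'' (hn ht'')
            intro h
            rw [← h, ha2] at hss
            exact (ssubset_irrefl _) hss
          · rw [ha2]
            exact hss
          · obtain ⟨s', hs', had⟩ := (h01 a ha1).2.2
            exact ⟨s', hs', had⟩
        refine ⟨fun a ha haL had => ?_, fun a ha => iff_of_true (hc a ha) (hc t htL)⟩
        rcases ha with ha | ⟨D', hD', h6, h2, h5, h4⟩
        · exact haL ((hLm a).mpr ha)
        · by_cases hvD' : v ∈ D'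
          · exact hv (Or.inr ⟨D', hD', h6, hvD', h5, h4⟩)
          · exact hD'.2.2 v (hD''.1 hvD) ⟨hvD', a, h2, had⟩
    · refine ⟨fun a ha haL had => ?_, fun a ha => ?_⟩
      · rcases ha with ha | ⟨D', hD', h6, h2, h5, h4⟩
        · exact haL ((hLm a).mpr ha)
        · exact h31 v hvM a (Or.inr ⟨D', hD', h6, h2⟩) (fun h => (h01 a h).2.1 (hD'.1 h2)) had.symm
      · obtain ⟨ha1, ha2⟩ := (hLm a).mp ha
        rcases h32 v hvO hvM with h | h
        · exact iff_of_true (h a ha1).symm (h t ht).symm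
        · exact iff_of_false (fun h' => h a ha1 h'.symm) (fun h' => h t ht h'.symm)
  refine hspo (Qt G x D t) (Set.subset_univ _) ((Set.one_lt_ncard_iff_nontrivial).mpr hns)
    ((Set.one_lt_ncard_iff_nontrivial).mpr ⟨x, ⟨Set.mem_univ x, hxQ⟩, s, ⟨Set.mem_univ s, hsQ⟩,
      hsx⟩) ⟨L, hLQ, {v | v ∉ Qt G x D t ∧ G.Adj t v}, fun v hv => ⟨Set.mem_univ v, hv.1⟩, ?_⟩
  intro a ha b hb
  obtain ⟨k1, k2⟩ := key b hb.2
  constructor
  · intro hab
    have haL : a ∈ L := by
      by_contra h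
      exact k1 a ha h hab
    exact ⟨haL, hb.2, (k2 a haL).mp hab⟩
  · rintro ⟨haL, -, htb⟩
    exact (k2 a haL).mpr htb

end Pool.Agent.MPd439b2.H3
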