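import Pool.Agent.Lib.MP_d439b2_co.H3.Spec

/-!
# MP_d439b2_co, H3, M0: the general model of `K3:0,01,12` (helper43)
-/

set_option autoImplicit false

namespace Pool.Agent.MPd439b2.H3

open Pool.Agent.MPd439b2 Pool.Agent.MPd439b2.LK

theorem pfM0 : S_M0 := by
  intro V G P Q R X Y Z cP cQ cR cX cY cZ dPQ dPR dQR dXP dXQ dXR dYP dYQ dYR dZP dZQ dZR
    dXY dXZ dYZ tPQ tPR tQR tXP tXQ tXR tYP tYQ tYR tZQ tZR tZP tXY tXZ tYZ
  have hd : ∀ i j : Fin 3, i ≠ j → Disjoint ((![P, Q, R] : Fin 3 → Set V) i)
      ((![P, Q, R] : Fin 3 → Set V) j) := by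
    intro i j hij
    fin_cases i <;> fin_cases j <;> first
      | exact absurd rfl hij
      | assumption
      | (apply Disjoint.symm; assumption)
  have ht : ∀ i j : Fin 3, i ≠ j → Tch G ((![P, Q, R] : Fin 3 → Set V) i)
      ((![P, Q, R] : Fin 3 → Set V) j) := by
    intro i j hij
    fin_cases i <;> fin_cases j <;> first
      | exact absurd rfl hij
      | assumption
      | (apply Tch.symm; assumption)
  have hd' : ∀ (i : Fin 3) (j : Fin 3), Disjoint ((![X, Y, Z] : Fin 3 → Set V) j)
      ((![P, Q, R] : Fin 3 → Set V) i) := by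
    intro i j
    fin_cases i <;> fin_cases j <;> assumption
  have ht' : ∀ (i : Fin 3) (j : Fin 3), i ∈ (![{0}, {0, 1}, {1, 2}] : Fin 3 → Set (Fin 3)) j ↔
      Tch G ((![X, Y, Z] : Fin 3 → Set V) j) ((![P, Q, R] : Fin 3 → Set V) i) := by
    intro i j
    fin_cases i <;> fin_cases j <;> simp <;> assumption
  have hdd : ∀ i j : Fin 3, i ≠ j → Disjoint ((![X, Y, Z] : Fin 3 → Set V) i)
      ((![X, Y, Z] : Fin 3 → Set V) j) := by
    intro i j hij
    fin_cases i <;> fin_cases j <;> first
      | exact absurd rfl hij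
      | assumption
      | (apply Disjoint.symm; assumption)
  have htt : ∀ i j : Fin 3, i ≠ j → ¬ Tch G ((![X, Y, Z] : Fin 3 → Set V) i)
      ((![X, Y, Z] : Fin 3 → Set V) j) := by
    intro i j hij
    fin_cases i <;> fin_cases j <;> first
      | exact absurd rfl hij
      | assumption
      | (intro h; exact tXY h.symm)
      | (intro h; exact tXZ h.symm)
      | (intro h; exact tYZ h.symm)
  refine ⟨Sum.elim ![P, Q, R] ![X, Y, Z], fun _ => Set.subset_univ _, ?_, ?_, ?_⟩
  · rintro (w | w) <;> fin_cases w <;> assumption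
  · rintro (w | w) (w' | w') hw
    · exact hd w w' fun h => hw (congrArg _ h)
    · exact (hd' w w').symm
    · exact hd' w' w
    · exact hdd w w' fun h => hw (congrArg _ h)
  · rintro (w | w) (w' | w') hw
    · have h : w ≠ w' := fun h => hw (congrArg _ h)
      exact iff_of_true h (ht w w' h)
    · exact (ht' w w').trans tch_comm
    · exact ht' w' w
    · have h : w ≠ w' := fun h => hw (congrArg _ h)
      exact iff_of_false (fun h => h) (htt w w' h)

end Pool.Agent.MPd439b2.H3
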