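import Pool.Agent.Lib.MP_d439b2_co.H3.Spec

/-!
# MP_d439b2_co, H3, M1: the vertex model of `K3:0,01,12` (helper43)
-/

set_option autoImplicit false

namespace Pool.Agent.MPd439b2.H3

open Pool.Agent.MPd439b2 Pool.Agent.MPd439b2.LK

theorem pfM1 (h : S_M0) : S_M1 := by
  intro V G a a' b c x y z haa hba hca hbc nxa nxa' nya nya' nza nza' hxa hxb hxc hya hyb hyc
    hzb hzc hza hza' hxy hxz hyz
  have cP : Conn G {a, a'} := by
    rcases haa with rfl | haa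
    · simpa using Conn.singleton G a
    · exact Conn.pair haa
  have nba : b ≠ a := fun e => hza (e ▸ hzb)
  have nba' : b ≠ a' := fun e => hza' (e ▸ hzb)
  have nca : c ≠ a := fun e => hza (e ▸ hzc)
  have nca' : c ≠ a' := fun e => hza' (e ▸ hzc)
  have nxb : x ≠ b := fun e => hxy (e ▸ hyb.symm)
  have nxc : x ≠ c := fun e => hxz (e ▸ hzc.symm)
  have nyc : y ≠ c := fun e => hyz (e ▸ hzc.symm)
  have nxy : x ≠ y := fun e => hxb (e ▸ hyb)
  have nxz : x ≠ z := fun e => hxc (e ▸ hzc)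
  have nyz : y ≠ z := fun e => hyc (e ▸ hzc)
  have d2 : ∀ {v : V}, v ≠ a → v ≠ a' → Disjoint ({v} : Set V) {a, a'} := by
    intro v h1 h2
    refine Set.disjoint_singleton_left.2 fun h3 => ?_
    rcases h3 with h3 | h3
    · exact h1 h3
    · exact h2 h3
  have d1 : ∀ {v w : V}, v ≠ w → Disjoint ({v} : Set V) {w} := fun h1 =>
    Set.disjoint_singleton.2 h1
  have t2 : ∀ {v : V}, (G.Adj v a ∨ G.Adj v a') → Tch G {v} {a, a'} := by
    rintro v (h1 | h1)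
    · exact ⟨v, rfl, a, Or.inl rfl, h1⟩
    · exact ⟨v, rfl, a', Or.inr rfl, h1⟩
  have n2 : ∀ {v : V}, ¬ G.Adj v a → ¬ G.Adj v a' → ¬ Tch G {v} {a, a'} := by
    rintro v h1 h2 ⟨_, rfl, p, (rfl | rfl), hp⟩
    · exact h1 hp
    · exact h2 hp
  have t1 : ∀ {v w : V}, G.Adj v w → Tch G {v} {w} := fun h1 => ⟨_, rfl, _, rfl, h1⟩
  have n1 : ∀ {v w : V}, ¬ G.Adj v w → ¬ Tch G {v} {w} := by
    rintro v w h1 ⟨_, rfl, _, rfl, h2⟩
    exact h1 h2
  exact h V G {a, a'} {b} {c} {x} {y} {z} cP (Conn.singleton G b) (Conn.singleton G c)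
    (Conn.singleton G x) (Conn.singleton G y) (Conn.singleton G z)
    (d2 nba nba').symm (d2 nca nca').symm (d1 hbc.ne) (d2 nxa nxa') (d1 nxb) (d1 nxc)
    (d2 nya nya') (d1 hyb.ne) (d1 nyc) (d2 nza nza') (d1 hzb.ne) (d1 hzc.ne) (d1 nxy) (d1 nxz)
    (d1 nyz) (t2 hba).symm (t2 hca).symm (t1 hbc) (t2 hxa) (n1 hxb) (n1 hxc) (t2 hya) (t1 hyb)
    (n1 hyc) (t1 hzb) (t1 hzc) (n2 hza hza') (n1 hxy) (n1 hxz) (n1 hyz)

end Pool.Agent.MPd439b2.H3
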