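import Pool.Agent.Lib.MP_d439b2_co.H3.Spec

/-!
# MP_d439b2_co, H3, statement `S_NU`: graphs without splits and without universal vertex
-/

set_option autoImplicit false

namespace Pool.Agent.MPd439b2.H3

open Pool.Agent.MPd439b2 Pool.Agent.MPd439b2.LK

theorem pfNU : S_Pr → S_Sm → S_I7 → S_J6 → S_J10 → S_J13 → S_NU := by
  intro hPr hSm hI7 hJ6 hJ10 hJ13 V _ G T h hcls hspo hnou hT huns h1
  by_contra hcon
  rw [not_lt] at hcon
  have hcard : 4 ≤ Nat.card V := by
    have h2 : T.ncard ≤ Nat.card V := by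
      rw [← Set.ncard_univ]
      exact Set.ncard_le_ncard (Set.subset_univ T) (Set.toFinite _)
    omega
  have hprm : Prm G := (hPr V G).1 hspo hcard hnou
  have hconn : Conn G Set.univ := (hPr V G).2.1 hspo hcard hnou
  obtain ⟨z₀, _, hz₀⟩ := hSm V G Set.univ hcls.1 hconn (by
    intro u hu
    exact absurd (Set.mem_univ u) hu.1)
  obtain ⟨x, hx, hmin⟩ : ∃ x, Smp G x ∧ ∀ y, Smp G y → (Nx G x).ncard ≤ (Nx G y).ncard := by
    obtain ⟨x, hx, hxm⟩ := Set.exists_min_image {y | Smp G y} (fun y => (Nx G y).ncard)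
      (Set.toFinite _) ⟨z₀, hz₀⟩
    exact ⟨x, hx, hxm⟩
  by_cases hO : ∀ v ∈ Ox G x, ∃ s ∈ Nx G x, G.Adj v s
  · have hCI : CI G x := ⟨hcls, hprm, hconn, hnou, hx, hmin, hO⟩
    have h2 := hI7 V G x T h hCI hT huns
    omega
  · push Not at hO
    obtain ⟨v, hv, hvs⟩ := hO
    have hvO : v ∈ O0 G x := ⟨hv, hvs⟩
    obtain ⟨D₀, hs₀, hv₀, hc₀, hn₀⟩ := exists_comp G hvO
    obtain ⟨D, hD, hDm⟩ := Set.exists_max_image {D | Cp G x D} (fun D => (nb G D).ncard)
      (Set.toFinite _) ⟨D₀, hs₀, hc₀, hn₀⟩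
    have hMx : Mxl G x D := by
      refine ⟨hD, fun D' hD' hsub => ?_⟩
      have h2 : nb G D = nb G D' :=
        Set.eq_of_subset_of_ncard_le hsub (hDm D' hD') (Set.toFinite _)
      rw [h2]
    have key : ∀ y E, Smp G y → Mxl G y E → (T ∩ MD G y E).ncard < h := by
      intro y E hy hE
      have h3 := (hJ6 V G y E hcls hspo hy hconn hE).2
      have h4 := hJ10 V G y E T h hcls hspo hprm hy hconn hE hT huns h1 hcon
      rcases huns (MD G y E ∪ S1 G y E) (by omega) with h5 | h5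
      · refine lt_of_le_of_lt (Set.ncard_le_ncard ?_ (Set.toFinite _)) h5
        exact Set.inter_subset_inter_right T Set.subset_union_left
      · omega
    obtain ⟨z, D', hz, hD', hsub⟩ := hJ13 V G x D hcls hspo hprm hx hconn hMx
    have h6 := key x D hx hMx
    have h7 := key z D' hz hD'
    have h8 : {v | v ∉ MD G x D ∧ v ∉ MD G z D'}.ncard ≤ 1 :=
      Set.ncard_le_one_iff_subsingleton.mpr hsub
    have h9 : T ⊆ ((T ∩ MD G x D) ∪ (T ∩ MD G z D')) ∪ {v | v ∉ MD G x D ∧ v ∉ MD G z D'} := by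
      intro t ht
      by_cases h10 : t ∈ MD G x D
      · exact Or.inl (Or.inl ⟨ht, h10⟩)
      · by_cases h11 : t ∈ MD G z D'
        · exact Or.inl (Or.inr ⟨ht, h11⟩)
        · exact Or.inr ⟨h10, h11⟩
    have h12 := Set.ncard_le_ncard h9 (Set.toFinite _)
    have h13 := Set.ncard_union_le ((T ∩ MD G x D) ∪ (T ∩ MD G z D'))
      {v | v ∉ MD G x D ∧ v ∉ MD G z D'}
    have h14 := Set.ncard_union_le (T ∩ MD G x D) (T ∩ MD G z D')
    omega

end Pool.Agent.MPd439b2.H3
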