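import Pool.Agent.Lib.MP_d439b2_co.H3.Spec

/-!
# MP_d439b2_co, H3, Pr: no splits: no homogeneous sets, connected (helper43)
-/

set_option autoImplicit false

namespace Pool.Agent.MPd439b2.H3

open Pool.Agent.MPd439b2 Pool.Agent.MPd439b2.LK

namespace PrAux

theorem three {V : Type} [Finite V] {G : SimpleGraph V} (hP : Prm G) (hc : 3 ≤ Nat.card V) :
    Conn G Set.univ := by
  have hne : Nonempty V := by
    by_contra h
    rw [not_nonempty_iff] at h
    rw [Nat.card_of_isEmpty] at hc
    omega
  obtain ⟨v⟩ := hne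
  obtain ⟨C, _, hv, hC, hn⟩ := exists_comp G (Set.mem_univ v)
  by_contra hcon
  have hCu : C ≠ Set.univ := fun h => hcon (h ▸ hC)
  have hs := hP C hCu (by
    intro w _ hw
    right
    intro m hm h
    exact hn w (Set.mem_univ w) ⟨hw, m, hm, h.symm⟩)
  have hCv : C = {v} := by
    ext w
    constructor
    · intro hw
      exact hs hw hv
    · rintro rfl
      exact hv
  have hs2 := hP (Set.univ \ {v}) (by
    intro h
    have h1 : v ∈ Set.univ \ {v} := by
      rw [h]
      trivial
    exact h1.2 rfl) (by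
    intro w _ hw
    have hwv : w = v := by
      by_contra h
      exact hw ⟨trivial, h⟩
    right
    intro m hm h
    refine hn m (Set.mem_univ m) ⟨?_, w, hwv ▸ hv, h⟩
    rw [hCv]
    exact hm.2)
  have h1 : (Set.univ \ {v} : Set V).ncard ≤ 1 := (Set.ncard_le_one_iff_subsingleton).2 hs2
  have h2 : (Set.univ \ {v} : Set V).ncard + ({v} : Set V).ncard = (Set.univ : Set V).ncard :=
    Set.ncard_sdiff_add_ncard_of_subset (Set.subset_univ _)
  rw [Set.ncard_singleton, Set.ncard_univ] at h2
  omega

theorem one {V : Type} [Finite V] {G : SimpleGraph V} (hS : SPo G Set.univ)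
    (hc : 4 ≤ Nat.card V) (hU : NoU G) : Prm G := by
  intro M hM hH
  by_contra hcon
  have hM2 : 2 ≤ M.ncard := by
    by_contra h
    exact hcon ((Set.ncard_le_one_iff_subsingleton).1 (by omega))
  by_cases h2 : 2 ≤ (Set.univ \ M).ncard
  · refine hS M (Set.subset_univ _) hM2 h2 ⟨M, subset_rfl,
      {v | v ∈ Set.univ \ M ∧ ∀ m ∈ M, G.Adj v m}, fun v hv => hv.1, fun a ha b hb => ?_⟩
    constructor
    · intro hab
      refine ⟨ha, hb, ?_⟩
      rcases hH b trivial hb.2 with h | h
      · exact h
      · exact absurd hab.symm (h a ha)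
    · rintro ⟨_, _, h⟩
      exact (h a ha).symm
  · have hne : (Set.univ \ M).Nonempty := by
      by_contra h
      rw [Set.not_nonempty_iff_eq_empty, Set.sdiff_eq_empty] at h
      exact hM (Set.eq_univ_of_univ_subset h)
    have hs : (Set.univ \ M).Subsingleton :=
      (Set.ncard_le_one_iff_subsingleton).1 (by omega)
    obtain ⟨v, hv⟩ := hne
    have hmem : ∀ w, w ≠ v → w ∈ M := by
      intro w hw
      by_contra h
      exact hw (hs ⟨trivial, h⟩ hv)
    rcases hH v trivial hv.2 with h | h
    · obtain ⟨w, hw, hvw⟩ := hU v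
      exact hvw (h w (hmem w hw))
    · obtain ⟨w, hw⟩ : M.Nonempty := by
        rw [← Set.ncard_pos]
        omega
      have hvw : v ≠ w := fun e => hv.2 (e ▸ hw)
      have hA : ({v, w} : Set V).ncard = 2 := Set.ncard_pair hvw
      refine hS {v, w} (Set.subset_univ _) hA.ge ?_ ⟨{w}, by simp,
        {u | u ∈ Set.univ \ {v, w} ∧ G.Adj w u}, fun u hu => hu.1, fun a ha b hb => ?_⟩
      · have h3 : (Set.univ \ {v, w} : Set V).ncard + ({v, w} : Set V).ncard =
            (Set.univ : Set V).ncard := Set.ncard_sdiff_add_ncard_of_subset (Set.subset_univ _)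
        rw [Set.ncard_univ] at h3
        omega
      · have hbv : b ≠ v := fun e => hb.2 (Or.inl e)
        constructor
        · intro hab
          rcases ha with ha | ha
          · exact absurd (ha ▸ hab) (h b (hmem b hbv))
          · exact ⟨ha, hb, ha ▸ hab⟩
        · rintro ⟨h4, _, h5⟩
          rw [Set.mem_singleton_iff.1 h4]
          exact h5

end PrAux

theorem pfPr : S_Pr := by
  intro V _ G
  exact ⟨PrAux.one, fun h1 h2 h3 => PrAux.three (PrAux.one h1 h2 h3) (by omega), PrAux.three⟩

end Pool.Agent.MPd439b2.H3
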