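import Pool.Agent.Lib.MP_d439b2_co.H3.Spec

/-!
# MP_d439b2_co, H3/Q0 (helper18): a rooted piece has cut-rank at most `2`
-/

set_option autoImplicit false

namespace Pool.Agent.MPd439b2.H3

open Pool.Agent.MPd439b2 Pool.Agent.MPd439b2.LK

theorem pfQ0 : LK.S_A1 → S_Q0 := by
  intro h1 V _ G A Q h
  obtain ⟨a1, a2, a3, _, a5, _⟩ := h1 V G
  have hcov : Qᶜ ⊆ {v | v ∉ Q ∧ ((∀ q ∈ Q, G.Adj v q) ∨ ∀ q ∈ Q, ¬ G.Adj v q)} ∪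
      {v | v ∉ Q ∧ ∀ q ∈ Q, (G.Adj v q ↔ q ∈ Lv G A Q)} := by
    intro v hv
    rcases h.out v hv with h2 | h2 | h2
    · exact Or.inl ⟨hv, Or.inl h2⟩
    · exact Or.inl ⟨hv, Or.inr h2⟩
    · exact Or.inr ⟨hv, h2⟩
  have h2 : rk G {v | v ∉ Q ∧ ((∀ q ∈ Q, G.Adj v q) ∨ ∀ q ∈ Q, ¬ G.Adj v q)} Q ≤ 1 := by
    refine a5 _ _ Q ?_
    rintro a ⟨_, h3 | h3⟩
    · exact Or.inl fun b hb => iff_of_true (h3 b hb) hb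
    · exact Or.inr h3
  have h3 : rk G {v | v ∉ Q ∧ ∀ q ∈ Q, (G.Adj v q ↔ q ∈ Lv G A Q)} Q ≤ 1 := by
    refine a5 _ _ (Lv G A Q) ?_
    rintro a ⟨_, h3⟩
    exact Or.inl h3
  have h4 := (a2 _ _ Q Q hcov subset_rfl).trans (a3 _ _ Q)
  unfold cr
  rw [a1]
  omega

end Pool.Agent.MPd439b2.H3
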