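import Pool.Agent.Lib.MP_d439b2_co.H3.Spec

/-!
# MP_d439b2_co, `(C_4, K3:0,01,12)`: rooted pieces, the first level (`S_Q1`)
-/

set_option autoImplicit false

namespace Pool.Agent.MPd439b2.H3

open Pool.Agent.MPd439b2 Pool.Agent.MPd439b2.LK

namespace Q1x

variable {V : Type} {G : SimpleGraph V} {A Q : Set V}

theorem noA {z : V} (hz : z ∈ Q) (hzL : z ∉ Lv G A Q) : ∀ a ∈ A, ¬ G.Adj a z :=
  fun a ha haz => hzL ⟨hz, a, ha, haz⟩

/-- a vertex of the first level with a neighbour outside is complete to the first level -/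
theorem zero (h : RPc G A Q) {w z : V} (hw : w ∈ Lv G A Q) (hz : z ∈ Q) (hzL : z ∉ Lv G A Q)
    (hwz : G.Adj w z) {y : V} (hy : y ∈ Lv G A Q) (hwy : w ≠ y) : G.Adj w y := by
  refine h.pp ∅ (Set.empty_subset _) ?_ w hw.1 y hy.1 z hz (Set.notMem_empty _)
    (Set.notMem_empty _) (Set.notMem_empty _) hwy ?_ ?_ ?_ hwz
  · rw [Set.union_empty]
    exact h.conn
  · obtain ⟨a, ha, haw⟩ := hw.2
    exact ⟨a, Or.inl ha, haw⟩
  · obtain ⟨a, ha, hay⟩ := hy.2
    exact ⟨a, Or.inl ha, hay⟩
  · rintro a (ha | ha)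
    · exact noA hz hzL a ha
    · exact ha.elim

theorem clique (h : RPc G A Q) {a b : V} (ha : a ∈ Lv G A Q) (hb : b ∈ Lv G A Q) (hab : a ≠ b) :
    G.Adj a b := by
  by_cases h1 : ∃ z ∈ Q, z ∉ Lv G A Q ∧ G.Adj a z
  · obtain ⟨z, hz, hzL, haz⟩ := h1
    exact zero h ha hz hzL haz hb hab
  by_cases h2 : ∃ z ∈ Q, z ∉ Lv G A Q ∧ G.Adj b z
  · obtain ⟨z, hz, hzL, hbz⟩ := h2
    exact (zero h hb hz hzL hbz ha hab.symm).symm
  exfalso
  have hs := h.mf {w | w ∈ Lv G A Q ∧ ∀ z ∈ Q, z ∉ Lv G A Q → ¬ G.Adj w z}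
    (fun w hw => hw.1.1) (Or.inl fun w hw => hw.1) (by
      intro v hv hvM
      by_cases hvL : v ∈ Lv G A Q
      · left
        have h3 : ∃ z ∈ Q, z ∉ Lv G A Q ∧ G.Adj v z := by
          by_contra hcon
          push Not at hcon
          exact hvM ⟨hvL, hcon⟩
        obtain ⟨z, hz, hzL, hvz⟩ := h3
        intro m hm
        refine zero h hvL hz hzL hvz hm.1 ?_
        rintro rfl
        exact hvM hm
      · right
        intro m hm hvm
        exact hm.2 v hv hvL hvm.symm)
  push Not at h1 h2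
  exact hab (hs ⟨ha, h1⟩ ⟨hb, h2⟩)

/-- the property `pp` for `R = {a}` -/
theorem pp1 (h : RPc G A Q) {a w y z : V} (ha : a ∈ Lv G A Q) (hw : w ∈ Q) (hy : y ∈ Q)
    (hz : z ∈ Q) (hwa : w ≠ a) (hya : y ≠ a) (hwy : w ≠ y) (h1 : w ∈ Lv G A Q ∨ G.Adj a w)
    (h2 : y ∈ Lv G A Q ∨ G.Adj a y) (hzL : z ∉ Lv G A Q) (haz : ¬ G.Adj a z) (hwz : G.Adj w z) :
    G.Adj w y := by
  have hA : ∀ v, v ∈ Lv G A Q ∨ G.Adj a v → ∃ c ∈ A ∪ {a}, G.Adj c v := by
    rintro v (hv | hv)
    · obtain ⟨c, hc, hcv⟩ := hv.2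
      exact ⟨c, Or.inl hc, hcv⟩
    · exact ⟨a, Or.inr rfl, hv⟩
  refine h.pp {a} (Set.singleton_subset_iff.2 ha.1) ?_ w hw y hy z hz hwa hya ?_ hwy (hA w h1)
    (hA y h2) ?_ hwz
  · rw [Set.union_comm, ← Set.insert_eq]
    exact h.conn.insert ha.2
  · rintro rfl
    exact hzL ha
  · rintro c (hc | hc)
    · exact noA hz hzL c hc
    · rw [Set.mem_singleton_iff.1 hc]
      exact haz

end Q1x

theorem pfQ1 : S_Q1 := by
  intro V _ G A Q h
  have hcl : CompleteOn G (Lv G A Q) := fun a ha b hb hab => Q1x.clique h ha hb hab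
  refine ⟨hcl, ?_, ?_⟩
  · intro a ha a' ha' hne
    have hnest : Np G A Q a ⊆ Np G A Q a' ∨ Np G A Q a' ⊆ Np G A Q a := by
      by_contra hcon
      push Not at hcon
      obtain ⟨h1, h2⟩ := hcon
      obtain ⟨z', hz', hz'n⟩ := Set.not_subset.1 h1
      obtain ⟨z, hz, hzn⟩ := Set.not_subset.1 h2
      apply hz'n
      refine ⟨hz'.1, hz'.2.1, ?_⟩
      refine Q1x.pp1 h ha ha'.1 hz'.1 hz.1 hne.symm ?_ ?_ (Or.inl ha') (Or.inr hz'.2.2) hz.2.1
        ?_ hz.2.2
      · rintro rfl
        exact hz'.2.1 ha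
      · rintro rfl
        exact hz'.2.1 ha'
      · intro haz
        exact hzn ⟨hz.1, hz.2.1, haz⟩
    have hneq : Np G A Q a ≠ Np G A Q a' := by
      intro heq
      have hs := h.mf {a, a'} (by
          rintro v (rfl | hv)
          · exact ha.1
          · rw [Set.mem_singleton_iff.1 hv]
            exact ha'.1) (Or.inl (by
          rintro v (rfl | hv)
          · exact ha
          · rw [Set.mem_singleton_iff.1 hv]
            exact ha')) (by
          intro v hv hvM
          have hva : v ≠ a := fun h0 => hvM (Or.inl h0)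
          have hva' : v ≠ a' := fun h0 => hvM (Or.inr h0)
          by_cases hvL : v ∈ Lv G A Q
          · left
            rintro m (rfl | hm)
            · exact hcl v hvL m ha hva
            · rw [Set.mem_singleton_iff.1 hm]
              exact hcl v hvL a' ha' hva'
          · have hiff : G.Adj a v ↔ G.Adj a' v := by
              have h1 : v ∈ Np G A Q a ↔ v ∈ Np G A Q a' := by rw [heq]
              constructor
              · intro h2
                exact (h1.1 ⟨hv, hvL, h2⟩).2.2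
              · intro h2
                exact (h1.2 ⟨hv, hvL, h2⟩).2.2
            by_cases h3 : G.Adj a v
            · left
              rintro m (rfl | hm)
              · exact h3.symm
              · rw [Set.mem_singleton_iff.1 hm]
                exact (hiff.1 h3).symm
            · right
              rintro m (rfl | hm) hvm
              · exact h3 hvm.symm
              · rw [Set.mem_singleton_iff.1 hm] at hvm
                exact h3 (hiff.2 hvm.symm))
      exact hne (hs (Or.inl rfl) (Or.inr rfl))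
    rcases hnest with h1 | h1
    · exact Or.inl (h1.ssubset_of_ne hneq)
    · exact Or.inr (h1.ssubset_of_ne hneq.symm)
  · rintro a ha w hw ⟨z, hz, hzL, haz, hwz⟩
    have hwa : w ≠ a := by
      rintro rfl
      exact hw.2.1 ha
    refine ⟨?_, ?_⟩
    · intro a' ha'
      by_cases haa : a' = a
      · rw [haa]
        exact hw.2.2.symm
      · refine Q1x.pp1 h ha hw.1 ha'.1 hz hwa haa ?_ (Or.inr hw.2.2) (Or.inl ha') hzL haz hwz
        rintro rfl
        exact hw.2.1 ha'
    · intro f hf hfw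
      refine Q1x.pp1 h ha hw.1 hf.1 hz hwa ?_ hfw.symm (Or.inr hw.2.2) (Or.inr hf.2.2) hzL haz hwz
      rintro rfl
      exact hf.2.1 ha

end Pool.Agent.MPd439b2.H3
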