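import Pool.Agent.Lib.MP_d439b2_co.H3.Spec

/-!
# MP_d439b2_co, H3: the second level of a rooted piece (`S_Q2`)
-/

set_option autoImplicit false

namespace Pool.Agent.MPd439b2.H3

open Pool.Agent.MPd439b2 Pool.Agent.MPd439b2.LK

theorem pfQ2 : S_Q1 → S_Q2 := by
  intro hQ1 V _ G A Q a₁ hR ha₁ hmin
  obtain ⟨_, _, h3⟩ := hQ1 V G A Q hR
  have k1 : ∀ w ∈ Hs G A Q a₁, (∀ a ∈ Lv G A Q, G.Adj w a) ∧
      ∀ f ∈ Np G A Q a₁, f ≠ w → G.Adj w f := by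
    rintro w ⟨hw, z, hz, hzL, hzN, hwz⟩
    exact h3 a₁ ha₁ w hw ⟨z, hz, hzL, fun h => hzN ⟨hz, hzL, h⟩, hwz⟩
  have k2 : ∀ w ∈ Np G A Q a₁, w ∉ Hs G A Q a₁ → (∀ a ∈ Lv G A Q, G.Adj w a) ∧
      (∀ v ∈ Hs G A Q a₁, G.Adj w v) ∧
      ∀ z ∈ Q, z ∉ Lv G A Q → z ∉ Np G A Q a₁ → ¬ G.Adj w z := by
    intro w hw hwH
    refine ⟨fun a ha => (hmin a ha hw).2.2.symm, fun v hv => ?_, fun z hz hzL hzN hwz => ?_⟩
    · exact ((k1 v hv).2 w hw (fun e => hwH (e ▸ hv))).symm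
    · exact hwH ⟨hw, z, hz, hzL, hzN, hwz⟩
  refine ⟨k1, ⟨?_, k2⟩, ?_, ?_⟩
  · refine hR.mf _ (fun w hw => hw.1.1) (Or.inr ?_) ?_
    · rw [Set.disjoint_left]
      exact fun w hw => hw.1.2.1
    · intro v hv hvM
      by_cases hvL : v ∈ Lv G A Q
      · exact Or.inl fun m hm => ((k2 m hm.1 hm.2).1 v hvL).symm
      · by_cases hvN : v ∈ Np G A Q a₁
        · have hvH : v ∈ Hs G A Q a₁ := by
            by_contra h
            exact hvM ⟨hvN, h⟩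
          exact Or.inl fun m hm => ((k2 m hm.1 hm.2).2.1 v hvH).symm
        · exact Or.inr fun m hm h => (k2 m hm.1 hm.2).2.2 v hv hvL hvN h.symm
  · intro a ha f hf hfN z hz hzL hfz
    refine ⟨hz, hzL, ?_⟩
    by_contra haz
    exact hfN ⟨hf.1, hf.2.1, ((h3 a ha f hf ⟨z, hz, hzL, haz, hfz⟩).1 a₁ ha₁).symm⟩
  · intro a ha w hw hnn
    obtain ⟨z, hz, hzN⟩ := Set.not_subset.1 hnn
    have hw' : w ∈ Np G A Q a := hmin a ha hw.1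
    exact (h3 a ha w hw' ⟨z, hz.1, hz.2.1, fun h => hzN ⟨hz.1, hz.2.1, h⟩, hz.2.2.2⟩).2

end Pool.Agent.MPd439b2.H3
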