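import Pool.Agent.Lib.MP_d439b2_co.H3.Spec

/-! # `S_Q3`: the cuts between the columns have rank at most `5` -/

set_option autoImplicit false

namespace Pool.Agent.MPd439b2.H3

open Pool.Agent.MPd439b2 Pool.Agent.MPd439b2.LK

theorem pfQ3 : LK.S_A1 → S_Q1 → S_Q2 → S_Q3 := by
  intro hA1 hQ1 hQ2 V _ G A Q a₁ a hR ha₁ hmin ha
  obtain ⟨sym, mono, add, card, one, -⟩ := hA1 V G
  obtain ⟨q1, q2, -⟩ := hQ1 V G A Q hR
  obtain ⟨p1, ⟨p2, -⟩, p3, p4⟩ := hQ2 V G A Q a₁ hR ha₁ hmin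
  have HsNp : ∀ w, w ∈ Hs G A Q a₁ → w ∈ Np G A Q a₁ := fun w hw => hw.1
  have NpQ : ∀ (b w : V), w ∈ Np G A Q b → w ∈ Q ∧ w ∉ Lv G A Q ∧ G.Adj b w := fun b w hw => hw
  -- the parts
  set X := Xa G A Q a₁ a with hX
  set C : Set V := {c | (c ∈ Lv G A Q ∧ c ≠ a₁ ∧ ¬ Np G A Q c ⊆ Np G A Q a) ∨
    (c ∈ Hs G A Q a₁ ∧ ¬ Nn G A Q a₁ c ⊆ Np G A Q a) ∨
    (c ∈ Q ∧ c ∉ Lv G A Q ∧ c ∉ Np G A Q a₁ ∧ c ∉ Np G A Q a)} with hC
  set N : Set V := {a₁} ∪ {w | w ∈ Np G A Q a₁ ∧ w ∉ Hs G A Q a₁} with hN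
  set W1 : Set V := {v | (∀ q ∈ Q, G.Adj v q) ∨ (∀ q ∈ Q, ¬ G.Adj v q)} with hW1
  set W2 : Set V := {v | ∀ q ∈ Q, (G.Adj v q ↔ q ∈ Lv G A Q)} with hW2
  have XQ : X ⊆ Q := by
    intro v hv
    rcases hv with hv | hv | hv
    · exact hv.1.1
    · exact hv.1.1
    · exact hv.1.1.1
  have cover : Xᶜ ⊆ (W1 ∪ W2) ∪ (N ∪ C) := by
    intro v hv
    by_cases hvQ : v ∈ Q
    · right
      by_cases hvL : v ∈ Lv G A Q
      · by_cases hva : v = a₁
        · left; left; exact hva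
        · right; left
          exact ⟨hvL, hva, fun h => hv (Or.inl ⟨hvL, hva, h⟩)⟩
      · by_cases hv1 : v ∈ Np G A Q a₁
        · by_cases hvH : v ∈ Hs G A Q a₁
          · right; right; left
            exact ⟨hvH, fun h => hv (Or.inr (Or.inr ⟨hvH, h⟩))⟩
          · left; right; exact ⟨hv1, hvH⟩
        · right; right; right
          exact ⟨hvQ, hvL, hv1, fun h => hv (Or.inr (Or.inl ⟨h, hv1⟩))⟩
    · left
      rcases hR.out v hvQ with h | h | h
      · left; left; exact h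
      · left; right; exact h
      · right; exact h
  have rC : rk G C X ≤ 1 := by
    refine one C X Set.univ ?_
    rintro c (⟨hcL, hca, hcN⟩ | ⟨hcH, hcN⟩ | ⟨hcQ, hcL, hc1, hca⟩)
    · left
      intro v hv
      refine ⟨fun _ => Set.mem_univ _, fun _ => ?_⟩
      rcases hv with ⟨hv1, hv2, hv3⟩ | ⟨hv1, hv2⟩ | ⟨hv1, hv2⟩
      · refine q1 c hcL v hv1 ?_
        rintro rfl
        exact hcN hv3
      · have hne : c ≠ a := by
          rintro rfl
          exact hcN (le_refl _)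
        rcases q2 c hcL a ha hne with h | h
        · exact absurd h.1 hcN
        · exact (h.1 hv1).2.2
      · exact ((p1 v hv1).1 c hcL).symm
    · left
      intro v hv
      refine ⟨fun _ => Set.mem_univ _, fun _ => ?_⟩
      rcases hv with ⟨hv1, hv2, hv3⟩ | ⟨hv1, hv2⟩ | ⟨hv1, hv2⟩
      · exact (p1 c hcH).1 v hv1
      · refine p4 a ha c hcH hcN v hv1 ?_
        rintro rfl
        exact hv2 (HsNp _ hcH)
      · refine (p1 c hcH).2 v (HsNp _ hv1) ?_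
        rintro rfl
        exact hcN hv2
    · right
      intro v hv hadj
      rcases hv with ⟨hv1, hv2, hv3⟩ | ⟨hv1, hv2⟩ | ⟨hv1, hv2⟩
      · exact hca (hv3 ⟨hcQ, hcL, hadj.symm⟩)
      · exact hca (p3 a ha v hv1 hv2 c hcQ hcL hadj.symm)
      · exact hca (hv2 ⟨hcQ, hcL, hc1, hadj.symm⟩)
  have rN : rk G N X ≤ 2 := by
    refine (card N X).trans ?_
    refine (Set.ncard_union_le _ _).trans ?_
    have h1 : ({a₁} : Set V).ncard = 1 := Set.ncard_singleton a₁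
    have h2 : ({w | w ∈ Np G A Q a₁ ∧ w ∉ Hs G A Q a₁} : Set V).ncard ≤ 1 := by
      rw [Set.ncard_le_one_iff]
      intro u v hu hv
      exact p2 hu hv
    omega
  have rW1 : rk G W1 X ≤ 1 := by
    refine one W1 X Set.univ ?_
    rintro v (hv | hv)
    · left
      intro b hb
      exact ⟨fun _ => Set.mem_univ _, fun _ => hv b (XQ hb)⟩
    · right
      intro b hb
      exact hv b (XQ hb)
  have rW2 : rk G W2 X ≤ 1 := by
    refine one W2 X (Lv G A Q) ?_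
    intro v hv
    left
    intro b hb
    exact hv b (XQ hb)
  have h1 : cr G X = rk G Xᶜ X := sym _ _
  have h2 : rk G Xᶜ X ≤ rk G ((W1 ∪ W2) ∪ (N ∪ C)) X := mono _ _ _ _ cover (le_refl _)
  have h3 := add (W1 ∪ W2) (N ∪ C) X
  have h4 := add W1 W2 X
  have h5 := add N C X
  omega

end Pool.Agent.MPd439b2.H3
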