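import Pool.Agent.Lib.MP_d439b2_co.H3.Spec

/-! # `S_Q4`: the last piece is rooted -/

set_option autoImplicit false

namespace Pool.Agent.MPd439b2.H3

open Pool.Agent.MPd439b2 Pool.Agent.MPd439b2.LK

namespace Q4aux

variable {V : Type} {G : SimpleGraph V} {A Q Q' : Set V} {a₁ : V}

/-- a subset of `Q` outside the first level with the right traces is again a rooted piece -/
theorem rooted (hR : RPc G A Q) (ha₁ : a₁ ∈ Lv G A Q) (hQ : Q' ⊆ Q)
    (hL : ∀ v ∈ Q', v ∉ Lv G A Q)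
    (hout : ∀ v ∈ Q, v ∉ Q' → (∀ q ∈ Q', G.Adj v q) ∨ (∀ q ∈ Q', ¬ G.Adj v q) ∨
      ∀ q ∈ Q', (G.Adj v q ↔ q ∈ Lv G (insert a₁ A) Q')) :
    RPc G (insert a₁ A) Q' := by
  have ha₁' : a₁ ∉ Q' := fun h => hL a₁ h ha₁
  obtain ⟨a₀, ha₀, hadj⟩ := ha₁.2
  have hout' : ∀ v, v ∉ Q' → (∀ q ∈ Q', G.Adj v q) ∨ (∀ q ∈ Q', ¬ G.Adj v q) ∨
      ∀ q ∈ Q', (G.Adj v q ↔ q ∈ Lv G (insert a₁ A) Q') := by
    intro v hv
    by_cases hvQ : v ∈ Q
    · exact hout v hvQ hv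
    · rcases hR.out v hvQ with h | h | h
      · exact Or.inl fun q hq => h q (hQ hq)
      · exact Or.inr (Or.inl fun q hq => h q (hQ hq))
      · exact Or.inr (Or.inl fun q hq hadj => hL q hq ((h q (hQ hq)).1 hadj))
  refine ⟨hR.conn.insert ⟨a₀, ha₀, hadj⟩, ?_, hout', ?_, ?_⟩
  · rw [Set.disjoint_left]
    intro v hv hvQ
    rcases Set.mem_insert_iff.1 hv with h | h
    · exact ha₁' (h ▸ hvQ)
    · exact (Set.disjoint_left.1 hR.dis) h (hQ hvQ)
  · intro R hRQ hc w hw y hy z hz hwR hyR hzR hwy h1 h2 h3 h4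
    have e : A ∪ insert a₁ R = insert a₁ A ∪ R := by
      ext v
      simp only [Set.mem_union, Set.mem_insert_iff]
      tauto
    have key : ∀ u ∈ Q', u ∉ R → u ∉ insert a₁ R := by
      intro u hu huR h
      rcases Set.mem_insert_iff.1 h with h | h
      · exact ha₁' (h ▸ hu)
      · exact huR h
    refine hR.pp (insert a₁ R) ?_ (by rw [e]; exact hc) w (hQ hw) y (hQ hy) z (hQ hz)
      (key w hw hwR) (key y hy hyR) (key z hz hzR) hwy (by rw [e]; exact h1) (by rw [e]; exact h2)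
      (by rw [e]; exact h3) h4
    intro u hu
    rcases Set.mem_insert_iff.1 hu with h | h
    · rw [h]; exact ha₁.1
    · exact hQ (hRQ h)
  · intro M hM hML hMh
    refine hR.mf M (hM.trans hQ) (Or.inr ?_) ?_
    · rw [Set.disjoint_left]
      exact fun v hv => hL v (hM hv)
    · intro v hv hvM
      by_cases hvQ : v ∈ Q'
      · exact hMh v hvQ hvM
      · rcases hout' v hvQ with h | h | h
        · exact Or.inl fun q hq => h q (hM hq)
        · exact Or.inr fun q hq => h q (hM hq)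
        · rcases hML with h' | h'
          · exact Or.inl fun q hq => (h q (hM hq)).2 (h' hq)
          · exact Or.inr fun q hq hadj =>
              (Set.disjoint_left.1 h') hq ((h q (hM hq)).1 hadj)

end Q4aux

theorem pfQ4 : S_Q1 → S_Q2 → S_Q4 := by
  intro _ hQ2 V _ G A Q a₁ m hR ha₁ hmin hm hmax
  obtain ⟨p1, ⟨-, p2⟩, p3, p4⟩ := hQ2 V G A Q a₁ hR ha₁ hmin
  have HsNp : ∀ w, w ∈ Hs G A Q a₁ → w ∈ Np G A Q a₁ := fun w hw => hw.1
  have hQ : Qi G A Q a₁ m ⊆ Q := by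
    rintro v (hv | hv)
    · exact hv.1.1.1
    · exact hv.1
  have hL : ∀ v ∈ Qi G A Q a₁ m, v ∉ Lv G A Q := by
    rintro v (hv | hv)
    · exact hv.1.1.2.1
    · exact hv.2.1
  have t1 : ∀ q, q ∈ Hs G A Q a₁ → q ∈ Qi G A Q a₁ m →
      q ∈ Lv G (insert a₁ A) (Qi G A Q a₁ m) := by
    intro q hq hq'
    exact ⟨hq', a₁, Set.mem_insert _ _, (HsNp q hq).2.2⟩
  have t2 : ∀ q, q ∈ Q → q ∉ Lv G A Q → q ∉ Np G A Q m →
      q ∉ Lv G (insert a₁ A) (Qi G A Q a₁ m) := by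
    rintro q h1 h2 h3 ⟨-, a, ha, hadj⟩
    rcases Set.mem_insert_iff.1 ha with h | h
    · subst h
      exact h3 (hmin m hm ⟨h1, h2, hadj⟩)
    · exact h2 ⟨h1, a, h, hadj⟩
  refine Q4aux.rooted hR ha₁ hQ hL ?_
  intro v hvQ hv
  by_cases hvL : v ∈ Lv G A Q
  · right; right
    intro q hq
    rcases hq with ⟨hq1, hq2⟩ | ⟨hq1, hq2, hq3⟩
    · exact ⟨fun _ => t1 q hq1 (Or.inl ⟨hq1, hq2⟩), fun _ => ((p1 q hq1).1 v hvL).symm⟩
    · refine ⟨fun h => ?_, fun h => absurd h (t2 q hq1 hq2 hq3)⟩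
      exact absurd (hmax v hvL ⟨hq1, hq2, h⟩) hq3
  · by_cases hv1 : v ∈ Np G A Q a₁
    · by_cases hvH : v ∈ Hs G A Q a₁
      · right; right
        intro q hq
        have hne : q ≠ v := by
          rintro rfl
          exact hv hq
        rcases hq with ⟨hq1, hq2⟩ | ⟨hq1, hq2, hq3⟩
        · exact ⟨fun _ => t1 q hq1 (Or.inl ⟨hq1, hq2⟩),
            fun _ => (p1 v hvH).2 q (HsNp q hq1) hne⟩
        · refine ⟨fun h => ?_, fun h => absurd h (t2 q hq1 hq2 hq3)⟩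
          exfalso
          have hN : Nn G A Q a₁ v ⊆ Np G A Q m := by
            by_contra h'
            exact hv (Or.inl ⟨hvH, h'⟩)
          exact hq3 (hN ⟨hq1, hq2, fun h' => hq3 (hmin m hm h'), h⟩)
      · right; right
        intro q hq
        obtain ⟨s1, s2, s3⟩ := p2 v hv1 hvH
        rcases hq with ⟨hq1, hq2⟩ | ⟨hq1, hq2, hq3⟩
        · exact ⟨fun _ => t1 q hq1 (Or.inl ⟨hq1, hq2⟩), fun _ => s2 q hq1⟩
        · refine ⟨fun h => ?_, fun h => absurd h (t2 q hq1 hq2 hq3)⟩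
          exact absurd h (s3 q hq1 hq2 (fun h' => hq3 (hmin m hm h')))
    · right; right
      have hvm : v ∈ Np G A Q m := by
        by_contra h
        exact hv (Or.inr ⟨hvQ, hvL, h⟩)
      intro q hq
      have hne : v ≠ q := by
        rintro rfl
        exact hv hq
      rcases hq with ⟨hq1, hq2⟩ | ⟨hq1, hq2, hq3⟩
      · exact ⟨fun _ => t1 q hq1 (Or.inl ⟨hq1, hq2⟩),
          fun _ => (p4 m hm q hq1 hq2 v hvm hne).symm⟩
      · refine ⟨fun h => ?_, fun h => absurd h (t2 q hq1 hq2 hq3)⟩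
        exact absurd (p3 m hm v hvm hv1 q hq1 hq2 h) hq3

end Pool.Agent.MPd439b2.H3
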