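import Pool.Agent.Lib.MP_d439b2_co.H3.Spec

/-!
# MP_d439b2_co, H3/Q5: the piece in the second column
-/

set_option autoImplicit false

namespace Pool.Agent.MPd439b2.H3

open Pool.Agent.MPd439b2 Pool.Agent.MPd439b2.LK

/-- a part of `Q` outside the first level, with the root extended by `a₁` -/
private theorem q5_sub {V : Type} {G : SimpleGraph V} {A Q Q' : Set V} {a₁ : V}
    (h : RPc G A Q) (ha₁ : a₁ ∈ Lv G A Q) (hQ : Q' ⊆ Q) (hL : ∀ q ∈ Q', q ∉ Lv G A Q)
    (hout : ∀ v ∈ Q, v ∉ Q' → (∀ q ∈ Q', G.Adj v q) ∨ (∀ q ∈ Q', ¬ G.Adj v q) ∨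
      ∀ q ∈ Q', (G.Adj v q ↔ G.Adj a₁ q)) : RPc G (insert a₁ A) Q' := by
  have haQ : a₁ ∉ Q' := fun h' => hL a₁ h' ha₁
  have hA : ∀ q ∈ Q', ∀ b ∈ A, ¬ G.Adj b q := fun q hq b hb hbq => hL q hq ⟨hQ hq, b, hb, hbq⟩
  have hLv : ∀ q ∈ Q', (q ∈ Lv G (insert a₁ A) Q' ↔ G.Adj a₁ q) := by
    intro q hq
    constructor
    · rintro ⟨-, b, hb, hbq⟩
      rcases hb with rfl | hb
      · exact hbq
      · exact (hA q hq b hb hbq).elim
    · intro h'
      exact ⟨hq, a₁, Set.mem_insert _ _, h'⟩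
  have hout' : ∀ v, v ∉ Q' → (∀ q ∈ Q', G.Adj v q) ∨ (∀ q ∈ Q', ¬ G.Adj v q) ∨
      ∀ q ∈ Q', (G.Adj v q ↔ q ∈ Lv G (insert a₁ A) Q') := by
    intro v hv
    by_cases hvQ : v ∈ Q
    · rcases hout v hvQ hv with h1 | h1 | h1
      · exact Or.inl h1
      · exact Or.inr (Or.inl h1)
      · exact Or.inr (Or.inr fun q hq => (h1 q hq).trans (hLv q hq).symm)
    · rcases h.out v hvQ with h1 | h1 | h1
      · exact Or.inl fun q hq => h1 q (hQ hq)
      · exact Or.inr (Or.inl fun q hq => h1 q (hQ hq))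
      · exact Or.inr (Or.inl fun q hq h2 => hL q hq ((h1 q (hQ hq)).mp h2))
  refine ⟨h.conn.insert ha₁.2, ?_, hout', ?_, ?_⟩
  · rw [Set.disjoint_left]
    intro b hb hbQ
    rcases hb with rfl | hb
    · exact haQ hbQ
    · exact Set.disjoint_left.mp h.dis hb (hQ hbQ)
  · intro R hR hconn w hw y hy z hz hwR hyR hzR hwy h1 h2 h3 h4
    have hset : A ∪ insert a₁ R = insert a₁ A ∪ R := by
      ext v
      simp only [Set.mem_union, Set.mem_insert_iff]
      tauto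
    have hne : ∀ v ∈ Q', v ∉ R → v ∉ insert a₁ R := by
      intro v hv hvR h'
      rcases h' with rfl | h'
      · exact haQ hv
      · exact hvR h'
    refine h.pp (insert a₁ R) (Set.insert_subset ha₁.1 (hR.trans hQ)) ?_ w (hQ hw) y (hQ hy) z
      (hQ hz) (hne w hw hwR) (hne y hy hyR) (hne z hz hzR) hwy ?_ ?_ ?_ h4
    · rw [hset]
      exact hconn
    · rw [hset]
      exact h1
    · rw [hset]
      exact h2
    · rw [hset]
      exact h3
  · intro M hM hML hH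
    refine h.mf M (hM.trans hQ) (Or.inr ?_) ?_
    · rw [Set.disjoint_left]
      exact fun v hv => hL v (hM hv)
    · intro v hv hvM
      by_cases hvQ : v ∈ Q'
      · exact hH v hvQ hvM
      · rcases hout' v hvQ with h1 | h1 | h1
        · exact Or.inl fun m hm => h1 m (hM hm)
        · exact Or.inr fun m hm => h1 m (hM hm)
        · rcases hML with h2 | h2
          · exact Or.inl fun m hm => (h1 m (hM hm)).mpr (h2 hm)
          · exact Or.inr fun m hm h3 => Set.disjoint_left.mp h2 hm ((h1 m (hM hm)).mp h3)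

theorem pfQ5 : S_Q1 → S_Q2 → S_Q5 := by
  intro h1 h2 V _ G A Q a₁ a hR ha₁ hmin ha haa₁ hmin2
  obtain ⟨-, q1, -⟩ := h1 V G A Q hR
  obtain ⟨p1, ⟨-, p2⟩, p3, p4⟩ := h2 V G A Q a₁ hR ha₁ hmin
  have hQ' : ∀ q ∈ Fa G A Q a₁ a ∪ Ha G A Q a₁ a₁ a, q ∈ Np G A Q a := by
    rintro q (hq | hq)
    · exact hq.1
    · exact hmin a ha hq.1.1
  refine q5_sub hR ha₁ (fun q hq => (hQ' q hq).1) (fun q hq => (hQ' q hq).2.1) ?_
  intro v hvQ hv
  have hFa : ∀ q ∈ Fa G A Q a₁ a, ¬ G.Adj a₁ q := fun q hq h' =>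
    hq.2 ⟨hq.1.1, hq.1.2.1, h'⟩
  have hHa : ∀ q ∈ Ha G A Q a₁ a₁ a, G.Adj a₁ q := fun q hq => hq.1.1.2.2
  by_cases hvL : v ∈ Lv G A Q
  · by_cases hva : v = a₁
    · right; right
      intro q _
      rw [hva]
    · left
      have hsub : Np G A Q a ⊆ Np G A Q v := by
        by_cases hva' : v = a
        · rw [hva']
        · rcases q1 v hvL a ha hva' with h3 | h3
          · exact (hva (hmin2 v hvL h3)).elim
          · exact h3.subset
      intro q hq
      exact (hsub (hQ' q hq)).2.2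
  · by_cases hv1 : v ∈ Np G A Q a₁
    · by_cases hvH : v ∈ Hs G A Q a₁
      · left
        have h3 : ¬ Nn G A Q a₁ v ⊆ Np G A Q a₁ := by
          obtain ⟨-, z, hz, hzL, hzN, hvz⟩ := hvH
          exact fun h' => hzN (h' ⟨hz, hzL, hzN, hvz⟩)
        have h4 : ¬ Nn G A Q a₁ v ⊆ Np G A Q a := fun h' => hv (Or.inr ⟨hvH, h', h3⟩)
        intro q hq
        refine p4 a ha v hvH h4 q (hQ' q hq) ?_
        rintro rfl
        exact hv hq
      · right; right
        obtain ⟨-, h3, h4⟩ := p2 v hv1 hvH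
        rintro q (hq | hq)
        · exact iff_of_false (h4 q hq.1.1 hq.1.2.1 hq.2) (hFa q hq)
        · exact iff_of_true (h3 q hq.1) (hHa q hq)
    · right; left
      have hva : v ∉ Np G A Q a := fun h' => hv (Or.inl ⟨h', hv1⟩)
      rintro q (hq | hq) hvq
      · exact hva (p3 a ha q hq.1 hq.2 v hvQ hvL hvq.symm)
      · exact hva (hq.2.1 ⟨hvQ, hvL, hv1, hvq.symm⟩)

end Pool.Agent.MPd439b2.H3
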