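import Pool.Agent.Lib.MP_d439b2_co.H3.Spec

/-!
# MP_d439b2_co, H3/Q6: the other columns
-/

set_option autoImplicit false

namespace Pool.Agent.MPd439b2.H3

open Pool.Agent.MPd439b2 Pool.Agent.MPd439b2.LK

theorem pfQ6 : LK.S_A1 → S_Q1 → S_Q2 → S_Q6 := by
  intro hA1 h1 h2 V _ G A Q a₁ a' a hR ha₁ hmin ha ha' haa₁ haa hpre
  obtain ⟨a1, a2, a3, a4, a5, a6⟩ := hA1 V G
  obtain ⟨-, q1, -⟩ := h1 V G A Q hR
  obtain ⟨p1, ⟨-, p2⟩, p3, p4⟩ := h2 V G A Q a₁ hR ha₁ hmin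
  have hFQ : ∀ f ∈ Fa G A Q a' a, f ∈ Q := fun f hf => hf.1.1
  have hFL : ∀ f ∈ Fa G A Q a' a, f ∉ Lv G A Q := fun f hf => hf.1.2.1
  have hF1 : ∀ f ∈ Fa G A Q a' a, f ∉ Np G A Q a₁ := fun f hf h => hf.2 (hmin a' ha' h)
  have hHQ : ∀ w ∈ Ha G A Q a₁ a' a, w ∈ Q := fun w hw => hw.1.1.1
  have hHL : ∀ w ∈ Ha G A Q a₁ a' a, w ∉ Lv G A Q := fun w hw => hw.1.1.2.1
  have hH1 : ∀ w ∈ Ha G A Q a₁ a' a, G.Adj a₁ w := fun w hw => hw.1.1.2.2
  have hFH : ∀ f ∈ Fa G A Q a' a, ∀ w ∈ Ha G A Q a₁ a' a, f ≠ w := by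
    rintro f hf w hw rfl
    exact hF1 f hf hw.1.1
  -- the set `R = {a₁, w}`
  have hconn : ∀ w ∈ Ha G A Q a₁ a' a, Conn G (A ∪ {a₁, w}) := by
    intro w hw
    have h3 : A ∪ {a₁, w} = insert w (insert a₁ A) := by
      ext v
      simp only [Set.mem_union, Set.mem_insert_iff, Set.mem_singleton_iff]
      tauto
    rw [h3]
    exact (hR.conn.insert ha₁.2).insert ⟨a₁, Set.mem_insert _ _, hH1 w hw⟩
  have hRQ : ∀ w ∈ Ha G A Q a₁ a' a, ({a₁, w} : Set V) ⊆ Q := by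
    intro w hw v hv
    rcases hv with rfl | rfl
    · exact ha₁.1
    · exact hHQ _ hw
  -- (i)
  have hi : ∀ w ∈ Ha G A Q a₁ a' a, ∀ w' ∈ Ha G A Q a₁ a' a, w ≠ w' →
      ∀ z ∈ Fa G A Q a' a, G.Adj w' z → ¬ G.Adj w z → ∀ y ∈ Fa G A Q a' a, G.Adj w y →
        G.Adj w' y := by
    intro w hw w' hw' hne z hz hwz' hwz y hy hwy
    refine hR.pp {a₁, w} (hRQ w hw) (hconn w hw) w' (hHQ w' hw') y (hFQ y hy) z (hFQ z hz)
      ?_ ?_ ?_ (hFH y hy w' hw').symm ?_ ?_ ?_ hwz'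
    · rintro (h | h)
      · exact hHL w' hw' (h ▸ ha₁)
      · exact hne h.symm
    · rintro (h | h)
      · exact hFL y hy (h ▸ ha₁)
      · exact hFH y hy w hw h
    · rintro (h | h)
      · exact hFL z hz (h ▸ ha₁)
      · exact hFH z hz w hw h
    · exact ⟨a₁, Or.inr (Or.inl rfl), hH1 w' hw'⟩
    · exact ⟨w, Or.inr (Or.inr rfl), hwy⟩
    · rintro b (hb | rfl | rfl) hbz
      · exact hFL z hz ⟨hFQ z hz, b, hb, hbz⟩
      · exact hF1 z hz ⟨hFQ z hz, hFL z hz, hbz⟩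
      · exact hwz hbz
  -- (ii)
  have hii : ∀ w ∈ Ha G A Q a₁ a' a, ∀ f ∈ Fa G A Q a' a, ∀ f' ∈ Fa G A Q a' a, G.Adj f f' →
      G.Adj w f → G.Adj w f' := by
    intro w hw f hf f' hf' hff hwf
    by_contra hwf'
    have h3 : G.Adj f a' := by
      refine hR.pp {a₁, w} (hRQ w hw) (hconn w hw) f (hFQ f hf) a' ha'.1 f' (hFQ f' hf')
        ?_ ?_ ?_ ?_ ?_ ?_ ?_ hff
      · rintro (h | h)
        · exact hFL f hf (h ▸ ha₁)
        · exact hFH f hf w hw h
      · rintro (h | h)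
        · exact haa₁ h
        · exact hHL w hw (h ▸ ha')
      · rintro (h | h)
        · exact hFL f' hf' (h ▸ ha₁)
        · exact hFH f' hf' w hw h
      · rintro rfl
        exact hFL f hf ha'
      · exact ⟨w, Or.inr (Or.inr rfl), hwf⟩
      · obtain ⟨-, b, hb, hba⟩ := ha'
        exact ⟨b, Or.inl hb, hba⟩
      · rintro b (hb | rfl | rfl) hbz
        · exact hFL f' hf' ⟨hFQ f' hf', b, hb, hbz⟩
        · exact hF1 f' hf' ⟨hFQ f' hf', hFL f' hf', hbz⟩
        · exact hwf' hbz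
    exact hf.2 ⟨hFQ f hf, hFL f hf, h3.symm⟩
  -- vertices of the first level
  have hLF : ∀ v ∈ Lv G A Q, (∀ f ∈ Fa G A Q a' a, G.Adj v f) ∨
      ∀ f ∈ Fa G A Q a' a, ¬ G.Adj v f := by
    intro v hv
    by_cases hva : v = a
    · left
      intro f hf
      rw [hva]
      exact hf.1.2.2
    · rcases q1 v hv a ha hva with h3 | h3
      · right
        intro f hf hvf
        exact hf.2 (hpre v hv h3 ⟨hFQ f hf, hFL f hf, hvf⟩)
      · left
        intro f hf
        exact (h3.subset hf.1).2.2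
  -- the other vertices outside `Np a₁`
  have hOF : ∀ v ∈ Q, v ∉ Lv G A Q → v ∉ Np G A Q a₁ → v ∉ Fa G A Q a' a →
      ∀ f ∈ Fa G A Q a' a, ¬ G.Adj v f := by
    intro v hv hvL hv1 hvF f hf hvf
    by_cases hva' : v ∈ Np G A Q a'
    · exact hf.2 (p3 a' ha' v hva' hv1 f (hFQ f hf) (hFL f hf) hvf)
    · have hva : v ∉ Np G A Q a := fun h => hvF ⟨h, hva'⟩
      exact hva (p3 a ha f hf.1 (hF1 f hf) v hv hvL hvf.symm)
  -- the vertices of `Np a₁` which are not in `H`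
  have hNF : ∀ v ∈ Np G A Q a₁, v ∉ Ha G A Q a₁ a' a → (∀ f ∈ Fa G A Q a' a, G.Adj v f) ∨
      ∀ f ∈ Fa G A Q a' a, ¬ G.Adj v f := by
    intro v hv hvH'
    by_cases hvH : v ∈ Hs G A Q a₁
    · by_cases h3 : Nn G A Q a₁ v ⊆ Np G A Q a
      · have h4 : Nn G A Q a₁ v ⊆ Np G A Q a' := by
          by_contra h4
          exact hvH' ⟨hvH, h3, h4⟩
        right
        intro f hf hvf
        exact hf.2 (h4 ⟨hFQ f hf, hFL f hf, hF1 f hf, hvf⟩)
      · left
        intro f hf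
        refine p4 a ha v hvH h3 f hf.1 ?_
        rintro rfl
        exact hF1 f hf hv
    · right
      intro f hf
      exact (p2 v hv hvH).2.2 f (hFQ f hf) (hFL f hf) (hF1 f hf)
  -- (iii)
  have hiii : ∀ f ∈ Fa G A Q a' a, ∀ f' ∈ Fa G A Q a' a, ¬ G.Adj f f' := by
    intro f hf f' hf' hff
    obtain ⟨C, hCF, hfC, hC, hCn⟩ := exists_comp G hf
    have hf'C : f' ∈ C := by
      by_contra h3
      exact hCn f' hf' ⟨h3, f, hfC, hff⟩
    have h3 : C.Subsingleton := by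
      refine hR.mf C (fun c hc => hFQ c (hCF hc)) (Or.inr ?_) ?_
      · rw [Set.disjoint_left]
        exact fun c hc => hFL c (hCF hc)
      · intro v hv hvC
        by_cases hvL : v ∈ Lv G A Q
        · rcases hLF v hvL with h4 | h4
          · exact Or.inl fun c hc => h4 c (hCF hc)
          · exact Or.inr fun c hc => h4 c (hCF hc)
        · by_cases hv1 : v ∈ Np G A Q a₁
          · by_cases hvH : v ∈ Ha G A Q a₁ a' a
            · by_contra h4
              rw [not_or] at h4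
              obtain ⟨h4, h5⟩ := h4
              push Not at h4 h5
              obtain ⟨c, hc, hvc⟩ := h4
              obtain ⟨d, hd, hvd⟩ := h5
              obtain ⟨b, hb, b', hb', hbb⟩ := hC.2 {b | b ∈ C ∧ G.Adj v b} (fun b hb => hb.1)
                ⟨d, hd, hvd⟩ (fun h6 => hvc (by
                  rw [← h6] at hc
                  exact hc.2))
              exact hb'.2 ⟨hb'.1, hii v hvH b (hCF hb.1) b' (hCF hb'.1) hbb hb.2⟩
            · rcases hNF v hv1 hvH with h4 | h4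
              · exact Or.inl fun c hc => h4 c (hCF hc)
              · exact Or.inr fun c hc => h4 c (hCF hc)
          · right
            by_cases hvF : v ∈ Fa G A Q a' a
            · intro c hc hvc
              exact hCn v hvF ⟨hvC, c, hc, hvc.symm⟩
            · exact fun c hc => hOF v hv hvL hv1 hvF c (hCF hc)
    exact G.ne_of_adj hff (h3 hfC hf'C)
  -- the elements of `H` see the same outside `F`
  have hHH : ∀ w ∈ Ha G A Q a₁ a' a, ∀ w' ∈ Ha G A Q a₁ a' a, ∀ v, v ≠ w → v ≠ w' →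
      v ∉ Fa G A Q a' a → (G.Adj v w → G.Adj v w') := by
    intro w hw w' hw' v hvw hvw' hvF hvw1
    by_cases hvQ : v ∈ Q
    · by_cases hvL : v ∈ Lv G A Q
      · exact ((p1 w' hw'.1).1 v hvL).symm
      · by_cases hv1 : v ∈ Np G A Q a₁
        · exact ((p1 w' hw'.1).2 v hv1 hvw').symm
        · have hva : v ∈ Np G A Q a := hw.2.1 ⟨hvQ, hvL, hv1, hvw1.symm⟩
          have hva' : v ∈ Np G A Q a' := by
            by_contra h3
            exact hvF ⟨hva, h3⟩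
          exact (p4 a' ha' w' hw'.1 hw'.2.2 v hva' hvw').symm
    · rcases hR.out v hvQ with h3 | h3 | h3
      · exact h3 w' (hHQ w' hw')
      · exact (h3 w (hHQ w hw) hvw1).elim
      · exact (hHL w hw ((h3 w (hHQ w hw)).mp hvw1)).elim
  -- (iv)
  have hiv : ∀ w ∈ Ha G A Q a₁ a' a, ∀ w' ∈ Ha G A Q a₁ a' a, w ≠ w' →
      At G (Fa G A Q a' a) w ≠ At G (Fa G A Q a' a) w' := by
    intro w hw w' hw' hne heq
    have h3 : ({w, w'} : Set V).Subsingleton := by
      refine hR.mf {w, w'} ?_ (Or.inr ?_) ?_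
      · rintro v (rfl | rfl)
        · exact hHQ _ hw
        · exact hHQ _ hw'
      · rw [Set.disjoint_left]
        rintro v (rfl | rfl)
        · exact hHL _ hw
        · exact hHL _ hw'
      · intro v hv hvM
        have hvw : v ≠ w := fun h => hvM (Or.inl h)
        have hvw' : v ≠ w' := fun h => hvM (Or.inr h)
        have h4 : G.Adj v w ↔ G.Adj v w' := by
          by_cases hvF : v ∈ Fa G A Q a' a
          · constructor
            · intro h5
              have h6 : v ∈ At G (Fa G A Q a' a) w := ⟨hvF, h5.symm⟩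
              rw [heq] at h6
              exact h6.2.symm
            · intro h5
              have h6 : v ∈ At G (Fa G A Q a' a) w' := ⟨hvF, h5.symm⟩
              rw [← heq] at h6
              exact h6.2.symm
          · exact ⟨hHH w hw w' hw' v hvw hvw' hvF, hHH w' hw' w hw v hvw' hvw hvF⟩
        by_cases h5 : G.Adj v w
        · left
          rintro m (rfl | rfl)
          · exact h5
          · exact h4.mp h5
        · right
          rintro m (rfl | rfl)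
          · exact h5
          · exact fun h6 => h5 (h4.mpr h6)
    exact hne (h3 (Or.inl rfl) (Or.inr rfl))
  have hiv' : ∀ w ∈ Ha G A Q a₁ a' a, ∀ w' ∈ Ha G A Q a₁ a' a, w ≠ w' →
      At G (Fa G A Q a' a) w ⊂ At G (Fa G A Q a' a) w' ∨
        At G (Fa G A Q a' a) w' ⊂ At G (Fa G A Q a' a) w := by
    intro w hw w' hw' hne
    have h3 : At G (Fa G A Q a' a) w ⊆ At G (Fa G A Q a' a) w' ∨
        At G (Fa G A Q a' a) w' ⊆ At G (Fa G A Q a' a) w := by
      by_contra h4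
      rw [not_or, Set.not_subset, Set.not_subset] at h4
      obtain ⟨⟨y, hy, hy'⟩, ⟨z, hz, hz'⟩⟩ := h4
      exact hy' ⟨hy.1, hi w hw w' hw' hne z hz.1 hz.2 (fun h => hz' ⟨hz.1, h⟩) y hy.1 hy.2⟩
    rcases h3 with h3 | h3
    · exact Or.inl (h3.ssubset_of_ne (hiv w hw w' hw' hne))
    · exact Or.inr (h3.ssubset_of_ne (hiv w hw w' hw' hne).symm)
  refine ⟨hiii, hiv', ?_⟩
  -- (v)
  intro w₀ hw₀
  let X₁ : Set V := {w | w ∈ Ha G A Q a₁ a' a ∧
    At G (Fa G A Q a' a) w ⊆ At G (Fa G A Q a' a) w₀}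
  let X₂ : Set V := At G (Fa G A Q a' a) w₀
  have hr1 : rk G X₁ (X₁ ∪ X₂)ᶜ ≤ 1 := by
    refine a5 X₁ (X₁ ∪ X₂)ᶜ {b | G.Adj w₀ b} ?_
    rintro w ⟨hw, hwA⟩
    left
    intro b hb
    have hbw : b ≠ w := fun h => hb (Or.inl ⟨h ▸ hw, h ▸ hwA⟩)
    have hbw₀ : b ≠ w₀ := fun h => hb (Or.inl ⟨h ▸ hw₀, h ▸ Set.Subset.refl _⟩)
    change G.Adj w b ↔ G.Adj w₀ b
    by_cases hbF : b ∈ Fa G A Q a' a
    · have h3 : ¬ G.Adj w₀ b := fun h => hb (Or.inr ⟨hbF, h⟩)
      have h4 : ¬ G.Adj w b := fun h => h3 (hwA ⟨hbF, h⟩).2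
      exact iff_of_false h4 h3
    · constructor
      · exact fun h => (hHH w hw w₀ hw₀ b hbw hbw₀ hbF h.symm).symm
      · exact fun h => (hHH w₀ hw₀ w hw b hbw₀ hbw hbF h.symm).symm
  have hr2 : rk G X₂ (X₁ ∪ X₂)ᶜ ≤ 1 := by
    refine a5 X₂ (X₁ ∪ X₂)ᶜ {b | ∃ f ∈ X₂, G.Adj f b} ?_
    rintro f' hf'
    left
    intro b hb
    refine ⟨fun h => ⟨f', hf', h⟩, ?_⟩
    rintro ⟨f, hf, hfb⟩
    have hb1 : b ∉ X₁ := fun h => hb (Or.inl h)
    have hb2 : b ∉ X₂ := fun h => hb (Or.inr h)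
    by_cases hbQ : b ∈ Q
    · by_cases hbL : b ∈ Lv G A Q
      · rcases hLF b hbL with h3 | h3
        · exact (h3 f' hf'.1).symm
        · exact (h3 f hf.1 hfb.symm).elim
      · by_cases hb1' : b ∈ Np G A Q a₁
        · by_cases hbH : b ∈ Ha G A Q a₁ a' a
          · have h3 : ¬ At G (Fa G A Q a' a) b ⊆ At G (Fa G A Q a' a) w₀ :=
              fun h => hb1 ⟨hbH, h⟩
            have h4 : b ≠ w₀ := fun h => h3 (h ▸ Set.Subset.refl _)
            rcases hiv' b hbH w₀ hw₀ h4 with h5 | h5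
            · exact (h3 h5.subset).elim
            · exact (h5.subset hf').2.symm
          · rcases hNF b hb1' hbH with h3 | h3
            · exact (h3 f' hf'.1).symm
            · exact (h3 f hf.1 hfb.symm).elim
        · by_cases hbF : b ∈ Fa G A Q a' a
          · exact (hiii f hf.1 b hbF hfb).elim
          · exact (hOF b hbQ hbL hb1' hbF f hf.1 hfb.symm).elim
    · rcases hR.out b hbQ with h3 | h3 | h3
      · exact (h3 f' (hFQ f' hf'.1)).symm
      · exact (h3 f (hFQ f hf.1) hfb.symm).elim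
      · exact (hFL f hf.1 ((h3 f (hFQ f hf.1)).mp hfb.symm)).elim
  have h3 := a3 X₁ X₂ (X₁ ∪ X₂)ᶜ
  change rk G (X₁ ∪ X₂) (X₁ ∪ X₂)ᶜ ≤ 2
  omega

end Pool.Agent.MPd439b2.H3
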