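import Pool.Agent.Lib.MP_d439b2_co.H3.Spec

/-!
# MP_d439b2_co, H3, R0: missed sets of adjacent vertices are nested (helper43)
-/

set_option autoImplicit false

namespace Pool.Agent.MPd439b2.H3

open Pool.Agent.MPd439b2 Pool.Agent.MPd439b2.LK

theorem pfR0 (hB : H1M.S_B1) : S_R0 := by
  intro V G S u w hC hS hu hw huw
  by_contra hcon
  rw [not_or] at hcon
  obtain ⟨h1, h2⟩ := hcon
  obtain ⟨p, hp, hp'⟩ := Set.not_subset.1 h1
  obtain ⟨r, hr, hr'⟩ := Set.not_subset.1 h2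
  have wp : G.Adj w p := by
    by_contra h
    exact hp' ⟨hp.1, h⟩
  have ur : G.Adj u r := by
    by_contra h
    exact hr' ⟨hr.1, h⟩
  exact hB V G S r p u w hC hS hr.1 hp.1 hu hw ur hp.2 wp hr.2 huw

end Pool.Agent.MPd439b2.H3
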