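import Pool.Agent.Lib.MP_d439b2_co.H3.Spec

/-!
# MP_d439b2_co, H3, RE: the rule (E) (helper43)
-/

set_option autoImplicit false

namespace Pool.Agent.MPd439b2.H3

open Pool.Agent.MPd439b2 Pool.Agent.MPd439b2.LK

theorem pfRE (hM : S_M1) : S_RE := by
  intro V G S x a b c hC hS hx hxS ha hb hc nxa nxb nxc hab hba hnab nca ncb
  have ne : ∀ {s t : V}, s ∈ S → t ∉ S → t ≠ s := by
    rintro s t h1 h2 rfl
    exact h2 h1
  by_contra hcon
  rw [not_or] at hcon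
  obtain ⟨h1, h2⟩ := hcon
  obtain ⟨p, hp, hp'⟩ := Set.not_subset.1 h1
  obtain ⟨r, hr, hr'⟩ := Set.not_subset.1 h2
  have ap : G.Adj a p := by
    by_contra h
    exact hp' ⟨hp.1, h⟩
  have bp : G.Adj b p := by
    by_contra h
    exact (hba ⟨hp.1, h⟩).2 ap
  have first : ∀ r ∈ S, ¬ G.Adj a r → G.Adj c r → G.Adj b r → False := by
    intro r hrS har hcr hbr
    have pr : G.Adj p r := hS _ hp.1 _ hrS fun e => har (e ▸ ap)
    exact hC.2 (hM V G r r p b c x a (Or.inl rfl) (Or.inl pr) (Or.inl hbr) bp.symm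
      (ne hrS hc) (ne hrS hc) (ne hrS hx) (ne hrS hx) (ne hrS ha) (ne hrS ha) (Or.inl hcr)
      hp.2 ncb (Or.inl (hxS r hrS)) (hxS p hp.1) nxb ap hab har har (fun h => nxc h.symm) nca nxa)
  have cr : G.Adj c r := by
    by_contra h
    exact hr' ⟨hr.1, h⟩
  have nbr : ¬ G.Adj b r := fun h => first r hr.1 hr.2 cr h
  obtain ⟨s, hs, hs'⟩ := Set.not_subset.1 hnab
  have bs : G.Adj b s := by
    by_contra h
    exact hs' ⟨hs.1, h⟩
  have ncs : ¬ G.Adj c s := fun h => first s hs.1 hs.2 h bs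
  have rs : G.Adj r s := hS _ hr.1 _ hs.1 fun e => nbr (e ▸ bs)
  have pr : G.Adj p r := hS _ hp.1 _ hr.1 fun e => hr.2 (e ▸ ap)
  exact hC.2 (hM V G r s p b c x a (Or.inr rs) (Or.inl pr) (Or.inr bs) bp.symm
    (ne hr.1 hc) (ne hs.1 hc) (ne hr.1 hx) (ne hs.1 hx) (ne hr.1 ha) (ne hs.1 ha) (Or.inl cr)
    hp.2 ncb (Or.inl (hxS r hr.1)) (hxS p hp.1) nxb ap hab hr.2 hs.2 (fun h => nxc h.symm) nca nxa)

end Pool.Agent.MPd439b2.H3
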