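import Pool.Agent.Lib.MP_d439b2_co.H3.Spec

/-!
# MP_d439b2_co, H3, RP: the rule (P) (helper43)
-/

set_option autoImplicit false

namespace Pool.Agent.MPd439b2.H3

open Pool.Agent.MPd439b2 Pool.Agent.MPd439b2.LK

namespace RPAux

theorem core (hM : S_M1) (h2 : H1.S_M2) (V : Type) (G : SimpleGraph V) (S : Set V)
    (x a b c : V) (hC : Cls3 G) (hS : CompleteOn G S) (_hx : x ∉ S) (hxS : ∀ s ∈ S, G.Adj x s)
    (ha : a ∉ S) (hb : b ∉ S) (_hc : c ∉ S) (nxa : ¬ G.Adj x a) (nxb : ¬ G.Adj x b)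
    (nxc : ¬ G.Adj x c) (hab : G.Adj a b) (hbc : G.Adj b c) (nac : ¬ G.Adj a c)
    (t : V) (ht : t ∈ S) (nat : ¬ G.Adj a t) (nct : ¬ G.Adj c t) (bt : G.Adj b t)
    (u : V) (hu : u ∈ S) (au : G.Adj a u) (ncu : ¬ G.Adj c u) : False := by
  have ne : ∀ {s t : V}, s ∈ S → t ∉ S → t ≠ s := by
    rintro s t h1 h2 rfl
    exact h2 h1
  have ut : G.Adj u t := hS _ hu _ ht fun e => nat (e ▸ au)
  have bu : G.Adj b u := by
    rcases h2 V G a b t u hC.1 hab bt ut.symm au.symm (ne ht ha) (ne hu hb) with h | h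
    · exact absurd h nat
    · exact h
  have xb : x ≠ b := by
    rintro rfl
    exact nxa hab.symm
  exact hC.2 (hM V G b b u t c a x (Or.inl rfl) (Or.inl bu.symm) (Or.inl bt.symm) ut
    hbc.ne' hbc.ne' hab.ne hab.ne xb xb (Or.inl hbc.symm) ncu nct (Or.inl hab) au nat
    (hxS u hu) (hxS t ht) nxb nxb (fun h => nac h.symm) (fun h => nxc h.symm)
    (fun h => nxa h.symm))

end RPAux

theorem pfRP (hM : S_M1) (h2 : H1.S_M2) : S_RP := by
  intro V G S x a b c hC hS hx hxS ha hb hc nxa nxb nxc hab hbc nac hne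
  by_contra hcon
  rw [not_or] at hcon
  obtain ⟨h3, h4⟩ := hcon
  obtain ⟨t, ht, ht'⟩ := Set.not_subset.1 h3
  have bt : G.Adj b t := by
    by_contra h
    exact ht' ⟨ht.1.1, h⟩
  apply h4
  apply Set.Subset.antisymm
  · intro u hu
    refine ⟨hu.1, fun h => ?_⟩
    exact RPAux.core hM h2 V G S x c b a hC hS hx hxS hc hb ha nxc nxb nxa hbc.symm hab.symm
      (fun h => nac h.symm) t ht.1.1 ht.2.2 ht.1.2 bt u hu.1 h hu.2
  · intro u hu
    refine ⟨hu.1, fun h => ?_⟩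
    exact RPAux.core hM h2 V G S x a b c hC hS hx hxS ha hb hc nxa nxb nxc hab hbc nac
      t ht.1.1 ht.1.2 ht.2.2 bt u hu.1 h hu.2

end Pool.Agent.MPd439b2.H3
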