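import Pool.Agent.Lib.MP_d439b2_co.H3.Spec

/-!
# MP_d439b2_co, H3, Rt: the rank of a lifted cut (helper43)
-/

set_option autoImplicit false

namespace Pool.Agent.MPd439b2.H3

open Pool.Agent.MPd439b2 Pool.Agent.MPd439b2.LK

open Classical in
/-- the pull back of the columns -/
private noncomputable def RtF {V : Type} (φ : V → V) (Y : Set V) :
    (V → ZMod 2) →ₗ[ZMod 2] (V → ZMod 2) where
  toFun r := fun z => if z ∈ Y then r (φ z) else 0
  map_add' r s := by
    funext z
    by_cases h : z ∈ Y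
    · simp only [h, if_true, Pi.add_apply]
    · simp only [h, if_false, Pi.add_apply, add_zero]
  map_smul' c r := by
    funext z
    by_cases h : z ∈ Y
    · simp only [h, if_true, Pi.smul_apply, RingHom.id_apply]
    · simp only [h, if_false, Pi.smul_apply, RingHom.id_apply, smul_zero]

theorem pfRt : S_Rt := by
  intro V _ G C Φ X' φ hR hX
  classical
  have key : Submodule.span (ZMod 2) (row G (φ ⁻¹' X')ᶜ '' (φ ⁻¹' X')) ≤
      (Submodule.span (ZMod 2) (row G (C \ X') '' X')).map (RtF φ ((φ ⁻¹' X')ᶜ ∩ Φ)) := by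
    refine Submodule.span_le.2 ?_
    rintro _ ⟨z, hz, rfl⟩
    by_cases hzΦ : z ∈ Φ
    · refine ⟨row G (C \ X') (φ z), Submodule.subset_span ⟨φ z, hz, rfl⟩, ?_⟩
      funext z'
      by_cases h : z' ∈ (φ ⁻¹' X')ᶜ
      · have hne : φ z ≠ φ z' := fun e => h (show φ z' ∈ X' from e ▸ hz)
        have hadj := hR.adj z z' hne
        have hmem : φ z' ∈ C \ X' := ⟨hR.into z', h⟩
        by_cases h2 : z' ∈ Φ
        · have h3 : z' ∈ (φ ⁻¹' X')ᶜ ∩ Φ := ⟨h, h2⟩
          simp only [RtF, LinearMap.coe_mk, AddHom.coe_mk, row, h3, if_true, hmem, true_and, h]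
          refine if_congr ?_ rfl rfl
          rw [hadj]
          tauto
        · have h3 : z' ∉ (φ ⁻¹' X')ᶜ ∩ Φ := fun h4 => h2 h4.2
          have h4 : ¬ (z' ∈ (φ ⁻¹' X')ᶜ ∧ G.Adj z z') := fun h5 => h2 (hadj.1 h5.2).2.1
          simp only [RtF, LinearMap.coe_mk, AddHom.coe_mk, row, h3, if_false]
          rw [if_neg h4]
      · have h3 : z' ∉ (φ ⁻¹' X')ᶜ ∩ Φ := fun h4 => h h4.1
        have h4 : ¬ (z' ∈ (φ ⁻¹' X')ᶜ ∧ G.Adj z z') := fun h5 => h h5.1
        simp only [RtF, LinearMap.coe_mk, AddHom.coe_mk, row, h3, if_false]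
        rw [if_neg h4]
    · have h0 : row G (φ ⁻¹' X')ᶜ z = 0 := by
        funext z'
        rw [row, if_neg]
        · rfl
        · rintro ⟨h, h5⟩
          have hne : φ z ≠ φ z' := fun e => h (show φ z' ∈ X' from e ▸ hz)
          exact hzΦ ((hR.adj z z' hne).1 h5).1
      rw [h0]
      exact Submodule.zero_mem _
  exact (Submodule.finrank_mono key).trans (Submodule.finrank_map_le _ _)

end Pool.Agent.MPd439b2.H3
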