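import Pool.Agent.Lib.MP_d439b2_co.H3.Spec

/-!
# MP_d439b2_co, H3, Sm: simplicial vertices (helper43)
-/

set_option autoImplicit false

namespace Pool.Agent.MPd439b2.H3

open Pool.Agent.MPd439b2 Pool.Agent.MPd439b2.LK

theorem pfSm (h7 : S_A7) : S_Sm := by
  intro V _ G D hC
  suffices h : ∀ n : ℕ, ∀ D : Set V, D.ncard = n → Conn G D → CompleteOn G (nb G D) →
      ∃ z ∈ D, Smp G z from h _ D rfl
  intro n
  induction n using Nat.strong_induction_on with
  | _ n ih =>
    intro D hn hD hN
    obtain ⟨y, hy, hyN⟩ := h7 V G (nb G D) D hC hD hN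
      (Set.disjoint_left.2 fun a ha h => ha.1 h) (fun a ha => ha)
    by_cases hDy : D = {y}
    · refine ⟨y, hy, fun u hu v hv huv => ?_⟩
      have hsub : ∀ w, G.Adj y w → w ∈ nb G D := by
        intro w hw
        refine ⟨fun h => ?_, y, hy, hw⟩
        rw [hDy] at h
        exact hw.ne (Set.mem_singleton_iff.1 h).symm
      exact hN u (hsub u hu) v (hsub v hv) huv
    · obtain ⟨v, hv⟩ : (D \ {y}).Nonempty := by
        by_contra h
        rw [Set.not_nonempty_iff_eq_empty, Set.sdiff_eq_empty] at h
        exact hDy (Set.Subset.antisymm h (Set.singleton_subset_iff.2 hy))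
      obtain ⟨D', hD', hv', hC', hn'⟩ := exists_comp G hv
      have hsub : nb G D' ⊆ insert y (nb G D) := by
        rintro w ⟨hw, d, hd, hdw⟩
        by_cases hwy : w = y
        · exact Or.inl hwy
        · right
          refine ⟨fun hwD => ?_, d, (hD' hd).1, hdw⟩
          exact hn' w ⟨hwD, hwy⟩ ⟨hw, d, hd, hdw⟩
      have hcl : CompleteOn G (nb G D') := by
        intro u hu v hv huv
        rcases hsub hu with h1 | h1 <;> rcases hsub hv with h2 | h2
        · exact absurd (h1.trans h2.symm) huv
        · rw [h1]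
          exact hyN v h2
        · rw [h2]
          exact (hyN u h1).symm
        · exact hN u h1 v h2 huv
      have hlt : D'.ncard < n := by
        rw [← hn]
        refine Set.ncard_lt_ncard ⟨fun d hd => (hD' hd).1, fun h => ?_⟩ (Set.toFinite D)
        exact (hD' (h hy)).2 rfl
      obtain ⟨z, hz, hzS⟩ := ih _ hlt D' rfl hC' hcl
      exact ⟨z, (hD' hz).1, hzS⟩

end Pool.Agent.MPd439b2.H3
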