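import Pool.Agent.Lib.MP_d439b2_co.H3.Spec

/-!
# MP_d439b2_co, H3: Top, all graphs of the class
-/

set_option autoImplicit false

namespace Pool.Agent.MPd439b2.H3

open Pool.Agent.MPd439b2 Pool.Agent.MPd439b2.LK

namespace PTop

theorem uns_mono {V : Type} {G : SimpleGraph V} {T : Set V} {c c' h : ℕ} (hU : Uns G T c' h)
    (hc : c ≤ c') : Uns G T c h := fun X hX => hU X (hX.trans hc)

/-- a universal vertex of a graph without splits: the rest has no homogeneous sets -/
theorem prm {V : Type} [Finite V] {G : SimpleGraph V} (hS : SPo G Set.univ) {u : V}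
    (hu : ∀ w, w ≠ u → G.Adj u w) : Prm (G.induce ({u}ᶜ : Set V)) := by
  intro M hM hh
  by_contra hns
  rw [Set.not_subsingleton_iff] at hns
  obtain ⟨a, ha, b, hb, hab⟩ := hns
  obtain ⟨w, hw⟩ : ∃ w, w ∉ M := by
    by_contra hcon
    push Not at hcon
    exact hM (Set.eq_univ_of_forall hcon)
  have hval : ∀ v : ({u}ᶜ : Set V), v.1 ∈ Subtype.val '' M → v ∈ M := by
    rintro v ⟨v', hv', he⟩
    have : v' = v := Subtype.ext he
    rw [← this]
    exact hv'
  have huA : u ∉ Subtype.val '' M := by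
    rintro ⟨v', _, he⟩
    exact v'.2 he
  have h1 : 2 ≤ (Subtype.val '' M : Set V).ncard := by
    have h2 : ({a.1, b.1} : Set V).ncard = 2 := Set.ncard_pair fun h => hab (Subtype.ext h)
    rw [← h2]
    refine Set.ncard_le_ncard ?_ (Set.toFinite _)
    rintro x (rfl | rfl)
    · exact ⟨a, ha, rfl⟩
    · exact ⟨b, hb, rfl⟩
  have h2 : 2 ≤ (Set.univ \ (Subtype.val '' M) : Set V).ncard := by
    have h2 : ({u, w.1} : Set V).ncard = 2 := Set.ncard_pair fun h => w.2 h.symm
    rw [← h2]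
    refine Set.ncard_le_ncard ?_ (Set.toFinite _)
    rintro x (rfl | rfl)
    · exact ⟨trivial, huA⟩
    · exact ⟨trivial, fun h => hw (hval w h)⟩
  refine hS _ (Set.subset_univ _) h1 h2 ⟨Subtype.val '' M, subset_rfl,
    {v | v ∉ Subtype.val '' M ∧ ∀ m ∈ Subtype.val '' M, G.Adj v m}, fun v hv => ⟨trivial, hv.1⟩, ?_⟩
  rintro x ⟨x', hx', rfl⟩ y ⟨_, hy⟩
  constructor
  · intro hxy
    refine ⟨⟨x', hx', rfl⟩, hy, ?_⟩
    rintro m ⟨m', hm', rfl⟩
    by_cases hyu : y = u
    · rw [hyu]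
      exact hu _ m'.2
    · rcases hh ⟨y, hyu⟩ trivial (fun h => hy ⟨_, h, rfl⟩) with h3 | h3
      · exact h3 m' hm'
      · exact absurd hxy.symm (h3 x' hx')
  · rintro ⟨_, _, h3⟩
    exact (h3 _ ⟨x', hx', rfl⟩).symm

end PTop

theorem pfTop : S_Pc → S_In → S_Tp → S_NU → S_Gam → S_Top := by
  intro hPc hIn hTp hNU hGam V _ G T h h3 hcls hT hU
  by_contra hN
  rw [Nat.not_lt] at hN
  obtain ⟨C, Φ, φ, hret, hfib, hspo⟩ := hPc V G T h (by omega) (PTop.uns_mono hU (by norm_num))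
  obtain ⟨T', t1, t2, t3⟩ := hTp V G T C Φ φ 6 h hT hU hret hfib
  have hT' : (4 * h + 8) * h + 1 ≤ T'.ncard :=
    Nat.le_of_mul_le_mul_right (hN.trans t3) (by omega)
  have c1 : Cls3 (G.induce C) := (hIn V G C).1 hcls
  have s1 : SPo (G.induce C) Set.univ := (hIn V G C).2.2.1 hspo
  by_cases hno : NoU (G.induce C)
  · have h4 := hNU C (G.induce C) T' h c1 s1 hno t1 (PTop.uns_mono t2 (by norm_num)) (by omega)
    have h5 : 4 * h + 8 ≤ (4 * h + 8) * h := Nat.le_mul_of_pos_right _ (by omega)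
    omega
  · unfold NoU at hno
    push Not at hno
    obtain ⟨u, hu⟩ := hno
    obtain ⟨i1, i2, i3, i4⟩ := hIn C (G.induce C) ({u}ᶜ : Set C)
    have c2 : Cls3 ((G.induce C).induce ({u}ᶜ : Set C)) := i1 c1
    have p2 : Prm ((G.induce C).induce ({u}ᶜ : Set C)) := PTop.prm s1 hu
    have hn : T'.ncard ≤ ({v | v.1 ∈ T'} : Set ({u}ᶜ : Set C)).ncard + 1 := by
      have h5 : T' ⊆ insert u (Subtype.val '' ({v | v.1 ∈ T'} : Set ({u}ᶜ : Set C))) := by
        intro x hx
        by_cases hxu : x = u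
        · exact Or.inl hxu
        · exact Or.inr ⟨⟨x, hxu⟩, hx, rfl⟩
      refine (Set.ncard_le_ncard h5 (Set.toFinite _)).trans ?_
      refine (Set.ncard_insert_le _ _).trans ?_
      rw [Set.ncard_image_of_injective _ Subtype.val_injective]
    have hcl : CompleteOn ((G.induce C).induce ({u}ᶜ : Set C)) ({v | v.1 ∈ T'}) := by
      intro a ha b hb hab
      exact t1 _ ha _ hb fun h => hab (Subtype.ext h)
    have hun : Uns ((G.induce C).induce ({u}ᶜ : Set C)) ({v | v.1 ∈ T'}) 5 h := by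
      intro X hX
      have h5 : cr (G.induce C) (Subtype.val '' X) ≤ 6 := by
        refine (i4 (Subtype.val '' X) u).trans ?_
        have h6 : (Subtype.val '' X)ᶜ \ {u} = ({u}ᶜ : Set C) \ (Subtype.val '' X) := by
          ext x
          exact ⟨fun h => ⟨h.2, h.1⟩, fun h => ⟨h.2, h.1⟩⟩
        rw [h6, ← i2 X]
        omega
      have h7 : ∀ S : Set ({u}ᶜ : Set C), S.ncard = (Subtype.val '' S).ncard := fun S =>
        (Set.ncard_image_of_injective _ Subtype.val_injective).symm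
      rcases t2 _ h5 with h6 | h6
      · left
        refine lt_of_le_of_lt ?_ h6
        rw [h7]
        refine Set.ncard_le_ncard ?_ (Set.toFinite _)
        rintro x ⟨v, hv, rfl⟩
        exact ⟨hv.1, ⟨v, hv.2, rfl⟩⟩
      · right
        refine lt_of_le_of_lt ?_ h6
        rw [h7]
        refine Set.ncard_le_ncard ?_ (Set.toFinite _)
        rintro x ⟨v, hv, rfl⟩
        refine ⟨hv.1, ?_⟩
        rintro ⟨v', hv', he⟩
        have : v' = v := Subtype.ext he
        exact hv.2 (this ▸ hv')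
    have h8 := hGam _ _ _ h h3 c2 p2 hcl hun
    omega

end Pool.Agent.MPd439b2.H3
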