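import Pool.Agent.Lib.MP_d439b2_co.H3.Spec

/-!
# MP_d439b2_co, pair (C_4, K3:0,01,12): the clique in the piece
-/

set_option autoImplicit false

namespace Pool.Agent.MPd439b2.H3

open Pool.Agent.MPd439b2 Pool.Agent.MPd439b2.LK

theorem pfTp : S_Rt → S_In → S_Tp := by
  classical
  intro hRt hIn V _ G T C Φ φ c h hT hU hR hfib
  obtain ⟨g, hg⟩ : ∃ g : V → C, ∀ v, (g v : V) = φ v := ⟨fun v => ⟨φ v, hR.into v⟩, fun _ => rfl⟩
  refine ⟨g '' T, ?_, ?_, ?_⟩
  · -- the image is a clique
    rintro _ ⟨t, ht, rfl⟩ _ ⟨t', ht', rfl⟩ hne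
    have h1 : φ t ≠ φ t' := by
      intro h1
      apply hne
      apply Subtype.ext
      rw [hg, hg, h1]
    have h2 : t ≠ t' := fun h2 => h1 (by rw [h2])
    have h3 := ((hR.adj t t' h1).1 (hT t ht t' ht' h2)).2.2
    rw [SimpleGraph.induce_adj, hg, hg]
    exact h3
  · -- the cuts
    intro X hX
    have h1 : cr G (φ ⁻¹' (Subtype.val '' X)) ≤ c := by
      refine (hRt V G C Φ (Subtype.val '' X) φ hR ?_).trans ?_
      · rintro _ ⟨x, _, rfl⟩
        exact x.2
      · rw [← (hIn V G C).2.1 X]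
        exact hX
    have hmem : ∀ v, φ v ∈ Subtype.val '' X ↔ g v ∈ X := by
      intro v
      constructor
      · rintro ⟨x, hx, hxv⟩
        have : x = g v := Subtype.ext (by rw [hg, ← hxv])
        rwa [← this]
      · intro hv
        exact ⟨g v, hv, hg v⟩
    have h2 : g '' T ∩ X ⊆ g '' (T ∩ φ ⁻¹' (Subtype.val '' X)) := by
      rintro _ ⟨⟨t, ht, rfl⟩, hx⟩
      exact ⟨t, ⟨ht, (hmem t).2 hx⟩, rfl⟩
    have h3 : g '' T \ X ⊆ g '' (T \ φ ⁻¹' (Subtype.val '' X)) := by
      rintro _ ⟨⟨t, ht, rfl⟩, hx⟩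
      exact ⟨t, ⟨ht, fun h4 => hx ((hmem t).1 h4)⟩, rfl⟩
    rcases hU _ h1 with h4 | h4
    · left
      exact ((Set.ncard_le_ncard h2 (Set.toFinite _)).trans
        (Set.ncard_image_le (Set.toFinite _))).trans_lt h4
    · right
      exact ((Set.ncard_le_ncard h3 (Set.toFinite _)).trans
        (Set.ncard_image_le (Set.toFinite _))).trans_lt h4
  · -- counting
    have : Fintype V := Fintype.ofFinite V
    have h1 := Finset.card_le_mul_card_image (f := g) T.toFinset h (by
      intro a _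
      have h2 : ((T.toFinset.filter fun x => g x = a) : Set V) = T ∩ φ ⁻¹' {(a : V)} := by
        ext x
        simp only [Finset.coe_filter, Set.mem_toFinset, Set.mem_ofPred_eq, Set.mem_inter_iff,
          Set.mem_preimage, Set.mem_singleton_iff]
        rw [← hg x, Subtype.val_inj]
      have h3 := hfib a a.2
      rw [← h2, Set.ncard_coe_finset] at h3
      exact h3.le)
    have h4 : (g '' T).ncard = (T.toFinset.image g).card := by
      rw [← Set.ncard_coe_finset, Finset.coe_image, Set.coe_toFinset]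
    rw [h4, Set.ncard_eq_toFinset_card', mul_comm]
    exact h1

end Pool.Agent.MPd439b2.H3
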