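import Pool.Agent.Lib.MP_d439b2_co.H3.Spec

/-!
# MP_d439b2_co, H3 : Uni, a universal vertex of a piece
-/

set_option autoImplicit false

namespace Pool.Agent.MPd439b2.H3

open Pool.Agent.MPd439b2 Pool.Agent.MPd439b2.LK

private theorem uni_img {V W : Type} {H : SimpleGraph W} {G : SimpleGraph V} (θ : W → V)
    (hθ : ∀ a b, H.Adj a b → G.Adj (θ a) (θ b)) {S : Set W} (hS : Conn H S) :
    Conn G (θ '' S) := by
  refine ⟨hS.1.image θ, fun B hB hne hne' => ?_⟩
  obtain ⟨b, hb, a, ha, hab⟩ := hS.2 {s | s ∈ S ∧ θ s ∈ B} (fun s hs => hs.1) (by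
    obtain ⟨v, hv⟩ := hne
    obtain ⟨s, hs, rfl⟩ := hB hv
    exact ⟨s, hs, hv⟩) (by
    intro h
    apply hne'
    refine Set.Subset.antisymm hB ?_
    rintro _ ⟨s, hs, rfl⟩
    have h' : s ∈ {s | s ∈ S ∧ θ s ∈ B} := by
      rw [h]
      exact hs
    exact h'.2)
  exact ⟨θ b, hb.2, θ a, ⟨⟨a, ha.1, rfl⟩, fun h => ha.2 ⟨ha.1, h⟩⟩, hθ b a hab⟩

private theorem uni_two {V : Type} [Finite V] {S : Set V} {a b : V} (ha : a ∈ S) (hb : b ∈ S)
    (h : a ≠ b) : 2 ≤ S.ncard := by
  have h1 : ({a, b} : Set V) ⊆ S := by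
    intro v hv
    rcases hv with rfl | hv
    · exact ha
    · rw [Set.mem_singleton_iff] at hv
      exact hv ▸ hb
  have h2 := Set.ncard_le_ncard h1 (Set.toFinite _)
  rw [Set.ncard_pair h] at h2
  exact h2

/-- a set of the form `P ∪ R` with `P`, one point `w`, pairwise disjoint -/
private theorem uni_dj {V : Type} {S : Set V} {w : V} (h : w ∉ S) : Disjoint S {w} := by
  rw [Set.disjoint_singleton_right]
  exact h

private theorem uni_dj1 {V : Type} {v w : V} (h : v ≠ w) : Disjoint ({v} : Set V) {w} := by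
  rw [Set.disjoint_singleton]
  exact h

private theorem uni_t1 {V : Type} {G : SimpleGraph V} {v w : V} : Tch G {v} {w} ↔ G.Adj v w := by
  constructor
  · rintro ⟨a, ha, b, hb, hab⟩
    rw [Set.mem_singleton_iff] at ha hb
    rw [← ha, ← hb]
    exact hab
  · intro h
    exact ⟨v, rfl, w, rfl, h⟩

theorem pfUni : LK.S_A0 → S_M0 → S_Uni := by
  intro hA0 hM0 V _ G C Φ φ u hcls hprm hconn hret hsp huC hu h3
  classical
  have h1 : ∃ y, φ y ≠ u ∧ y ∉ Φ := by
    by_contra hcon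
    push Not at hcon
    have hhom : Hmg G Set.univ {y | φ y ≠ u} := by
      intro v _ hv
      have hv' : φ v = u := by
        by_contra h
        exact hv h
      have hne : ∀ m ∈ {y | φ y ≠ u}, φ v ≠ φ m := by
        intro m hm h
        exact hm (h ▸ hv')
      by_cases hvΦ : v ∈ Φ
      · left
        intro m hm
        refine (hret.adj v m (hne m hm)).2 ⟨hvΦ, hcon m hm, ?_⟩
        rw [hv']
        exact hu (φ m) (hret.into m) hm
      · right
        intro m hm hadj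
        exact hvΦ ((hret.adj v m (hne m hm)).1 hadj).1
    have hsub := hprm {y | φ y ≠ u} (by
      intro h
      have h' : u ∈ {y | φ y ≠ u} := by
        rw [h]
        trivial
      exact h' (hret.fix u huC)) hhom
    have hsub' : (C \ {u}).ncard ≤ 1 := by
      rw [Set.ncard_le_one (Set.toFinite _)]
      intro a ha b hb
      refine hsub ?_ ?_
      · change φ a ≠ u
        rw [hret.fix a ha.1]
        exact ha.2
      · change φ b ≠ u
        rw [hret.fix b hb.1]
        exact hb.2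
    have h4 := Set.ncard_sdiff_singleton_of_mem huC
    omega
  obtain ⟨y, hyu, hyΦ⟩ := h1
  have hcC : φ y ∈ C := hret.into y
  obtain ⟨K, hK, hyK, -, hKn⟩ := exists_comp G (A := {w | φ w = φ y ∧ w ∉ Φ}) (v := y) ⟨rfl, hyΦ⟩
  generalize φ y = c at hyu hcC hK hKn
  have hcK : c ∉ K := fun h => (hK h).2 (hret.full hcC)
  obtain ⟨d, hd, f, hf, hdf⟩ := hconn.2 K (Set.subset_univ _) ⟨y, hyK⟩ (by
    intro h
    exact hcK (h ▸ Set.mem_univ c))
  have hφd : φ d = c := (hK hd).1
  have hdΦ : d ∉ Φ := (hK hd).2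
  have hφf : φ f = c := by
    by_contra h
    refine hdΦ ((hret.adj d f ?_).1 hdf).1
    rw [hφd]
    exact fun h' => h h'.symm
  have hfΦ : f ∈ Φ := by
    by_contra h
    exact hKn f ⟨hφf, h⟩ ⟨hf.2, d, hd, hdf⟩
  have hdw : ∀ w ∈ C, w ≠ c → ¬ G.Adj d w := by
    intro w hw hwc hadj
    refine hdΦ ((hret.adj d w ?_).1 hadj).1
    rw [hφd, hret.fix w hw]
    exact fun h => hwc h.symm
  have hfw : ∀ w ∈ C, w ≠ c → (G.Adj f w ↔ G.Adj c w) := by
    intro w hw hwc
    have hne : φ f ≠ φ w := by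
      rw [hφf, hret.fix w hw]
      exact fun h => hwc h.symm
    rw [hret.adj f w hne, hφf, hret.fix w hw]
    exact ⟨fun h => h.2.2, fun h => ⟨hfΦ, hret.full hw, h⟩⟩
  have hdC : d ∉ C := fun h => hdΦ (hret.full h)
  have hfC : ∀ w ∈ C, w ≠ c → f ≠ w := by
    rintro w hw hwc rfl
    apply hwc
    rw [← hret.fix f hw]
    exact hφf
  let c' : C := ⟨c, hcC⟩
  let θ : C → V := fun v => if v = c' then f else v.1
  have hθc : θ c' = f := if_pos rfl
  have hθw : ∀ w : C, w ≠ c' → θ w = w.1 := fun w hw => if_neg hw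
  have hcc : ∀ w : C, w ≠ c' → w.1 ≠ c := fun w hw h => hw (Subtype.ext h)
  have hθ : ∀ a b : C, (G.induce C).Adj a b → G.Adj (θ a) (θ b) := by
    intro a b hab
    have hab' : G.Adj a.1 b.1 := hab
    by_cases ha : a = c'
    · by_cases hb : b = c'
      · rw [ha, hb] at hab'
        exact absurd hab' (G.loopless.irrefl _)
      · rw [ha, hθc, hθw b hb, hfw b.1 b.2 (hcc b hb)]
        rw [ha] at hab'
        exact hab'
    · by_cases hb : b = c'
      · rw [hb, hθc, hθw a ha]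
        rw [hb] at hab'
        exact ((hfw a.1 a.2 (hcc a ha)).2 hab'.symm).symm
      · rw [hθw a ha, hθw b hb]
        exact hab'
  refine ⟨c', hyu, ?_⟩
  set Q : Set C := {v | v ≠ c' ∧ v.1 ≠ u} with hQ
  refine ⟨Conn.singleton _ _, ?_, ?_, ?_, ?_⟩
  · rw [Set.disjoint_singleton_left]
    exact fun h => h.1 rfl
  · intro v hv
    by_cases hvc : v = c'
    · right
      right
      intro q hq
      rw [hvc]
      constructor
      · intro h
        exact ⟨hq, c', rfl, h⟩
      · rintro ⟨-, a, ha, haq⟩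
        rw [Set.mem_singleton_iff] at ha
        rw [← ha]
        exact haq
    · left
      intro q hq
      have hvu : v.1 = u := by
        by_contra h
        exact hv ⟨hvc, h⟩
      change G.Adj v.1 q.1
      rw [hvu]
      exact hu q.1 q.2 hq.2
  · intro R hR hRc w hw y' hy z hz hwR hyR hzR hwy hwt hyt hzt hwz
    by_contra hcon
    have hP : Conn G (θ '' ({c'} ∪ R)) := uni_img θ hθ hRc
    have hnm : ∀ v : C, v ∈ Q → v ∉ R → v.1 ∉ θ '' ({c'} ∪ R) := by
      rintro v hv hvR ⟨a, ha, hav⟩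
      rcases ha with ha | ha
      · rw [Set.mem_singleton_iff] at ha
        rw [ha, hθc] at hav
        exact hfC v.1 v.2 (hcc v hv.1) hav
      · rw [hθw a (hR ha).1] at hav
        exact hvR (Subtype.ext hav ▸ ha)
    have htch : ∀ v : C, v ∈ Q → (∃ a ∈ ({c'} ∪ R : Set C), (G.induce C).Adj a v) →
        Tch G (θ '' ({c'} ∪ R)) {v.1} := by
      rintro v hv ⟨a, ha, hav⟩
      refine ⟨θ a, ⟨a, ha, rfl⟩, v.1, rfl, ?_⟩
      have h' := hθ a v hav
      rw [hθw v hv.1] at h'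
      exact h'
    have hzm : ¬ Tch G (θ '' ({c'} ∪ R)) {z.1} := by
      rintro ⟨b, ⟨a, ha, rfl⟩, z', hz', hab⟩
      rw [Set.mem_singleton_iff] at hz'
      rw [hz'] at hab
      rcases ha with ha | ha
      · rw [Set.mem_singleton_iff] at ha
        rw [ha, hθc, hfw z.1 z.2 (hcc z hz.1)] at hab
        exact hzt c' (Or.inl rfl) hab
      · rw [hθw a (hR ha).1] at hab
        exact hzt a (Or.inr ha) hab
    have hwz' : G.Adj w.1 z.1 := hwz
    have hcon' : ¬ G.Adj w.1 y'.1 := hcon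
    have hyz : y'.1 ≠ z.1 := by
      intro h
      apply hzm
      rw [← h]
      exact htch y' hy hyt
    have hyw : y'.1 ≠ w.1 := fun h => hwy (Subtype.ext h.symm)
    have hzw : z.1 ≠ w.1 := fun h => G.loopless.irrefl w.1 (h ▸ hwz')
    have hynz : ¬ G.Adj y'.1 z.1 := by
      intro hadj
      apply hcls.1
      refine hA0 V G (θ '' ({c'} ∪ R)) {y'.1} {z.1} {w.1} hP (Conn.singleton _ _)
        (Conn.singleton _ _) (Conn.singleton _ _) (uni_dj (hnm y' hy hyR)) (uni_dj (hnm z hz hzR))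
        (uni_dj (hnm w hw hwR)) (uni_dj1 hyz) (uni_dj1 hyw) (uni_dj1 hzw) (htch y' hy hyt)
        (uni_t1.2 hadj) (uni_t1.2 hwz'.symm) (htch w hw hwt) hzm ?_
      rw [uni_t1]
      exact fun h => hcon' h.symm
    apply hcls.2
    have huP : u ∉ θ '' ({c'} ∪ R) := by
      rintro ⟨a, ha, hau⟩
      rcases ha with ha | ha
      · rw [Set.mem_singleton_iff] at ha
        rw [ha, hθc] at hau
        rw [hau, hret.fix u huC] at hφf
        exact hyu hφf.symm
      · rw [hθw a (hR ha).1] at hau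
        exact (hR ha).2 hau
    have hdP : d ∉ θ '' ({c'} ∪ R) := by
      rintro ⟨a, ha, had⟩
      rcases ha with ha | ha
      · rw [Set.mem_singleton_iff] at ha
        rw [ha, hθc] at had
        exact G.loopless.irrefl d (had ▸ hdf)
      · rw [hθw a (hR ha).1] at had
        exact hdC (had ▸ a.2)
    have hdne : ∀ v ∈ C, d ≠ v := fun v hv h => hdC (h ▸ hv)
    refine hM0 V G (θ '' ({c'} ∪ R)) {u} {w.1} {d} {y'.1} {z.1} hP (Conn.singleton _ _)
      (Conn.singleton _ _) (Conn.singleton _ _) (Conn.singleton _ _) (Conn.singleton _ _)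
      (uni_dj huP) (uni_dj (hnm w hw hwR)) (uni_dj1 (Ne.symm hw.2))
      (uni_dj hdP).symm (uni_dj1 (hdne u huC)) (uni_dj1 (hdne w.1 w.2))
      (uni_dj (hnm y' hy hyR)).symm (uni_dj1 hy.2) (uni_dj1 hyw)
      (uni_dj (hnm z hz hzR)).symm (uni_dj1 hz.2) (uni_dj1 hzw)
      (uni_dj1 (hdne y'.1 y'.2)) (uni_dj1 (hdne z.1 z.2)) (uni_dj1 hyz)
      ?_ (htch w hw hwt) (uni_t1.2 (hu w.1 w.2 hw.2))
      ?_ ?_ ?_ (htch y' hy hyt).symm (uni_t1.2 (hu y'.1 y'.2 hy.2).symm) ?_
      (uni_t1.2 (hu z.1 z.2 hz.2).symm) (uni_t1.2 hwz'.symm) ?_ ?_ ?_ ?_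
    · refine ⟨f, ⟨c', Or.inl rfl, hθc⟩, u, rfl, ?_⟩
      rw [hfw u huC (Ne.symm hyu)]
      exact (hu c hcC hyu).symm
    · exact ⟨d, rfl, f, ⟨c', Or.inl rfl, hθc⟩, hdf⟩
    · rw [uni_t1]
      exact hdw u huC (Ne.symm hyu)
    · rw [uni_t1]
      exact hdw w.1 w.2 (hcc w hw.1)
    · rw [uni_t1]
      exact fun h => hcon' h.symm
    · exact fun h => hzm h.symm
    · rw [uni_t1]
      exact hdw y'.1 y'.2 (hcc y' hy.1)
    · rw [uni_t1]
      exact hdw z.1 z.2 (hcc z hz.1)
    · rw [uni_t1]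
      exact hynz
  · intro M hM hML hMH
    by_contra hns
    rw [Set.not_subsingleton_iff] at hns
    obtain ⟨m1, hm1, m2, hm2, hm12⟩ := hns
    have hm12' : m1.1 ≠ m2.1 := fun h => hm12 (Subtype.ext h)
    have hcM : c ∉ Subtype.val '' M := by
      rintro ⟨m, hm, hmc⟩
      exact (hM hm).1 (Subtype.ext hmc)
    have huM : u ∉ Subtype.val '' M := by
      rintro ⟨m, hm, hmc⟩
      exact (hM hm).2 hmc
    have hMC : Subtype.val '' M ⊆ C := by
      rintro _ ⟨m, -, rfl⟩
      exact m.2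
    refine hsp (Subtype.val '' M) hMC (uni_two ⟨m1, hm1, rfl⟩ ⟨m2, hm2, rfl⟩ hm12')
      (uni_two ⟨hcC, hcM⟩ ⟨huC, huM⟩ hyu) ⟨Subtype.val '' M, subset_rfl,
        {b | b ∈ C \ Subtype.val '' M ∧ ∀ a ∈ Subtype.val '' M, G.Adj a b}, fun b hb => hb.1, ?_⟩
    intro a ha b hb
    constructor
    · intro hab
      refine ⟨ha, hb, ?_⟩
      obtain ⟨a0, ha0, rfl⟩ := ha
      rintro _ ⟨a', ha', rfl⟩
      by_cases hbu : b = u
      · rw [hbu]
        exact (hu a'.1 a'.2 (hM ha').2).symm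
      · by_cases hbc : b = c
        · rw [hbc] at hab ⊢
          rcases hML with hML | hML
          · obtain ⟨-, e, he, hea⟩ := hML ha'
            rw [Set.mem_singleton_iff] at he
            rw [he] at hea
            exact hea.symm
          · exfalso
            refine Set.disjoint_left.1 hML ha0 ⟨hM ha0, c', rfl, ?_⟩
            exact hab.symm
        · have hbQ : (⟨b, hb.1⟩ : C) ∈ Q := ⟨fun h => hbc (congrArg Subtype.val h), hbu⟩
          have hbM : (⟨b, hb.1⟩ : C) ∉ M := fun h => hb.2 ⟨_, h, rfl⟩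
          rcases hMH ⟨b, hb.1⟩ hbQ hbM with h' | h'
          · exact SimpleGraph.Adj.symm (h' a' ha')
          · exact absurd (SimpleGraph.Adj.symm hab) (h' a0 ha0)
    · rintro ⟨ha', -, hb'⟩
      exact hb' a ha'

end Pool.Agent.MPd439b2.H3
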