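import Pool.Agent.Lib.MP_d439b2_co.H1M.Final
import Pool.Agent.Lib.MP_d439b2_co.H3.M0
import Pool.Agent.Lib.MP_d439b2_co.H3.M1
import Pool.Agent.Lib.MP_d439b2_co.H3.R0
import Pool.Agent.Lib.MP_d439b2_co.H3.RE
import Pool.Agent.Lib.MP_d439b2_co.H3.RP
import Pool.Agent.Lib.MP_d439b2_co.H3.Pr
import Pool.Agent.Lib.MP_d439b2_co.H3.Sm
import Pool.Agent.Lib.MP_d439b2_co.H3.Rt
import Pool.Agent.Lib.MP_d439b2_co.H3.Pc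
import Pool.Agent.Lib.MP_d439b2_co.H3.In
import Pool.Agent.Lib.MP_d439b2_co.H3.Tp
import Pool.Agent.Lib.MP_d439b2_co.H3.Q0
import Pool.Agent.Lib.MP_d439b2_co.H3.Q1
import Pool.Agent.Lib.MP_d439b2_co.H3.Q2
import Pool.Agent.Lib.MP_d439b2_co.H3.Q3
import Pool.Agent.Lib.MP_d439b2_co.H3.Q4
import Pool.Agent.Lib.MP_d439b2_co.H3.Q5
import Pool.Agent.Lib.MP_d439b2_co.H3.Q6
import Pool.Agent.Lib.MP_d439b2_co.H3.Q9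
import Pool.Agent.Lib.MP_d439b2_co.H3.I1
import Pool.Agent.Lib.MP_d439b2_co.H3.I2
import Pool.Agent.Lib.MP_d439b2_co.H3.I3
import Pool.Agent.Lib.MP_d439b2_co.H3.I4
import Pool.Agent.Lib.MP_d439b2_co.H3.I5
import Pool.Agent.Lib.MP_d439b2_co.H3.I6
import Pool.Agent.Lib.MP_d439b2_co.H3.I7
import Pool.Agent.Lib.MP_d439b2_co.H3.J0
import Pool.Agent.Lib.MP_d439b2_co.H3.J1
import Pool.Agent.Lib.MP_d439b2_co.H3.J2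
import Pool.Agent.Lib.MP_d439b2_co.H3.J3
import Pool.Agent.Lib.MP_d439b2_co.H3.J4
import Pool.Agent.Lib.MP_d439b2_co.H3.J5
import Pool.Agent.Lib.MP_d439b2_co.H3.J6
import Pool.Agent.Lib.MP_d439b2_co.H3.J7
import Pool.Agent.Lib.MP_d439b2_co.H3.J8
import Pool.Agent.Lib.MP_d439b2_co.H3.J9
import Pool.Agent.Lib.MP_d439b2_co.H3.J10
import Pool.Agent.Lib.MP_d439b2_co.H3.J11
import Pool.Agent.Lib.MP_d439b2_co.H3.J12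
import Pool.Agent.Lib.MP_d439b2_co.H3.J13
import Pool.Agent.Lib.MP_d439b2_co.H3.NU
import Pool.Agent.Lib.MP_d439b2_co.H3.Uni
import Pool.Agent.Lib.MP_d439b2_co.H3.Gam
import Pool.Agent.Lib.MP_d439b2_co.H3.Top
import Pool.Agent.Lib.MP_d439b2_co.H3.Fin

/-!
# MP_d439b2_co, pair `(C_4, K3:0,01,12)`: assembly

`h3F`: chordal graphs without the induced minor `K3:0,01,12` have layouts of bounded width, and the pair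
`(C_4, K3:0,01,12)` has bounded clique-width.
-/

set_option autoImplicit false

namespace Pool.Agent.MPd439b2.H3

open Pool.Agent.MPd439b2 Pool.Agent.MPd439b2.LK

/-- the pair `(C_4, K3:0,01,12)` -/
theorem h3F : S_Fin := by
  have b1 : H1M.S_B1 := H1M.pfB1 H1M.m2F
  have hM0 : S_M0 := pfM0
  have hM1 : S_M1 := pfM1 hM0
  have hR0 : S_R0 := pfR0 b1
  have hRE : S_RE := pfRE hM1
  have hRP : S_RP := pfRP hM1 H1M.m2F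
  have hPr : S_Pr := pfPr
  have hSm : S_Sm := pfSm (a7 a0)
  have hRt : S_Rt := pfRt
  have hPc : S_Pc := pfPc a1 hRt
  have hIn : S_In := pfIn
  have hTp : S_Tp := pfTp hRt hIn
  have hQ0 : S_Q0 := pfQ0 a1
  have hQ1 : S_Q1 := pfQ1
  have hQ2 : S_Q2 := pfQ2 hQ1
  have hQ3 : S_Q3 := pfQ3 a1 hQ1 hQ2
  have hQ4 : S_Q4 := pfQ4 hQ1 hQ2
  have hQ5 : S_Q5 := pfQ5 hQ1 hQ2
  have hQ6 : S_Q6 := pfQ6 a1 hQ1 hQ2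
  have hQ9 : S_Q9 := pfQ9 hQ0 hQ1 hQ2 hQ3 hQ4 hQ5 hQ6
  have hI1 : S_I1 := pfI1
  have hI2 : S_I2 := pfI2 hR0 b1 hRE hRP hM1
  have hI3 : S_I3 := pfI3 hR0 hI1 hI2
  have hI4 : S_I4 := pfI4 hR0 hRP H1M.m2F hI1 hI2 hI3
  have hI5 : S_I5 := pfI5 hR0 hRE
  have hI6 : S_I6 := pfI6 hM1 hI5
  have hI7 : S_I7 := pfI7 a1 hI4 hI5 hI6
  have hJ0 : S_J0 := pfJ0 a0
  have hJ1 : S_J1 := pfJ1 hM0 hJ0
  have hJ2 : S_J2 := pfJ2 hM0 hJ0 hJ1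
  have hJ3 : S_J3 := pfJ3 hJ0 hJ1 hJ2
  have hJ4 : S_J4 := pfJ4 hM0 hR0 hJ0 hJ3
  have hJ5 : S_J5 := pfJ5 hM1 (a7 a0) hRP hJ0 hJ2 hJ3 hJ4
  have hJ6 : S_J6 := pfJ6 a1 hJ0 hJ3 hJ5
  have hJ7 : S_J7 := pfJ7 a1 hJ0 hJ3 hJ4 hJ5
  have hJ8 : S_J8 := pfJ8 a0 hM0 hJ0 hJ3 hJ4
  have hJ9 : S_J9 := pfJ9 hJ0 hJ3 hJ4
  have hJ10 : S_J10 := pfJ10 hQ0 hQ9 hJ0 hJ4 hJ6 hJ7 hJ8 hJ9
  have hJ11 : S_J11 := pfJ11 hM0 (a7 a0) hJ0 hJ3 hJ4 hJ5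
  have hJ12 : S_J12 := pfJ12 hJ0 hJ2
  have hJ13 : S_J13 := pfJ13 hSm hJ0 hJ3 hJ11 hJ12
  have hNU : S_NU := pfNU hPr hSm hI7 hJ6 hJ10 hJ13
  have hUni : S_Uni := pfUni a0 hM0
  have hGam : S_Gam := pfGam hPr hPc hIn hTp hNU hUni hQ9
  have hTop : S_Top := pfTop hPc hIn hTp hNU hGam
  exact pfFin cliquesSuffice hTop layCW

end Pool.Agent.MPd439b2.H3
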