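import Pool.Agent.Lib.MP_d439b2_co.H3.Spec

/-!
# MP_d439b2_co, H3: minimal pieces
-/

set_option autoImplicit false

namespace Pool.Agent.MPd439b2.H3

open Pool.Agent.MPd439b2 Pool.Agent.MPd439b2.LK

/-- a split of a piece with a small side gives a smaller piece -/
private theorem pc_step {V : Type} [Finite V] {G : SimpleGraph V} {T C Φ A B A₁ B₁ : Set V}
    {φ : V → V} {h : ℕ} (hR : Ret G C φ Φ) (hf : ∀ c ∈ C, (T ∩ φ ⁻¹' {c}).ncard < h)
    (hA : A ⊆ C) (hB : B = C \ A) (hB2 : 2 ≤ B.ncard) (hB1 : B₁ ⊆ B)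
    (hAB : ∀ a ∈ A, ∀ b ∈ B, (G.Adj a b ↔ a ∈ A₁ ∧ b ∈ B₁))
    (hT : (T ∩ φ ⁻¹' B).ncard < h) :
    ∃ (C' Φ' : Set V) (φ' : V → V), Ret G C' φ' Φ' ∧
      (∀ c ∈ C', (T ∩ φ' ⁻¹' {c}).ncard < h) ∧ C'.ncard < C.ncard := by
  classical
  have hne : B.Nonempty := by
    rw [← Set.ncard_pos]
    omega
  obtain ⟨b, hb, hb1⟩ : ∃ b ∈ B, B₁.Nonempty → b ∈ B₁ := by
    by_cases h1 : B₁.Nonempty
    · obtain ⟨b, hb⟩ := h1
      exact ⟨b, hB1 hb, fun _ => hb⟩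
    · obtain ⟨b, hb⟩ := hne
      exact ⟨b, hb, fun h2 => (h1 h2).elim⟩
  have hbC : b ∈ C := by
    rw [hB] at hb
    exact hb.1
  have hbA : b ∉ A := by
    rw [hB] at hb
    exact hb.2
  have hφb : φ b = b := hR.fix b hbC
  have hnA : ∀ z, φ z ∉ A → φ z ∈ B := by
    intro z hz
    rw [hB]
    exact ⟨hR.into z, hz⟩
  have hAB' : ∀ z z', φ z ∈ A → φ z' ∉ A →
      ((z ∈ Φ ∧ z' ∈ Φ ∧ G.Adj (φ z) (φ z')) ↔
        ((z ∈ Φ ∧ (φ z ∈ A ∨ φ z ∈ B₁)) ∨ z = b) ∧ ((z' ∈ Φ ∧ (φ z' ∈ A ∨ φ z' ∈ B₁)) ∨ z' = b) ∧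
          G.Adj (φ z) b) := by
    intro z z' hz hz'
    have e1 := hAB (φ z) hz (φ z') (hnA z' hz')
    have e2 := hAB (φ z) hz b hb
    rw [e1, e2]
    constructor
    · rintro ⟨h1, h2, h3, h4⟩
      exact ⟨Or.inl ⟨h1, Or.inl hz⟩, Or.inl ⟨h2, Or.inr h4⟩, h3, hb1 ⟨_, h4⟩⟩
    · rintro ⟨h1, h2, h3, h4⟩
      refine ⟨?_, ?_, h3, ?_⟩
      · rcases h1 with h1 | h1
        · exact h1.1
        · rw [h1, hφb] at hz
          exact (hbA hz).elim
      · rcases h2 with h2 | h2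
        · exact h2.1
        · rw [h2]
          exact hR.full hbC
      · rcases h2 with h2 | h2
        · exact h2.2.resolve_left hz'
        · rw [h2, hφb]
          exact h4
  refine ⟨insert b A, {z | (z ∈ Φ ∧ (φ z ∈ A ∨ φ z ∈ B₁)) ∨ z = b},
    fun z => if φ z ∈ A then φ z else b, ⟨?_, ?_, ?_, ?_⟩, ?_, ?_⟩
  · intro z
    show (if φ z ∈ A then φ z else b) ∈ _
    split_ifs with h1
    · exact Or.inr h1
    · exact Or.inl rfl
  · intro c hc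
    show (if φ c ∈ A then φ c else b) = c
    rcases hc with hc | hc
    · rw [hc, hφb, if_neg hbA]
    · rw [hR.fix c (hA hc), if_pos hc]
  · rintro c (hc | hc)
    · exact Or.inr hc
    · refine Or.inl ⟨hR.full (hA hc), Or.inl ?_⟩
      rw [hR.fix c (hA hc)]
      exact hc
  · intro z z' hne'
    change (G.Adj z z' ↔ ((z ∈ Φ ∧ (φ z ∈ A ∨ φ z ∈ B₁)) ∨ z = b) ∧
      ((z' ∈ Φ ∧ (φ z' ∈ A ∨ φ z' ∈ B₁)) ∨ z' = b) ∧
        G.Adj (if φ z ∈ A then φ z else b) (if φ z' ∈ A then φ z' else b))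
    by_cases h1 : φ z ∈ A <;> by_cases h2 : φ z' ∈ A
    · rw [if_pos h1, if_pos h2] at hne' ⊢
      rw [hR.adj z z' hne']
      have e : ∀ y, φ y ∈ A → (((y ∈ Φ ∧ (φ y ∈ A ∨ φ y ∈ B₁)) ∨ y = b) ↔ y ∈ Φ) := by
        intro y hy
        constructor
        · rintro (h3 | h3)
          · exact h3.1
          · rw [h3, hφb] at hy
            exact (hbA hy).elim
        · exact fun h3 => Or.inl ⟨h3, Or.inl hy⟩
      rw [e z h1, e z' h2]
    · rw [if_pos h1, if_neg h2]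
      rw [hR.adj z z' (fun h3 => h2 (h3 ▸ h1))]
      exact hAB' z z' h1 h2
    · rw [if_neg h1, if_pos h2]
      rw [hR.adj z z' (fun h3 => h1 (h3 ▸ h2))]
      have e := hAB' z' z h2 h1
      rw [G.adj_comm (φ z) (φ z'), G.adj_comm b (φ z'), and_left_comm, e, and_left_comm]
    · rw [if_neg h1, if_neg h2] at hne'
      exact (hne' rfl).elim
  · intro c hc
    rcases hc with hc | hc
    · refine lt_of_le_of_lt (Set.ncard_le_ncard ?_ (Set.toFinite _)) hT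
      rintro z ⟨hz, hz'⟩
      refine ⟨hz, hnA z fun h1 => ?_⟩
      have h2 : (if φ z ∈ A then φ z else b) = c := hz'
      rw [if_pos h1, hc] at h2
      exact hbA (h2 ▸ h1)
    · refine lt_of_le_of_lt (Set.ncard_le_ncard ?_ (Set.toFinite _)) (hf c (hA hc))
      rintro z ⟨hz, hz'⟩
      refine ⟨hz, ?_⟩
      have h2 : (if φ z ∈ A then φ z else b) = c := hz'
      by_cases h1 : φ z ∈ A
      · rw [if_pos h1] at h2
        exact h2
      · rw [if_neg h1] at h2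
        exact (hbA (h2 ▸ hc)).elim
  · rw [Set.ncard_insert_of_notMem hbA (Set.toFinite _)]
    have e : A.ncard + B.ncard = C.ncard := by
      rw [hB, ← Set.ncard_union_eq disjoint_sdiff_self_right (Set.toFinite _) (Set.toFinite _),
        Set.union_sdiff_cancel hA]
    omega

theorem pfPc : LK.S_A1 → S_Rt → S_Pc := by
  intro a1 rt V _ G T h h2 hU
  classical
  obtain ⟨_, _, _, _, r5, _⟩ := a1 V G
  have hex : ∃ n, ∃ (C Φ : Set V) (φ : V → V), Ret G C φ Φ ∧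
      (∀ c ∈ C, (T ∩ φ ⁻¹' {c}).ncard < h) ∧ C.ncard = n := by
    refine ⟨_, Set.univ, Set.univ, id, ⟨fun _ => trivial, fun _ _ => rfl, fun _ _ => trivial, ?_⟩,
      ?_, rfl⟩
    · intro z z' _
      simp
    · intro c _
      have : (T ∩ id ⁻¹' {c}).ncard ≤ ({c} : Set V).ncard :=
        Set.ncard_le_ncard (fun z hz => hz.2) (Set.toFinite _)
      rw [Set.ncard_singleton] at this
      omega
  obtain ⟨C, Φ, φ, hR, hf, hC⟩ := Nat.find_spec hex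
  refine ⟨C, Φ, φ, hR, hf, ?_⟩
  have hmin : ∀ (C' Φ' : Set V) (φ' : V → V), Ret G C' φ' Φ' →
      (∀ c ∈ C', (T ∩ φ' ⁻¹' {c}).ncard < h) → ¬ C'.ncard < C.ncard := by
    intro C' Φ' φ' h3 h4 h5
    rw [hC] at h5
    exact Nat.find_min hex h5 ⟨C', Φ', φ', h3, h4, rfl⟩
  rintro A hA hA2 hB2 ⟨A₁, hA1, B₁, hB1, hAB⟩
  have hcr : cr G (φ ⁻¹' (C \ A)) ≤ 1 := by
    refine (rt V G C Φ (C \ A) φ hR Set.sdiff_subset).trans ?_
    rw [Set.sdiff_sdiff_cancel_left hA]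
    refine r5 (C \ A) A A₁ ?_
    intro b hb
    by_cases hb1 : b ∈ B₁
    · left
      intro a ha
      rw [G.adj_comm, hAB a ha b hb]
      exact ⟨fun h3 => h3.1, fun h3 => ⟨h3, hb1⟩⟩
    · right
      intro a ha h3
      exact hb1 ((hAB a ha b hb).1 h3.symm).2
  rcases hU _ hcr with h3 | h3
  · obtain ⟨C', Φ', φ', h4, h5, h6⟩ := pc_step hR hf hA rfl hB2 hB1 hAB h3
    exact hmin C' Φ' φ' h4 h5 h6
  · have hAA : A = C \ (C \ A) := (Set.sdiff_sdiff_cancel_left hA).symm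
    obtain ⟨C', Φ', φ', h4, h5, h6⟩ := pc_step (A₁ := B₁) hR hf (A := C \ A) (B := A) (B₁ := A₁)
      Set.sdiff_subset hAA hA2 hA1 (fun b hb a ha => by
        rw [G.adj_comm, hAB a ha b hb]
        exact and_comm) (by
        refine lt_of_le_of_lt (Set.ncard_le_ncard ?_ (Set.toFinite _)) h3
        rintro z ⟨hz, hz'⟩
        exact ⟨hz, fun h7 => h7.2 hz'⟩)
    exact hmin C' Φ' φ' h4 h5 h6

end Pool.Agent.MPd439b2.H3
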