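import Pool.Agent.Lib.MP_d439b2_co.H3.Spec

/-!
# MP_d439b2_co, H3: J12, the other side
-/

set_option autoImplicit false

namespace Pool.Agent.MPd439b2.H3

open Pool.Agent.MPd439b2 Pool.Agent.MPd439b2.LK

namespace PJ12

variable {V : Type} {G : SimpleGraph V}

/-- a connected set which meets a component is contained in it -/
theorem comp_sub {X Γ D : Set V} (hΓ : IsComp G X Γ) (hD : Conn G D) (hDX : D ⊆ X) {d : V}
    (hd : d ∈ D) (hd' : d ∈ Γ) : D ⊆ Γ := by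
  have h : D ∩ Γ = D := by
    refine hD.eq_of_nb Set.inter_subset_left ⟨d, hd, hd'⟩ fun v hv hn => ?_
    obtain ⟨h1, a, ha, hav⟩ := hn
    exact hΓ.2.2 v (hDX hv) ⟨fun h2 => h1 ⟨hv, h2⟩, a, ha.2, hav⟩
  rw [← h]
  exact Set.inter_subset_right

/-- a neighbour of a component in the set is in the component -/
theorem comp_adj {X Γ : Set V} (hΓ : IsComp G X Γ) {a b : V} (ha : a ∈ Γ) (hb : b ∈ X)
    (hab : G.Adj a b) : b ∈ Γ := by
  by_contra h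
  exact hΓ.2.2 b hb ⟨h, a, ha, hab⟩

end PJ12

theorem pfJ12 : S_J0 → S_J2 → S_J12 := by
  intro hJ0 hJ2 V _ G x z D hC hx hc hM hz hsz
  obtain ⟨dO, dC, dN⟩ := hM.1
  obtain ⟨j1, -, -⟩ := hJ0 V G x D hC.1 hx hc hM.1
  have dX : D ⊆ Ox G x := fun v hv => (dO hv).1
  have nX : nb G D ⊆ Ox G x := fun v hv => (j1 v hv).1
  have nz : ∀ w ∈ Nx G z, w ∈ D ∨ w ∈ nb G D := by
    intro w hw
    by_cases h : w ∈ D
    · exact Or.inl h
    · exact Or.inr ⟨h, z, hz, hw⟩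
  have nzX : ∀ w ∈ Nx G z, w ∈ Ox G x := fun w hw => (nz w hw).elim (fun h => dX h) (fun h => nX h)
  have xz : x ∈ O0 G z :=
    ⟨⟨fun h => (dX hz).1 h.symm, fun h => (dX hz).2 h.symm⟩, fun s hs => (nzX s hs).2⟩
  obtain ⟨Dx, e1, e2, e3, e4⟩ := exists_comp G xz
  have hDx : Cp G z Dx := ⟨e1, e3, e4⟩
  obtain ⟨Ds, ⟨s1, s2⟩, s3⟩ := Set.exists_max_image {D' : Set V | Cp G z D' ∧ nb G Dx ⊆ nb G D'}
    (fun D' => (nb G D').ncard) (Set.toFinite _) ⟨Dx, hDx, subset_rfl⟩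
  have hMs : Mxl G z Ds := by
    refine ⟨s1, fun D' hD' hsub => ?_⟩
    have h1 := s3 D' ⟨hD', s2.trans hsub⟩
    have h2 := Set.eq_of_subset_of_ncard_le hsub h1 (Set.toFinite _)
    rw [h2]
  have hxM : ∀ v ∈ Dx, v ∈ MD G z Ds := fun v hv => Or.inr ⟨Dx, hDx, s2, hv⟩
  have key : ∀ s ∈ Nx G x, (s ∈ O0 G z → s ∈ Dx) ∧ (s ∉ O0 G z → s ∈ nb G Dx) := by
    intro s hs
    exact ⟨fun h => PJ12.comp_adj hDx e2 h hs, fun h => ⟨fun h' => h (e1 h'), x, e2, hs⟩⟩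
  refine ⟨Ds, hMs, ?_, ?_⟩
  · rintro s (rfl | hs)
    · exact hxM _ e2
    · by_cases h : s ∈ O0 G z
      · exact hxM _ ((key s hs).1 h)
      · exact Or.inl (s2 ((key s hs).2 h))
  · intro Γ hΓ hDΓ
    have hdisj : ∀ d ∈ D, d ∉ Γ := fun d hd h => hDΓ (PJ12.comp_sub hΓ dC dX hd h)
    have hnD : ∀ w ∈ Γ, ∀ d ∈ D, ¬ G.Adj w d := fun w hw d hd h =>
      hdisj d hd (PJ12.comp_adj hΓ hw (dX hd) h)
    have hnN : ∀ w ∈ Γ, ∀ t ∈ nb G D, ¬ G.Adj w t := by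
      intro w hw t ht h
      have h1 : t ∈ Γ := PJ12.comp_adj hΓ hw (nX ht) h
      obtain ⟨_, d, hd, hdt⟩ := ht
      exact hnD t h1 d hd hdt.symm
    have hΓz : Γ ⊆ O0 G z := by
      intro w hw
      refine ⟨⟨fun h => hdisj z hz (h ▸ hw), fun h => hnD w hw z hz h.symm⟩, fun s hs => ?_⟩
      rcases nz s hs with h | h
      · exact hnD w hw s h
      · exact hnN w hw s h
    obtain ⟨w₀, hw₀⟩ := hΓ.2.1.1
    obtain ⟨D₂, f1, f2, f3, f4⟩ := exists_comp G (hΓz hw₀)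
    have hD₂ : Cp G z D₂ := ⟨f1, f3, f4⟩
    have hΓD : Γ ⊆ D₂ := PJ12.comp_sub hD₂ hΓ.2.1 hΓz hw₀ f2
    have hxΓ : x ∉ Γ := fun h => (hΓ.1 h).1 rfl
    obtain ⟨b, hb, a, ha, hab⟩ := hc.2 Γ (Set.subset_univ _) ⟨w₀, hw₀⟩
      (fun h => hxΓ (by rw [h]; trivial))
    have hax : a ∈ Nx G x := by
      by_contra h
      by_cases hax : a = x
      · rw [hax] at hab
        exact (hΓ.1 hb).2 hab.symm
      · exact ha.2 (PJ12.comp_adj hΓ hb ⟨hax, h⟩ hab)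
    by_cases h : a ∈ O0 G z
    · have h1 : a ∈ D₂ := PJ12.comp_adj hD₂ (hΓD hb) h hab
      have h2 : D₂ ⊆ Dx := PJ12.comp_sub hDx f3 f1 h1 ((key a hax).1 h)
      exact fun v hv => hxM v (h2 (hΓD hv))
    · have h1 : a ∈ nb G D₂ := ⟨fun h' => h (f1 h'), b, hΓD hb, hab⟩
      have h2 : a ∈ nb G Ds := s2 ((key a hax).2 h)
      have h3 : nb G D₂ ⊆ nb G Ds := by
        rcases hJ2 V G z D₂ Ds a hC hsz hc hD₂ s1 h1 h2 with h3 | h3
        · exact h3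
        · exact hMs.2 D₂ hD₂ h3
      exact fun v hv => Or.inr ⟨D₂, hD₂, h3, hΓD hv⟩

end Pool.Agent.MPd439b2.H3
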