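import Pool.Agent.Lib.MP_d439b2_co.H3.Spec

/-!
# MP_d439b2_co, H3, statement `S_J2`: the neighbourhoods of the components are laminar
-/

set_option autoImplicit false

namespace Pool.Agent.MPd439b2.H3

open Pool.Agent.MPd439b2 Pool.Agent.MPd439b2.LK

private theorem comp_sub {V : Type} {G : SimpleGraph V} {X D D' : Set V} (hD : IsComp G X D)
    (hD' : IsComp G X D') (h : (D ∩ D').Nonempty) : D ⊆ D' := by
  have h1 : D ∩ D' = D := hD.2.1.eq_of_nb Set.inter_subset_left h (by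
    rintro v hv ⟨hv1, d, hd, hdv⟩
    exact hD'.2.2 v (hD.1 hv) ⟨fun h2 => hv1 ⟨hv, h2⟩, d, hd.2, hdv⟩)
  rw [← h1]
  exact Set.inter_subset_right

private theorem nx_conn {V : Type} {G : SimpleGraph V} {x s : V} (hsmp : Smp G x)
    (hs : s ∈ Nx G x) : Conn G (Nx G x) := by
  refine ⟨⟨s, hs⟩, fun B hB hBne hBne' => ?_⟩
  obtain ⟨b, hb⟩ := hBne
  obtain ⟨c, hc, hcB⟩ : ∃ c ∈ Nx G x, c ∉ B := by
    by_contra h
    push Not at h
    exact hBne' (Set.Subset.antisymm hB h)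
  exact ⟨b, hb, c, ⟨hc, hcB⟩, hsmp b (hB hb) c hc (fun h => hcB (h ▸ hb))⟩

theorem pfJ2 : S_M0 → S_J0 → S_J1 → S_J2 := by
  intro hM0 hJ0 hJ1 V _ G x D D' t hcls hsmp hconn hD hD' ht ht'
  obtain ⟨hfirst, hcl, hne⟩ := hJ0 V G x D hcls.1 hsmp hconn hD
  obtain ⟨hfirst', hcl', hne'⟩ := hJ0 V G x D' hcls.1 hsmp hconn hD'
  by_contra hcon
  rw [not_or] at hcon
  obtain ⟨hc1, hc2⟩ := hcon
  rw [Set.not_subset] at hc1 hc2
  obtain ⟨u, hu, hu'⟩ := hc1
  obtain ⟨w, hw, hw'⟩ := hc2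
  have hdis : Disjoint D D' := by
    rw [Set.disjoint_iff_inter_eq_empty]
    by_contra h
    have h1 : (D ∩ D').Nonempty := Set.nonempty_iff_ne_empty.mpr h
    have h2 : D = D' := Set.Subset.antisymm (comp_sub hD hD' h1)
      (comp_sub hD' hD (by rw [Set.inter_comm]; exact h1))
    exact hu' (h2 ▸ hu)
  have hut : u ≠ t := fun h => hu' (h ▸ ht')
  have hwt : w ≠ t := fun h => hw' (h ▸ ht)
  have huw : u ≠ w := fun h => hu' (h ▸ hw)
  have aut : G.Adj u t := hcl u hu t ht hut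
  have awt : G.Adj w t := hcl' w hw t ht' hwt
  obtain ⟨⟨hux, hxu⟩, huO, su, hsu, hus⟩ := hfirst u hu
  obtain ⟨⟨hwx, hxw⟩, hwO, sw, hsw, hws⟩ := hfirst' w hw
  obtain ⟨⟨htx, hxt⟩, htO, s, hs, hts⟩ := hfirst t ht
  have hwD : w ∉ D := fun h => hwO (hD.1 h)
  have huD' : u ∉ D' := fun h => huO (hD'.1 h)
  have awu : G.Adj w u := by
    obtain ⟨y, hy, hyu⟩ := hJ1 V G x D {w} t u hcls hsmp hconn hD (Conn.singleton G w)
      (by rw [Set.singleton_subset_iff]; exact ⟨hwx, hxw⟩)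
      (by rw [Set.disjoint_singleton_left]; exact hw')
      (by rw [Set.disjoint_singleton_left]; exact hwD)
      ⟨w, rfl, sw, hsw, hws⟩ ht hu ⟨w, rfl, awt⟩
    rw [Set.mem_singleton_iff] at hy
    subst hy
    exact hyu
  have hNc : Conn G (Nx G x) := nx_conn hsmp hs
  have hPc : Conn G (insert u (Nx G x)) := hNc.insert ⟨su, hsu, hus.symm⟩
  have hxx : x ∉ Nx G x := fun h => G.loopless.irrefl x h
  have hDx : ∀ d ∈ D, d ≠ x ∧ ¬ G.Adj x d ∧ ∀ s ∈ Nx G x, ¬ G.Adj d s :=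
    fun d hd => ⟨(hD.1 hd).1.1, (hD.1 hd).1.2, (hD.1 hd).2⟩
  have hDx' : ∀ d ∈ D', d ≠ x ∧ ¬ G.Adj x d ∧ ∀ s ∈ Nx G x, ¬ G.Adj d s :=
    fun d hd => ⟨(hD'.1 hd).1.1, (hD'.1 hd).1.2, (hD'.1 hd).2⟩
  apply hcls.2
  apply hM0 V G (insert u (Nx G x)) {t} {w} {x} D D' hPc (Conn.singleton G t)
    (Conn.singleton G w) (Conn.singleton G x) hD.2.1 hD'.2.1
  · -- P0 P1
    rw [Set.disjoint_singleton_right]
    rintro (h | h)
    · exact hut h.symm
    · exact hxt h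
  · rw [Set.disjoint_singleton_right]
    rintro (h | h)
    · exact huw h.symm
    · exact hxw h
  · rw [Set.disjoint_singleton_right]
    exact hwt
  · -- X P0
    rw [Set.disjoint_singleton_left]
    rintro (h | h)
    · exact hux h.symm
    · exact hxx h
  · rw [Set.disjoint_singleton_left]
    exact fun h => htx h.symm
  · rw [Set.disjoint_singleton_left]
    exact fun h => hwx h.symm
  · -- Y P0
    rw [Set.disjoint_left]
    rintro y hy (h | h)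
    · exact hu.1 (h ▸ hy)
    · exact (hDx y hy).2.1 h
  · rw [Set.disjoint_singleton_right]
    exact ht.1
  · rw [Set.disjoint_singleton_right]
    exact hwD
  · -- Z P0
    rw [Set.disjoint_left]
    rintro y hy (h | h)
    · exact huD' (h ▸ hy)
    · exact (hDx' y hy).2.1 h
  · rw [Set.disjoint_singleton_right]
    exact ht'.1
  · rw [Set.disjoint_singleton_right]
    exact hw.1
  · -- X Y
    rw [Set.disjoint_singleton_left]
    exact fun h => (hDx x h).1 rfl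
  · rw [Set.disjoint_singleton_left]
    exact fun h => (hDx' x h).1 rfl
  · exact hdis
  · exact ⟨u, Or.inl rfl, t, rfl, aut⟩
  · exact ⟨u, Or.inl rfl, w, rfl, awu.symm⟩
  · exact ⟨t, rfl, w, rfl, awt.symm⟩
  · -- X P0
    exact ⟨x, rfl, s, Or.inr hs, hs⟩
  · rintro ⟨a, rfl, b, rfl, hab⟩
    exact hxt hab
  · rintro ⟨a, rfl, b, rfl, hab⟩
    exact hxw hab
  · -- Y P0
    obtain ⟨_, d, hd, hdu⟩ := hu
    exact ⟨d, hd, u, Or.inl rfl, hdu⟩
  · obtain ⟨_, d, hd, hdt⟩ := ht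
    exact ⟨d, hd, t, rfl, hdt⟩
  · rintro ⟨d, hd, b, rfl, hab⟩
    exact hw' ⟨hwD, d, hd, hab⟩
  · -- Z P1
    obtain ⟨_, d, hd, hdt⟩ := ht'
    exact ⟨d, hd, t, rfl, hdt⟩
  · obtain ⟨_, d, hd, hdw⟩ := hw
    exact ⟨d, hd, w, rfl, hdw⟩
  · rintro ⟨d, hd, b, hb, hab⟩
    rcases hb with rfl | hb
    · exact hu' ⟨huD', d, hd, hab⟩
    · exact (hDx' d hd).2.2 b hb hab
  · -- X Y
    rintro ⟨a, rfl, y, hy, hab⟩
    exact (hDx y hy).2.1 hab
  · rintro ⟨a, rfl, d, hd, hab⟩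
    exact (hDx' d hd).2.1 hab
  · rintro ⟨y, hy, d, hd, hab⟩
    have h1 : d ∉ D := Set.disjoint_right.mp hdis hd
    exact hD.2.2 d (hD'.1 hd) ⟨h1, y, hy, hab⟩

end Pool.Agent.MPd439b2.H3
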