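import Pool.Agent.Lib.MP_d439b2_co.H3.Spec

/-!
# MP_d439b2_co, H3/Q9: rooted pieces do not contain almost all of an unsplittable clique
-/

set_option autoImplicit false

namespace Pool.Agent.MPd439b2.H3

open Pool.Agent.MPd439b2 Pool.Agent.MPd439b2.LK

/-- an element with minimal value -/
private theorem q9_min {V : Type} [Finite V] (f : V → Set V) (P : Set V) (hP : P.Nonempty) :
    ∃ a ∈ P, ∀ b ∈ P, (f a).ncard ≤ (f b).ncard := by
  obtain ⟨a, ha, h⟩ := Set.exists_min_image P (fun v => (f v).ncard) P.toFinite hP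
  exact ⟨a, ha, h⟩

private theorem q9_max {V : Type} [Finite V] (f : V → Set V) (P : Set V) (hP : P.Nonempty) :
    ∃ a ∈ P, ∀ b ∈ P, (f b).ncard ≤ (f a).ncard := by
  obtain ⟨a, ha, h⟩ := Set.exists_max_image P (fun v => (f v).ncard) P.toFinite hP
  exact ⟨a, ha, h⟩

/-- the number of elements of `T` is split by a set -/
private theorem q9_split {V : Type} [Finite V] (T X : Set V) :
    T.ncard = (T ∩ X).ncard + (T \ X).ncard :=
  (Set.ncard_inter_add_ncard_sdiff_eq_ncard T X T.toFinite).symm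

private theorem q9_le {V : Type} [Finite V] {A B : Set V} (h : A ⊆ B) : A.ncard ≤ B.ncard :=
  Set.ncard_le_ncard h B.toFinite

/-- a subset of `T` and of an independent set has at most one element -/
private theorem q9_sub {V : Type} [Finite V] {S : Set V} (h : S.Subsingleton) : S.ncard ≤ 1 :=
  Set.ncard_le_one_iff_subsingleton.mpr h

theorem pfQ9 : S_Q0 → S_Q1 → S_Q2 → S_Q3 → S_Q4 → S_Q5 → S_Q6 → S_Q9 := by
  intro hQ0 hQ1 hQ2 hQ3 hQ4 hQ5 hQ6 V _ G T h hT hU hh hTh A Q hR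
  obtain ⟨n, hn⟩ : ∃ n, n = Q.ncard := ⟨_, rfl⟩
  induction n using Nat.strong_induction_on generalizing A Q with
  | _ n ih =>
  by_contra hcon
  push Not at hcon
  obtain ⟨-, q1, -⟩ := hQ1 V G A Q hR
  have hsplit := q9_split T
  -- the first level is not empty
  have hLne : (Lv G A Q).Nonempty := by
    by_contra h1
    rw [Set.not_nonempty_iff_eq_empty] at h1
    have h2 : Q.Subsingleton := by
      refine hR.mf Q (Set.Subset.refl _) (Or.inr ?_) (fun v hv hv' => (hv' hv).elim)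
      rw [h1]
      exact Set.disjoint_empty _
    have h3 : (T ∩ Q).ncard ≤ 1 := q9_sub (h2.anti Set.inter_subset_right)
    have h4 := hsplit Q
    omega
  -- the extreme elements
  have hminimal : ∀ a ∈ Lv G A Q, ∀ b ∈ Lv G A Q, (Np G A Q a).ncard ≤ (Np G A Q b).ncard →
      Np G A Q a ⊆ Np G A Q b := by
    intro a ha b hb hab
    by_cases h1 : a = b
    · rw [h1]
    · rcases q1 a ha b hb h1 with h2 | h2
      · exact h2.subset
      · have h3 := Set.ncard_lt_ncard h2 (Set.toFinite _)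
        omega
  obtain ⟨a₁, ha₁, hmin'⟩ := q9_min (fun a => Np G A Q a) (Lv G A Q) hLne
  have hmin : ∀ a ∈ Lv G A Q, Np G A Q a₁ ⊆ Np G A Q a := fun a ha =>
    hminimal a₁ ha₁ a ha (hmin' a ha)
  obtain ⟨m, hm, hmax'⟩ := q9_max (fun a => Np G A Q a) (Lv G A Q) hLne
  have hmax : ∀ a ∈ Lv G A Q, Np G A Q a ⊆ Np G A Q m := fun a ha =>
    hminimal a ha m hm (hmax' a ha)
  obtain ⟨p1, ⟨p2', p2⟩, p3, p4⟩ := hQ2 V G A Q a₁ hR ha₁ hmin
  -- elements of `Hs` have a neighbour outside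
  have hHs : ∀ v ∈ Hs G A Q a₁, ¬ Nn G A Q a₁ v ⊆ Np G A Q a₁ := by
    rintro v ⟨-, z, hz, hzL, hzN, hvz⟩ h1
    exact hzN (h1 ⟨hz, hzL, hzN, hvz⟩)
  have hHsL : ∀ v ∈ Hs G A Q a₁, v ∉ Lv G A Q := fun v hv => hv.1.2.1
  -- pieces of small rank which are smaller than `Q`
  have hpiece : ∀ A' Q' : Set V, RPc G A' Q' → Q' ⊆ Q → a₁ ∉ Q' → (T ∩ Q').ncard < h := by
    intro A' Q' hR' hQ' ha₁'
    by_contra h1
    push Not at h1
    have h2 : cr G Q' ≤ 5 := (hQ0 V G A' Q' hR').trans (by norm_num)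
    have h3 : (T \ Q').ncard < h := by
      rcases hU Q' h2 with h3 | h3
      · omega
      · exact h3
    have h4 : Q'.ncard < n := by
      rw [hn]
      exact Set.ncard_lt_ncard ((Set.ssubset_iff_of_subset hQ').mpr ⟨a₁, ha₁.1, ha₁'⟩)
        (Set.toFinite _)
    have h5 := ih Q'.ncard h4 A' Q' hR' rfl
    omega
  -- the last piece
  have hQi : (T ∩ Qi G A Q a₁ m).ncard < h := by
    refine hpiece _ _ (hQ4 V G A Q a₁ m hR ha₁ hmin hm hmax) ?_ ?_
    · rintro v (hv | hv)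
      · exact hv.1.1.1
      · exact hv.1
    · rintro (hv | hv)
      · exact hHsL _ hv.1 ha₁
      · exact hv.2.1 ha₁
  have hXm : h ≤ (T ∩ Xa G A Q a₁ m).ncard := by
    have h1 : T ⊆ (T \ Q) ∪ ({a₁} ∪ ({w | w ∈ Np G A Q a₁ ∧ w ∉ Hs G A Q a₁} ∪
        (T ∩ Qi G A Q a₁ m ∪ T ∩ Xa G A Q a₁ m))) := by
      intro v hv
      by_cases hvQ : v ∈ Q
      · right
        by_cases hvL : v ∈ Lv G A Q
        · by_cases hva : v = a₁
          · exact Or.inl hva
          · exact Or.inr (Or.inr (Or.inr ⟨hv, Or.inl ⟨hvL, hva, hmax v hvL⟩⟩))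
        · right
          by_cases hvm : v ∈ Np G A Q m
          · by_cases hv1 : v ∈ Np G A Q a₁
            · by_cases hvH : v ∈ Hs G A Q a₁
              · right
                by_cases hvN : Nn G A Q a₁ v ⊆ Np G A Q m
                · exact Or.inr ⟨hv, Or.inr (Or.inr ⟨hvH, hvN⟩)⟩
                · exact Or.inl ⟨hv, Or.inl ⟨hvH, hvN⟩⟩
              · exact Or.inl ⟨hv1, hvH⟩
            · exact Or.inr (Or.inr ⟨hv, Or.inr (Or.inl ⟨hvm, hv1⟩)⟩)
          · exact Or.inr (Or.inl ⟨hv, Or.inr ⟨hvQ, hvL, hvm⟩⟩)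
      · exact Or.inl ⟨hv, hvQ⟩
    have h2 := q9_le h1
    have h3 := Set.ncard_union_le (T \ Q) ({a₁} ∪ ({w | w ∈ Np G A Q a₁ ∧ w ∉ Hs G A Q a₁} ∪
        (T ∩ Qi G A Q a₁ m ∪ T ∩ Xa G A Q a₁ m)))
    have h4 := Set.ncard_union_le {a₁} ({w | w ∈ Np G A Q a₁ ∧ w ∉ Hs G A Q a₁} ∪
        (T ∩ Qi G A Q a₁ m ∪ T ∩ Xa G A Q a₁ m))
    have h5 := Set.ncard_union_le {w | w ∈ Np G A Q a₁ ∧ w ∉ Hs G A Q a₁}
        (T ∩ Qi G A Q a₁ m ∪ T ∩ Xa G A Q a₁ m)
    have h6 := Set.ncard_union_le (T ∩ Qi G A Q a₁ m) (T ∩ Xa G A Q a₁ m)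
    have h7 : ({a₁} : Set V).ncard = 1 := Set.ncard_singleton a₁
    have h8 := q9_sub p2'
    omega
  -- the column
  obtain ⟨a, ⟨ha, haX⟩, hamin⟩ := q9_min (fun a => Np G A Q a)
    {a | a ∈ Lv G A Q ∧ h ≤ (T ∩ Xa G A Q a₁ a).ncard} ⟨m, hm, hXm⟩
  have haa₁ : a ≠ a₁ := by
    rintro rfl
    have h1 : T ∩ Xa G A Q a a = ∅ := by
      rw [Set.eq_empty_iff_forall_notMem]
      rintro v ⟨-, hv | hv | hv⟩
      · rcases q1 v hv.1 a ha hv.2.1 with h2 | h2
        · exact h2.2 (hmin v hv.1)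
        · exact h2.2 hv.2.2
      · exact hv.2 hv.1
      · exact hHs v hv.1 hv.2
    rw [h1, Set.ncard_empty] at haX
    omega
  have h1a : Np G A Q a₁ ⊂ Np G A Q a := by
    rcases q1 a₁ ha₁ a ha haa₁.symm with h1 | h1
    · exact h1
    · exact (h1.2 (hmin a ha)).elim
  have hTX : (T \ Xa G A Q a₁ a).ncard < h := by
    rcases hU _ (hQ3 V G A Q a₁ a hR ha₁ hmin ha) with h1 | h1
    · omega
    · exact h1
  obtain ⟨a', ⟨ha', haa⟩, hamax⟩ := q9_max (fun a => Np G A Q a)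
    {a' | a' ∈ Lv G A Q ∧ Np G A Q a' ⊂ Np G A Q a} ⟨a₁, ha₁, h1a⟩
  have hpre : ∀ c ∈ Lv G A Q, Np G A Q c ⊂ Np G A Q a → Np G A Q c ⊆ Np G A Q a' :=
    fun c hc hca => hminimal c hc a' ha' (hamax c ⟨hc, hca⟩)
  have hTX' : (T ∩ Xa G A Q a₁ a').ncard < h := by
    by_contra h1
    push Not at h1
    have h2 := hamin a' ⟨ha', h1⟩
    have h3 := Set.ncard_lt_ncard haa (Set.toFinite _)
    omega
  have hFH : T.ncard ≤ (T ∩ (Fa G A Q a' a ∪ Ha G A Q a₁ a' a)).ncard + 2 * (h - 1) + 1 := by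
    have h1 : T ⊆ (T \ Xa G A Q a₁ a) ∪ ((T ∩ Xa G A Q a₁ a') ∪
        ({a} ∪ (T ∩ (Fa G A Q a' a ∪ Ha G A Q a₁ a' a)))) := by
      intro v hv
      by_cases hvX : v ∈ Xa G A Q a₁ a
      · right
        rcases hvX with hvX | hvX | hvX
        · by_cases hva : v = a
          · exact Or.inr (Or.inl hva)
          · left
            refine ⟨hv, Or.inl ⟨hvX.1, hvX.2.1, ?_⟩⟩
            rcases q1 v hvX.1 a ha hva with h2 | h2
            · exact hpre v hvX.1 h2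
            · exact (h2.2 hvX.2.2).elim
        · by_cases hva : v ∈ Np G A Q a'
          · exact Or.inl ⟨hv, Or.inr (Or.inl ⟨hva, hvX.2⟩)⟩
          · exact Or.inr (Or.inr ⟨hv, Or.inl ⟨hvX.1, hva⟩⟩)
        · by_cases hva : Nn G A Q a₁ v ⊆ Np G A Q a'
          · exact Or.inl ⟨hv, Or.inr (Or.inr ⟨hvX.1, hva⟩)⟩
          · exact Or.inr (Or.inr ⟨hv, Or.inr ⟨hvX.1, hvX.2, hva⟩⟩)
      · exact Or.inl ⟨hv, hvX⟩
    have h2 := q9_le h1
    have h3 := Set.ncard_union_le (T \ Xa G A Q a₁ a) ((T ∩ Xa G A Q a₁ a') ∪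
        ({a} ∪ (T ∩ (Fa G A Q a' a ∪ Ha G A Q a₁ a' a))))
    have h4 := Set.ncard_union_le (T ∩ Xa G A Q a₁ a')
        ({a} ∪ (T ∩ (Fa G A Q a' a ∪ Ha G A Q a₁ a' a)))
    have h5 := Set.ncard_union_le {a} (T ∩ (Fa G A Q a' a ∪ Ha G A Q a₁ a' a))
    have h7 : ({a} : Set V).ncard = 1 := Set.ncard_singleton a
    omega
  by_cases haa' : a' = a₁
  · -- the second column
    subst haa'
    have h1 := hpiece _ _ (hQ5 V G A Q a' a hR ha' hmin ha haa₁ (fun c hc hca => by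
      by_contra h2
      rcases q1 c hc a' ha' h2 with h3 | h3
      · exact h3.2 (hmin c hc)
      · exact h3.2 (hpre c hc hca))) (by
        rintro v (hv | hv)
        · exact hv.1.1
        · exact hv.1.1.1) (by
        rintro (hv | hv)
        · exact hv.1.2.1 ha'
        · exact hHsL _ hv.1 ha')
    omega
  · -- the other columns
    obtain ⟨r1, r2, r3⟩ := hQ6 V G A Q a₁ a' a hR ha₁ hmin ha ha' haa' haa hpre
    have hF1 : ∀ S ⊆ Fa G A Q a' a, (T ∩ S).ncard ≤ 1 := by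
      intro S hS
      apply q9_sub
      intro u hu v hv
      by_contra huv
      exact r1 u (hS hu.2) v (hS hv.2) (hT u hu.1 v hv.1 huv)
    have hH : h ≤ (T ∩ Ha G A Q a₁ a' a).ncard := by
      have h1 := hF1 _ (Set.Subset.refl _)
      have h2 : T ∩ (Fa G A Q a' a ∪ Ha G A Q a₁ a' a) =
          (T ∩ Fa G A Q a' a) ∪ (T ∩ Ha G A Q a₁ a' a) := Set.inter_union_distrib_left _ _ _
      have h3 := Set.ncard_union_le (T ∩ Fa G A Q a' a) (T ∩ Ha G A Q a₁ a' a)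
      rw [h2] at hFH
      omega
    -- the levels in `Ha`
    let f : V → Set V := fun w => At G (Fa G A Q a' a) w
    have hnest : ∀ w ∈ Ha G A Q a₁ a' a, ∀ w' ∈ Ha G A Q a₁ a' a, (f w).ncard ≤ (f w').ncard →
        f w ⊆ f w' := by
      intro w hw w' hw' hle
      by_cases h1 : w = w'
      · rw [h1]
      · rcases r2 w hw w' hw' h1 with h2 | h2
        · exact h2.subset
        · have h3 := Set.ncard_lt_ncard h2 (Set.toFinite _)
          change (At G (Fa G A Q a' a) w).ncard ≤ (At G (Fa G A Q a' a) w').ncard at hle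
          omega
    let Y : V → Set V := fun w₀ => {w | w ∈ Ha G A Q a₁ a' a ∧ f w ⊆ f w₀}
    have hne : (Ha G A Q a₁ a' a).Nonempty := by
      by_contra h1
      rw [Set.not_nonempty_iff_eq_empty] at h1
      rw [h1, Set.inter_empty, Set.ncard_empty] at hH
      omega
    obtain ⟨wm, hwm, hwmax⟩ := q9_max f _ hne
    have hYm : Y wm = Ha G A Q a₁ a' a := by
      ext w
      exact ⟨fun hw => hw.1, fun hw => ⟨hw, hnest w hw wm hwm (hwmax w hw)⟩⟩
    obtain ⟨w₀, ⟨hw₀, hw₀T⟩, hw₀min⟩ := q9_min f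
      {w | w ∈ Ha G A Q a₁ a' a ∧ h ≤ (T ∩ Y w).ncard} ⟨wm, hwm, by rw [hYm]; exact hH⟩
    have hYle : (T ∩ Y w₀).ncard ≤ h := by
      let Z : Set V := {w | w ∈ Ha G A Q a₁ a' a ∧ f w ⊂ f w₀}
      have h1 : (T ∩ Z).ncard < h := by
        by_contra h1
        push Not at h1
        have hZne : Z.Nonempty := by
          by_contra h2
          rw [Set.not_nonempty_iff_eq_empty] at h2
          rw [h2, Set.inter_empty, Set.ncard_empty] at h1
          omega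
        obtain ⟨w₁, hw₁, hw₁max⟩ := q9_max f Z hZne
        have h2 : Z ⊆ Y w₁ := fun w hw => ⟨hw.1, hnest w hw.1 w₁ hw₁.1 (hw₁max w hw)⟩
        have h3 := q9_le (Set.inter_subset_inter_right T h2)
        have h4 := hw₀min w₁ ⟨hw₁.1, h1.trans h3⟩
        have h5 := Set.ncard_lt_ncard hw₁.2 (Set.toFinite _)
        omega
      have h2 : T ∩ Y w₀ ⊆ {w₀} ∪ (T ∩ Z) := by
        rintro w ⟨hwT, hw⟩
        by_cases h3 : w = w₀
        · exact Or.inl h3
        · right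
          refine ⟨hwT, hw.1, ?_⟩
          rcases r2 w hw.1 w₀ hw₀ h3 with h4 | h4
          · exact h4
          · exact (h4.2 hw.2).elim
      have h3 := q9_le h2
      have h4 := Set.ncard_union_le {w₀} (T ∩ Z)
      have h5 : ({w₀} : Set V).ncard = 1 := Set.ncard_singleton w₀
      omega
    have hXcr := r3 w₀ hw₀
    change cr G (Y w₀ ∪ At G (Fa G A Q a' a) w₀) ≤ 2 at hXcr
    have h1 : (T ∩ At G (Fa G A Q a' a) w₀).ncard ≤ 1 := hF1 _ (fun v hv => hv.1)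
    have h2 : T ∩ (Y w₀ ∪ At G (Fa G A Q a' a) w₀) =
        (T ∩ Y w₀) ∪ (T ∩ At G (Fa G A Q a' a) w₀) := Set.inter_union_distrib_left _ _ _
    have h3 := Set.ncard_union_le (T ∩ Y w₀) (T ∩ At G (Fa G A Q a' a) w₀)
    have h4 : (T ∩ Y w₀).ncard ≤ (T ∩ (Y w₀ ∪ At G (Fa G A Q a' a) w₀)).ncard := by
      rw [h2]
      exact q9_le Set.subset_union_left
    have h5 := hsplit (Y w₀ ∪ At G (Fa G A Q a' a) w₀)
    rw [← h2] at h3
    rcases hU _ (hXcr.trans (by norm_num)) with h6 | h6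
    · omega
    · omega

end Pool.Agent.MPd439b2.H3
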