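import Pool.Agent.Lib.MP_d439b2_co.H1M.Spec

/-!
# MP_d439b2_co, pair `(C_4, K3:0,01,12)` (helper7, new proof of note 2473)

`H3 = K3:0,01,12` is the triangle `0, 1, 2` with three more pairwise non-adjacent vertices `x ~ 0`, `y ~ 0, 1`,
`z ~ 1, 2`, the graph `KA 3 3 ![{0}, {0, 1}, {1, 2}]`: a gem (path `y, 0, 2, z` and its centre `1`) with a pendant
vertex `x` at the inner vertex `0` of the path.

Plan.  `T` is a clique which is not split in a balanced way by any cut of small rank (`Uns`).  A minimal piece of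
the graph (`Ret`, `S_Pc`) has no split and still contains such a clique.  Graphs without splits and without universal vertex:
take a simplicial vertex `x`, and the missed sets `Ms G (Nx G x) v` of the vertices `v` outside `N[x]`.
CASE I (the smallest simplicial `x`, no vertex misses all of `N(x)`): the graph is a co-matching.  CASE II (some vertex
misses all of `N(x)`): cuts of rank `3` reduce `T` to a rooted piece (`RPc`).  Rooted pieces are handled by induction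
(`S_Q9`).  The universal vertex is removed once (`S_Uni`, `S_Gam`, `S_Top`).

Every `S_...` is a statement to be proved in its own file; the docstring contains the complete
proof.  `a ~ b` means `G.Adj a b`, `a ≁ b` its negation, `|A|` is `A.ncard`, `Ms G S v` (`B/SpecG.lean`) is the set
of the elements of `S` not adjacent to `v`, `At G S v` the set of the elements of `S` adjacent to `v`.  The tasks are
independent: the statements that are used are hypotheses of the theorem.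

`M0: P0, P1, P2; X, Y, Z` means: apply `S_M0` with these sets; one has to check: the six sets are connected and
pairwise disjoint, `P0, P1, P2` touch pairwise, `X` touches `P0` and misses `P1, P2`; `Y` touches `P0, P1` and misses `P2`;
`Z` touches `P1, P2` and misses `P0`; `X, Y, Z` are pairwise not adjacent.
`M1: a, a', b, c; x, y, z` means: apply `S_M1` with these vertices (`P0 = {a, a'}`).
-/

set_option autoImplicit false

namespace Pool.Agent.MPd439b2.H3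

open Pool.Agent.MPd439b2 Pool.Agent.MPd439b2.LK

/-- chordal graphs without `K3:0,01,12` -/
def Cls3 {V : Type} (G : SimpleGraph V) : Prop :=
  Chd G ∧ ¬ IMS (KA 3 3 ![{0}, {0, 1}, {1, 2}]) G Set.univ

section

variable {V : Type} (G : SimpleGraph V)

/-- no cut of rank at most `c` has at least `h` elements of `T` on both sides -/
def Uns (T : Set V) (c h : ℕ) : Prop :=
  ∀ X : Set V, cr G X ≤ c → (T ∩ X).ncard < h ∨ (T \ X).ncard < h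

/-- every vertex of `Q` outside `M` is complete or anticomplete to `M` -/
def Hmg (Q M : Set V) : Prop :=
  ∀ v ∈ Q, v ∉ M → (∀ m ∈ M, G.Adj v m) ∨ ∀ m ∈ M, ¬ G.Adj v m

/-- the induced subgraph on `C` has no split -/
def SPo (C : Set V) : Prop := ∀ A ⊆ C, 2 ≤ A.ncard → 2 ≤ (C \ A).ncard →
  ¬ ∃ A₁ ⊆ A, ∃ B₁ ⊆ C \ A, ∀ a ∈ A, ∀ b ∈ C \ A, (G.Adj a b ↔ a ∈ A₁ ∧ b ∈ B₁)

/-- no homogeneous sets except for sets with at most one element and the whole vertex set -/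
def Prm : Prop := ∀ M : Set V, M ≠ Set.univ → Hmg G Set.univ M → M.Subsingleton

/-- there is no universal vertex -/
def NoU : Prop := ∀ u, ∃ w, w ≠ u ∧ ¬ G.Adj u w

/-- `C` is a piece of `G` with retraction `φ` and set `Φ` of full vertices -/
structure Ret (C : Set V) (φ : V → V) (Φ : Set V) : Prop where
  into : ∀ v, φ v ∈ C
  fix : ∀ c ∈ C, φ c = c
  full : C ⊆ Φ
  adj : ∀ z z', φ z ≠ φ z' → (G.Adj z z' ↔ z ∈ Φ ∧ z' ∈ Φ ∧ G.Adj (φ z) (φ z'))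

/-! ### rooted pieces -/

/-- the vertices of `Q` with a neighbour in `A` -/
def Lv (A Q : Set V) : Set V := {v | v ∈ Q ∧ ∃ a ∈ A, G.Adj a v}

/-- a rooted piece `Q` with root `A` -/
structure RPc (A Q : Set V) : Prop where
  conn : Conn G A
  dis : Disjoint A Q
  out : ∀ v, v ∉ Q → (∀ q ∈ Q, G.Adj v q) ∨ (∀ q ∈ Q, ¬ G.Adj v q) ∨
    ∀ q ∈ Q, (G.Adj v q ↔ q ∈ Lv G A Q)
  pp : ∀ R ⊆ Q, Conn G (A ∪ R) → ∀ w ∈ Q, ∀ y ∈ Q, ∀ z ∈ Q, w ∉ R → y ∉ R → z ∉ R → w ≠ y →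
    (∃ a ∈ A ∪ R, G.Adj a w) → (∃ a ∈ A ∪ R, G.Adj a y) → (∀ a ∈ A ∪ R, ¬ G.Adj a z) →
    G.Adj w z → G.Adj w y
  mf : ∀ M ⊆ Q, (M ⊆ Lv G A Q ∨ Disjoint M (Lv G A Q)) → Hmg G Q M → M.Subsingleton

/-- the neighbours of `a` in `Q` outside the first level -/
def Np (A Q : Set V) (a : V) : Set V := {w | w ∈ Q ∧ w ∉ Lv G A Q ∧ G.Adj a w}

/-- the vertices of `Np a₁` with a neighbour in `Q`, outside the first level and outside `Np a₁` -/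
def Hs (A Q : Set V) (a₁ : V) : Set V :=
  {w | w ∈ Np G A Q a₁ ∧ ∃ z ∈ Q, z ∉ Lv G A Q ∧ z ∉ Np G A Q a₁ ∧ G.Adj w z}

/-- the neighbours of `w` in `Q` outside the first level and outside `Np a₁` -/
def Nn (A Q : Set V) (a₁ w : V) : Set V :=
  {z | z ∈ Q ∧ z ∉ Lv G A Q ∧ z ∉ Np G A Q a₁ ∧ G.Adj w z}

/-- the columns up to `a` -/
def Xa (A Q : Set V) (a₁ a : V) : Set V :=
  {v | (v ∈ Lv G A Q ∧ v ≠ a₁ ∧ Np G A Q v ⊆ Np G A Q a) ∨ (v ∈ Np G A Q a ∧ v ∉ Np G A Q a₁) ∨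
    (v ∈ Hs G A Q a₁ ∧ Nn G A Q a₁ v ⊆ Np G A Q a)}

/-- the last piece (`m` is the element of the first level with the largest `Np m`) -/
def Qi (A Q : Set V) (a₁ m : V) : Set V :=
  {v | (v ∈ Hs G A Q a₁ ∧ ¬ Nn G A Q a₁ v ⊆ Np G A Q m) ∨
    (v ∈ Q ∧ v ∉ Lv G A Q ∧ v ∉ Np G A Q m)}

/-- the new part of the second level in the column of `a`, `a'` the predecessor of `a` -/
def Fa (A Q : Set V) (a' a : V) : Set V := {v | v ∈ Np G A Q a ∧ v ∉ Np G A Q a'}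

/-- the elements of `Hs` in the column of `a`, `a'` the predecessor of `a` -/
def Ha (A Q : Set V) (a₁ a' a : V) : Set V :=
  {v | v ∈ Hs G A Q a₁ ∧ Nn G A Q a₁ v ⊆ Np G A Q a ∧ ¬ Nn G A Q a₁ v ⊆ Np G A Q a'}

/-! ### a simplicial vertex -/

/-- the neighbours of `x` -/
def Nx (x : V) : Set V := {w | G.Adj x w}

/-- `x` is simplicial -/
def Smp (x : V) : Prop := CompleteOn G (Nx G x)

/-- the vertices outside `N[x]` -/
def Ox (x : V) : Set V := {v | v ≠ x ∧ ¬ G.Adj x v}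

/-- the vertices outside `N[x]` which miss all of `N(x)` -/
def O0 (x : V) : Set V := {v | v ∈ Ox G x ∧ ∀ s ∈ Nx G x, ¬ G.Adj v s}

/-- `a` is outside `N[x]` and its missed set is maximal -/
def MxI (x a : V) : Prop := a ∈ Ox G x ∧
  ∀ w ∈ Ox G x, Ms G (Nx G x) a ⊆ Ms G (Nx G x) w → Ms G (Nx G x) w ⊆ Ms G (Nx G x) a

/-- the setting of Case I -/
structure CI (x : V) : Prop where
  cls : Cls3 G
  prm : Prm G
  conn : Conn G Set.univ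
  nou : NoU G
  smp : Smp G x
  mini : ∀ y, Smp G y → (Nx G x).ncard ≤ (Nx G y).ncard
  o0 : ∀ v ∈ Ox G x, ∃ s ∈ Nx G x, G.Adj v s

/-- the structure in Case I: `B` is the common neighbourhood (outside `N[x]`) of the maximal vertices, `M₀` the common
part of their missed sets, `k a` the other element of the missed set of the maximal vertex `a` -/
structure CI2 (x : V) (B M₀ : Set V) (k : V → V) : Prop where
  ci : CI G x
  b1 : B ⊆ Ox G x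
  b2 : B.Nonempty
  b3 : ∀ a, MxI G x a → ∀ w ∈ Ox G x, (G.Adj a w ↔ w ∈ B)
  b4 : CompleteOn G B
  m1 : ∀ b ∈ B, Ms G (Nx G x) b = M₀
  m2 : ∀ a, MxI G x a → k a ∈ Nx G x ∧ k a ∉ M₀ ∧ Ms G (Nx G x) a = insert (k a) M₀
  m3 : ∀ a c, MxI G x a → MxI G x c → k a = k c → a = c
  m4 : ∀ v ∈ Ox G x, ¬ MxI G x v → Ms G (Nx G x) v ⊆ M₀
  m5 : ∀ s ∈ Nx G x, s ∈ M₀ ∨ ∃ a, MxI G x a ∧ s = k a
  m6 : M₀ ⊆ Nx G x
  two : ∃ a c, MxI G x a ∧ MxI G x c ∧ a ≠ c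

/-- `D` is a component of `G[O0 G x]` -/
def Cp (x : V) (D : Set V) : Prop := IsComp G (O0 G x) D

/-- `D` is a component of `G[O0 G x]` with maximal neighbourhood -/
def Mxl (x : V) (D : Set V) : Prop :=
  Cp G x D ∧ ∀ D', Cp G x D' → nb G D ⊆ nb G D' → nb G D' ⊆ nb G D

/-- `nb G D` and all components `D'` with `nb G D' ⊆ nb G D` -/
def MD (x : V) (D : Set V) : Set V :=
  {v | v ∈ nb G D ∨ ∃ D', Cp G x D' ∧ nb G D' ⊆ nb G D ∧ v ∈ D'}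

/-- the neighbours of `x` with a neighbour in `nb G D` -/
def S1 (x : V) (D : Set V) : Set V := {s | s ∈ Nx G x ∧ ∃ t ∈ nb G D, G.Adj t s}

/-- the cut below the level of `t` -/
def Xt (x : V) (D : Set V) (t : V) : Set V :=
  {v | (v ∈ nb G D ∧ At G (Nx G x) t ⊂ At G (Nx G x) v) ∨
    (∃ D', Cp G x D' ∧ nb G D' ⊆ nb G D ∧ v ∈ D' ∧
      ∃ t' ∈ nb G D', At G (Nx G x) t ⊂ At G (Nx G x) t') ∨
    (v ∈ S1 G x D ∧ ¬ G.Adj t v)}

/-- the level of `t` -/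
def Qt (x : V) (D : Set V) (t : V) : Set V :=
  {v | (v ∈ nb G D ∧ At G (Nx G x) v = At G (Nx G x) t) ∨
    ∃ D', Cp G x D' ∧ nb G D' ⊆ nb G D ∧ v ∈ D' ∧
      (∃ t' ∈ nb G D', At G (Nx G x) t' = At G (Nx G x) t) ∧
      ∀ t' ∈ nb G D', ¬ At G (Nx G x) t ⊂ At G (Nx G x) t'}

end

/-! ## models and rules -/

/-- **M0.** The general model.

Proof. `Sum.inl 0, 1, 2 ↦ P0, P1, P2`, `Sum.inr 0, 1, 2 ↦ X, Y, Z`. -/
def S_M0 : Prop := ∀ (V : Type) (G : SimpleGraph V) (P0 P1 P2 X Y Z : Set V), Conn G P0 →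
  Conn G P1 → Conn G P2 → Conn G X → Conn G Y → Conn G Z → Disjoint P0 P1 → Disjoint P0 P2 →
  Disjoint P1 P2 → Disjoint X P0 → Disjoint X P1 → Disjoint X P2 → Disjoint Y P0 → Disjoint Y P1 →
  Disjoint Y P2 → Disjoint Z P0 → Disjoint Z P1 → Disjoint Z P2 → Disjoint X Y → Disjoint X Z →
  Disjoint Y Z → Tch G P0 P1 → Tch G P0 P2 → Tch G P1 P2 → Tch G X P0 → ¬ Tch G X P1 →
  ¬ Tch G X P2 → Tch G Y P0 → Tch G Y P1 → ¬ Tch G Y P2 → Tch G Z P1 → Tch G Z P2 →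
  ¬ Tch G Z P0 → ¬ Tch G X Y → ¬ Tch G X Z → ¬ Tch G Y Z →
  IMS (KA 3 3 ![{0}, {0, 1}, {1, 2}]) G Set.univ

/-- **M1.** The vertex model, `0` is the set `{a, a'}` (one vertex if `a = a'`).  (Uses `S_M0`.)

Proof. M0 with `P0 = {a, a'}` and singletons.  Different vertices: `b ≠ a, a'`: `z ~ b`, `z ≁ a, a'`; `c ≠ a, a'`: `z ~ c`; `b ≠ c`
(adjacent); `x ≠ b`: `y ~ b`, `y ≁ x`; `x ≠ c`: `z ~ c`, `z ≁ x`; `y ≠ b` (adjacent); `y ≠ c`: `z ~ c`, `z ≁ y`; `z ≠ b, c` (adjacent); `x ≠ y`: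
`y ~ b`, `x ≁ b`; `x ≠ z`, `y ≠ z`: `z ~ c`, `x, y ≁ c`; `x`, `y`, `z` are different from `a`, `a'` by hypothesis. -/
def S_M1 : Prop := ∀ (V : Type) (G : SimpleGraph V) (a a' b c x y z : V), (a = a' ∨ G.Adj a a') →
  (G.Adj b a ∨ G.Adj b a') → (G.Adj c a ∨ G.Adj c a') → G.Adj b c → x ≠ a → x ≠ a' → y ≠ a →
  y ≠ a' → z ≠ a → z ≠ a' → (G.Adj x a ∨ G.Adj x a') → ¬ G.Adj x b → ¬ G.Adj x c →
  (G.Adj y a ∨ G.Adj y a') → G.Adj y b → ¬ G.Adj y c → G.Adj z b → G.Adj z c → ¬ G.Adj z a →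
  ¬ G.Adj z a' → ¬ G.Adj x y → ¬ G.Adj x z → ¬ G.Adj y z →
  IMS (KA 3 3 ![{0}, {0, 1}, {1, 2}]) G Set.univ

/-- **R0.** Missed sets of adjacent vertices are nested.  (Uses `H1M.S_B1`.)

Proof. Otherwise `p ∈ Ms u \ Ms w`, `r ∈ Ms w \ Ms u`; `w ~ p`, `w ≁ r`, `u ~ r`, `u ≁ p`: B1 says `w ≁ u`. -/
def S_R0 : Prop := ∀ (V : Type) (G : SimpleGraph V) (S : Set V) (u w : V), Chd G →
  CompleteOn G S → u ∉ S → w ∉ S → G.Adj u w → Ms G S u ⊆ Ms G S w ∨ Ms G S w ⊆ Ms G S u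

/-- **RE.** The rule (E).  (Uses `S_M1`.)

Proof. Write `M_v = Ms G S v`.  Suppose `p ∈ M_c \ M_a`, `r ∈ M_a \ M_c`.  `p ~ a`, `p ≁ c`, `p ~ b` (`M_b ⊆ M_a`), `r ≁ a`, `r ~ c`, `p ≠ r`.
FIRST CASE: some such `r` has `r ~ b`.  M1: `a = a' = r`, `b := p`, `c := b`; `x := c`, `y := x`, `z := a`.  (`r ~ p`, `r ~ b`, `p ~ b`; `c ~ r`, `c ≁ p, b`;
`x ~ r, p`, `x ≁ b`; `a ~ p, b`, `a ≁ r`; `c, x, a` are pairwise not adjacent.)
SECOND CASE: no `r ∈ M_a \ M_c` is adjacent to `b`.  There is `s ∈ M_a \ M_b`, `s ~ b`, `s ≁ a`; `s ∈ M_c` (otherwise `s` would be an `r`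
of the first case).  M1: `a := r`, `a' := s`, `b := p`, `c := b`; `x := c`, `y := x`, `z := a` (`r ~ s`; `b ~ s`; `c ~ r`; `a ≁ r, s`; `p ≠ s`: `p ~ a`). -/
def S_RE : Prop := ∀ (V : Type) (G : SimpleGraph V) (S : Set V) (x a b c : V), Cls3 G →
  CompleteOn G S → x ∉ S → (∀ s ∈ S, G.Adj x s) → a ∉ S → b ∉ S → c ∉ S → ¬ G.Adj x a →
  ¬ G.Adj x b → ¬ G.Adj x c → G.Adj a b → Ms G S b ⊆ Ms G S a → ¬ Ms G S a ⊆ Ms G S b →
  ¬ G.Adj c a → ¬ G.Adj c b → Ms G S c ⊆ Ms G S a ∨ Ms G S a ⊆ Ms G S c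

/-- **RP.** The rule (P).  (Uses `S_M1`, `H1.S_M2`.)

Proof. Suppose `t ∈ M_a`, `t ∈ M_c`, `t ∉ M_b` and `M_a ≠ M_c`.  The situation is symmetric in `a`, `c`, so let `u ∈ M_c \ M_a`: `u ~ a`, `u ≁ c`, `t ~ b`,
`t ≁ a, c`, `u ≠ t`.  `b ~ u`: otherwise M2 for `a, b, t, u` (`a ~ b`, `b ~ t`, `t ~ u`, `u ~ a`; `a ≠ t`, `b ≠ u`) gives `a ~ t` or `b ~ u`.
M1: `a = a' = b`, `b := u`, `c := t`; `x := c`, `y := a`, `z := x`.  (`b ~ u, t`, `u ~ t`; `c ~ b`, `c ≁ u, t`; `a ~ b, u`, `a ≁ t`; `x ~ u, t`, `x ≁ b`.) -/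
def S_RP : Prop := ∀ (V : Type) (G : SimpleGraph V) (S : Set V) (x a b c : V), Cls3 G →
  CompleteOn G S → x ∉ S → (∀ s ∈ S, G.Adj x s) → a ∉ S → b ∉ S → c ∉ S → ¬ G.Adj x a →
  ¬ G.Adj x b → ¬ G.Adj x c → G.Adj a b → G.Adj b c → ¬ G.Adj a c → a ≠ c →
  Ms G S a ∩ Ms G S c ⊆ Ms G S b ∨ Ms G S a = Ms G S c

/-! ## splits, pieces -/

/-- **Pr.** No splits: no homogeneous sets, connected.

Proof. (1) Let `M ≠ univ` be homogeneous with at least two elements.  If `|univ \ M| ≥ 2` then `A = M`, `A₁ = M`, `B₁ = {v ∉ M | v` complete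
to `M}` is a split.  Otherwise `univ \ M = {v}`; `v` is complete to `M` (universal vertex, contradiction to `NoU`) or anticomplete; in the
second case let `w ∈ M`: `A = {v, w}`, `A₁ = {w}`, `B₁ = {u ∉ A | u ~ w}` is a split (`|V| ≥ 4`).
(2) follows from (3) (3 ≤ 4).
(3) Let `v` be a vertex, `C` its component in `G[univ]` (`exists_comp`), suppose `C ≠ univ`.  `C` is homogeneous (anticomplete outside), so
`C = {v}`; then `univ \ {v}` is homogeneous (`v` is anticomplete to it), with at least two elements: contradiction to `Prm`.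
(`|V| ≥ 3`.) -/
def S_Pr : Prop := ∀ (V : Type) [Finite V] (G : SimpleGraph V),
  (SPo G Set.univ → 4 ≤ Nat.card V → NoU G → Prm G) ∧
  (SPo G Set.univ → 4 ≤ Nat.card V → NoU G → Conn G Set.univ) ∧
  (Prm G → 3 ≤ Nat.card V → Conn G Set.univ)

/-- **Sm.** Simplicial vertices.  (Uses `S_A7`.)

Proof. Strong induction on `|D|`.  A7 with `A = nb G D`, `C = D` gives `y ∈ D` complete to `nb G D`.  If `D = {y}` then `Nx G y = nb G D`: `z = y`.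
Otherwise let `D'` be a component of `G[D \ {y}]` (`exists_comp`).  `nb G D' ⊆ insert y (nb G D)` is a clique, `|D'| < |D|`. -/
def S_Sm : Prop := ∀ (V : Type) [Finite V] (G : SimpleGraph V) (D : Set V), Chd G → Conn G D →
  CompleteOn G (nb G D) → ∃ z ∈ D, Smp G z

/-- **Rt.** The rank of a lifted cut.

Proof. Let `X = φ ⁻¹' X'`.  The rows of `X` on `Xᶜ = φ ⁻¹' X'ᶜ`: if `z ∈ X`, `z ∉ Φ` the row is zero.  If `z ∈ X ∩ Φ` then for `z' ∉ X` (so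
`φ z' ∈ C \ X'`, `φ z' ≠ φ z`) the entry is `1` iff `z' ∈ Φ` and `φ z ~ φ z'`: it is the image of the row `row G (C \ X') (φ z)` under the linear
map `F` with `(F r) z' = r (φ z')` for `z' ∈ Xᶜ ∩ Φ` and `0` otherwise.  So the span of the rows of `X` is contained in the image under
`F` of the span of the rows of `X'`. -/
def S_Rt : Prop := ∀ (V : Type) [Finite V] (G : SimpleGraph V) (C Φ X' : Set V) (φ : V → V),
  Ret G C φ Φ → X' ⊆ C → cr G (φ ⁻¹' X') ≤ rk G X' (C \ X')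

/-- **Pc.** Minimal pieces.  (Uses `S_A1`, `S_Rt`.)

Proof. Consider all `C, φ, Φ` with `Ret G C φ Φ` and `|T ∩ φ ⁻¹' {c}| < h` for all `c ∈ C`; `C = univ`, `φ = id`, `Φ = univ` is one of them
(`h ≥ 2`).  Choose one with `|C|` minimal.  Suppose that `G[C]` has a split `A`, `B = C \ A` with `A₁`, `B₁`.  `rk G B A ≤ 1` (A1 (5)), so
`cr G (φ ⁻¹' B) ≤ 1` (Rt), and the complement of `φ ⁻¹' B` is `φ ⁻¹' A`.  By `Uns` one of `T ∩ φ ⁻¹' A`, `T ∩ φ ⁻¹' B` has fewer than `h`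
elements; the situation is symmetric in `A` and `B` (`|A|, |B| ≥ 2`), let it be `B`.  We construct a smaller piece `C' = A ∪ {b}`, `b ∈ B`:
`φ' z = φ z` if `φ z ∈ A` and `φ' z = b` otherwise.
If `B₁` is not empty let `b ∈ B₁` and `Φ' = {z ∈ Φ | φ z ∈ A` or `φ z ∈ B₁}`.  For `φ z ∈ A`, `φ z' ∈ B`: `z ~ z'` iff `z, z' ∈ Φ`, `φ z ∈ A₁`, `φ z' ∈ B₁`, iff
`z, z' ∈ Φ'`, `φ z ~ b`.
If `B₁` is empty let `b ∈ B` be arbitrary and `Φ' = {z ∈ Φ | φ z ∈ A} ∪ {b}`; there are no edges between `φ ⁻¹' A` and `φ ⁻¹' B`.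
The fibre of `b` is `φ ⁻¹' B`, it has fewer than `h` elements of `T`.  `|C'| = |A| + 1 < |C|`: contradiction. -/
def S_Pc : Prop := ∀ (V : Type) [Finite V] (G : SimpleGraph V) (T : Set V) (h : ℕ), 2 ≤ h →
  Uns G T 1 h → ∃ (C Φ : Set V) (φ : V → V), Ret G C φ Φ ∧
    (∀ c ∈ C, (T ∩ φ ⁻¹' {c}).ncard < h) ∧ SPo G C

/-- **In.** Induced subgraphs.

Proof. (1) A model in `G.induce C` becomes a model in `G` (images under `Subtype.val`), for `cyc4` and for `H3`.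
(2) The entries of the two matrices are the same: the linear map `(V → ZMod 2) → (C → ZMod 2)`, restriction, maps
`row G (C \ X) v` to `row (G.induce C) Xᶜ v` and is injective on the vectors which vanish outside `C`.
(3) Images under `Subtype.val`.  (4) `rk G X Xᶜ ≤ rk G X (Xᶜ \ {u}) + rk G X {u}`. -/
def S_In : Prop := ∀ (V : Type) [Finite V] (G : SimpleGraph V) (C : Set V),
  (Cls3 G → Cls3 (G.induce C)) ∧
  (∀ X : Set C, cr (G.induce C) X = rk G (Subtype.val '' X) (C \ (Subtype.val '' X))) ∧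
  (SPo G C → SPo (G.induce C) Set.univ) ∧
  ∀ (X : Set V) (u : V), cr G X ≤ rk G X (Xᶜ \ {u}) + 1

/-- **Tp.** The clique in the piece.  (Uses `S_Rt`, `S_In`.)

Proof. `T' = {c | (T ∩ φ ⁻¹' {c}).Nonempty}`.  Clique: for different `c, c' ∈ T'` take `t, t' ∈ T` with `φ t = c`, `φ t' = c'`; `t ≠ t'`, `t ~ t'`, so `c ~ c'`
(`Ret.adj`).  `T` is the disjoint union of the sets `T ∩ φ ⁻¹' {c}`, `c ∈ T'`, so `|T| ≤ |T'| * h`.  Let `X'` be a cut of `G.induce C`, rank at most `c`;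
its image `X''` in `C` has `cr G (φ ⁻¹' X'') ≤ c` (Rt, In (2)), and `|T ∩ φ ⁻¹' X''| ≥ |T' ∩ X'|` (choose an element of `T` in every
fibre), `|T \ φ ⁻¹' X''| ≥ |T' \ X'|`. -/
def S_Tp : Prop := ∀ (V : Type) [Finite V] (G : SimpleGraph V) (T C Φ : Set V) (φ : V → V)
  (c h : ℕ), CompleteOn G T → Uns G T c h → Ret G C φ Φ → (∀ c ∈ C, (T ∩ φ ⁻¹' {c}).ncard < h) →
  ∃ T' : Set C, CompleteOn (G.induce C) T' ∧ Uns (G.induce C) T' c h ∧ T.ncard ≤ T'.ncard * h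

/-! ## rooted pieces -/

/-- **Q0.** A rooted piece has cut-rank at most `2`.  (Uses `S_A1`.)

Proof. `cr G Q = rk G Qᶜ Q` (A1 (1)).  `Qᶜ = W₁ ∪ W₂`, `W₁` = the vertices complete or anticomplete to `Q`, `W₂` = those whose neighbours in
`Q` are exactly `Lv G A Q`: `rk ≤ 1 + 1` (A1 (3), (5)). -/
def S_Q0 : Prop := ∀ (V : Type) [Finite V] (G : SimpleGraph V) (A Q : Set V), RPc G A Q → cr G Q ≤ 2

/-- **Q1.** The first level is a clique with nested neighbourhoods.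

Proof. Let `L = Lv G A Q`.  (0) If `w ∈ L` has a neighbour `z ∈ Q \ L` then `w` is complete to `L \ {w}`: `pp` with `R = ∅` (`z` has no neighbour in
`A`).  (1) The set `L'` of the vertices of `L` without neighbour in `Q \ L` is homogeneous in `Q` (`L \ L'` is complete to it by (0)), so it has at
most one element (`mf`).  So `L` is a clique: of two different elements one is not in `L'`.
(2) Let `a ≠ a'` be in `L`.  Nested: suppose `z ∈ Np a' \ Np a`, `z' ∈ Np a \ Np a'`.  `pp` with `R = {a}` (`A ∪ {a}` is connected), `w = a'`, `y = z'`, `z`: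
`a' ~ z'`, contradiction.  Different: if `Np a = Np a'` then `{a, a'}` is homogeneous in `Q`: contradiction to `mf`.
(3) `pp` with `R = {a}`: `w ~ a`, `z ≁ a`, `z` has no neighbour in `A`; `y` is an element of `L` (adjacent to `A`) or of `Np a`. -/
def S_Q1 : Prop := ∀ (V : Type) [Finite V] (G : SimpleGraph V) (A Q : Set V), RPc G A Q →
  CompleteOn G (Lv G A Q) ∧
  (∀ a ∈ Lv G A Q, ∀ a' ∈ Lv G A Q, a ≠ a' → Np G A Q a ⊂ Np G A Q a' ∨ Np G A Q a' ⊂ Np G A Q a) ∧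
  ∀ a ∈ Lv G A Q, ∀ w ∈ Np G A Q a, (∃ z ∈ Q, z ∉ Lv G A Q ∧ ¬ G.Adj a z ∧ G.Adj w z) →
    (∀ a' ∈ Lv G A Q, G.Adj w a') ∧ ∀ f ∈ Np G A Q a, f ≠ w → G.Adj w f

/-- **Q2.** The second level.  (Uses `S_Q1`.)

Proof. Let `L = Lv G A Q`, `F₁ = Np a₁`.  (1) Q1 (3) with `a = a₁`.  (2) Let `N₁ = {w ∈ F₁ | w ∉ Hs}`.  `w ∈ N₁` has no neighbour in `Q \ L \ F₁`.
`w` is complete to `L` (`F₁ ⊆ Np a` for all `a ∈ L`) and to `Hs` (by (1)); so `N₁` is homogeneous in `Q` and disjoint from `L`: `mf`.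
(3) `f ∉ F₁`, `f ~ a`, suppose `f ~ z`, `z ∈ Q \ L`, `z ≁ a`: Q1 (3) gives `f ~ a₁`, `f ∈ F₁`: contradiction.  (4) `w ∈ Hs ⊆ F₁ ⊆ Np a`; there is `z ∈ Nn w`,
`z ∉ Np a`, so `z ≁ a`: Q1 (3). -/
def S_Q2 : Prop := ∀ (V : Type) [Finite V] (G : SimpleGraph V) (A Q : Set V) (a₁ : V), RPc G A Q →
  a₁ ∈ Lv G A Q → (∀ a ∈ Lv G A Q, Np G A Q a₁ ⊆ Np G A Q a) →
  (∀ w ∈ Hs G A Q a₁, (∀ a ∈ Lv G A Q, G.Adj w a) ∧ ∀ f ∈ Np G A Q a₁, f ≠ w → G.Adj w f) ∧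
  ({w | w ∈ Np G A Q a₁ ∧ w ∉ Hs G A Q a₁}.Subsingleton ∧
    ∀ w ∈ Np G A Q a₁, w ∉ Hs G A Q a₁ → (∀ a ∈ Lv G A Q, G.Adj w a) ∧
      (∀ v ∈ Hs G A Q a₁, G.Adj w v) ∧
      ∀ z ∈ Q, z ∉ Lv G A Q → z ∉ Np G A Q a₁ → ¬ G.Adj w z) ∧
  (∀ a ∈ Lv G A Q, ∀ f ∈ Np G A Q a, f ∉ Np G A Q a₁ → ∀ z ∈ Q, z ∉ Lv G A Q → G.Adj f z →
    z ∈ Np G A Q a) ∧
  ∀ a ∈ Lv G A Q, ∀ w ∈ Hs G A Q a₁, ¬ Nn G A Q a₁ w ⊆ Np G A Q a → ∀ f ∈ Np G A Q a, f ≠ w →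
    G.Adj w f

/-- **Q3.** The cuts between the columns have rank at most `5`.  (Uses `S_A1`, `S_Q1`, `S_Q2`.)

Proof. Let `L = Lv G A Q`, `F₁ = Np a₁`, `X = Xa a ⊆ Q`.  `Xᶜ = Qᶜ ∪ {a₁} ∪ N₁ ∪ C₁ ∪ C₀` with `N₁ = F₁ \ Hs` (at most one element, Q2 (2)),
`C₁ = {a' ∈ L | a' ≠ a₁, ¬ Np a' ⊆ Np a} ∪ {w ∈ Hs | ¬ Nn w ⊆ Np a}`, `C₀ = {z ∈ Q \ L | z ∉ F₁, z ∉ Np a}`.
The vertices of `X` are complete to `C₁` and anticomplete to `C₀`: `a' ∈ X ∩ L`: `L` is a clique, `Hs` is complete to `L` (Q2 (1)), `Np a' ⊆ Np a`.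
`f ∈ Np a \ F₁`: `a'' ∈ C₁ ∩ L` has `Np a ⊆ Np a''` (Q1 (2)), so `f ~ a''`; `w ∈ C₁ ∩ Hs` is complete to `Np a` (Q2 (4)); nothing in `C₀` by Q2 (3).
`w ∈ Hs`, `Nn w ⊆ Np a`: complete to `L` and to `Hs \ {w}` (Q2 (1)), nothing in `C₀`.
So `rk G X (C₁ ∪ C₀) ≤ 1` (A1 (5)), `rk G X ({a₁} ∪ N₁) ≤ 2` (A1 (1), (4)), and `rk G X Qᶜ = rk G Qᶜ X ≤ 2`: a vertex outside `Q` sees all of `X`, nothing, or
exactly `X ∩ L` (`out`).  Sum: `5` (A1 (3) for the columns by A1 (1)). -/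
def S_Q3 : Prop := ∀ (V : Type) [Finite V] (G : SimpleGraph V) (A Q : Set V) (a₁ a : V), RPc G A Q →
  a₁ ∈ Lv G A Q → (∀ a ∈ Lv G A Q, Np G A Q a₁ ⊆ Np G A Q a) → a ∈ Lv G A Q →
  cr G (Xa G A Q a₁ a) ≤ 5

/-- **Q4.** The last piece.  (Uses `S_Q1`, `S_Q2`.)

Proof. `A' = insert a₁ A` is connected (`a₁ ∈ L`), `Q' = Qi a₁ m ⊆ Q \ L` (`Hs ⊆ Np a₁` is disjoint from `L`), `a₁ ∉ Q'`.
`L' = Lv G A' Q'` is `Hs ∩ Q'`: elements of `Hs` are adjacent to `a₁`; `v ∈ Q \ L`, `v ∉ Np m ⊇ Np a₁` has no neighbour in `A` and is not adjacent to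
`a₁`.
`out`: `v ∉ Q'`.  If `v ∉ Q`: by `out` for `Q` (`Q' ⊆ Q`, `Q' ∩ L = ∅`) complete or anticomplete.  `v ∈ L`: complete to `Hs` (Q2 (1)), not adjacent to
elements outside `Np m` (`Np v ⊆ Np m`): exactly `L'`.  `v ∈ Np a₁ \ Hs`: Q2 (2): exactly `L'`.  `v ∈ Hs`, `Nn v ⊆ Np m`: complete to `L'` (Q2 (1)), the
elements of `Q'` outside `Hs` are not in `Np m ⊇ Np a₁`, so a neighbour among them would be in `Nn v ⊆ Np m`: exactly `L'`.
`v ∈ Np m \ Np a₁`: complete to `L'` (Q2 (4), `a = m`), nothing else by Q2 (3): exactly `L'`.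
`pp`: for `R ⊆ Q'` use `pp` of `Q` with `insert a₁ R` (`A' ∪ R = A ∪ insert a₁ R`; `w, y, z ≠ a₁`).
`mf`: `M ⊆ Q'`, `M ⊆ L'` or `M` disjoint from `L'`, homogeneous in `Q'`: then homogeneous in `Q` (a vertex of `Q \ Q'` sees in `Q'` everything, nothing or
exactly `L'`), and disjoint from `L`: `mf` of `Q`. -/
def S_Q4 : Prop := ∀ (V : Type) [Finite V] (G : SimpleGraph V) (A Q : Set V) (a₁ m : V), RPc G A Q →
  a₁ ∈ Lv G A Q → (∀ a ∈ Lv G A Q, Np G A Q a₁ ⊆ Np G A Q a) → m ∈ Lv G A Q →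
  (∀ a ∈ Lv G A Q, Np G A Q a ⊆ Np G A Q m) → RPc G (insert a₁ A) (Qi G A Q a₁ m)

/-- **Q5.** The piece in the second column.  (Uses `S_Q1`, `S_Q2`.)

Proof. `L = Lv G A Q`, `A' = insert a₁ A`, `Q' = Fa a₁ a ∪ Ha a₁ a₁ a ⊆ Q \ L`.  `L' = Lv G A' Q' = Ha`: elements of `Hs` are adjacent to `a₁`, elements of `Fa` are
not, and `Q \ L` has no neighbours in `A`.
`out`: `v ∉ Q'`.  `v ∉ Q`: complete or anticomplete (`out` of `Q`, `Q' ∩ L = ∅`).  `v = a₁`: exactly `L'`.  `v ∈ L`, `v ≠ a₁`: `Np v ⊇ Np a` (Q1 (2) and the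
hypothesis: `Np v ⊂ Np a` is impossible for `v ≠ a₁` since `Np a₁ ⊂ Np v`), so `v` is complete to `Fa`, and to `Hs` by Q2 (1): everything.
`v ∈ Np a₁ \ Hs`: Q2 (2): exactly `L'`.  `v ∈ Hs`, `v ∉ Q'`: `¬ Nn v ⊆ Np a₁` always (`v ∈ Hs` has a neighbour outside), so `¬ Nn v ⊆ Np a`: complete to `Np a`
(Q2 (4)) and `Ha ⊆ Np a₁ ⊆ Np a`: everything.  `v ∈ Q \ L`, `v ∉ Np a₁`, `v ∉ Np a` (the elements of `Np a \ Np a₁` are in `Q'`): a neighbour in `Fa` would have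
all its neighbours of `Q \ L` in `Np a` (Q2 (3)), and `Nn w ⊆ Np a` for `w ∈ Ha`: nothing.
`pp`, `mf` as in Q4. -/
def S_Q5 : Prop := ∀ (V : Type) [Finite V] (G : SimpleGraph V) (A Q : Set V) (a₁ a : V), RPc G A Q →
  a₁ ∈ Lv G A Q → (∀ a ∈ Lv G A Q, Np G A Q a₁ ⊆ Np G A Q a) → a ∈ Lv G A Q → a ≠ a₁ →
  (∀ a' ∈ Lv G A Q, Np G A Q a' ⊂ Np G A Q a → a' = a₁) →
  RPc G (insert a₁ A) (Fa G A Q a₁ a ∪ Ha G A Q a₁ a₁ a)

/-- **Q6.** The other columns.  (Uses `S_A1`, `S_Q1`, `S_Q2`.)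

Proof. `L = Lv G A Q`; `a' ≠ a₁` is the predecessor of `a`; `F = Fa a' a`, `H = Ha a₁ a' a`.  `F ⊆ Q \ L`, `F` is disjoint from `Np a' ⊇ Np a₁`.
(i) Nested: let `w ≠ w'` be in `H`, `z ∈ At F w' \ At F w`, `y ∈ At F w \ At F w'`.  `pp` with `R = {a₁, w}` (`A ∪ {a₁, w}` is connected), `w := w'` (adjacent to `a₁`),
`y` (adjacent to `w`), `z` (not adjacent to `A`, `a₁`, `w`): `w' ~ y`, contradiction.
(ii) Let `w ∈ H`, `f ~ f'` in `F`, `f ~ w`, `f' ≁ w`.  `pp` with `R = {a₁, w}`, `w := f`, `z := f'`, `y := a'` (adjacent to `A`): `f ~ a'`, contradiction to `f ∉ Np a'`.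
(iii) Every component `E` of `G[F]` is homogeneous in `Q`: `v ∈ L`: `Np v ⊇ Np a` (complete to `F`) or `Np v ⊂ Np a`, then `Np v ⊆ Np a'` (hypothesis)
(anticomplete).  `v ∈ Np a₁ \ Hs`: anticomplete (Q2 (2)).  `v ∈ Hs`: `¬ Nn v ⊆ Np a`: complete to `Np a` (Q2 (4)); `Nn v ⊆ Np a'`: anticomplete to `F`;
otherwise `v ∈ H`: (ii) and connectivity.  `v ∈ Q \ L \ Np a₁`, `v ∉ F`: `v ∈ Np a'`: its neighbours in `Q \ L` are in `Np a'` (Q2 (3)): anticomplete;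
`v ∉ Np a`: anticomplete (Q2 (3) for the elements of `F`).  So `|E| ≤ 1` (`mf`): `F` is independent.
(iv) Let `w ≠ w'` be in `H` with `At F w = At F w'`; `{w, w'}` is homogeneous in `Q`: both see `L`, `Np a₁`, `Np a' \ Np a₁` (Q2 (4) for `a'`) completely, the
same part of `F`, and nothing else (`Nn w ⊆ Np a`): contradiction to `mf`.  With (i): `⊂` or `⊃`.
(v) `X = {w ∈ H | At F w ⊆ At F w₀} ∪ At F w₀`.  The vertices `w ∈ X ∩ H` see in `Xᶜ ∩ Q` exactly `L`, `Np a₁ \ X`, `Np a' \ Np a₁` (nothing of `F \ At F w₀`); the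
vertices `f ∈ At F w₀` see in `Xᶜ ∩ Q` exactly the `v ∈ L` with `Np a ⊆ Np v`, the `w ∈ H \ X` (`At F w ⊄ At F w₀`, so `At F w₀ ⊂ At F w ∋ f` by (iv)) and the
`w ∈ Hs` with `¬ Nn w ⊆ Np a`.  Outside `Q` all vertices of `X` (`X ⊆ Q \ L`) have the same neighbours (`out`).  So two rows: `cr G X ≤ 2` (A1 (3), (5)). -/
def S_Q6 : Prop := ∀ (V : Type) [Finite V] (G : SimpleGraph V) (A Q : Set V) (a₁ a' a : V),
  RPc G A Q → a₁ ∈ Lv G A Q → (∀ a ∈ Lv G A Q, Np G A Q a₁ ⊆ Np G A Q a) → a ∈ Lv G A Q →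
  a' ∈ Lv G A Q → a' ≠ a₁ → Np G A Q a' ⊂ Np G A Q a →
  (∀ c ∈ Lv G A Q, Np G A Q c ⊂ Np G A Q a → Np G A Q c ⊆ Np G A Q a') →
  (∀ f ∈ Fa G A Q a' a, ∀ f' ∈ Fa G A Q a' a, ¬ G.Adj f f') ∧
  (∀ w ∈ Ha G A Q a₁ a' a, ∀ w' ∈ Ha G A Q a₁ a' a, w ≠ w' →
    At G (Fa G A Q a' a) w ⊂ At G (Fa G A Q a' a) w' ∨
      At G (Fa G A Q a' a) w' ⊂ At G (Fa G A Q a' a) w) ∧
  ∀ w₀ ∈ Ha G A Q a₁ a' a, cr G ({w | w ∈ Ha G A Q a₁ a' a ∧
    At G (Fa G A Q a' a) w ⊆ At G (Fa G A Q a' a) w₀} ∪ At G (Fa G A Q a' a) w₀) ≤ 2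

/-- **Q9.** Rooted pieces do not contain almost all of an unsplittable clique.  (Uses `S_Q0`, `S_Q1`, `S_Q2`,
`S_Q3`, `S_Q4`, `S_Q5`, `S_Q6`.)

Proof. Strong induction on `|Q|`; suppose `|T \ Q| < h`.  `L = Lv G A Q`.
If `L = ∅` then `mf` for `M = Q` gives `|Q| ≤ 1`, `|T| ≤ h`: contradiction.  So let `a₁ ∈ L` with `Np a₁` minimal and `m ∈ L` with `Np m` maximal (Q1 (2)).
`Q = {a₁} ∪ N₁ ∪ Qi a₁ m ∪ Xa a₁ m` with `N₁ = Np a₁ \ Hs`, `|N₁| ≤ 1` (Q2 (2)).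
(∞) If `|T ∩ Qi| ≥ h` then `|T \ Qi| < h` (`Uns`, Q4, Q0: `cr ≤ 2`), and the induction hypothesis for `Qi` (it does not contain `a₁`) gives a
contradiction.  So `|T ∩ Qi| < h`, `|T ∩ Xa m| ≥ |T| - (h - 1) - 2 - (h - 1) ≥ h`.
Let `a ∈ L` with `|T ∩ Xa a| ≥ h` and `Np a` minimal.  `a ≠ a₁` (`Xa a₁ = ∅`: `v ∈ Hs` has a neighbour outside `Np a₁`, so `Nn v` is not contained in it; for `v ∈ L`,
`v ≠ a₁`, `Np a₁ ⊂ Np v`).  `|T \ Xa a| < h` (Q3, `Uns`).  Let `a' ∈ L`, `Np a' ⊂ Np a`, with `Np a'` maximal (`a₁` is such an element); `|T ∩ Xa a'| < h`.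
`Xa a \ Xa a' = {a} ∪ Fa a' a ∪ Ha a₁ a' a` (an element `v ∈ L` with `Np v ⊆ Np a` is `a` or has `Np v ⊆ Np a'`), so
`|T ∩ (Fa ∪ Ha)| ≥ |T| - 2 (h - 1) - 1`.
`a' = a₁`: Q5, Q0, `Uns`: `|T \ (Fa ∪ Ha)| < h`, induction hypothesis (`a₁` is not in it): contradiction.
`a' ≠ a₁`: Q6.  `|T ∩ Fa| ≤ 1` (`T` is a clique), so `|T ∩ Ha| ≥ |T| - 2 h ≥ h`.  Let `w₀ ∈ Ha` with `|T ∩ {w ∈ Ha | At w ⊆ At w₀}| ≥ h` and `At w₀` minimal; then
this number is `h` (without `w₀` it is the set for the predecessor of `w₀`, or empty; Q6 (2)).  The set `X` of Q6 (3) has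
`h ≤ |T ∩ X| ≤ h + 1` and `|T \ X| ≥ |T| - h - 1 ≥ h`: contradiction to `Uns`. -/
def S_Q9 : Prop := ∀ (V : Type) [Finite V] (G : SimpleGraph V) (T : Set V) (h : ℕ),
  CompleteOn G T → Uns G T 5 h → 1 ≤ h → 4 * h + 8 ≤ T.ncard → ∀ A Q, RPc G A Q →
    h ≤ (T \ Q).ncard

/-! ## Case I -/

/-- **I1.** First facts.

Proof. (1) Suppose that `v ∈ Ox` has no neighbour in `Ox`: `Nx G v ⊆ Nx G x`, so `v` is simplicial, and by `mini` `Nx G v = Nx G x`.  `{x, v}` is homogeneous and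
not `univ` (`o0`), contradiction to `prm`.  (2) `NoU` for `x`.  (3) Finite.
(4) Suppose that all maximal vertices have the missed set `M = Ms a`.  `a` sees some `s ∈ Nx G x` (`o0`), `s ∉ M`; by (3) all `v ∈ Ox` see `s`, so `s` is universal (`smp`,
`s ~ x`): contradiction to `NoU`. -/
def S_I1 : Prop := ∀ (V : Type) [Finite V] (G : SimpleGraph V) (x : V), CI G x →
  (∀ v ∈ Ox G x, ∃ w ∈ Ox G x, G.Adj v w) ∧ (Ox G x).Nonempty ∧
  (∀ v ∈ Ox G x, ∃ a, MxI G x a ∧ Ms G (Nx G x) v ⊆ Ms G (Nx G x) a) ∧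
  ∀ a, MxI G x a → ∃ c, MxI G x c ∧ Ms G (Nx G x) c ≠ Ms G (Nx G x) a

/-- **I2.** Drops.  (Uses `S_R0`, `H1M.S_B1`, `S_RE`, `S_RP`, `S_M1`.)

Proof. Write `M_v = Ms G (Nx G x) v`; all rules are used with `S = Nx G x` and the vertex `x`.  (1) `a ≁ c` by B1 (incomparable).  If `c ≁ b` then RE gives that
`M_c`, `M_a` are comparable, contradiction; so `c ~ b`.  `M_b`, `M_c` are nested (R0); `M_c ⊆ M_b ⊆ M_a` is impossible, so `M_b ⊆ M_c`.  RP for `a, b, c`: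
`M_a ∩ M_c ⊆ M_b` (`M_a ≠ M_c`).  So `M_b = M_a ∩ M_c`.
(2) Suppose `a' ≁ b`.  `p ∈ M_c \ M_a`, `r ∈ M_a \ M_c`.  `p ~ a, a', b`, `p ≁ c`; `r ≁ a, a'`, `r ~ c`, `r ~ b` (`r ∉ M_b` by (1)).  `a' ≁ c` (B1).
M1: `a := b`, `a' := r`, `b := p`, `c := a`; `x := c`, `y := x`, `z := a'`.  (`b ~ r`; `p ~ b`; `a ~ b`; `p ~ a`; `c ~ b`, `c ≁ p, a`; `x ~ r`, `x ~ p`, `x ≁ a`; `a' ~ p, a`,
`a' ≁ b, r`; `c, x, a'` pairwise not adjacent.) -/
def S_I2 : Prop := ∀ (V : Type) [Finite V] (G : SimpleGraph V) (x a b c : V), Cls3 G → Smp G x →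
  a ∈ Ox G x → b ∈ Ox G x → c ∈ Ox G x → G.Adj a b → Ms G (Nx G x) b ⊆ Ms G (Nx G x) a →
  ¬ Ms G (Nx G x) a ⊆ Ms G (Nx G x) b → ¬ Ms G (Nx G x) a ⊆ Ms G (Nx G x) c →
  ¬ Ms G (Nx G x) c ⊆ Ms G (Nx G x) a →
  (¬ G.Adj a c ∧ G.Adj c b ∧ Ms G (Nx G x) b = Ms G (Nx G x) a ∩ Ms G (Nx G x) c) ∧
  ∀ a' ∈ Ox G x, G.Adj a a' → Ms G (Nx G x) a' = Ms G (Nx G x) a → G.Adj a' b

/-- **I3.** The maximal vertices.  (Uses `S_R0`, `S_I1`, `S_I2`.)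

Proof. Write `M_v = Ms G (Nx G x) v`.  Two maximal vertices `a, c` with `M_a ≠ M_c` are incomparable.
(a) Let `a` be maximal, `K` the component of `a` in `G[{v ∈ Ox | M_v = M_a}]` (`exists_comp`).  `K` is homogeneous: `x` is anticomplete, `s ∈ Nx G x` sees all or nothing of
`K`.  Let `w ∈ Ox \ K` be adjacent to `v ∈ K`.  R0: `M_w ⊆ M_v = M_a` (if `M_a ⊆ M_w` then equality by maximality); equality would give `w ∈ K`.  So
`M_w ⊂ M_a`, and by I2 (2) (with some maximal `c`, `M_c ≠ M_a`, from I1 (4)) every neighbour of `v` in `K` is adjacent to `w`; `K` is connected (apply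
`Conn` to `{v ∈ K | v ~ w}`): `w` is complete to `K`.  So `K = {a}` (`prm`).
So every neighbour `w ∈ Ox` of a maximal vertex `a` has `M_w ⊂ M_a`.
(b) If `a, c` are maximal, `M_a ≠ M_c`, then every neighbour `b ∈ Ox` of `a` is a neighbour of `c` (I2 (1)), and conversely.  If `a, a'` are maximal and
`M_a = M_a'` compare both with some `c`.  So all maximal vertices have the same neighbours `B` in `Ox`; `B` is not empty (I1 (1)).
(c) If `a` is maximal and `M_v = M_a` then `v` is maximal; the set `{v ∈ Ox | M_v = M_a}` is homogeneous: its elements have the same neighbours (`B` and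
`Nx G x \ M_a`; by (a) they are pairwise not adjacent): so `v = a` (`prm`). -/
def S_I3 : Prop := ∀ (V : Type) [Finite V] (G : SimpleGraph V) (x : V), CI G x →
  ∃ B ⊆ Ox G x, B.Nonempty ∧ (∀ a, MxI G x a → ∀ w ∈ Ox G x, (G.Adj a w ↔ w ∈ B)) ∧
    ∀ a, MxI G x a → ∀ v ∈ Ox G x, Ms G (Nx G x) v = Ms G (Nx G x) a → v = a

/-- **I4.** The structure.  (Uses `S_R0`, `S_RP`, `H1.S_M2`, `S_I1`, `S_I2`, `S_I3`.)

Proof. `B` from I3.  Write `M_v`.  Different maximal vertices have different missed sets (I3), which are incomparable.  Fix maximal `a₀ ≠ c₀` (I1 (2), (3), (4)),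
`M₀ = M_(a₀) ∩ M_(c₀)`.
(1) Let `b ∈ B`, `a ≠ c` maximal.  `b ~ a`; `M_b ⊂ M_a` (R0; if `M_a ⊆ M_b` then `M_b = M_a`, `b = a` by I3).  I2 (1): `M_b = M_a ∩ M_c`.  So `M_b = M₀` (use `a₀`, `c₀`),
and `M_a ∩ M_c = M₀` for all maximal `a ≠ c`.
(2) Every `s ∈ Nx G x` is in `M_a` for some maximal `a`: otherwise `s` would be universal (I1 (3), `smp`).
(3) Let `v ∈ Ox` be not maximal; suppose that `M_v ⊆ M₀` is false.  `M_v ⊆ M_a`, `a` maximal (I1), let `c ≠ a` be maximal.  `M_v ⊆ M_c` is false (`M_a ∩ M_c = M₀`), `M_c ⊆ M_v ⊆ M_a`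
too.  `b ∈ B`, `c ~ b`, `M_b = M₀ ⊂ M_c`.  I2 (1) for `c, b, v`: `v ~ b`, `M₀ = M_c ∩ M_v`.  `v ≁ a`: otherwise `v ∈ B` and `M_v = M₀`.  RP for `v, b, a`
(`v ≠ a`): `M_v = M_v ∩ M_a ⊆ M_b = M₀` or `M_v = M_a` (then `v = a`): contradiction.
(4) For `a` maximal `Δ = M_a \ M₀` is not empty (`M_a ⊄ M_c`) and homogeneous: `x` and `Nx G x \ Δ` are complete to it, `a` is anticomplete, a maximal `c ≠ a` is complete
(`M_c ∩ M_a = M₀`), the other `v ∈ Ox` have `M_v ⊆ M₀`: complete.  So `Δ = {k a}` (`prm`).  `k a = k c` implies `a = c` (`M_a ∩ M_c = M₀`).  For `s ∈ Nx G x`: `s ∈ M_a` for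
some maximal `a` (2), so `s ∈ M₀` or `s = k a`.
(5) `B` is a clique: let `b ≠ b'` be in `B`, `a ≠ c` maximal; M2 for `b, a, b', c`: `b ~ b'` or `a ~ c`; `a ~ c` would give `c ∈ B`, `M_c = M₀ ⊆ M_a`. -/
def S_I4 : Prop := ∀ (V : Type) [Finite V] (G : SimpleGraph V) (x : V), CI G x →
  ∃ (B M₀ : Set V) (k : V → V), CI2 G x B M₀ k

/-- **I5.** The rest is independent.  (Uses `S_R0`, `S_RE`.)

Proof. Fix maximal `a₁ ≠ a₂`.  `S' = Nx G a₁` is `B ∪ {k a | a` maximal, `a ≠ a₁}` (`a₁ ≁ x`; in `Ox`: `b3`; in `Nx G x`: everything except `insert (k a₁) M₀`, `m5`, `m3`).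
`S'` is a clique: `B` is a clique, the `k a` are in the clique `Nx G x`, `b ~ k a` because `k a ∉ M₀ = M_b`.
Let `Y = {x} ∪ M₀ ∪ {v ∈ Ox | v` not maximal, `v ∉ B}`.  Every `y ∈ Y` is adjacent to all `k a` (`m4`) and not adjacent to the maximal vertices (`M₀ ⊆ M_a`; `b3`); `y ∉ S'`.
`univ` is the union of `Y`, `B`, the maximal vertices, and the `k a`.  So `Ms G S' y = {b ∈ B | b ≁ y}`; `Ms G S' a₂ = {k a₂}`, `k a₂ ∉ B`.
CLAIM: for `y ~ y'` in `Y` we have `Ms G S' y = Ms G S' y'`.  They are nested (R0 with `S'`).  If `Ms G S' y' ⊂ Ms G S' y` then RE with `S := S'`, `x := a₁`, `a := y`, `b := y'`,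
`c := a₂` says that `{k a₂}` and `Ms G S' y` (not empty, contained in `B`) are comparable: contradiction.  (`a₂ ≁ a₁`: otherwise `a₂ ∈ B`, but
`M_(a₂) ≠ M₀`.)
So for a component `K` of `G[Y]` all elements have the same neighbours in `B`: `K` is homogeneous, `|K| ≤ 1` (`prm`).  So there are no edges in `Y`.
Since `x` is adjacent to `M₀` we have `M₀ = ∅`. -/
def S_I5 : Prop := ∀ (V : Type) [Finite V] (G : SimpleGraph V) (x : V) (B M₀ : Set V) (k : V → V),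
  CI2 G x B M₀ k → M₀ = ∅ ∧ ∀ u ∈ Ox G x, ¬ MxI G x u → u ∉ B → ∀ v ∈ Ox G x, ¬ MxI G x v → v ∉ B →
    ¬ G.Adj u v

/-- **I6.** The rest is small.  (Uses `S_M1`, `S_I5`.)

Proof. By I5 `M₀ = ∅`.  Let `Y' = {v ∈ Ox | v` not maximal, `v ∉ B}` (independent, I5); `v ∈ Y'` sees all of `Nx G x` (`m4`), no maximal vertex.
(1) `v ∈ Y'` is complete or anticomplete to `B`: otherwise `b ~ v`, `b' ≁ v`; `a₁` maximal, `k₁ = k a₁`; M1: `a = a' = k₁`, `b`, `c := b'`; `x`, `y := v`, `z := a₁` (`k₁ ~ b, b'`, `b ~ b'`;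
`x ~ k₁`, `x ≁ b, b'`; `v ~ k₁, b`, `v ≁ b'`; `a₁ ~ b, b'`, `a₁ ≁ k₁`; `x ≁ v, a₁`, `v ≁ a₁`).
(2) `v ∈ Y'` is not anticomplete to `B`: otherwise `{x, v}` is homogeneous (both see exactly `Nx G x`).  (3) If `v, v' ∈ Y'` then `{v, v'}` is homogeneous (both see exactly
`Nx G x ∪ B`), so `v = v'`.  (4) `B` is homogeneous: `Nx G x` and the maximal vertices and `Y'` are complete to it, `x` is anticomplete.  So `B` has
exactly one element. -/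
def S_I6 : Prop := ∀ (V : Type) [Finite V] (G : SimpleGraph V) (x : V) (B M₀ : Set V) (k : V → V),
  CI2 G x B M₀ k → (∃ b, B = {b}) ∧ ∃ w₀, ∀ v ∈ Ox G x, MxI G x v ∨ v ∈ B ∨ v = w₀

/-- **I7.** Case I.  (Uses `S_A1`, `S_I4`, `S_I5`, `S_I6`.)

Proof. `CI2` from I4, `M₀ = ∅`, `B = {b}`, `w₀`.  The maximal vertices are pairwise not adjacent (`b3`, `m1`: a maximal vertex is not in `B`).  `univ` consists of `x`, the `k a`, the
maximal vertices `a`, `b`, `w₀` (possibly not in `Ox`).  So `|T ∩ {k a | a maximal}| ≥ |T| - 4`.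
Suppose `|T| ≥ 2 h + 6`.  Let `T' ⊆ T ∩ {k a}` with `h` elements, `J = {a maximal | k a ∈ T'}`, `X = J ∪ T'`.  `cr G X ≤ 2`: every `k a` is adjacent to all vertices
except `a` and itself (`m2`, `m4` with `M₀ = ∅`), so it sees all of `Xᶜ` (`a ∈ X`); `a ∈ J` sees in `Xᶜ` exactly `b` and the `k c`, `c ∉ J`.  A1 (3), (5).
`|T ∩ X| ≥ h`, `|T \ X| ≥ |T| - 4 - h ≥ h`: contradiction to `Uns`. -/
def S_I7 : Prop := ∀ (V : Type) [Finite V] (G : SimpleGraph V) (x : V) (T : Set V) (h : ℕ), CI G x →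
  CompleteOn G T → Uns G T 5 h → T.ncard < 2 * h + 6

/-! ## Case II -/

/-- **J0.** Components of `O0`.  (Uses `S_A0`.)

Proof. `t ∈ nb G D`: `t ∉ D`, `t ~ d ∈ D`; `t ≠ x`, `t ∉ Nx G x` (`d ∈ O0`), so `t ∈ Ox`; `t ∉ O0` (component), so it sees some `s ∈ Nx G x`.
Clique: let `t ≠ t'` be in `nb G D`, `t ≁ t'`, `s ~ t`, `s' ~ t'`; A0 with `{t}, D, {t'}, {s, s'}` (`s = s'` or `s ~ s'`; `D` misses `s, s'`).
Not empty: `D ≠ univ` (`x ∉ D`), `Conn G univ`. -/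
def S_J0 : Prop := ∀ (V : Type) [Finite V] (G : SimpleGraph V) (x : V) (D : Set V), Chd G →
  Smp G x → Conn G Set.univ → Cp G x D →
  (∀ t ∈ nb G D, t ∈ Ox G x ∧ t ∉ O0 G x ∧ ∃ s ∈ Nx G x, G.Adj t s) ∧ CompleteOn G (nb G D) ∧
    (nb G D).Nonempty

/-- **J1.** The rule (F0).  (Uses `S_M0`, `S_J0`.)

Proof. Suppose `t'` misses `Y`.  M0: `P0 = Nx G x` (a clique, not empty), `P1 = {t}`, `P2 = {t'}`; `X = {x}`, `Y`, `Z = D`.  `t, t'` touch `Nx G x` (J0), `t ~ t'` (J0; `t ≠ t'`);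
`x` touches `Nx G x`, `x ≁ t, t'`; `Y` touches `Nx G x` and `t`, not `t'`; `D` touches `t, t'`, misses `Nx G x`; `x` misses `Y, D ⊆ Ox`; `Y` misses `D`
(`Y` is disjoint from `D ∪ nb G D`). -/
def S_J1 : Prop := ∀ (V : Type) [Finite V] (G : SimpleGraph V) (x : V) (D Y : Set V) (t t' : V),
  Cls3 G → Smp G x → Conn G Set.univ → Cp G x D → Conn G Y → Y ⊆ Ox G x → Disjoint Y (nb G D) →
  Disjoint Y D → (∃ y ∈ Y, ∃ s ∈ Nx G x, G.Adj y s) → t ∈ nb G D → t' ∈ nb G D →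
  (∃ y ∈ Y, G.Adj y t) → ∃ y ∈ Y, G.Adj y t'

/-- **J2.** Laminar.  (Uses `S_M0`, `S_J0`, `S_J1`.)

Proof. Suppose `u ∈ nb G D \ nb G D'`, `u' ∈ nb G D' \ nb G D`.  `D ≠ D'`, so they are disjoint without edges between them.  `u ~ t`, `u' ~ t` (J0).  `u' ~ u`: J1 with `Y = {u'}`
(`u' ∈ Ox`, it touches `Nx G x`, it is not in `nb G D` and not in `D`, since `D ⊆ O0`), `u' ~ t`.  M0: `P0 = insert u (Nx G x)`, `P1 = {t}`, `P2 = {u'}`; `X = {x}`,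
`Y = D`, `Z = D'`: `D` touches `u`, `t`, misses `u'`; `D'` touches `t, u'`, misses `u` and `Nx G x`; `t`, `u'` touch `Nx G x`, `t ~ u'`; `x` misses `t`, `u'`, `D`, `D'`. -/
def S_J2 : Prop := ∀ (V : Type) [Finite V] (G : SimpleGraph V) (x : V) (D D' : Set V) (t : V),
  Cls3 G → Smp G x → Conn G Set.univ → Cp G x D → Cp G x D' → t ∈ nb G D → t ∈ nb G D' →
  nb G D ⊆ nb G D' ∨ nb G D' ⊆ nb G D

/-- **J3.** The outside of `MD`.  (Uses `S_J0`, `S_J1`, `S_J2`.)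

Proof. (1) Let `w ∉ MD`, `m ∈ D' ⊆ MD`, `w ~ m`: `w ∉ D'`, so `w ∈ nb G D' ⊆ nb G D ⊆ MD`: contradiction.
(2) If `w ∈ O0` let `D''` be its component; `nb G D'' ⊆ nb G D` is false (`w ∉ MD`).  If `w ~ t ∈ nb G D` then `t ∈ nb G D''` (`t ∉ O0`), J2: `nb G D ⊆ nb G D''`, so by
maximality `nb G D'' ⊆ nb G D`: contradiction.  So `w` is anticomplete to `nb G D`.  If `w ∉ O0` it touches `Nx G x`: J1 with `Y = {w}`. -/
def S_J3 : Prop := ∀ (V : Type) [Finite V] (G : SimpleGraph V) (x : V) (D : Set V),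
  Cls3 G → Smp G x → Conn G Set.univ → Mxl G x D →
  (∀ w, w ∉ MD G x D → ∀ m ∈ MD G x D, m ∉ nb G D → ¬ G.Adj w m) ∧
  ∀ w ∈ Ox G x, w ∉ MD G x D → (∀ t ∈ nb G D, G.Adj w t) ∨ ∀ t ∈ nb G D, ¬ G.Adj w t

/-- **J4.** Traces on `Nx G x`.  (Uses `S_M0`, `S_R0`, `S_J0`, `S_J3`.)

Proof. Write `A_t = At G (Nx G x) t = Nx G x \ Ms G (Nx G x) t`.
(1) `nb G D` is a clique (J0), R0.
(2) Otherwise (by (1)) all `A_t`, `t ∈ nb G D`, are equal; then `A = MD G x D`, `A₁ = nb G D`, `B₁ = {w ∉ MD | w ~ t₀}` (`t₀ ∈ nb G D`) is a split: for `w ∉ MD`, `m ∈ MD`: if `m ∉ nb G D`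
not adjacent (J3 (1)); `m ∈ nb G D`: `w = x` never; `w ∈ Nx G x`: `w ∈ A_m` iff `w ∈ A_(t₀)`; `w ∈ Ox`: J3 (2).  `D` and `nb G D` are not empty, contained in `MD` and disjoint:
`|MD| ≥ 2`; `x` and an element of `Nx G x` are not in `MD` (`MD ⊆ Ox`).
(3) Let `d ∈ D'`, `d ≁ t'`.  `{t} ∪ D'` is connected; `R` = component of `t` in `G[({t} ∪ D') \ {d}]` (`exists_comp`).  `R ≠ {t} ∪ D'`, so some element outside `R` is adjacent to `R`,
it is `d`.  Let `s ∈ A_t \ A_t'`, `s' ∈ A_t'`.  M0: `P0 = R`, `P1 = {s'}`, `P2 = {s}`; `X = {d}`, `Y = {t'}`, `Z = {x}`: `t ~ s', s`, `s ~ s'`; `d` touches `R`, misses `s', s` (`D' ⊆ O0`);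
`t' ~ t ∈ R`, `t' ~ s'`, `t' ≁ s`; `x ~ s', s`, `x` misses `R ⊆ Ox`; `d ≁ t'`, `x ≁ d, t'`. -/
def S_J4 : Prop := ∀ (V : Type) [Finite V] (G : SimpleGraph V) (x : V), Cls3 G → Smp G x →
  Conn G Set.univ →
  (∀ D, Cp G x D → ∀ t ∈ nb G D, ∀ t' ∈ nb G D,
    At G (Nx G x) t ⊆ At G (Nx G x) t' ∨ At G (Nx G x) t' ⊆ At G (Nx G x) t) ∧
  (SPo G Set.univ → ∀ D, Mxl G x D → ∃ t ∈ nb G D, ∃ t' ∈ nb G D,
    At G (Nx G x) t' ⊂ At G (Nx G x) t) ∧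
  ∀ D', Cp G x D' → ∀ t ∈ nb G D', ∀ t' ∈ Ox G x, t' ∉ D' → G.Adj t' t →
    At G (Nx G x) t' ⊂ At G (Nx G x) t → (At G (Nx G x) t').Nonempty → ∀ d ∈ D', G.Adj t' d

/-- **J5.** The outside and `S1`.  (Uses `S_M1`, `S_A7`, `S_RP`, `S_J0`, `S_J2`, `S_J3`, `S_J4`.)

Proof. `A_t = At G (Nx G x) t`, `M_t = Ms G (Nx G x) t`.  Since the `A_t`, `t ∈ nb G D`, are nested (J4 (1)) there are `t₁`, `t_q ∈ nb G D` with `A_(t₁)` maximal, `A_(t_q)`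
minimal; `A_(t₁) = S1 G x D`, `A_(t_q) ⊂ A_(t₁)` (J4 (2)), `A_(t_q)` is not empty (J0).
(1) `w` complete to `nb G D`.  `w ∉ O0 G x`: otherwise let `D''` be the component of `w` in `G[O0 G x]` and `t ∈ nb G D` (J0); `t ~ w`, `t ∉ O0 G x`, so `t ∈ nb G D''`; by J2 and the maximality of
`nb G D` we get `nb G D'' ⊆ nb G D`, so `w ∈ MD`: contradiction.  Let `s ∈ S1`, `s ~ t ∈ nb G D`; let `d ∈ D`, `d ~ t`.  `w ≁ d` (J3 (1)), `w ≠ d`.  `M_d = Nx G x` (`D ⊆ O0`).  RP for `w, t, d` with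
`S = Nx G x`: `M_w = M_w ∩ M_d ⊆ M_t`, or `M_w = M_d = Nx G x`; the second case is impossible (`w ∉ O0 G x`).  So `s ∉ M_t` gives `s ∉ M_w`.
(2) `w` anticomplete to `nb G D` (J3 (2)).  Let `d ∈ D` be complete to `nb G D` (A7).  For `s ∈ A_(t₁) \ A_(t_q)`, `s' ∈ A_(t_q)`:
`w ~ s` implies `w ~ s'`: otherwise M1: `a = a' = s`, `b := s'`, `c := t₁`; `x := w`, `y := x`, `z := t_q`.  (`s ~ s', t₁`, `s' ~ t₁`; `w ~ s`, `w ≁ s', t₁`; `x ~ s, s'`, `x ≁ t₁`; `t_q ~ s', t₁`,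
`t_q ≁ s`; `w ≁ x, t_q`, `x ≁ t_q`.)
`w ~ s'` implies `w ~ s`: otherwise M1: `a = a' = s'`, `b := t₁`, `c := t_q`; `x := w`, `y := s`, `z := d`.  (`s' ~ t₁, t_q`, `t₁ ~ t_q`; `w ~ s'`, `w ≁ t₁, t_q`; `s ~ s', t₁`, `s ≁ t_q`; `d ~ t₁, t_q`,
`d ≁ s'`; `w ≁ s`, `w ≁ d` (J3 (1)), `s ≁ d`.)
So if `w` sees one element of `S1` then it sees all: if it sees some `s ∈ A_(t₁) \ A_(t_q)` it sees all of `A_(t_q)`, hence (not empty) all of `A_(t₁) \ A_(t_q)`; and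
conversely. -/
def S_J5 : Prop := ∀ (V : Type) [Finite V] (G : SimpleGraph V) (x : V) (D : Set V),
  Cls3 G → SPo G Set.univ → Smp G x → Conn G Set.univ → Mxl G x D →
  (∀ w ∈ Ox G x, w ∉ MD G x D → (∀ t ∈ nb G D, G.Adj w t) → ∀ s ∈ S1 G x D, G.Adj w s) ∧
  ∀ w ∈ Ox G x, w ∉ MD G x D → (∀ s ∈ S1 G x D, G.Adj w s) ∨ ∀ s ∈ S1 G x D, ¬ G.Adj w s

/-- **J6.** Twins in `S1`, and the cut around `MD ∪ S1`.  (Uses `S_A1`, `S_J0`, `S_J3`, `S_J5`.)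

Proof. (1) `{s, s'}` is homogeneous: `x` and `Nx G x` see both; `nb G D`: hypothesis; the other elements of `MD` are in `O0`: nothing; `w ∈ Ox \ MD`: J5 (2).  `prm`.
(2) `cr G X = rk G Xᶜ X ≤ rk G Xᶜ (MD) + rk G Xᶜ S1` (A1).  A vertex `w ∉ X` sees in `MD` all of `nb G D` or nothing (`w = x`: nothing; `w ∈ Nx G x \ S1`: nothing; `w ∈ Ox`: J3), and nothing else
(J3 (1)); in `S1`: `x` and `Nx G x \ S1` everything, `w ∈ Ox \ MD` all or nothing (J5).  So both ranks are at most `1` (A1 (5)). -/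
def S_J6 : Prop := ∀ (V : Type) [Finite V] (G : SimpleGraph V) (x : V) (D : Set V),
  Cls3 G → SPo G Set.univ → Smp G x → Conn G Set.univ → Mxl G x D →
  (Prm G → ∀ s ∈ S1 G x D, ∀ s' ∈ S1 G x D, (∀ t ∈ nb G D, (G.Adj t s ↔ G.Adj t s')) → s = s') ∧
  cr G (MD G x D ∪ S1 G x D) ≤ 2

/-- **J7.** The cuts between the levels.  (Uses `S_A1`, `S_J0`, `S_J3`, `S_J4`, `S_J5`.)

Proof. `A_t = At G (Nx G x) t`, `X = Xt G x D t`.  For `t' ∈ nb G D` either `A_t ⊂ A_t'` or `A_t' ⊆ A_t` (J4 (1)).  Rows on `Xᶜ`: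
`v ∈ nb G D`, `A_t ⊂ A_v`: sees all of `nb G D \ X`; no element of a component `D'' ⊆ MD` outside `X` (if `v ∈ nb G D''` then `D'' ⊆ X`); in `Nx G x \ X`: exactly `A_t`
(`s ~ v` implies `s ∈ S1`, so `s ∉ X` implies `s ~ t`; `A_t ⊆ A_v`); not `x`; of `w ∈ Ox \ MD` exactly those which are complete to `nb G D` (J3).
`v ∈ D' ⊆ X`, `t' ∈ nb G D'` with `A_t ⊂ A_t'`: sees all of `nb G D \ X` (J4 (3): `t'' ∈ nb G D \ X` has `A_t'' ⊆ A_t ⊂ A_t'`, `t'' ~ t'`, `t'' ∉ O0`), nothing else.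
`v ∈ S1`, `v ≁ t`: sees `x`, all of `Nx G x \ X`, nothing of `nb G D \ X` (`A_t'' ⊆ A_t ∌ v`) and of the components, and of `w ∈ Ox \ MD` exactly those complete to `S1` (J5 (2)).
Three rows: A1 (3), (5). -/
def S_J7 : Prop := ∀ (V : Type) [Finite V] (G : SimpleGraph V) (x : V) (D : Set V),
  Cls3 G → SPo G Set.univ → Smp G x → Conn G Set.univ → Mxl G x D → ∀ t ∈ nb G D,
  cr G (Xt G x D t) ≤ 3

/-- **J8.** The levels are rooted pieces.  (Uses `S_A0`, `S_M0`, `S_J0`, `S_J3`, `S_J4`.)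

Proof. `A_t = At G (Nx G x) t`, `Q = Qt G x D t`, `L = {v ∈ nb G D | A_v = A_t}`.  `Nx G x` is a clique and not empty (J0), so it is connected; it is disjoint from `Q ⊆ Ox`.
`Lv G (Nx G x) Q = L` (`A_t` is not empty; the components are in `O0`).
`t_q` is complete to `Q`: `nb G D` is a clique (J0); for `D' ⊆ Q` there is `t' ∈ nb G D'` with `A_t' = A_t ⊃ A_(t_q)`: J4 (3).  `t_q ∉ Q`.
`out`: `v ∉ Q`.  `x`: nothing.  `v ∈ Nx G x`: `L` if `v ∈ A_t`, otherwise nothing.  `v ∈ nb G D`, `A_v ⊂ A_t`: everything (as for `t_q`).  `v ∈ nb G D`, `A_t ⊂ A_v`: `L`, and nothing of the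
components in `Q` (`v ∉ nb G D'` by the definition of `Qt`).  `v ∈ D'' ⊆ MD`, not in `Q`: nothing of the other components; if some `t'' ∈ nb G D''` has `A_t ⊂ A_t''` then `D''` is
complete to `L` (J4 (3)): exactly `L`; otherwise no `t'' ∈ nb G D''` has `A_t'' = A_t` (else `D'' ⊆ Q`): nothing.  `v ∉ MD`, `v ∈ Ox`: complete or anticomplete to `nb G D`, nothing of the
components (J3): exactly `L` or nothing.
`pp`: let `R, w, y, z` be as in `pp`, `P = Nx G x ∪ R`, suppose `w ≁ y`.  `y ≁ z`: otherwise A0 with `P, {y}, {z}, {w}`.  M0: `P0 = P`, `P1 = {t_q}`, `P2 = {w}`; `X = {x}`, `Y = {y}`, `Z = {z}`: `t_q` touches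
`Nx G x`, `w` touches `P`, `t_q ~ w, y, z`; `x` touches `Nx G x`, misses `t_q, w, y, z`; `y` touches `P`, `y ≁ w`; `z ~ w`, `z` misses `P`.
`mf`: `M ⊆ Q`, `M ⊆ L` or disjoint from `L`, homogeneous in `Q`; by `out` it is homogeneous in `univ`; `x ∉ M`: `prm`. -/
def S_J8 : Prop := ∀ (V : Type) [Finite V] (G : SimpleGraph V) (x : V) (D : Set V),
  Cls3 G → Prm G → Smp G x → Conn G Set.univ → Mxl G x D → ∀ t ∈ nb G D, ∀ tq ∈ nb G D,
  At G (Nx G x) tq ⊂ At G (Nx G x) t → RPc G (Nx G x) (Qt G x D t)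

/-- **J9.** The last level.  (Uses `S_J0`, `S_J3`, `S_J4`.)

Proof. `A_t` is the smallest trace.  `Q = Qt G x D t`; `L = {v ∈ nb G D | A_v = A_t}`.  Suppose `|Q| ≥ 2`; then `A = Q`, `A₁ = L`, `B₁ = {v ∉ Q | v ~ t}` is a split: as in J8 every `v ∉ Q` sees exactly `L` or
nothing of `Q` (there is no `v ∈ nb G D` with `A_v ⊂ A_t`; a component `D'' ⊆ MD` outside `Q` has some `t'' ∈ nb G D''` with `A_t ⊂ A_t''`: `nb G D''` is not empty, all traces contain `A_t`, and if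
all were equal to `A_t` then `D'' ⊆ Q`; so `D''` is complete to `L` by J4 (3)).  `x` and an element of `Nx G x` are not in `Q`. -/
def S_J9 : Prop := ∀ (V : Type) [Finite V] (G : SimpleGraph V) (x : V) (D : Set V),
  Cls3 G → SPo G Set.univ → Smp G x → Conn G Set.univ → Mxl G x D → ∀ t ∈ nb G D,
  (∀ t' ∈ nb G D, At G (Nx G x) t ⊆ At G (Nx G x) t') → (Qt G x D t).Subsingleton

/-- **J10.** An unsplittable clique is not in `MD ∪ S1`.  (Uses `S_Q0`, `S_Q9`, `S_J0`, `S_J4`, `S_J6`, `S_J7`, `S_J8`,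
`S_J9`.)

Proof. `A_t = At G (Nx G x) t`; nested for `t ∈ nb G D`.  Suppose `|T \ (MD ∪ S1)| < h`.  Let `t_q ∈ nb G D` with `A_(t_q)` minimal.  `(MD ∪ S1) \ Xt t_q ⊆ Qt t_q ∪ A_(t_q)`: `v ∈ nb G D` outside
`Xt` has `A_v = A_(t_q)`; a component `D' ⊆ MD` outside has only neighbours `t'` with `A_t' = A_(t_q)` (and at least one); `v ∈ S1` outside is in `A_(t_q)`.  `|Qt t_q| ≤ 1` (J9); two elements of
`A_(t_q)` are adjacent to all `t ∈ nb G D`, so `|A_(t_q)| ≤ 1` (J6 (1)).  So `|T ∩ Xt t_q| ≥ |T| - (h - 1) - 2 ≥ h`.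
Let `t ∈ nb G D` with `|T ∩ Xt t| ≥ h` and `A_t` maximal.  `Xt t` is not empty, so there is `t' ∈ nb G D` with `A_t ⊂ A_t'` (if `v ∈ S1`, `v ≁ t`: take `t' ~ v`); let `t⁺` be such an element with
`A_(t⁺)` minimal.  `|T ∩ Xt t⁺| < h`.  `|T \ Xt t| < h` (J7, `Uns`).
`Xt t \ Xt t⁺ ⊆ Qt t⁺ ∪ {v ∈ S1 | v ≁ t, v ~ t⁺}`: `v ∈ nb G D`, `A_t ⊂ A_v`, not `A_(t⁺) ⊂ A_v`: `A_v = A_(t⁺)`; the same for the components.  The last set has at most one element: for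
`t'' ∈ nb G D` either `A_t'' ⊆ A_t` (no element of the set is adjacent to `t''`) or `A_(t⁺) ⊆ A_t''` (all are): J6 (1).
So `|T ∩ Qt t⁺| ≥ |T| - 2 (h - 1) - 1 ≥ h`, `Qt t⁺` is a rooted piece (J8 with `t_q := t`), `cr ≤ 2` (Q0), so `|T \ Qt t⁺| < h`: contradiction to Q9. -/
def S_J10 : Prop := ∀ (V : Type) [Finite V] (G : SimpleGraph V) (x : V) (D T : Set V) (h : ℕ),
  Cls3 G → SPo G Set.univ → Prm G → Smp G x → Conn G Set.univ → Mxl G x D → CompleteOn G T →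
  Uns G T 5 h → 1 ≤ h → 4 * h + 8 ≤ T.ncard → h ≤ (T \ (MD G x D ∪ S1 G x D)).ncard

/-- **J11.** The component of `D` outside `MD`.  (Uses `S_M0`, `S_A7`, `S_J0`, `S_J3`, `S_J4`, `S_J5`.)

Proof. (1) `nb G D ⊆ Ox` is adjacent to `D ⊆ Γ`, so `nb G D ⊆ Γ`; for `D' ⊆ MD` `nb G D' ⊆ nb G D` is not empty (J0), `D' ⊆ O0 ⊆ Ox` is connected: `D' ⊆ Γ`.
(2) `A_t = At G (Nx G x) t`.  By J5 (2) every `c ∈ Γ \ MD` sees all or nothing of `S1`.  Let `U = {c ∈ Γ \ MD | c` misses `S1}`, suppose that `U` is not empty.  `Γ' = (Γ \ MD) \ U`.  Call `v ∈ Γ \ MD` an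
`α`-vertex if it is complete to `nb G D`; `α`-vertices are in `Γ'` (J5 (1)).  Let `Z₀` be the union of `MD` and the components of `G[Γ']` which contain an `α`-vertex; `Z₀ ⊆ Γ`, `Z₀ ≠ Γ`.
`Conn G Γ`: there are `p ∈ Z₀`, `u ∈ Γ \ Z₀`, `p ~ u`.  If `p ∈ MD` then `u` is adjacent to `MD`, so to `nb G D` (J3 (1)), so it is an `α`-vertex (J3 (2)): `u ∈ Z₀`, contradiction.  So `p ∈ R`, a component
of `G[Γ']` with an `α`-vertex `c₁`; `u ∉ Γ'` (component), so `u ∈ U`; `u` is anticomplete to `nb G D` (not `α`: `α`-vertices see `S1`; `S1` is not empty).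
By J4 (2) there are `a, b ∈ nb G D` with `A_b ⊂ A_a`; `s ∈ A_a \ A_b ⊆ S1`; `d ∈ D` complete to `nb G D` (A7).  M0: `P0 = R`, `P1 = {a}`, `P2 = {b}`; `X = {u}`, `Y = {s}`, `Z = {d}`: `c₁ ~ a, b`, `a ~ b`; `u` touches
`R`, misses `a, b`; `s` touches `R` (all of `R` sees `S1`), `s ~ a`, `s ≁ b`; `d ~ a, b`, `d` misses `R` (J3 (1)); `u ≁ s`, `u ≁ d` (J3 (1)), `s ≁ d`. -/
def S_J11 : Prop := ∀ (V : Type) [Finite V] (G : SimpleGraph V) (x : V) (D Γ : Set V),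
  Cls3 G → SPo G Set.univ → Smp G x → Conn G Set.univ → Mxl G x D → IsComp G (Ox G x) Γ → D ⊆ Γ →
  MD G x D ⊆ Γ ∧ ∀ c ∈ Γ, c ∉ MD G x D → ∀ s ∈ S1 G x D, G.Adj c s

/-- **J12.** The other side.  (Uses `S_J0`, `S_J2`.)

Proof. `Nx G z ⊆ D ∪ nb G D ⊆ Ox G x`.  `x ∈ O0 G z` (`x ≁ z`, `x` misses `Ox G x`).  `Dx` = the component of `x` in `G[O0 G z]` (`exists_comp`).  Among the components `D'` of `G[O0 G z]` with
`nb G Dx ⊆ nb G D'` let `D*` be one with `|nb G D'|` maximal: `Mxl G z D*`; `Dx ⊆ MD G z D*`.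
(1) `s ∈ Nx G x`: `s ∉ insert z (Nx G z)`, so `s ∈ Ox G z`.  If `s ∈ O0 G z` then `s ∈ Dx` (`s ~ x`).  Otherwise `s ∈ nb G Dx ⊆ nb G D*`.
(2) Let `Γ'` be a component of `G[Ox G x]` which does not contain `D`.  `D` and `nb G D` are in one component `Γ` of `G[Ox G x]` (`D` is connected), `Γ' ≠ Γ`, so `Γ'` is disjoint from `D ∪ nb G D` and there are no
edges between them.  So `Γ' ⊆ O0 G z`; `Γ'` is connected, let `D''` be the component of `G[O0 G z]` with `Γ' ⊆ D''`.  `Conn G univ`: `Γ'` has a neighbour outside, it is some `s ∈ Nx G x`.  If `s ∈ O0 G z` then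
`s ∈ D''` and `s ~ x`, so `D'' = Dx ⊆ MD`.  Otherwise `s ∈ nb G D''` and `s ∈ nb G Dx ⊆ nb G D*` (by (1)); J2 for `z`: `nb G D'' ⊆ nb G D*`, or `nb G D* ⊆ nb G D''`, then `nb G D'' ⊆ nb G D*` by maximality.
So `Γ' ⊆ D'' ⊆ MD G z D*`. -/
def S_J12 : Prop := ∀ (V : Type) [Finite V] (G : SimpleGraph V) (x z : V) (D : Set V),
  Cls3 G → Smp G x → Conn G Set.univ → Mxl G x D → z ∈ D → Smp G z →
  ∃ D', Mxl G z D' ∧ insert x (Nx G x) ⊆ MD G z D' ∧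
    ∀ Γ, IsComp G (Ox G x) Γ → ¬ D ⊆ Γ → Γ ⊆ MD G z D'

/-- **J13.** Two pieces cover everything.  (Uses `S_Sm`, `S_J0`, `S_J3`, `S_J11`, `S_J12`.)

Proof. `nb G D` is a clique (J0), so there is a simplicial `z ∈ D` (Sm); `D'` from J12.  `Z = {v | v ∉ MD G x D, v ∉ MD G z D'}`.  Let `c ∈ Z`.  `c ∉ insert x (Nx G x)`, so `c ∈ Ox G x`; its component in `G[Ox G x]`
contains `D` (J12), call it `Γ`.  J11: `c` is complete to `S1 G x D`, which is not empty (J0).  `c ∈ Ox G z`: `insert z (Nx G z) ⊆ D ∪ nb G D ⊆ MD G x D`.  Let `Γ*` be the component of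
`G[Ox G z]` which contains `D'`; `s ∈ S1 G x D ⊆ Nx G x ⊆ MD G z D' ⊆ Γ*` (J11 (1) for `z`), `c ~ s`: `c ∈ Γ*`.  J11 for `z`: `c` is complete to `S1 G z D'`, not empty; let `m` be in it, `m ∈ Nx G z ⊆ D ∪ nb G D`;
`m ∉ D` by J3 (1), so `c` touches `nb G D` and is complete to it (J3 (2)), and anticomplete to the rest of `MD G x D` (J3 (1)).  In the same way (`c ~ s ∈ MD G z D'`) `c` is complete to `nb G D'` and
anticomplete to the rest of `MD G z D'`.  So `Z` is homogeneous, `Z ≠ univ`: `prm`. -/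
def S_J13 : Prop := ∀ (V : Type) [Finite V] (G : SimpleGraph V) (x : V) (D : Set V),
  Cls3 G → SPo G Set.univ → Prm G → Smp G x → Conn G Set.univ → Mxl G x D →
  ∃ (z : V) (D' : Set V), Smp G z ∧ Mxl G z D' ∧
    {v | v ∉ MD G x D ∧ v ∉ MD G z D'}.Subsingleton

/-! ## assembly -/

/-- **NU.** Graphs without splits and without universal vertex.  (Uses `S_Pr`, `S_Sm`, `S_I7`, `S_J6`, `S_J10`,
`S_J13`.)

Proof. Suppose `|T| ≥ 4 h + 8`.  `|V| ≥ 4`: `Prm`, `Conn` by Pr.  Sm with `D = univ` gives a simplicial vertex; let `x` be one with `|Nx G x|` minimal.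
If every `v ∈ Ox G x` sees an element of `Nx G x`: `CI G x`, I7: contradiction.  Otherwise `O0 G x` is not empty; let `D` be a component of `G[O0 G x]` with `|nb G D|` maximal: `Mxl G x D`.
`z, D'` from J13.  `|T| ≤ |T ∩ MD G x D| + |T ∩ MD G z D'| + 1`, so one of them is at least `h`, say the first (the second case is the same).  `|T ∩ (MD ∪ S1)| ≥ h`, `cr (MD ∪ S1) ≤ 2` (J6), so
`|T \ (MD ∪ S1)| < h` by `Uns`: contradiction to J10. -/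
def S_NU : Prop := ∀ (V : Type) [Finite V] (G : SimpleGraph V) (T : Set V) (h : ℕ), Cls3 G →
  SPo G Set.univ → NoU G → CompleteOn G T → Uns G T 5 h → 1 ≤ h → T.ncard < 4 * h + 8

/-- **Uni.** A universal vertex of a piece.  (Uses `S_A0`, `S_M0`.)

Proof. `Y = φ ⁻¹' (C \ {u})`.  If all elements of `Y` are in `Φ` then `Y` is homogeneous (`v ∉ Y`: `φ v = u`; `v ∈ Φ`: complete to `Y`; `v ∉ Φ`: anticomplete), `u ∉ Y`, `|Y| ≥ 2`: contradiction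
to `Prm`.  So there is `y ∈ Y`, `y ∉ Φ`; `c = φ y ≠ u`.  Let `K` be the component of `y` in `G[{w | φ w = c, w ∉ Φ}]` (`exists_comp`); `c ∉ K` (`c ∈ Φ`), so by `Conn G univ` there are `d ∈ K`, `f ∉ K`,
`d ~ f`; `φ f = c` (otherwise `d ∈ Φ` by `adj`), `f ∈ Φ` (otherwise `f ∈ K`).
For `w ∈ C`, `w ≠ c`: `d ≁ w` (`d ∉ Φ`), and `f ~ w` iff `c ~ w`.
Claim: `RPc (G.induce C) {c} Q`, `Q = C \ {c, u}` (everything in the subtype `C`).  `conn`, `dis` clear.  `out`: `c` sees exactly `Lv`; `u` sees everything.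
`pp`: let `R, w, y, z` be as in `pp`, suppose `w ≁ y`.  Let `P = {c} ∪ R`.  `y ≁ z`: otherwise A0 with `P, {y}, {z}, {w}` (`z` misses `P`).  In `G`: M0: `P0 = {f} ∪ R`, `P1 = {u}`, `P2 = {w}`; `X = {d}`, `Y = {y}`, `Z = {z}`: `{f} ∪ R`
is connected (as `{c} ∪ R`: the map `c ↦ f` preserves adjacency to the elements of `C \ {c}`); `u ~ f` (`u ~ c`), `w` touches `P0`, `u ~ w, y, z`; `d ~ f`, `d` misses `u, w, y, z` and `R`; `y` touches `P0`, `y ≁ w`;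
`z ~ w`, `z` misses `P0`.  (`f ∉ R`: `f` is `c` or not in `C`; `d ∉ C`.)
`mf`: `M ⊆ Q` with at least two elements, `M ⊆ Lv` or disjoint from it, homogeneous in `Q`: then it is homogeneous in `C` and `A = M`, `A₁ = M`, `B₁ = {v ∈ C \ M | v` complete to `M}` is a split of `G[C]`
(`c, u ∈ C \ M`). -/
def S_Uni : Prop := ∀ (V : Type) [Finite V] (G : SimpleGraph V) (C Φ : Set V) (φ : V → V) (u : V),
  Cls3 G → Prm G → Conn G Set.univ → Ret G C φ Φ → SPo G C → u ∈ C →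
  (∀ c ∈ C, c ≠ u → G.Adj u c) → 3 ≤ C.ncard →
  ∃ c : C, c.1 ≠ u ∧ RPc (G.induce C) {c} {v | v ≠ c ∧ v.1 ≠ u}

/-- **Gam.** Graphs without homogeneous sets.  (Uses `S_Pr`, `S_Pc`, `S_In`, `S_Tp`, `S_NU`, `S_Uni`, `S_Q9`.)

Proof. `N = (4 h + 8) * h`.  Suppose `|T| ≥ N`.  `|V| ≥ 3`: `Conn G univ` (Pr (3)).  `Uns G T 1 h` (`cr ≤ 1 ≤ 5`).  Pc: `C, Φ, φ`.  Tp with `c = 5`: `T'`, `|T'| * h ≥ |T|`, so `|T'| ≥ 4 h + 8`, `|C| ≥ 3`.
`G' = G.induce C`: `Cls3`, `SPo G' univ` (In).  If `NoU G'`: NU: contradiction.  Otherwise some `u ∈ C` is adjacent to all other elements of `C`: Uni gives a rooted piece `Q` of `G'` whose complement has two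
elements, Q9 for `T'`: `h ≤ |T' \ Q| ≤ 2`: contradiction to `h ≥ 3`. -/
def S_Gam : Prop := ∀ (V : Type) [Finite V] (G : SimpleGraph V) (T : Set V) (h : ℕ), 3 ≤ h →
  Cls3 G → Prm G → CompleteOn G T → Uns G T 5 h → T.ncard < (4 * h + 8) * h

/-- **Top.** All graphs of the class.  (Uses `S_Pc`, `S_In`, `S_Tp`, `S_NU`, `S_Gam`.)

Proof. `N = ((4 h + 8) * h + 1) * h`.  Suppose `|T| ≥ N`.  Pc, Tp with `c = 6` (`Uns G T 6 h` implies `Uns G T 1 h`): `C`, `T'`, `|T'| ≥ (4 h + 8) * h + 1`.  `G₁ = G.induce C`, `Cls3`, `SPo G₁ univ`, `Uns G₁ T' 6 h` implies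
`Uns G₁ T' 5 h`.  If `NoU G₁`: NU: contradiction.  Otherwise let `u` be a universal vertex of `G₁`, `G₂ = G₁.induce {u}ᶜ`, `T₂ = {v | v.1 ∈ T'}`: a clique, `|T₂| ≥ |T'| - 1 ≥ (4 h + 8) * h`.
`Uns G₂ T₂ 5 h`: for `X : Set {u}ᶜ` with `cr G₂ X ≤ 5` the image `X'` in `G₁` has `cr G₁ X' ≤ 6` (In (2), (4)); `|T₂ ∩ X| = |T' ∩ X'|`, `|T₂ \ X| ≤ |T' \ X'|`.
`Prm G₂`: let `M ≠ univ` be homogeneous in `G₂` with at least two elements; its image `A` in `G₁`: `A₁ = A`, `B₁ = {v ∉ A | v` complete to `A}` (it contains `u`) is a split of `G₁` (`u` and an element of `univ \ M` are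
outside).  `Cls3 G₂` (In (1)).  Gam: contradiction. -/
def S_Top : Prop := ∀ (V : Type) [Finite V] (G : SimpleGraph V) (T : Set V) (h : ℕ), 3 ≤ h →
  Cls3 G → CompleteOn G T → Uns G T 6 h → T.ncard < ((4 * h + 8) * h + 1) * h

/-- **Fin.** The theorem.  (Uses `S_A12`, `S_Top`, `S_LayCW`.)

Proof. `c = 6`, `h = 13`, `n = ((4 h + 8) * h + 1) * h`; `k` from A12 for `c`, `n`.  A clique `S` with `n` elements is not unsplittable (Top), so there is `X` with `cr G X ≤ 6`, `|S ∩ X| ≥ 13`, `|S \ X| ≥ 13`.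
For the second part see `H1/Fin1.lean`. -/
def S_Fin : Prop := (∃ k : ℕ, ∀ (V : Type) [Finite V] (G : SimpleGraph V), Cls3 G →
    Lay G k Set.univ) ∧ BoundedCW cyc4 (KA 3 3 ![{0}, {0, 1}, {1, 2}])

end Pool.Agent.MPd439b2.H3
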